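import Mathlib
import Pool.Agent.LibPNT.PNT

/-!
Counting the integers up to `c z^{2B}` without prime factor at most `z`, `B` slightly larger
than `1`.
-/

set_option autoImplicit false

namespace Pool.Agent.LibMaier

open Filter Topology Asymptotics Finset

/-- upper bound for the prime counting function. -/
lemma primeCounting_le {η : ℝ} (hη : 0 < η) :
    ∀ᶠ x : ℝ in atTop, (Nat.primeCounting ⌊x⌋₊ : ℝ) ≤ (1 + η) * x / Real.log x := by
  have h := Pool.Agent.LibPNT.primeCounting_tendsto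
  have h1 := h.eventually (eventually_lt_nhds (show (1 : ℝ) < 1 + η by linarith))
  filter_upwards [h1, eventually_gt_atTop 1] with x hx hx1
  have hl : 0 < Real.log x := Real.log_pos hx1
  have hx0 : 0 < x := by linarith
  rw [div_lt_iff₀ hx0] at hx
  rw [le_div_iff₀ hl]
  exact hx.le

/-- the set of integers up to `Y` without prime factor at most `z`. -/
noncomputable def rough (z : ℕ) (N : ℕ) : Finset ℕ :=
  (Finset.Icc 1 N).filter (fun a => ∀ p ≤ z, p.Prime → ¬ p ∣ a)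

/-- primes up to `N`. -/
def prs (N : ℕ) : Finset ℕ := (Finset.range (N + 1)).filter Nat.Prime

lemma card_prs (N : ℕ) : (prs N).card = Nat.primeCounting N := by
  rw [prs, Nat.primeCounting, Nat.primeCounting', Nat.count_eq_card_filter_range]

lemma mem_prs {N p : ℕ} : p ∈ prs N ↔ p ≤ N ∧ p.Prime := by
  rw [prs, Finset.mem_filter, Finset.mem_range]
  constructor
  · rintro ⟨h1, h2⟩; exact ⟨by omega, h2⟩
  · rintro ⟨h1, h2⟩; exact ⟨by omega, h2⟩

lemma rough_cases {z : ℕ} {N : ℕ} (hN : N < z ^ 3) {a : ℕ} (ha : a ∈ rough z N) :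
    a = 1 ∨ (a ∈ prs N) ∨ ∃ p q : ℕ, p.Prime ∧ q.Prime ∧ z < p ∧ p ≤ q ∧ a = p * q := by
  rw [rough, Finset.mem_filter, Finset.mem_Icc] at ha
  obtain ⟨⟨ha1, haN⟩, hp⟩ := ha
  by_cases h1 : a = 1
  · exact Or.inl h1
  right
  have hpr := Nat.minFac_prime h1
  have hdv := Nat.minFac_dvd a
  have hzp : z < a.minFac := by
    by_contra hc
    exact hp _ (by omega) hpr hdv
  obtain ⟨b, hb⟩ := hdv
  by_cases hb1 : b = 1
  · left
    rw [mem_prs]
    refine ⟨haN, ?_⟩
    rw [hb1, mul_one] at hb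
    rw [hb]
    exact hpr
  right
  have hbd : b ∣ a := ⟨a.minFac, by rw [mul_comm]; exact hb⟩
  have hqr := Nat.minFac_prime hb1
  have hqb := Nat.minFac_dvd b
  have hqa := hqb.trans hbd
  have hzq : z < b.minFac := by
    by_contra hc
    exact hp _ (by omega) hqr hqa
  obtain ⟨c, hc⟩ := hqb
  by_cases hc1 : c = 1
  · refine ⟨a.minFac, b.minFac, hpr, hqr, hzp, ?_, ?_⟩
    · exact Nat.minFac_le_of_dvd hqr.two_le hqa
    · rw [hc1, mul_one] at hc
      rw [← hc]
      exact hb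
  · exfalso
    have hcb : c ∣ b := ⟨b.minFac, by rw [mul_comm]; exact hc⟩
    have hcr := Nat.minFac_prime hc1
    have hzc : z < c.minFac := by
      by_contra h
      exact hp _ (by omega) hcr (((Nat.minFac_dvd c).trans hcb).trans hbd)
    have hc0 : 0 < c := by
      rcases Nat.eq_zero_or_pos c with h | h
      · rw [h, mul_zero] at hc
        rw [hc, mul_zero] at hb
        omega
      · exact h
    have hzc' : z < c := lt_of_lt_of_le hzc (Nat.minFac_le hc0)
    have h2 : z * z ≤ b := by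
      rw [hc]
      exact Nat.mul_le_mul hzq.le hzc'.le
    have h3 : z * (z * z) ≤ a := by
      rw [hb]
      exact Nat.mul_le_mul hzp.le h2
    have : z ^ 3 = z * (z * z) := by ring
    omega

lemma rough_card_le {z : ℕ} (hz : 1 ≤ z) {Y : ℝ} (hY : Y < (z : ℝ) ^ 3) (hY0 : 0 ≤ Y)
    {J : ℕ} (hJ : ∀ j : ℕ, (2 : ℝ) ^ j * z ≤ Real.sqrt Y → j < J) :
    ((rough z ⌊Y⌋₊).card : ℝ) ≤ 1 + (Nat.primeCounting ⌊Y⌋₊ : ℝ) +
      ∑ j ∈ Finset.range J, (Nat.primeCounting ⌊(2 : ℝ) ^ (j + 1) * z⌋₊ : ℝ) *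
        (Nat.primeCounting ⌊Y / ((2 : ℝ) ^ j * z)⌋₊ : ℝ) := by
  classical
  have hz0 : (0 : ℝ) < z := by exact_mod_cast hz
  have hN : ⌊Y⌋₊ < z ^ 3 := by
    rw [Nat.floor_lt hY0]
    push_cast
    exact hY
  have hsub : rough z ⌊Y⌋₊ ⊆ ({1} ∪ prs ⌊Y⌋₊) ∪ (Finset.range J).biUnion (fun j =>
      Finset.image₂ (· * ·) (prs ⌊(2 : ℝ) ^ (j + 1) * z⌋₊) (prs ⌊Y / ((2 : ℝ) ^ j * z)⌋₊)) := by
    intro a ha
    have haY : (a : ℝ) ≤ Y := by
      rw [rough, Finset.mem_filter, Finset.mem_Icc] at ha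
      exact (Nat.le_floor_iff hY0).1 ha.1.2
    rcases rough_cases hN ha with h | h | ⟨p, q, hp, hq, hzp, hpq, rfl⟩
    · simp [h]
    · simp [h]
    · rw [Finset.mem_union]
      right
      rw [Finset.mem_biUnion]
      have hp0 : (0 : ℝ) < p := by exact_mod_cast hp.pos
      obtain ⟨j, hj1, hj2⟩ := exists_nat_pow_near (x := (p : ℝ) / z) (y := (2 : ℝ))
        (by rw [one_le_div hz0]; exact_mod_cast hzp.le) (by norm_num)
      rw [le_div_iff₀ hz0] at hj1
      rw [div_lt_iff₀ hz0] at hj2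
      push_cast at haY
      have hpY : (p : ℝ) ≤ Real.sqrt Y := by
        apply Real.le_sqrt_of_sq_le
        have : (p : ℝ) ≤ q := by exact_mod_cast hpq
        nlinarith
      refine ⟨j, Finset.mem_range.2 (hJ j (hj1.trans hpY)), ?_⟩
      rw [Finset.mem_image₂]
      refine ⟨p, ?_, q, ?_, rfl⟩
      · rw [mem_prs]
        exact ⟨Nat.le_floor hj2.le, hp⟩
      · rw [mem_prs]
        refine ⟨Nat.le_floor ?_, hq⟩
        rw [le_div_iff₀ (by positivity)]
        calc (q : ℝ) * ((2 : ℝ) ^ j * z) ≤ q * p := by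
              exact mul_le_mul_of_nonneg_left hj1 (by positivity)
          _ = p * q := by ring
          _ ≤ Y := haY
  have h1 := Finset.card_le_card hsub
  have h2 : ((({1} ∪ prs ⌊Y⌋₊) ∪ (Finset.range J).biUnion (fun j =>
      Finset.image₂ (· * ·) (prs ⌊(2 : ℝ) ^ (j + 1) * z⌋₊)
        (prs ⌊Y / ((2 : ℝ) ^ j * z)⌋₊)) : Finset ℕ)).card ≤
      (1 + Nat.primeCounting ⌊Y⌋₊) + ∑ j ∈ Finset.range J,
        Nat.primeCounting ⌊(2 : ℝ) ^ (j + 1) * z⌋₊ *
          Nat.primeCounting ⌊Y / ((2 : ℝ) ^ j * z)⌋₊ := by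
    refine (Finset.card_union_le _ _).trans (Nat.add_le_add ?_ ?_)
    · refine (Finset.card_union_le _ _).trans ?_
      rw [card_prs, Finset.card_singleton]
    · refine Finset.card_biUnion_le.trans (Finset.sum_le_sum fun j _ => ?_)
      refine Finset.card_image₂_le _ _ _ |>.trans ?_
      rw [card_prs, card_prs]
  have h3 := h1.trans h2
  exact_mod_cast h3

theorem rough_count {ε : ℝ} (hε : 0 < ε) : ∃ B₀ : ℝ, 1 < B₀ ∧ ∀ B : ℝ, 1 < B → B < B₀ →
    ∀ c : ℝ, 0 < c → ∀ᶠ z : ℕ in atTop, ∀ y : ℝ, y ≤ c * (z : ℝ) ^ (2 * B) →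
      (((Finset.Icc 1 ⌊y⌋₊).filter (fun a => ∀ p ≤ z, p.Prime → ¬ p ∣ a)).card : ℝ) ≤
        (1 + ε) * (c * (z : ℝ) ^ (2 * B)) / (2 * Real.log z) := by
  refine ⟨1 + min (1/2) (ε/128), by have : 0 < min (1/2) (ε/128) := by positivity
                                    linarith, ?_⟩
  intro B hB1 hB2 c hc
  have hBa : B < 3/2 := by have := min_le_left (1/2 : ℝ) (ε/128); linarith
  have hBb : B - 1 < ε/128 := by have := min_le_right (1/2 : ℝ) (ε/128); linarith
  obtain ⟨x1, hx1⟩ := eventually_atTop.1 (primeCounting_le (η := ε/4) (by positivity))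
  obtain ⟨x2, hx2⟩ := eventually_atTop.1 (primeCounting_le (η := 1) (by positivity))
  have hcast : Tendsto (fun z : ℕ => (z : ℝ)) atTop atTop := tendsto_natCast_atTop_atTop
  have hlog : Tendsto (fun z : ℕ => Real.log (z : ℝ)) atTop atTop :=
    Real.tendsto_log_atTop.comp hcast
  have e1 : ∀ᶠ z : ℕ in atTop, c < (z : ℝ) ^ (3 - 2 * B) :=
    ((tendsto_rpow_atTop (by linarith : 0 < 3 - 2 * B)).comp hcast).eventually_gt_atTop c
  have e2 : ∀ᶠ z : ℕ in atTop, -Real.log c ≤ (2 * B - 2) * Real.log z :=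
    (hlog.const_mul_atTop (by linarith : 0 < 2 * B - 2)).eventually_ge_atTop _
  have e3 : ∀ᶠ z : ℕ in atTop, 64 * (|Real.log c| + 1) ≤ ε * Real.log z :=
    (hlog.const_mul_atTop hε).eventually_ge_atTop _
  have e4 : ∀ᶠ z : ℕ in atTop, 1 ≤ (ε/8 * c) * (z : ℝ) :=
    (hcast.const_mul_atTop (by positivity : 0 < ε/8 * c)).eventually_ge_atTop _
  have e5 : ∀ᶠ z : ℕ in atTop, max x1 x2 ≤ (z : ℝ) := hcast.eventually_ge_atTop _
  filter_upwards [e1, e2, e3, e4, e5, eventually_ge_atTop 3] with z h1 h2 h3 h4 h5 h6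
  intro y hy
  have hz3 : (3 : ℝ) ≤ z := by exact_mod_cast h6
  have hz0 : (0 : ℝ) < z := by linarith
  have hl1 : 1 ≤ Real.log z := by
    rw [Real.le_log_iff_exp_le hz0]
    have := Real.exp_one_lt_d9
    linarith
  have hl0 : 0 < Real.log z := by linarith
  set Y := c * (z : ℝ) ^ (2 * B) with hY
  have hY0 : 0 < Y := by positivity
  have hlY : Real.log Y = Real.log c + 2 * B * Real.log z := by
    rw [hY, Real.log_mul hc.ne' (by positivity), Real.log_rpow hz0]
  have hlY2 : 2 * Real.log z ≤ Real.log Y := by rw [hlY]; linarith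
  have hYz : (z : ℝ) ^ 2 ≤ Y := by
    rw [← Real.log_le_log_iff (by positivity) hY0, Real.log_pow]
    push_cast
    exact hlY2
  have hY3 : Y < (z : ℝ) ^ 3 := by
    have : (z : ℝ) ^ 3 = (z : ℝ) ^ (3 - 2 * B) * (z : ℝ) ^ (2 * B) := by
      rw [← Real.rpow_add hz0, ← Real.rpow_natCast]
      congr 1
      push_cast
      ring
    rw [this, hY]
    exact mul_lt_mul_of_pos_right h1 (by positivity)
  have hsq : (z : ℝ) ≤ Real.sqrt Y := Real.le_sqrt_of_sq_le hYz
  have hsqY : Real.sqrt Y * Real.sqrt Y = Y := Real.mul_self_sqrt hY0.le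
  have hsq0 : 0 < Real.sqrt Y := Real.sqrt_pos.2 hY0
  -- reduction to `Y`
  have hred : (((Finset.Icc 1 ⌊y⌋₊).filter (fun a => ∀ p ≤ z, p.Prime → ¬ p ∣ a)).card : ℝ) ≤
      ((rough z ⌊Y⌋₊).card : ℝ) := by
    have : ((Finset.Icc 1 ⌊y⌋₊).filter (fun a => ∀ p ≤ z, p.Prime → ¬ p ∣ a)) ⊆
        rough z ⌊Y⌋₊ := by
      rw [rough]
      apply Finset.filter_subset_filter
      apply Finset.Icc_subset_Icc le_rfl
      exact Nat.floor_le_floor hy
    exact_mod_cast Finset.card_le_card this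
  refine hred.trans ?_
  -- the number of blocks
  set L := (Real.log (Real.sqrt Y) - Real.log z) / Real.log 2 with hL
  have hlog2 : 0 < Real.log 2 := Real.log_pos (by norm_num)
  have hlog2' : 1/2 < Real.log 2 := by have := Real.log_two_gt_d9; linarith
  have hlsq : Real.log (Real.sqrt Y) = Real.log Y / 2 := Real.log_sqrt hY0.le
  have hnum : 0 ≤ Real.log (Real.sqrt Y) - Real.log z := by rw [hlsq]; linarith
  have hL0 : 0 ≤ L := div_nonneg hnum hlog2.le
  have hLle : L ≤ |Real.log c| + 2 * (B - 1) * Real.log z := by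
    rw [hL, div_le_iff₀ hlog2, hlsq, hlY]
    have a1 : Real.log c ≤ |Real.log c| := le_abs_self _
    have a2 : 0 ≤ |Real.log c| := abs_nonneg _
    have a3 : 0 ≤ (B - 1) * Real.log z := mul_nonneg (by linarith) hl0.le
    nlinarith
  have hJ : ∀ j : ℕ, (2 : ℝ) ^ j * z ≤ Real.sqrt Y → j < ⌊L⌋₊ + 1 := by
    intro j hj
    rw [Nat.lt_add_one_iff]
    apply Nat.le_floor
    rw [hL, le_div_iff₀ hlog2]
    have := Real.log_le_log (by positivity) hj
    rw [Real.log_mul (by positivity) hz0.ne', Real.log_pow] at this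
    linarith
  have hJ' : ∀ j ∈ Finset.range (⌊L⌋₊ + 1), (2 : ℝ) ^ j * z ≤ Real.sqrt Y := by
    intro j hj
    rw [Finset.mem_range, Nat.lt_add_one_iff, Nat.le_floor_iff hL0, hL, le_div_iff₀ hlog2] at hj
    rw [← Real.log_le_log_iff (by positivity) hsq0, Real.log_mul (by positivity) hz0.ne',
      Real.log_pow]
    linarith
  refine (rough_card_le (by omega) hY3 hY0.le hJ).trans ?_
  -- bound of the blocks
  have hblock : ∀ j ∈ Finset.range (⌊L⌋₊ + 1),
      (Nat.primeCounting ⌊(2 : ℝ) ^ (j + 1) * z⌋₊ : ℝ) *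
        (Nat.primeCounting ⌊Y / ((2 : ℝ) ^ j * z)⌋₊ : ℝ) ≤ 8 * Y / Real.log z ^ 2 := by
    intro j hj
    have hjz := hJ' j hj
    have hpz : (0 : ℝ) < (2 : ℝ) ^ j * z := by positivity
    have hp1 : (1 : ℝ) ≤ (2 : ℝ) ^ (j + 1) := one_le_pow₀ (by norm_num)
    have b1 : (z : ℝ) ≤ (2 : ℝ) ^ (j + 1) * z := le_mul_of_one_le_left hz0.le hp1
    have b2 : (z : ℝ) ≤ Y / ((2 : ℝ) ^ j * z) := by
      refine hsq.trans ?_
      rw [le_div_iff₀ hpz]
      calc Real.sqrt Y * ((2 : ℝ) ^ j * z) ≤ Real.sqrt Y * Real.sqrt Y :=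
            mul_le_mul_of_nonneg_left hjz hsq0.le
        _ = Y := hsqY
    have hx2z : x2 ≤ (z : ℝ) := (le_max_right _ _).trans h5
    have c1 : (Nat.primeCounting ⌊(2 : ℝ) ^ (j + 1) * z⌋₊ : ℝ) ≤
        4 * ((2 : ℝ) ^ j * z) / Real.log z := by
      refine (hx2 _ (hx2z.trans b1)).trans ?_
      have : (1 + 1) * ((2 : ℝ) ^ (j + 1) * z) = 4 * ((2 : ℝ) ^ j * z) := by
        rw [pow_succ]; ring
      rw [this]
      exact div_le_div_of_nonneg_left (by positivity) hl0 (Real.log_le_log hz0 b1)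
    have c2 : (Nat.primeCounting ⌊Y / ((2 : ℝ) ^ j * z)⌋₊ : ℝ) ≤
        2 * (Y / ((2 : ℝ) ^ j * z)) / Real.log z := by
      refine (hx2 _ (hx2z.trans b2)).trans ?_
      have : (1 + 1) * (Y / ((2 : ℝ) ^ j * z)) = 2 * (Y / ((2 : ℝ) ^ j * z)) := by ring
      rw [this]
      exact div_le_div_of_nonneg_left (by positivity) hl0 (Real.log_le_log hz0 b2)
    calc _ ≤ (4 * ((2 : ℝ) ^ j * z) / Real.log z) *
          (2 * (Y / ((2 : ℝ) ^ j * z)) / Real.log z) :=
          mul_le_mul c1 c2 (Nat.cast_nonneg _) (by positivity)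
      _ = 8 * Y / Real.log z ^ 2 := by
          field_simp
          ring
  have hsum := Finset.sum_le_sum hblock
  rw [Finset.sum_const, Finset.card_range, nsmul_eq_mul] at hsum
  have hJle : ((⌊L⌋₊ + 1 : ℕ) : ℝ) ≤ |Real.log c| + 1 + 2 * (B - 1) * Real.log z := by
    push_cast
    have := Nat.floor_le hL0
    linarith
  have hpi : (Nat.primeCounting ⌊Y⌋₊ : ℝ) ≤ (1 + ε/4) * Y / (2 * Real.log z) := by
    have hzY : (z : ℝ) ≤ Y := by nlinarith
    refine (hx1 _ (((le_max_left _ _).trans h5).trans hzY)).trans ?_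
    exact div_le_div_of_nonneg_left (by positivity) (by positivity) hlY2
  -- collect
  have d1 : (1 : ℝ) ≤ ε/8 * (Y / Real.log z) := by
    have : c * (z : ℝ) ≤ Y / Real.log z := by
      rw [le_div_iff₀ hl0]
      have g1 : Real.log z ≤ z := by
        have := Real.log_le_sub_one_of_pos hz0
        linarith
      have g2 : (z : ℝ) ^ 2 ≤ (z : ℝ) ^ (2 * B) := by
        rw [← Real.rpow_natCast]
        apply Real.rpow_le_rpow_of_exponent_le (by linarith)
        push_cast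
        linarith
      rw [hY]
      calc c * (z : ℝ) * Real.log z ≤ c * (z : ℝ) * z :=
            mul_le_mul_of_nonneg_left g1 (by positivity)
        _ = c * (z : ℝ) ^ 2 := by ring
        _ ≤ c * (z : ℝ) ^ (2 * B) := mul_le_mul_of_nonneg_left g2 hc.le
    calc (1 : ℝ) ≤ ε/8 * c * z := h4
      _ = ε/8 * (c * z) := by ring
      _ ≤ _ := mul_le_mul_of_nonneg_left this (by positivity)
  have d2 : ((⌊L⌋₊ + 1 : ℕ) : ℝ) * (8 * Y / Real.log z ^ 2) ≤ ε/4 * (Y / Real.log z) := by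
    have g0 : (B - 1) * Real.log z ≤ ε/128 * Real.log z :=
      mul_le_mul_of_nonneg_right hBb.le hl0.le
    have g1 : (|Real.log c| + 1 + 2 * (B - 1) * Real.log z) ≤ ε/32 * Real.log z := by
      linarith
    calc _ ≤ (ε/32 * Real.log z) * (8 * Y / Real.log z ^ 2) :=
          mul_le_mul_of_nonneg_right (hJle.trans g1) (by positivity)
      _ = ε/4 * (Y / Real.log z) := by
          field_simp
          ring
  have d3 : (1 + ε/4) * Y / (2 * Real.log z) = (1/2 + ε/8) * (Y / Real.log z) := by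
    field_simp
    ring
  have d4 : (1 + ε) * Y / (2 * Real.log z) = (1/2 + ε/2) * (Y / Real.log z) := by
    field_simp
  rw [d4]
  rw [d3] at hpi
  linarith

end Pool.Agent.LibMaier
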