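import Mathlib
import Pool.Agent.LibMaier.Rough
import Pool.Agent.LibMaier.Mertens2

/-!
Upper bound for the number of integers up to `z ^ u` without prime factor at most `z`, in terms of
a function `w` satisfying Buchstab's equation.
-/

set_option autoImplicit false

namespace Pool.Agent.LibMaier

open Filter Topology Finset MeasureTheory

/-- A weighted sum against a density, by cutting the interval into `N` cells. -/
lemma sum_le_integral_aux {P : Finset ℕ} {wt s : ℕ → ℝ} {g φ : ℝ → ℝ} {A δ K η : ℝ} {N : ℕ}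
    (hδ : 0 ≤ δ) (hK : 0 ≤ K)
    (hwt : ∀ p ∈ P, 0 ≤ wt p) (hs : ∀ p ∈ P, A < s p)
    (hg0 : ∀ x ∈ Set.Icc A (A + N * δ), 0 ≤ g x)
    (hg1 : ∀ x ∈ Set.Icc A (A + N * δ), g x ≤ 1)
    (hgL : ∀ x ∈ Set.Icc A (A + N * δ), ∀ y ∈ Set.Icc A (A + N * δ), |g x - g y| ≤ K * |x - y|)
    (hφ0 : ∀ x ∈ Set.Icc A (A + N * δ), 0 ≤ φ x)
    (hφc : ContinuousOn φ (Set.Icc A (A + N * δ)))
    (hη : 0 ≤ η)
    (hcell : ∀ a b, A ≤ a → a ≤ b → b ≤ A + N * δ →
      ∑ p ∈ P with a < s p ∧ s p ≤ b, wt p ≤ (∫ x in a..b, φ x) + η) :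
    ∀ k : ℕ, k ≤ N → ∑ p ∈ P with s p ≤ A + k * δ, wt p * g (s p) ≤
      (∫ x in A..(A + k * δ), (g x + 2 * (K * δ)) * φ x) + k * ((1 + K * δ) * η) := by
  have hgc : ContinuousOn g (Set.Icc A (A + N * δ)) := by
    have : LipschitzOnWith (Real.toNNReal K) g (Set.Icc A (A + N * δ)) := by
      apply LipschitzOnWith.of_dist_le_mul
      intro x hx y hy
      rw [Real.dist_eq, Real.dist_eq, Real.coe_toNNReal _ hK]
      exact hgL x hx y hy
    exact this.continuousOn
  intro k
  induction k with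
  | zero =>
    intro _
    have : (P.filter fun p => s p ≤ A + ((0 : ℕ) : ℝ) * δ) = ∅ := by
      apply Finset.filter_eq_empty_iff.2
      intro p hp h
      have := hs p hp
      simp at h
      linarith
    rw [this]
    simp
  | succ k ih =>
    intro hk
    have ih' := ih (by omega)
    have hkN : ((k : ℝ) + 1) ≤ N := by exact_mod_cast hk
    set a := A + k * δ with ha
    set b := A + ((k + 1 : ℕ) : ℝ) * δ with hb
    have hab : b = a + δ := by rw [hb, ha]; push_cast; ring
    have hAa : A ≤ a := by rw [ha]; have : 0 ≤ (k : ℝ) * δ := by positivity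
                           linarith
    have hbN : b ≤ A + N * δ := by
      rw [hb]; push_cast
      have := mul_le_mul_of_nonneg_right hkN hδ
      linarith
    have hable : a ≤ b := by rw [hab]; linarith
    have hsub : Set.uIcc a b ⊆ Set.Icc A (A + N * δ) := by
      rw [Set.uIcc_of_le hable]
      exact Set.Icc_subset_Icc hAa hbN
    have hsub' : Set.uIcc A a ⊆ Set.Icc A (A + N * δ) := by
      rw [Set.uIcc_of_le hAa]
      exact Set.Icc_subset_Icc le_rfl (hable.trans hbN)
    have haI : a ∈ Set.Icc A (A + N * δ) := ⟨hAa, hable.trans hbN⟩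
    have hint1 : IntervalIntegrable (fun x => (g x + 2 * (K * δ)) * φ x) volume A a :=
      (((hgc.mono hsub').add continuousOn_const).mul (hφc.mono hsub')).intervalIntegrable
    have hint2 : IntervalIntegrable (fun x => (g x + 2 * (K * δ)) * φ x) volume a b :=
      (((hgc.mono hsub).add continuousOn_const).mul (hφc.mono hsub)).intervalIntegrable
    have hint3 : IntervalIntegrable (fun x => (g a + K * δ) * φ x) volume a b :=
      ((continuousOn_const).mul (hφc.mono hsub)).intervalIntegrable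
    have hsplit : ∑ p ∈ P with s p ≤ b, wt p * g (s p) =
        ∑ p ∈ P with s p ≤ a, wt p * g (s p) +
        ∑ p ∈ P with a < s p ∧ s p ≤ b, wt p * g (s p) := by
      rw [← Finset.sum_union]
      · apply Finset.sum_congr _ (fun _ _ => rfl)
        ext p
        simp only [Finset.mem_union, Finset.mem_filter]
        constructor
        · rintro ⟨h1, h2⟩
          rcases le_or_gt (s p) a with h | h
          · exact Or.inl ⟨h1, h⟩
          · exact Or.inr ⟨h1, h, h2⟩
        · rintro (⟨h1, h2⟩ | ⟨h1, h2, h3⟩)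
          · exact ⟨h1, h2.trans hable⟩
          · exact ⟨h1, h3⟩
      · rw [Finset.disjoint_left]
        intro p h1 h2
        rw [Finset.mem_filter] at h1 h2
        linarith [h1.2, h2.2.1]
    have hcellb : ∑ p ∈ P with a < s p ∧ s p ≤ b, wt p * g (s p) ≤
        (∫ x in a..b, (g x + 2 * (K * δ)) * φ x) + (1 + K * δ) * η := by
      have hKδ : 0 ≤ K * δ := mul_nonneg hK hδ
      have hga0 : 0 ≤ g a + K * δ := add_nonneg (hg0 a haI) hKδ
      calc ∑ p ∈ P with a < s p ∧ s p ≤ b, wt p * g (s p)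
          ≤ ∑ p ∈ P with a < s p ∧ s p ≤ b, wt p * (g a + K * δ) := by
            apply Finset.sum_le_sum
            intro p hp
            rw [Finset.mem_filter] at hp
            apply mul_le_mul_of_nonneg_left _ (hwt p hp.1)
            have h1 : s p ∈ Set.Icc A (A + N * δ) := ⟨(hs p hp.1).le, hp.2.2.trans hbN⟩
            have h2 := (abs_le.1 (hgL (s p) h1 a haI)).2
            have h3 : |s p - a| ≤ δ := by
              rw [abs_le]; constructor <;> linarith [hp.2.1, hp.2.2]
            have h4 := mul_le_mul_of_nonneg_left h3 hK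
            linarith
        _ = (∑ p ∈ P with a < s p ∧ s p ≤ b, wt p) * (g a + K * δ) := by
            rw [Finset.sum_mul]
        _ ≤ ((∫ x in a..b, φ x) + η) * (g a + K * δ) :=
            mul_le_mul_of_nonneg_right (hcell a b hAa hable hbN) hga0
        _ = (∫ x in a..b, (g a + K * δ) * φ x) + (g a + K * δ) * η := by
            rw [intervalIntegral.integral_const_mul]; ring
        _ ≤ _ := by
            apply add_le_add
            · apply intervalIntegral.integral_mono_on hable hint3 hint2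
              intro x hx
              have hx' : x ∈ Set.Icc A (A + N * δ) := ⟨hAa.trans hx.1, hx.2.trans hbN⟩
              apply mul_le_mul_of_nonneg_right _ (hφ0 x hx')
              have h2 := (abs_le.1 (hgL a haI x hx')).2
              have h3 : |a - x| ≤ δ := by
                rw [abs_le]; constructor <;> linarith [hx.1, hx.2]
              have h4 := mul_le_mul_of_nonneg_left h3 hK
              linarith
            · apply mul_le_mul_of_nonneg_right _ hη
              linarith [hg1 a haI]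
    rw [hsplit, ← intervalIntegral.integral_add_adjacent_intervals hint1 hint2]
    push_cast
    linarith

/-- integers `p` prime with `z < p` and `p ^ 2 ≤ y`. -/
noncomputable def midPrimes (z : ℕ) (N : ℕ) : Finset ℕ :=
  (Finset.Ioc z N).filter (fun p => p.Prime ∧ p * p ≤ N)

lemma mem_midPrimes {z N p : ℕ} : p ∈ midPrimes z N ↔ z < p ∧ p.Prime ∧ p * p ≤ N := by
  rw [midPrimes, Finset.mem_filter, Finset.mem_Ioc]
  constructor
  · rintro ⟨⟨h1, _⟩, h2, h3⟩; exact ⟨h1, h2, h3⟩
  · rintro ⟨h1, h2, h3⟩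
    exact ⟨⟨h1, (Nat.le_mul_self p).trans h3⟩, h2, h3⟩

lemma rough_subset (z N : ℕ) :
    rough z N ⊆ ({1} ∪ prs N) ∪ (midPrimes z N).biUnion (fun p =>
      (rough p (N / p) ∪ (Finset.Icc 1 (N / p / p)).image (fun m => p * m)).image
        (fun b => p * b)) := by
  intro a ha
  rw [rough, Finset.mem_filter, Finset.mem_Icc] at ha
  obtain ⟨⟨ha1, haN⟩, hp⟩ := ha
  by_cases h1 : a = 1
  · simp [h1]
  have hpr := Nat.minFac_prime h1
  have hdv := Nat.minFac_dvd a
  have hzp : z < a.minFac := by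
    by_contra hc
    exact hp _ (by omega) hpr hdv
  set p := a.minFac with hpdef
  obtain ⟨b, hb⟩ := id hdv
  by_cases hb1 : b = 1
  · rw [Finset.mem_union]
    left
    rw [Finset.mem_union]
    right
    rw [mem_prs]
    refine ⟨haN, ?_⟩
    rw [hb1, mul_one] at hb
    rw [hb]
    exact hpr
  have hb0 : 0 < b := by
    rcases Nat.eq_zero_or_pos b with h | h
    · rw [h, mul_zero] at hb; omega
    · exact h
  have hpb : p ≤ b.minFac := by
    apply Nat.minFac_le_of_dvd (Nat.minFac_prime hb1).two_le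
    exact (Nat.minFac_dvd b).trans ⟨p, by rw [mul_comm]; exact hb⟩
  have hpb' : p ≤ b := hpb.trans (Nat.minFac_le hb0)
  rw [Finset.mem_union]
  right
  rw [Finset.mem_biUnion]
  refine ⟨p, ?_, ?_⟩
  · rw [mem_midPrimes]
    refine ⟨hzp, hpr, ?_⟩
    calc p * p ≤ p * b := Nat.mul_le_mul_left _ hpb'
      _ = a := hb.symm
      _ ≤ N := haN
  · rw [Finset.mem_image]
    refine ⟨b, ?_, hb.symm⟩
    have hbN : b ≤ N / p := by
      rw [Nat.le_div_iff_mul_le hpr.pos, mul_comm, ← hb]
      exact haN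
    rw [Finset.mem_union]
    by_cases hd : p ∣ b
    · right
      rw [Finset.mem_image]
      obtain ⟨m, hm⟩ := hd
      refine ⟨m, ?_, hm.symm⟩
      rw [Finset.mem_Icc]
      constructor
      · rcases Nat.eq_zero_or_pos m with h | h
        · rw [h, mul_zero] at hm; omega
        · exact h
      · rw [Nat.le_div_iff_mul_le hpr.pos, mul_comm, ← hm]
        exact hbN
    · left
      rw [rough, Finset.mem_filter, Finset.mem_Icc]
      refine ⟨⟨hb0, hbN⟩, ?_⟩
      intro q hq hqp hqb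
      have h2 : b.minFac ≤ q := Nat.minFac_le_of_dvd hqp.two_le hqb
      have h3 : q = p := le_antisymm hq (hpb.trans h2)
      rw [h3] at hqb
      exact hd hqb

lemma rough_card_rec {z : ℕ} {y : ℝ} (hy : 0 ≤ y) :
    ((rough z ⌊y⌋₊).card : ℝ) ≤ 1 + (Nat.primeCounting ⌊y⌋₊ : ℝ) +
      ∑ p ∈ midPrimes z ⌊y⌋₊, (((rough p ⌊y / p⌋₊).card : ℝ) + y / (p : ℝ) ^ 2) := by
  classical
  have h1 := Finset.card_le_card (rough_subset z ⌊y⌋₊)
  have h2 : ((({1} ∪ prs ⌊y⌋₊) ∪ (midPrimes z ⌊y⌋₊).biUnion (fun p =>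
      (rough p (⌊y⌋₊ / p) ∪ (Finset.Icc 1 (⌊y⌋₊ / p / p)).image (fun m => p * m)).image
        (fun b => p * b)) : Finset ℕ)).card ≤
      (1 + Nat.primeCounting ⌊y⌋₊) + ∑ p ∈ midPrimes z ⌊y⌋₊,
        ((rough p (⌊y⌋₊ / p)).card + ⌊y⌋₊ / p / p) := by
    refine (Finset.card_union_le _ _).trans (Nat.add_le_add ?_ ?_)
    · refine (Finset.card_union_le _ _).trans ?_
      rw [card_prs, Finset.card_singleton]
    · refine Finset.card_biUnion_le.trans (Finset.sum_le_sum fun p _ => ?_)
      refine Finset.card_image_le.trans ?_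
      refine (Finset.card_union_le _ _).trans (Nat.add_le_add le_rfl ?_)
      refine Finset.card_image_le.trans ?_
      rw [Nat.card_Icc, Nat.add_sub_cancel]
  have h3 := h1.trans h2
  have h4 : ((rough z ⌊y⌋₊).card : ℝ) ≤ (1 + Nat.primeCounting ⌊y⌋₊) + ∑ p ∈ midPrimes z ⌊y⌋₊,
        (((rough p (⌊y⌋₊ / p)).card : ℝ) + ((⌊y⌋₊ / p / p : ℕ) : ℝ)) := by exact_mod_cast h3
  refine h4.trans (add_le_add le_rfl (Finset.sum_le_sum fun p _ => ?_))
  have h5 : ⌊y⌋₊ / p = ⌊y / p⌋₊ := by
    rw [Nat.floor_div_natCast]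
  rw [h5]
  refine add_le_add le_rfl ?_
  calc (((⌊y / (p : ℝ)⌋₊ / p : ℕ)) : ℝ) ≤ (⌊y / (p : ℝ)⌋₊ : ℝ) / p := Nat.cast_div_le
    _ ≤ (y / p) / p := by
        apply div_le_div_of_nonneg_right (Nat.floor_le (by positivity)) (Nat.cast_nonneg _)
    _ = y / (p : ℝ) ^ 2 := by rw [div_div, sq]

lemma mertens_cell {η : ℝ} (hη : 0 < η) : ∃ z₀ : ℕ, 2 ≤ z₀ ∧ ∀ z : ℕ, z₀ ≤ z →
    ∀ P : Finset ℕ, (∀ p ∈ P, p.Prime) → ∀ a b : ℝ, 1 ≤ a → a ≤ b →
      ∑ p ∈ P with (a < Real.log ((p : ℕ) : ℝ) / Real.log z ∧ Real.log (p : ℝ) / Real.log z ≤ b),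
        1 / (p : ℝ) ≤ (Real.log b - Real.log a) + η := by
  obtain ⟨M, hM⟩ := mertens_second
  obtain ⟨x0, hx0⟩ := eventually_atTop.1 (hM.eventually (Metric.ball_mem_nhds M (half_pos hη)))
  refine ⟨max 2 ⌈x0⌉₊, le_max_left _ _, ?_⟩
  intro z hz P hP a b ha hab
  have hz2 : 2 ≤ z := (le_max_left _ _).trans hz
  have hzx : x0 ≤ z := Nat.le_of_ceil_le ((le_max_right _ _).trans hz)
  have hzR : (2 : ℝ) ≤ z := by exact_mod_cast hz2
  have hz0 : (0 : ℝ) < z := by linarith
  have hl : 0 < Real.log z := Real.log_pos (by linarith)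
  have hb : 1 ≤ b := ha.trans hab
  have hza : (z : ℝ) ≤ (z : ℝ) ^ a := by
    calc (z : ℝ) = (z : ℝ) ^ (1 : ℝ) := (Real.rpow_one _).symm
      _ ≤ _ := Real.rpow_le_rpow_of_exponent_le (by linarith) ha
  have hab' : (z : ℝ) ^ a ≤ (z : ℝ) ^ b := Real.rpow_le_rpow_of_exponent_le (by linarith) hab
  have h1 := hx0 _ (hzx.trans hza)
  have h2 := hx0 _ (hzx.trans (hza.trans hab'))
  rw [Real.dist_eq] at h1 h2
  have h3 := RN_sub (Nat.floor_le_floor hab' : ⌊(z : ℝ) ^ a⌋₊ ≤ ⌊(z : ℝ) ^ b⌋₊)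
  have h4 : ∑ p ∈ P with (a < Real.log ((p : ℕ) : ℝ) / Real.log z ∧ Real.log (p : ℝ) / Real.log z ≤ b),
      1 / (p : ℝ) ≤
      ∑ n ∈ Finset.Ioc ⌊(z : ℝ) ^ a⌋₊ ⌊(z : ℝ) ^ b⌋₊, (if n.Prime then 1 / (n:ℝ) else 0) := by
    rw [← Finset.sum_filter]
    apply Finset.sum_le_sum_of_subset_of_nonneg
    · intro p hp
      rw [Finset.mem_filter] at hp
      have hpp := hP p hp.1
      have hp0 : (0 : ℝ) < p := by exact_mod_cast hpp.pos
      rw [Finset.mem_filter, Finset.mem_Ioc]
      refine ⟨⟨?_, ?_⟩, hpp⟩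
      · rw [Nat.floor_lt (by positivity)]
        have := hp.2.1
        rw [lt_div_iff₀ hl] at this
        rw [← Real.log_lt_log_iff (by positivity) hp0, Real.log_rpow hz0]
        exact this
      · apply Nat.le_floor
        have := hp.2.2
        rw [div_le_iff₀ hl] at this
        rw [← Real.log_le_log_iff hp0 (by positivity), Real.log_rpow hz0]
        exact this
    · intro i _ _
      positivity
  refine h4.trans ?_
  rw [← h3]
  unfold DR at h1 h2
  rw [Real.log_rpow hz0, Real.log_mul (by linarith) hl.ne'] at h1 h2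
  rw [abs_lt] at h1 h2
  linarith [h1.1, h1.2, h2.1, h2.2]

lemma buchstab_integral {w : ℝ → ℝ} (hw : ContinuousOn w (Set.Ici 1)) {u : ℝ} (hu : 2 ≤ u) :
    ∫ s in (1 : ℝ)..(u / 2), w (u / s - 1) / s * (1 / s) = (1 / u) * ∫ t in (1 : ℝ)..(u - 1), w t := by
  have hu0 : 0 < u := by linarith
  have hle : (1 : ℝ) ≤ u / 2 := by linarith
  have hmem : ∀ s ∈ Set.uIcc (1 : ℝ) (u / 2), 1 ≤ s ∧ s ≤ u / 2 := by
    intro s hs
    rwa [Set.uIcc_of_le hle] at hs
  have key := intervalIntegral.integral_comp_mul_deriv'' (a := 1) (b := u / 2)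
    (f := fun s : ℝ => u / s - 1) (f' := fun s : ℝ => -(u / s ^ 2)) (g := w)
    (by
      apply ContinuousOn.sub _ continuousOn_const
      apply ContinuousOn.div continuousOn_const continuousOn_id
      intro s hs
      have := (hmem s hs).1
      simp only [id]
      linarith)
    (by
      intro s hs
      rw [min_eq_left hle, max_eq_right hle] at hs
      have hs0 : s ≠ 0 := by linarith [hs.1]
      have h1 : HasDerivAt (fun s : ℝ => u / s - 1) (-(u / s ^ 2)) s := by
        have := ((hasDerivAt_inv hs0).const_mul u).sub_const 1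
        simp only [div_eq_mul_inv, ← mul_neg]
        exact this
      exact h1.hasDerivWithinAt)
    (by
      apply ContinuousOn.neg
      apply ContinuousOn.div continuousOn_const (continuousOn_id.pow 2)
      intro s hs
      have := (hmem s hs).1
      exact pow_ne_zero 2 (by simp only [id]; linarith))
    (by
      apply hw.mono
      rintro _ ⟨s, hs, rfl⟩
      have h := hmem s hs
      rw [Set.mem_Ici]
      have : 2 ≤ u / s := by
        rw [le_div_iff₀ (by linarith)]
        linarith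
      simp only
      linarith)
  have e1 : u / (u / 2) - 1 = 1 := by
    field_simp
    norm_num
  simp only [Function.comp, e1, div_one] at key
  rw [intervalIntegral.integral_symm 1 (u - 1)] at key
  have e2 : ∫ s in (1 : ℝ)..(u / 2), w (u / s - 1) / s * (1 / s) =
      ∫ s in (1 : ℝ)..(u / 2), (-(1 / u)) * (w (u / s - 1) * -(u / s ^ 2)) := by
    apply intervalIntegral.integral_congr
    intro s hs
    have := (hmem s hs).1
    have hs0 : s ≠ 0 := by linarith
    simp only
    field_simp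
  rw [e2, intervalIntegral.integral_const_mul, key]
  ring

lemma integral_inv_cell {a b : ℝ} (ha : 1 ≤ a) (hab : a ≤ b) :
    ∫ x in a..b, 1 / x = Real.log b - Real.log a := by
  have ha0 : 0 < a := by linarith
  have hb0 : 0 < b := by linarith
  rw [integral_one_div_of_pos ha0 hb0, Real.log_div hb0.ne' ha0.ne']

lemma one_add_pi_le {ε : ℝ} (hε : 0 < ε) : ∃ z₀ : ℕ, 2 ≤ z₀ ∧ ∀ z : ℕ, z₀ ≤ z → ∀ y : ℝ, (z : ℝ) ≤ y →
    1 + (Nat.primeCounting ⌊y⌋₊ : ℝ) ≤ (Real.log z / Real.log y + ε) * y / Real.log z := by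
  obtain ⟨x1, hx1⟩ := eventually_atTop.1 (primeCounting_le (η := ε / 2) (by positivity))
  have hlog : Tendsto (fun z : ℝ => Real.log z / z) atTop (𝓝 0) := by
    have := Real.isLittleO_log_id_atTop.tendsto_div_nhds_zero
    simpa using this
  obtain ⟨x2, hx2⟩ := eventually_atTop.1 (hlog.eventually (gt_mem_nhds (show 0 < ε / 2 by positivity)))
  refine ⟨max 2 (max ⌈x1⌉₊ ⌈x2⌉₊), le_max_left _ _, ?_⟩
  intro z hz y hy
  have hz2 : 2 ≤ z := (le_max_left _ _).trans hz
  have hzx1 : x1 ≤ z := Nat.le_of_ceil_le (((le_max_left _ _).trans (le_max_right _ _)).trans hz)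
  have hzx2 : x2 ≤ z := Nat.le_of_ceil_le (((le_max_right _ _).trans (le_max_right _ _)).trans hz)
  have hzR : (2 : ℝ) ≤ z := by exact_mod_cast hz2
  have hl : 0 < Real.log z := Real.log_pos (by linarith)
  have hly : Real.log z ≤ Real.log y := Real.log_le_log (by linarith) hy
  have hly0 : 0 < Real.log y := by linarith
  have hy0 : 0 < y := by linarith
  have h1 := hx1 y (hzx1.trans hy)
  have h2 := hx2 z hzx2
  rw [div_lt_iff₀ (by linarith)] at h2
  have h3 : 1 ≤ ε / 2 * y / Real.log z := by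
    rw [le_div_iff₀ hl]
    have : ε / 2 * z ≤ ε / 2 * y := mul_le_mul_of_nonneg_left hy (by positivity)
    linarith
  have h4 : (1 + ε / 2) * y / Real.log y ≤ y / Real.log y + ε / 2 * y / Real.log z := by
    have : (1 + ε / 2) * y / Real.log y = y / Real.log y + ε / 2 * y / Real.log y := by ring
    rw [this]
    apply add_le_add le_rfl
    exact div_le_div_of_nonneg_left (by positivity) hl hly
  have h5 : (Real.log z / Real.log y + ε) * y / Real.log z =
      y / Real.log y + ε / 2 * y / Real.log z + ε / 2 * y / Real.log z := by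
    field_simp
    ring
  rw [h5]
  linarith

/-- the class of functions for which the bound is proved -/
structure IsBuchstab (w : ℝ → ℝ) : Prop where
  one_two : ∀ u, 1 ≤ u → u ≤ 2 → u * w u = 1
  eqn : ∀ u, 2 ≤ u → u * w u = 1 + ∫ t in (1:ℝ)..(u-1), w t
  nonneg : ∀ u, 1 ≤ u → 0 ≤ w u
  le_one : ∀ u, 1 ≤ u → w u ≤ 1
  lip : ∀ u v, 1 ≤ u → 1 ≤ v → |w u - w v| ≤ |u - v|

lemma IsBuchstab.continuousOn {w : ℝ → ℝ} (hw : IsBuchstab w) : ContinuousOn w (Set.Ici 1) := by
  have : LipschitzOnWith 1 w (Set.Ici 1) := by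
    apply LipschitzOnWith.of_dist_le_mul
    intro x hx y hy
    rw [Real.dist_eq, Real.dist_eq, NNReal.coe_one, one_mul]
    exact hw.lip x y hx hy
  exact this.continuousOn

/-- the bound up to the exponent `n` -/
def RoughBound (w : ℝ → ℝ) (n : ℕ) : Prop := ∀ ε : ℝ, 0 < ε → ∃ z₀ : ℕ, ∀ z : ℕ, z₀ ≤ z →
  ∀ y : ℝ, (z : ℝ) ≤ y → y ≤ (z : ℝ) ^ n →
    ((rough z ⌊y⌋₊).card : ℝ) ≤ (w (Real.log y / Real.log z) + ε) * y / Real.log z

lemma roughBound_two {w : ℝ → ℝ} (hw : IsBuchstab w) : RoughBound w 2 := by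
  intro ε hε
  obtain ⟨z₀, hz₀, h⟩ := one_add_pi_le hε
  refine ⟨z₀, fun z hz y hy1 hy2 => ?_⟩
  have hz2 : 2 ≤ z := hz₀.trans hz
  have hzR : (2 : ℝ) ≤ z := by exact_mod_cast hz2
  have hl : 0 < Real.log z := Real.log_pos (by linarith)
  have hy0 : 0 < y := by linarith
  have hly : Real.log z ≤ Real.log y := Real.log_le_log (by linarith) hy1
  have hly2 : Real.log y ≤ 2 * Real.log z := by
    have := Real.log_le_log hy0 hy2
    rw [Real.log_pow] at this
    exact_mod_cast this
  have hu1 : 1 ≤ Real.log y / Real.log z := by rw [le_div_iff₀ hl]; linarith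
  have hu2 : Real.log y / Real.log z ≤ 2 := by rw [div_le_iff₀ hl]; linarith
  have hwu : w (Real.log y / Real.log z) = Real.log z / Real.log y := by
    have h1 := hw.one_two _ hu1 hu2
    have h2 : Real.log y ≠ 0 := by linarith
    field_simp at h1 ⊢
    linarith
  rw [hwu]
  refine le_trans ?_ (h z hz y hy1)
  have hmid : midPrimes z ⌊y⌋₊ = ∅ := by
    apply Finset.eq_empty_of_forall_notMem
    intro p hp
    rw [mem_midPrimes] at hp
    have h1 : ((p * p : ℕ) : ℝ) ≤ y := (Nat.le_floor_iff hy0.le).1 hp.2.2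
    have h2 : (z : ℝ) < p := by exact_mod_cast hp.1
    push_cast at h1
    nlinarith
  have h1 := rough_card_rec (z := z) hy0.le
  rw [hmid, Finset.sum_empty, add_zero] at h1
  exact h1

lemma sum_mid_le {w : ℝ → ℝ} (hw : IsBuchstab w) {n : ℕ} (hn : 2 ≤ n) {ε : ℝ} (hε : 0 < ε) :
    ∃ z₀ : ℕ, 2 ≤ z₀ ∧ ∀ z : ℕ, z₀ ≤ z → ∀ y : ℝ, (z : ℝ) ^ 2 ≤ y → y ≤ (z : ℝ) ^ (n + 1) →
      ∑ p ∈ midPrimes z ⌊y⌋₊, 1 / (p : ℝ) *
        (w ((Real.log y / Real.log z) / (Real.log p / Real.log z) - 1) / (Real.log p / Real.log z)) ≤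
        w (Real.log y / Real.log z) - 1 / (Real.log y / Real.log z) + ε ∧
      ∑ p ∈ midPrimes z ⌊y⌋₊, 1 / (p : ℝ) ≤ n + 1 := by
  have hn0 : (2 : ℝ) ≤ n := by exact_mod_cast hn
  set K : ℝ := n + 2 with hK
  have hK0 : 0 < K := by positivity
  obtain ⟨N, hN⟩ := exists_nat_gt (max (K * n) (4 * K * n * (n + 1) / ε))
  have hN1 : K * n < N := (le_max_left _ _).trans_lt hN
  have hN2 : 4 * K * n * (n + 1) / ε < N := (le_max_right _ _).trans_lt hN
  have hNpos : (0 : ℝ) < N := lt_of_le_of_lt (by positivity) hN1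
  set η : ℝ := min 1 (ε / (4 * N)) with hη
  have hη0 : 0 < η := by rw [hη]; positivity
  have hη1 : η ≤ 1 := min_le_left _ _
  have hη2 : η ≤ ε / (4 * N) := min_le_right _ _
  obtain ⟨z₀, hz₀, hcell⟩ := mertens_cell hη0
  refine ⟨z₀, hz₀, fun z hz y hy1 hy2 => ?_⟩
  have hz2 : 2 ≤ z := hz₀.trans hz
  have hzR : (2 : ℝ) ≤ z := by exact_mod_cast hz2
  have hl : 0 < Real.log z := Real.log_pos (by linarith)
  have hy0 : 0 < y := lt_of_lt_of_le (by positivity) hy1
  set u := Real.log y / Real.log z with hu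
  have hu2 : 2 ≤ u := by
    rw [hu, le_div_iff₀ hl]
    have := Real.log_le_log (by positivity) hy1
    rw [Real.log_pow] at this
    exact_mod_cast this
  have hun : u ≤ n + 1 := by
    rw [hu, div_le_iff₀ hl]
    have := Real.log_le_log hy0 hy2
    rw [Real.log_pow] at this
    exact_mod_cast this
  have hu0 : 0 < u := by linarith
  have hPp : ∀ p ∈ midPrimes z ⌊y⌋₊, p.Prime := fun p hp => (mem_midPrimes.1 hp).2.1
  have hPs : ∀ p ∈ midPrimes z ⌊y⌋₊, 1 < Real.log p / Real.log z ∧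
      Real.log p / Real.log z ≤ u / 2 := by
    intro p hp
    have h := mem_midPrimes.1 hp
    have hzp : (z : ℝ) < p := by exact_mod_cast h.1
    constructor
    · rw [lt_div_iff₀ hl, one_mul]
      exact Real.log_lt_log (by linarith) hzp
    · have h1 : ((p * p : ℕ) : ℝ) ≤ y := (Nat.le_floor_iff hy0.le).1 h.2.2
      have hp0 : (0 : ℝ) < p := by linarith
      push_cast at h1
      have h2 := Real.log_le_log (by positivity) h1
      rw [Real.log_mul hp0.ne' hp0.ne'] at h2
      rw [div_le_iff₀ hl, hu]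
      field_simp
      linarith
  set δ : ℝ := (u / 2 - 1) / N with hδ
  have hδ0 : 0 ≤ δ := div_nonneg (by linarith) hNpos.le
  have hδN : (N : ℝ) * δ = u / 2 - 1 := by rw [hδ]; field_simp
  have hend : 1 + (N : ℝ) * δ = u / 2 := by rw [hδN]; ring
  have hδn : δ ≤ n / N := by
    rw [hδ]
    apply div_le_div_of_nonneg_right _ hNpos.le
    linarith
  have hKδ : K * δ ≤ 1 := by
    calc K * δ ≤ K * (n / N) := mul_le_mul_of_nonneg_left hδn hK0.le
      _ = K * n / N := by ring
      _ ≤ 1 := by rw [div_le_one hNpos]; exact hN1.le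
  set g : ℝ → ℝ := fun s => w (u / s - 1) / s with hg
  have hgarg : ∀ s ∈ Set.Icc (1 : ℝ) (1 + N * δ), 1 ≤ u / s - 1 := by
    intro s hs
    rw [hend] at hs
    have : 2 ≤ u / s := by
      rw [le_div_iff₀ (by linarith [hs.1])]
      linarith [hs.2]
    linarith
  have hg0 : ∀ s ∈ Set.Icc (1 : ℝ) (1 + N * δ), 0 ≤ g s := by
    intro s hs
    exact div_nonneg (hw.nonneg _ (hgarg s hs)) (by linarith [hs.1])
  have hg1 : ∀ s ∈ Set.Icc (1 : ℝ) (1 + N * δ), g s ≤ 1 := by
    intro s hs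
    have h1 : 0 < s := by linarith [hs.1]
    simp only [hg]
    rw [div_le_one h1]
    exact (hw.le_one _ (hgarg s hs)).trans hs.1
  have hinv : ∀ s ∈ Set.Icc (1 : ℝ) (1 + N * δ), ∀ t ∈ Set.Icc (1 : ℝ) (1 + N * δ),
      |1 / s - 1 / t| ≤ |s - t| := by
    intro s hs t ht
    have hs0 : 0 < s := by linarith [hs.1]
    have ht0 : 0 < t := by linarith [ht.1]
    have : 1 / s - 1 / t = (t - s) / (s * t) := by field_simp
    rw [this, abs_div, abs_of_pos (mul_pos hs0 ht0), abs_sub_comm]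
    apply div_le_self (abs_nonneg _)
    nlinarith [hs.1, ht.1]
  have hgL : ∀ s ∈ Set.Icc (1 : ℝ) (1 + N * δ), ∀ t ∈ Set.Icc (1 : ℝ) (1 + N * δ),
      |g s - g t| ≤ K * |s - t| := by
    intro s hs t ht
    have hs0 : 0 < s := by linarith [hs.1]
    have ht0 : 0 < t := by linarith [ht.1]
    have e : g s - g t = (w (u / s - 1) - w (u / t - 1)) * (1 / s) +
        w (u / t - 1) * (1 / s - 1 / t) := by
      simp only [hg]
      ring
    rw [e]
    refine (abs_add_le _ _).trans ?_
    rw [abs_mul, abs_mul]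
    have h1 := hw.lip _ _ (hgarg s hs) (hgarg t ht)
    have h2 : |u / s - 1 - (u / t - 1)| = u * |1 / s - 1 / t| := by
      rw [← abs_of_pos hu0, ← abs_mul, abs_of_pos hu0]
      congr 1
      ring
    rw [h2] at h1
    have h3 : |1 / s| ≤ 1 := by
      rw [abs_of_pos (by positivity), div_le_one hs0]
      exact hs.1
    have h4 : |w (u / t - 1)| ≤ 1 := by
      rw [abs_of_nonneg (hw.nonneg _ (hgarg t ht))]
      exact hw.le_one _ (hgarg t ht)
    have h5 := hinv s hs t ht
    have h6 : |w (u / s - 1) - w (u / t - 1)| * |1 / s| ≤ u * |s - t| := by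
      calc _ ≤ |w (u / s - 1) - w (u / t - 1)| * 1 := mul_le_mul_of_nonneg_left h3 (abs_nonneg _)
        _ ≤ u * |s - t| := by
          rw [mul_one]
          exact h1.trans (mul_le_mul_of_nonneg_left h5 hu0.le)
    have h7 : |w (u / t - 1)| * |1 / s - 1 / t| ≤ 1 * |s - t| :=
      mul_le_mul h4 h5 (abs_nonneg _) (by norm_num)
    have h8 : (u + 1) * |s - t| ≤ K * |s - t| :=
      mul_le_mul_of_nonneg_right (by rw [hK]; linarith) (abs_nonneg _)
    linarith
  have hφc : ContinuousOn (fun x : ℝ => 1 / x) (Set.Icc 1 (1 + N * δ)) := by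
    apply ContinuousOn.div continuousOn_const continuousOn_id
    intro s hs
    simp only [id]
    linarith [hs.1]
  have hcell' : ∀ a b : ℝ, 1 ≤ a → a ≤ b → b ≤ 1 + N * δ →
      ∑ p ∈ midPrimes z ⌊y⌋₊ with (a < Real.log ((p : ℕ) : ℝ) / Real.log z ∧
        Real.log (p : ℝ) / Real.log z ≤ b), 1 / (p : ℝ) ≤ (∫ x in a..b, 1 / x) + η := by
    intro a b ha hab _
    rw [integral_inv_cell ha hab]
    exact hcell z hz _ hPp a b ha hab
  have key := sum_le_integral_aux (P := midPrimes z ⌊y⌋₊) (wt := fun p => 1 / (p : ℝ))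
    (s := fun p => Real.log p / Real.log z) (g := g) (φ := fun x => 1 / x) (A := 1) (δ := δ)
    (K := K) (η := η) (N := N) hδ0 hK0.le (fun p _ => by positivity) (fun p hp => (hPs p hp).1)
    hg0 hg1 hgL (fun x hx => by have := hx.1; positivity) hφc hη0.le hcell' N le_rfl
  have hfull : (midPrimes z ⌊y⌋₊).filter (fun p : ℕ => Real.log (p : ℝ) / Real.log z ≤ 1 + N * δ) =
      midPrimes z ⌊y⌋₊ := by
    apply Finset.filter_true_of_mem
    intro p hp
    rw [hend]
    exact (hPs p hp).2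
  have hfull2 : (midPrimes z ⌊y⌋₊).filter (fun p : ℕ => (1 < Real.log (p : ℝ) / Real.log z ∧
      Real.log (p : ℝ) / Real.log z ≤ u / 2)) = midPrimes z ⌊y⌋₊ := by
    apply Finset.filter_true_of_mem
    intro p hp
    exact hPs p hp
  have hlogu : Real.log (u / 2) ≤ n := by
    have := Real.log_le_sub_one_of_pos (show 0 < u / 2 by positivity)
    linarith
  have hlogu0 : 0 ≤ Real.log (u / 2) := Real.log_nonneg (by linarith)
  have hsum1 : ∑ p ∈ midPrimes z ⌊y⌋₊, 1 / (p : ℝ) ≤ Real.log (u / 2) + η := by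
    have := hcell z hz _ hPp 1 (u / 2) le_rfl (by linarith)
    rw [hfull2, Real.log_one, sub_zero] at this
    exact this
  constructor
  swap
  · linarith
  rw [hfull, hend] at key
  have hgc : ContinuousOn g (Set.Icc 1 (1 + N * δ)) := by
    have : LipschitzOnWith (Real.toNNReal K) g (Set.Icc 1 (1 + N * δ)) := by
      apply LipschitzOnWith.of_dist_le_mul
      intro x hx y hy
      rw [Real.dist_eq, Real.dist_eq, Real.coe_toNNReal _ hK0.le]
      exact hgL x hx y hy
    exact this.continuousOn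
  have hle : (1 : ℝ) ≤ u / 2 := by linarith
  have hsub : Set.uIcc 1 (u / 2) ⊆ Set.Icc 1 (1 + N * δ) := by
    rw [Set.uIcc_of_le hle, hend]
  have hi1 : IntervalIntegrable (fun x => g x * (1 / x)) volume 1 (u / 2) :=
    ((hgc.mono hsub).mul (hφc.mono hsub)).intervalIntegrable
  have hi2 : IntervalIntegrable (fun x => 2 * (K * δ) * (1 / x)) volume 1 (u / 2) :=
    (continuousOn_const.mul (hφc.mono hsub)).intervalIntegrable
  have hsplit : ∫ x in (1 : ℝ)..(u / 2), (g x + 2 * (K * δ)) * (1 / x) =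
      (∫ x in (1 : ℝ)..(u / 2), g x * (1 / x)) + 2 * (K * δ) * (Real.log (u / 2) - Real.log 1) := by
    rw [← integral_inv_cell le_rfl hle, ← intervalIntegral.integral_const_mul,
      ← intervalIntegral.integral_add hi1 hi2]
    apply intervalIntegral.integral_congr
    intro x _
    simp only
    ring
  have hgint : ∫ x in (1 : ℝ)..(u / 2), g x * (1 / x) = w u - 1 / u := by
    have h1 := buchstab_integral hw.continuousOn hu2
    have h2 := hw.eqn u hu2
    have h3 : ∫ t in (1:ℝ)..(u-1), w t = u * w u - 1 := by linarith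
    rw [h3] at h1
    simp only [hg]
    rw [h1]
    field_simp
  rw [hsplit, hgint, Real.log_one, sub_zero] at key
  refine key.trans ?_
  have e1 : 2 * (K * δ) * Real.log (u / 2) ≤ ε / 2 := by
    calc 2 * (K * δ) * Real.log (u / 2) ≤ 2 * (K * (n / N)) * n := by
          gcongr
      _ ≤ ε / 2 := by
          rw [div_lt_iff₀ hε] at hN2
          have : 2 * (K * (n / N)) * n = (2 * K * n * n) / N := by ring
          rw [this, div_le_iff₀ hNpos]
          have h5 : 0 ≤ 2 * K * n := by positivity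
          nlinarith
  have e2 : (N : ℝ) * ((1 + K * δ) * η) ≤ ε / 2 := by
    calc (N : ℝ) * ((1 + K * δ) * η) ≤ N * ((1 + 1) * (ε / (4 * N))) := by
          gcongr
      _ = ε / 2 := by
          field_simp
          ring
  linarith

lemma roughBound_succ {w : ℝ → ℝ} (hw : IsBuchstab w) {n : ℕ} (hn : 2 ≤ n)
    (ih : RoughBound w n) : RoughBound w (n + 1) := by
  intro ε hε
  have hn0 : (2 : ℝ) ≤ n := by exact_mod_cast hn
  set C : ℝ := n + 1 with hC
  have hC0 : 0 < C := by positivity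
  obtain ⟨z₁, hz₁⟩ := ih (ε / (4 * C)) (by positivity)
  obtain ⟨z₂, hz₂2, hz₂⟩ := sum_mid_le hw hn (show 0 < ε / 4 by positivity)
  obtain ⟨z₃, hz₃2, hz₃⟩ := one_add_pi_le (show 0 < ε / 4 by positivity)
  obtain ⟨z₄, hz₄⟩ := roughBound_two hw ε hε
  have hlog : Tendsto (fun z : ℝ => Real.log z / z) atTop (𝓝 0) := by
    have := Real.isLittleO_log_id_atTop.tendsto_div_nhds_zero
    simpa using this
  obtain ⟨x5, hx5⟩ := eventually_atTop.1
    (hlog.eventually (gt_mem_nhds (show 0 < ε / (4 * C) by positivity)))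
  refine ⟨max (max z₁ z₂) (max (max z₃ z₄) ⌈x5⌉₊), fun z hz y hy1 hy2 => ?_⟩
  have hz1 : z₁ ≤ z := ((le_max_left _ _).trans (le_max_left _ _)).trans hz
  have hz2 : z₂ ≤ z := ((le_max_right _ _).trans (le_max_left _ _)).trans hz
  have hz3 : z₃ ≤ z := (((le_max_left _ _).trans (le_max_left _ _)).trans (le_max_right _ _)).trans hz
  have hz4 : z₄ ≤ z := (((le_max_right _ _).trans (le_max_left _ _)).trans (le_max_right _ _)).trans hz
  have hz5 : x5 ≤ z := Nat.le_of_ceil_le (((le_max_right _ _).trans (le_max_right _ _)).trans hz)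
  rcases le_total y ((z : ℝ) ^ 2) with hcase | hcase
  · exact hz₄ z hz4 y hy1 hcase
  have hz2' : 2 ≤ z := hz₂2.trans hz2
  have hzR : (2 : ℝ) ≤ z := by exact_mod_cast hz2'
  have hl : 0 < Real.log z := Real.log_pos (by linarith)
  have hy0 : 0 < y := by linarith
  have hly : 0 < Real.log y := lt_of_lt_of_le hl (Real.log_le_log (by linarith) hy1)
  obtain ⟨hs1, hs2⟩ := hz₂ z hz2 y hcase hy2
  have hpi := hz₃ z hz3 y hy1
  set u := Real.log y / Real.log z with hu
  have hinvu : Real.log z / Real.log y = 1 / u := by rw [hu, one_div_div]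
  rw [hinvu] at hpi
  have hrec := rough_card_rec (z := z) hy0.le
  have hterm : ∀ p ∈ midPrimes z ⌊y⌋₊, (((rough p ⌊y / p⌋₊).card : ℝ) + y / (p : ℝ) ^ 2) ≤
      (y / Real.log z) * (1 / (p : ℝ) * (w (u / (Real.log p / Real.log z) - 1) /
        (Real.log p / Real.log z))) +
      (y / Real.log z) * (ε / (4 * C)) * (1 / (p : ℝ)) +
      (y / Real.log z) * (ε / (4 * C)) * (1 / (p : ℝ)) := by
    intro p hp
    have h := mem_midPrimes.1 hp
    have hzp : (z : ℝ) < p := by exact_mod_cast h.1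
    have hp0 : (0 : ℝ) < p := by linarith
    have hlp : Real.log z < Real.log p := Real.log_lt_log (by linarith) hzp
    have hlp0 : 0 < Real.log p := by linarith
    have hpp : (p : ℝ) * p ≤ y := by
      have h1 : ((p * p : ℕ) : ℝ) ≤ y := (Nat.le_floor_iff hy0.le).1 h.2.2
      exact_mod_cast h1
    have h1 : (p : ℝ) ≤ y / p := by rw [le_div_iff₀ hp0]; exact hpp
    have h2 : y / p ≤ (p : ℝ) ^ n := by
      rw [div_le_iff₀ hp0]
      calc y ≤ (z : ℝ) ^ (n + 1) := hy2
        _ ≤ (p : ℝ) ^ (n + 1) := pow_le_pow_left₀ (by linarith) hzp.le _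
        _ = (p : ℝ) ^ n * p := pow_succ _ _
    have h3 := hz₁ p (hz1.trans h.1.le) (y / p) h1 h2
    have h4 : Real.log (y / p) / Real.log p = u / (Real.log p / Real.log z) - 1 := by
      rw [Real.log_div hy0.ne' hp0.ne', hu]
      field_simp
    rw [h4] at h3
    set W := w (u / (Real.log p / Real.log z) - 1) with hW
    have h5 : (W + ε / (4 * C)) * (y / p) / Real.log p ≤
        (y / Real.log z) * (1 / (p : ℝ) * (W / (Real.log p / Real.log z))) +
        (y / Real.log z) * (ε / (4 * C)) * (1 / (p : ℝ)) := by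
      have h6 : (W + ε / (4 * C)) * (y / p) / Real.log p =
        (y / Real.log z) * (1 / (p : ℝ) * (W / (Real.log p / Real.log z))) +
        (y / Real.log p) * (ε / (4 * C)) * (1 / (p : ℝ)) := by
        field_simp
      rw [h6]
      apply add_le_add le_rfl
      apply mul_le_mul_of_nonneg_right _ (by positivity)
      apply mul_le_mul_of_nonneg_right _ (by positivity)
      exact div_le_div_of_nonneg_left hy0.le hl hlp.le
    have h7 : y / (p : ℝ) ^ 2 ≤ (y / Real.log z) * (ε / (4 * C)) * (1 / (p : ℝ)) := by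
      have h8 := hx5 z hz5
      rw [div_lt_iff₀ (by linarith)] at h8
      have h9 : 1 / (p : ℝ) ≤ (1 / Real.log z) * (ε / (4 * C)) := by
        rw [div_le_iff₀ hp0]
        have h10 : 1 ≤ (1 / Real.log z) * (ε / (4 * C)) * z := by
          have : (1 / Real.log z) * (ε / (4 * C)) * z = (ε / (4 * C) * z) / Real.log z := by ring
          rw [this, le_div_iff₀ hl, one_mul]
          exact h8.le
        refine h10.trans ?_
        exact mul_le_mul_of_nonneg_left hzp.le (by positivity)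
      calc y / (p : ℝ) ^ 2 = y * (1 / p) * (1 / (p : ℝ)) := by field_simp
        _ ≤ y * ((1 / Real.log z) * (ε / (4 * C))) * (1 / (p : ℝ)) := by
            gcongr
        _ = _ := by ring
    linarith
  have hsum := Finset.sum_le_sum hterm
  have hsplit : ∑ p ∈ midPrimes z ⌊y⌋₊, ((y / Real.log z) * (1 / (p : ℝ) *
      (w (u / (Real.log p / Real.log z) - 1) / (Real.log p / Real.log z))) +
      (y / Real.log z) * (ε / (4 * C)) * (1 / (p : ℝ)) +
      (y / Real.log z) * (ε / (4 * C)) * (1 / (p : ℝ))) =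
      (y / Real.log z) * (∑ p ∈ midPrimes z ⌊y⌋₊, (1 / (p : ℝ) *
      (w (u / (Real.log p / Real.log z) - 1) / (Real.log p / Real.log z)))) +
      (y / Real.log z) * (ε / (4 * C)) * (∑ p ∈ midPrimes z ⌊y⌋₊, 1 / (p : ℝ)) +
      (y / Real.log z) * (ε / (4 * C)) * (∑ p ∈ midPrimes z ⌊y⌋₊, 1 / (p : ℝ)) := by
    rw [Finset.sum_add_distrib, Finset.sum_add_distrib, Finset.mul_sum, Finset.mul_sum]
  rw [hsplit] at hsum
  have hyl : 0 < y / Real.log z := by positivity
  have e1 := mul_le_mul_of_nonneg_left hs1 hyl.le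
  have e2 : (y / Real.log z) * (ε / (4 * C)) * ∑ p ∈ midPrimes z ⌊y⌋₊, 1 / (p : ℝ) ≤
      (y / Real.log z) * (ε / 4) := by
    calc _ ≤ (y / Real.log z) * (ε / (4 * C)) * C :=
          mul_le_mul_of_nonneg_left hs2 (by positivity)
      _ = _ := by field_simp
  have e3 : (1 / u + ε / 4) * y / Real.log z = (y / Real.log z) * (1 / u + ε / 4) := by ring
  have e4 : (w u + ε) * y / Real.log z = (y / Real.log z) * (w u + ε) := by ring
  rw [e3] at hpi
  rw [e4]
  calc ((rough z ⌊y⌋₊).card : ℝ) ≤ _ := hrec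
    _ ≤ (y / Real.log z) * (1 / u + ε / 4) + ((y / Real.log z) * (w u - 1 / u + ε / 4) +
        (y / Real.log z) * (ε / 4) + (y / Real.log z) * (ε / 4)) := by
        linarith
    _ = (y / Real.log z) * (w u + ε) := by ring

theorem rough_upper_gen {w : ℝ → ℝ} (hw : IsBuchstab w) {U ε : ℝ} (hε : 0 < ε) :
    ∃ z₀ : ℕ, ∀ z : ℕ, z₀ ≤ z → ∀ y : ℝ, (z:ℝ) ≤ y → y ≤ (z:ℝ)^U →
      ((rough z ⌊y⌋₊).card : ℝ) ≤ (w (Real.log y / Real.log z) + ε) * y / Real.log z := by
  have hall : ∀ n : ℕ, RoughBound w (n + 2) := by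
    intro n
    induction n with
    | zero => exact roughBound_two hw
    | succ n ih => exact roughBound_succ hw (by omega) ih
  obtain ⟨n, hn⟩ := exists_nat_ge U
  obtain ⟨z₀, h⟩ := hall n ε hε
  refine ⟨max 1 z₀, fun z hz y hy1 hy2 => h z ((le_max_right _ _).trans hz) y hy1 ?_⟩
  have hz1 : (1 : ℝ) ≤ z := by exact_mod_cast (le_max_left _ _).trans hz
  refine hy2.trans ?_
  rw [← Real.rpow_natCast]
  apply Real.rpow_le_rpow_of_exponent_le hz1
  push_cast
  linarith

end Pool.Agent.LibMaier
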