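import Pool.Agent.LibMaier.Critical

/-!
Numerical comparison of the constants of the matrix method and of Cramer's model.
-/

namespace Pool.Agent.LibMaier

open Filter Topology

lemma gamma_lt : Real.eulerMascheroniConstant < 0.5812 := by
  have h := Real.eulerMascheroniConstant_lt_eulerMascheroniSeq' 128
  unfold Real.eulerMascheroniSeq' at h
  rw [if_neg (by norm_num)] at h
  have h1 : (harmonic 128 : ℚ) < 5.43315 := by decide +kernel
  have h2 : ((harmonic 128 : ℚ) : ℝ) < 5.43315 := by
    have : ((harmonic 128 : ℚ) : ℝ) < ((5.43315 : ℚ) : ℝ) := by exact_mod_cast h1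
    norm_num at this ⊢
    try exact this
  have h3 : Real.log ((128 : ℕ) : ℝ) = 7 * Real.log 2 := by
    have : ((128 : ℕ) : ℝ) = 2 ^ 7 := by norm_num
    rw [this, Real.log_pow]
    norm_num
  rw [h3] at h
  have h4 := Real.log_two_gt_d9
  norm_num at *
  linarith

lemma eg_lt : eg < 1.79 := by
  unfold eg
  calc Real.exp Real.eulerMascheroniConstant < Real.exp 0.5812 := Real.exp_lt_exp.2 gamma_lt
    _ ≤ 1.79 := by
        have h := Real.exp_bound' (x := 0.5812) (by norm_num) (by norm_num) (n := 6) (by norm_num)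
        refine h.trans ?_
        norm_num [Finset.sum_range_succ, Nat.factorial]

lemma log_five_quarters : Real.log (5 / 4) < 0.2232 := by
  rw [Real.log_lt_iff_lt_exp (by norm_num)]
  have h := Real.sum_le_exp_of_nonneg (x := 0.2232) (by norm_num) 5
  refine lt_of_lt_of_le ?_ h
  norm_num [Finset.sum_range_succ, Nat.factorial]

/-- the constant of the matrix method beats the density -/
lemma eg_half_mul_log_lt {δ : ℝ} (h1 : 4 / 5 ≤ δ) (h2 : δ < 1) :
    eg / 2 * Real.log (1 / δ) < 1 - δ := by
  have hδ0 : 0 < δ := by linarith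
  -- convexity of `-log`
  have hconc := strictConcaveOn_log_Ioi.concaveOn
  have h3 := hconc.2 (show (4 / 5 : ℝ) ∈ Set.Ioi (0 : ℝ) by norm_num)
    (show (1 : ℝ) ∈ Set.Ioi (0 : ℝ) by norm_num)
    (show (0 : ℝ) ≤ 5 * (1 - δ) by linarith) (show (0 : ℝ) ≤ 5 * δ - 4 by linarith) (by ring)
  simp only [smul_eq_mul, Real.log_one, mul_zero, add_zero] at h3
  have h4 : 5 * (1 - δ) * (4 / 5) + (5 * δ - 4) * 1 = δ := by ring
  rw [h4] at h3
  have h5 : Real.log (4 / 5 : ℝ) = -Real.log (5 / 4) := by
    rw [← Real.log_inv]; norm_num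
  rw [h5] at h3
  have h6 : Real.log (1 / δ) ≤ 5 * (1 - δ) * Real.log (5 / 4) := by
    rw [one_div, Real.log_inv]
    linarith
  have h7 := log_five_quarters
  have h8 := eg_lt
  have h9 := eg_pos
  have h10 : 0 < 1 - δ := by linarith
  calc eg / 2 * Real.log (1 / δ) ≤ eg / 2 * (5 * (1 - δ) * Real.log (5 / 4)) := by gcongr
    _ ≤ eg / 2 * (5 * (1 - δ) * 0.2232) := by gcongr
    _ = (eg * 0.558) * (1 - δ) := by ring
    _ < 1 * (1 - δ) := by
        apply mul_lt_mul_of_pos_right _ h10
        norm_num at *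
        linarith
    _ = 1 - δ := one_mul _

end Pool.Agent.LibMaier
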