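import Pool.Agent.LibMaier.MaierBound
import Pool.Agent.LibCramer.Runs

/-!
Runs of `c log p` consecutive prime gaps: the bound from Maier's matrix method.
-/

namespace Pool.Agent.LibMaier

open Filter Topology MeasureTheory
open Pool.Agent.LibCramer
open scoped ENNReal NNReal

lemma cnt_primes_le (q k l N : ℕ) (h : l ≤ N) :
    cnt {p : ℕ | p.Prime} (k * q) l ≤ rowc q k N := by
  unfold cnt rowc
  rw [← Set.ncard_coe_finset]
  apply Set.ncard_le_ncard _ (Finset.finite_toSet _)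
  intro p hp
  obtain ⟨h1, h2, h3⟩ := hp
  rw [Finset.coe_filter]
  exact ⟨Finset.mem_Ioc.2 ⟨h2, h3.trans (by omega)⟩, h1⟩

/-- **Maier's theorem at the scale `log²`**: windows of length `d log² m` with at most `c log m`
primes, for `d e^γ / 2 < c`. -/
theorem frequently_few_primes {c d : ℝ} (hd : 0 < d) (hcd : d * (eg / 2) < c) :
    ∃ᶠ m : ℕ in atTop, cnt {p : ℕ | p.Prime} m (len d m) ≤ ⌊c * Real.log (m : ℝ)⌋₊ := by
  have heg : 0 < eg := eg_pos
  have hc : 0 < c := lt_trans (by positivity) hcd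
  obtain ⟨ε, hε0, hε14, hε⟩ : ∃ ε : ℝ, 0 < ε ∧ ε < 1 / 4 ∧
      (1 + ε) ^ 4 / (1 - ε) ^ 3 * (eg / 2) * (d * (1 + ε) ^ 2) < c := by
    have hcont : ContinuousAt (fun ε : ℝ => (1 + ε) ^ 4 / (1 - ε) ^ 3 * (eg / 2) *
        (d * (1 + ε) ^ 2)) 0 := by
      have h0 : ContinuousAt (fun ε : ℝ => (1 + ε) ^ 4 / (1 - ε) ^ 3) 0 := by
        apply ContinuousAt.div
        · fun_prop
        · fun_prop
        · norm_num
      fun_prop
    have h1 : ∀ᶠ ε in 𝓝 (0 : ℝ), (1 + ε) ^ 4 / (1 - ε) ^ 3 * (eg / 2) *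
        (d * (1 + ε) ^ 2) < c := by
      apply hcont.eventually_lt_const
      refine lt_of_le_of_lt (le_of_eq ?_) hcd
      simp
      ring
    have h2 := h1.filter_mono (nhdsWithin_le_nhds (s := Set.Ioi 0))
    have h3 : ∀ᶠ ε in 𝓝[>] (0 : ℝ), ε < 1 / 4 :=
      (eventually_lt_nhds (by norm_num)).filter_mono nhdsWithin_le_nhds
    obtain ⟨ε, h4, h5, h6⟩ := (h2.and (h3.and self_mem_nhdsWithin)).exists
    exact ⟨ε, h6, h5, h4⟩
  obtain ⟨v0, hv00, hv0⟩ : ∃ v0 : ℝ, 0 ≤ v0 ∧ 1 - ε ≤ ∫ v in (-v0)..v0, gw v := by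
    have h1 := intervalIntegral_tendsto_integral (μ := volume) (f := gw) (l := atTop)
      (a := fun v : ℝ => -v) (b := fun v : ℝ => v) integrable_gw tendsto_neg_atTop_atBot tendsto_id
    rw [integral_gw] at h1
    obtain ⟨v0, h2, h3⟩ := ((h1.eventually_const_lt (show 1 - ε < 1 by linarith)).and
      (eventually_ge_atTop 0)).exists
    exact ⟨v0, h3, h2.le⟩
  rw [frequently_atTop]
  intro M
  set c₂ : ℝ := d * (1 + ε) ^ 2 with hc₂
  have hc₂0 : 0 < c₂ := by rw [hc₂]; positivity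
  obtain ⟨q, k1, k2, x, hxX, hkN, hk12, hq1, hk1, hkbig, hVx, hl1, hl2, hl3, hl4, havg⟩ :=
    matrix_avg hε0 hε14 hc₂0 hv00 M 1
  have hx0 : 0 < x := by linarith
  set Wt' : ℝ := ∑ k ∈ Finset.Ico k1 k2, Wt q x k with hWt
  have hWlow : 1 - ε ≤ Wt' := hv0.trans (le_sum_Wt hk12 hv00 (by linarith) (by linarith))
  have hWpos : 0 < Wt' := by linarith
  -- a row with few primes
  obtain ⟨k, hk, hrow⟩ : ∃ k ∈ Finset.Ico k1 k2, (rowc q k ⌊c₂ * x ^ 2⌋₊ : ℝ) ≤
      (1 + ε) ^ 4 / (1 - ε) ^ 2 * (eg / 2) * c₂ * x := by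
    by_contra hcon
    push Not at hcon
    have h1 : ∑ k ∈ Finset.Ico k1 k2, Wt q x k *
        ((1 + ε) ^ 4 / (1 - ε) ^ 2 * (eg / 2) * c₂ * x) <
        ∑ k ∈ Finset.Ico k1 k2, Wt q x k * (rowc q k ⌊c₂ * x ^ 2⌋₊ : ℝ) := by
      apply Finset.sum_lt_sum
      · intro k hk
        apply mul_le_mul_of_nonneg_left (hcon k hk).le
        exact Wt_nonneg hq1 (by rw [Finset.mem_Ico] at hk; omega) x
      · obtain ⟨k, hk, hk2⟩ : ∃ k ∈ Finset.Ico k1 k2, 0 < Wt q x k := by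
          by_contra hc2
          push Not at hc2
          have := Finset.sum_nonpos hc2
          rw [← hWt] at this
          linarith
        exact ⟨k, hk, mul_lt_mul_of_pos_left (hcon k hk) hk2⟩
    rw [← Finset.sum_mul, ← hWt] at h1
    have h2 := lt_of_lt_of_le h1 havg
    have h3 : (1 - ε) * ((1 + ε) ^ 4 / (1 - ε) ^ 2 * (eg / 2) * c₂ * x) ≤
        Wt' * ((1 + ε) ^ 4 / (1 - ε) ^ 2 * (eg / 2) * c₂ * x) := by
      apply mul_le_mul_of_nonneg_right hWlow
      have : 0 < 1 - ε := by linarith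
      positivity
    have h4 : (1 - ε) * ((1 + ε) ^ 4 / (1 - ε) ^ 2 * (eg / 2) * c₂ * x) =
        (1 + ε) ^ 4 / (1 - ε) * (eg / 2) * c₂ * x := by
      have : 1 - ε ≠ 0 := by linarith
      field_simp
    linarith
  rw [Finset.mem_Ico] at hk
  have hqR : (1 : ℝ) ≤ q := by exact_mod_cast hq1
  have hk1R : (1 : ℝ) ≤ k1 := by exact_mod_cast hk1
  have hkR : (k1 : ℝ) ≤ k := by exact_mod_cast hk.1
  have hkR2 : (k : ℝ) ≤ k2 := by exact_mod_cast hk.2.le
  have hlog0 : (1 - ε) * x ≤ Real.log ((k * q : ℕ) : ℝ) := by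
    push_cast
    refine le_trans (by linarith) (hl1.trans (Real.log_le_log (by positivity) (by gcongr)))
  have hlogV : Real.log ((k * q : ℕ) : ℝ) ≤ (1 + ε) * x := by
    have hkq : (0 : ℝ) < (k : ℝ) * q := by
      apply mul_pos <;> linarith
    push_cast
    refine le_trans (Real.log_le_log hkq (by gcongr)) (hl4.trans (by linarith))
  have hlogpos : 0 ≤ Real.log ((k * q : ℕ) : ℝ) :=
    le_trans (mul_nonneg (by linarith) hx0.le) hlog0
  refine ⟨k * q, ?_, ?_⟩
  · calc M ≤ k1 := hkN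
      _ ≤ k := hk.1
      _ ≤ k * q := Nat.le_mul_of_pos_right _ hq1
  · have hlen : len d (k * q) ≤ ⌊c₂ * x ^ 2⌋₊ := by
      unfold len
      apply Nat.floor_mono
      calc d * Real.log ((k * q : ℕ) : ℝ) ^ 2 ≤ d * ((1 + ε) * x) ^ 2 := by gcongr
        _ = c₂ * x ^ 2 := by rw [hc₂]; ring
    refine (cnt_primes_le q k _ _ hlen).trans ?_
    apply Nat.le_floor
    refine hrow.trans ?_
    have h1ε : 0 < 1 - ε := by linarith
    calc (1 + ε) ^ 4 / (1 - ε) ^ 2 * (eg / 2) * c₂ * x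
        = ((1 + ε) ^ 4 / (1 - ε) ^ 3 * (eg / 2) * c₂) * ((1 - ε) * x) := by
          field_simp
      _ ≤ c * Real.log ((k * q : ℕ) : ℝ) := by
          apply mul_le_mul hε.le hlog0 (by positivity) hc.le

/-- **Runs of prime gaps.** For every `c ≥ 0` the run constant of the primes is at least
`2 e^{-γ} c`. -/
theorem le_cramerRun_primes {c : ℝ} (hc : 0 ≤ c) :
    ENNReal.ofReal (2 * Real.exp (-Real.eulerMascheroniConstant) * c) ≤
      cramerRun c {p : ℕ | p.Prime} := by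
  have heg : 0 < eg := eg_pos
  have heg2 : Real.exp (-Real.eulerMascheroniConstant) = 1 / eg := by
    unfold eg
    rw [Real.exp_neg, one_div]
  rcases hc.eq_or_lt with h0 | h0
  · rw [← h0, mul_zero, ENNReal.ofReal_zero]
    exact zero_le
  have hinf : ({p : ℕ | p.Prime} : Set ℕ).Infinite := Nat.infinite_setOfPred_prime
  have key : ∀ d : ℝ, 0 < d → d * (eg / 2) < c →
      ENNReal.ofReal d ≤ cramerRun c {p : ℕ | p.Prime} := by
    intro d hd hdc
    obtain ⟨c', h1, h2⟩ := exists_between hdc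
    have hc' : 0 < c' := lt_trans (by positivity) h1
    exact le_cramerRun hinf hc'.le (Or.inl h2) hc hd.le (frequently_few_primes hd h1)
  have hlim : Tendsto (fun n : ℕ => ENNReal.ofReal (2 * (1 / eg) * c * (1 - 1 / ((n : ℝ) + 2))))
      atTop (𝓝 (ENNReal.ofReal (2 * (1 / eg) * c))) := by
    apply ENNReal.tendsto_ofReal
    have h1 : Tendsto (fun n : ℕ => 1 / ((n : ℝ) + 2)) atTop (𝓝 0) := by
      simp_rw [one_div]
      exact tendsto_inv_atTop_zero.comp (tendsto_atTop_add_const_right _ _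
        tendsto_natCast_atTop_atTop)
    have h2 := (h1.const_sub 1).const_mul (2 * (1 / eg) * c)
    simpa using h2
  rw [heg2]
  refine le_of_tendsto' hlim fun n => ?_
  have h1 : (0 : ℝ) < n + 2 := by positivity
  have h2 : 1 / ((n : ℝ) + 2) < 1 := by
    rw [div_lt_one h1]
    have : (0 : ℝ) ≤ n := Nat.cast_nonneg n
    linarith
  have h3 : 0 < 1 / ((n : ℝ) + 2) := by positivity
  apply key
  · apply mul_pos (by positivity); linarith
  · have : 2 * (1 / eg) * c * (1 - 1 / ((n : ℝ) + 2)) * (eg / 2) = c * (1 - 1 / ((n : ℝ) + 2)) := by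
      field_simp
    rw [this]
    nlinarith

end Pool.Agent.LibMaier
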