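import Pool.Agent.LibMaier.SmallSum

/-!
The sum over all non-principal characters tends to zero along good scales.
-/

namespace Pool.Agent.LibMaier

open Filter Topology Complex DirichletCharacter MeasureTheory
open scoped ComplexConjugate ArithmeticFunction.vonMangoldt

lemma Lz_le {z : ℕ} (hz : 1 ≤ z) : Lz z ≤ 8 * z := by
  have hzR : (1 : ℝ) ≤ z := by exact_mod_cast hz
  have hp : (primorial z : ℝ) ≤ (4 : ℝ) ^ z := by exact_mod_cast primorial_le_four_pow z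
  have hp0 : (0 : ℝ) < primorial z := by exact_mod_cast primorial_pos z
  unfold Lz LL Tz
  rw [Real.log_mul hp0.ne' (by positivity)]
  have h1 : Real.log (primorial z) ≤ z * Real.log 4 := by
    rw [← Real.log_pow]
    exact Real.log_le_log hp0 hp
  have h2 : Real.log 4 ≤ 2 := by
    have : (4 : ℝ) = 2 ^ 2 := by norm_num
    rw [this, Real.log_pow]
    have := Real.log_two_lt_d9
    norm_num at this ⊢
    linarith
  have h3 : Real.log (4 * z + 3) ≤ 4 * z + 3 - 1 := Real.log_le_sub_one_of_pos (by positivity)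
  nlinarith

lemma LS_inv_le {x : ℝ} (hx : 1 ≤ x) : LS (1 / x) ≤ 865 * x ^ 2 := by
  have h := LS_le (σ := 1 / x) (by positivity) (by rw [div_le_one (by linarith)]; exact hx)
  have h1 : 108 / (1 / x) ^ 2 = 108 * x ^ 2 := by field_simp
  rw [h1, one_div_one_div] at h
  have h2 : Real.log (108 * x ^ 2) ≤ 108 * x ^ 2 - 1 := Real.log_le_sub_one_of_pos (by positivity)
  nlinarith

lemma aux_sum {X1 X2 X3 a b c P1 P2 : ℝ} (h1 : X1 ≤ a * P1) (h2 : X2 ≤ b * P2)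
    (h3 : X3 ≤ c * P2) (ha : 0 ≤ a) (hb : 0 ≤ b) (hc : 0 ≤ c) (hP1 : 0 ≤ P1) (hP2 : 0 ≤ P2) :
    X1 + (X2 + X3) ≤ (a + b + c) * (P1 + P2) := by
  have e : (a + b + c) * (P1 + P2) = a * P1 + (b * P2 + c * P2) + ((b + c) * P1 + a * P2) := by
    ring
  have d1 : 0 ≤ (b + c) * P1 := by positivity
  have d2 : 0 ≤ a * P2 := by positivity
  rw [e]
  linarith

/-- the sum over non-principal characters is small -/
theorem small_bound {B : ℝ} (hB : 1 < B) (hB2 : B ≤ 2) {ε : ℝ} (hε : 0 < ε) :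
    ∀ᶠ z : ℕ in atTop,
      (Lz z / (4 * kk) + 2) *
        (4 * (2 + 10 * Lz z) ^ 5 * (2 * z) * Real.exp (-(kk / 2 / Lz z * (z : ℝ) ^ B / 8)) *
            (20 * (Lz z + 3) / (kk / 2 / Lz z) ^ 2) +
          Real.exp (Lz z) * (6 * Real.exp (-(2 * z - 2) ^ 2 / 2) *
            (20 * (Lz z + 3) / (kk / 2 / Lz z) ^ 2) +
          6 * LS (1 / (z : ℝ) ^ B) * Real.exp (-(2 * z - 2) ^ 2 / 4))) ≤ ε := by
  have hkk : 0 < kk := by unfold kk; norm_num
  set A1 : ℝ := 8 / (4 * kk) + 2 with hA1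
  set A2 : ℝ := 56320 / kk ^ 2 with hA2
  set A3 : ℝ := A1 * (8 * 82 ^ 5 * A2 + 6 * A2 + 6 * 865) with hA3
  have hA10 : 0 < A1 := by positivity
  have hA20 : 0 < A2 := by positivity
  have hA30 : 0 < A3 := by positivity
  -- the limits
  have hlim1 : Tendsto (fun z : ℕ => A3 * ((z : ℝ) ^ 10 * Real.exp (-(kk / 128) * (z : ℝ) ^ (B - 1))))
      atTop (𝓝 (A3 * 0)) := by
    apply Tendsto.const_mul
    have h1 := tendsto_rpow_mul_exp_neg_mul_atTop_nhds_zero (10 / (B - 1)) (kk / 128) (by positivity)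
    have h2 : Tendsto (fun z : ℕ => (z : ℝ) ^ (B - 1)) atTop atTop :=
      (tendsto_rpow_atTop (by linarith)).comp tendsto_natCast_atTop_atTop
    refine (h1.comp h2).congr' ?_
    filter_upwards with z
    simp only [Function.comp]
    congr 1
    rw [← Real.rpow_mul (Nat.cast_nonneg z)]
    have : (B - 1) * (10 / (B - 1)) = (10 : ℕ) := by
      have : B - 1 ≠ 0 := by linarith
      field_simp
      norm_num
    rw [this, Real.rpow_natCast]
  have hlim2 : Tendsto (fun z : ℕ => A3 * ((z : ℝ) ^ 10 * Real.exp (-(z : ℝ))))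
      atTop (𝓝 (A3 * 0)) := by
    apply Tendsto.const_mul
    exact (Real.tendsto_pow_mul_exp_neg_atTop_nhds_zero 10).comp tendsto_natCast_atTop_atTop
  rw [mul_zero] at hlim1 hlim2
  filter_upwards [hlim1.eventually_lt_const (show 0 < ε / 2 by positivity),
    hlim2.eventually_lt_const (show 0 < ε / 2 by positivity), eventually_ge_atTop 11,
    tendsto_Lz.eventually_ge_atTop 1] with z h1 h2 h3 h4
  have hz : (11 : ℝ) ≤ z := by exact_mod_cast h3
  have hz1 : (1 : ℝ) ≤ z := by linarith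
  have hL := Lz_le (z := z) (by omega)
  set L := Lz z with hLdef
  have hL0 : 0 < L := by linarith
  set x : ℝ := (z : ℝ) ^ B with hx
  have hx1 : 1 ≤ x := Real.one_le_rpow hz1 (by linarith)
  have hx2 : x ≤ (z : ℝ) ^ 2 := by
    rw [hx, ← Real.rpow_natCast]
    apply Real.rpow_le_rpow_of_exponent_le hz1
    push_cast
    exact hB2
  set e1 : ℝ := Real.exp (-(kk / 128) * (z : ℝ) ^ (B - 1)) with he1
  set e2 : ℝ := Real.exp (-(z : ℝ)) with he2
  have he10 : 0 < e1 := Real.exp_pos _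
  have he20 : 0 < e2 := Real.exp_pos _
  have b1 : L / (4 * kk) + 2 ≤ A1 * z := by
    rw [hA1, add_mul]
    have : L / (4 * kk) ≤ 8 / (4 * kk) * z := by
      rw [div_mul_eq_mul_div]
      exact div_le_div_of_nonneg_right hL (by positivity)
    linarith
  have b2 : 4 * (2 + 10 * L) ^ 5 * (2 * z) ≤ 8 * 82 ^ 5 * (z : ℝ) ^ 6 := by
    have : (2 + 10 * L) ^ 5 ≤ (82 * (z : ℝ)) ^ 5 :=
      pow_le_pow_left₀ (by positivity) (by linarith) 5
    calc 4 * (2 + 10 * L) ^ 5 * (2 * z) ≤ 4 * (82 * (z : ℝ)) ^ 5 * (2 * z) := by gcongr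
      _ = 8 * 82 ^ 5 * (z : ℝ) ^ 6 := by ring
  have b3 : 20 * (L + 3) / (kk / 2 / L) ^ 2 ≤ A2 * (z : ℝ) ^ 3 := by
    have e : 20 * (L + 3) / (kk / 2 / L) ^ 2 = 80 * ((L + 3) * L ^ 2) / kk ^ 2 := by
      field_simp
      ring
    rw [e, hA2, div_mul_eq_mul_div]
    apply div_le_div_of_nonneg_right _ (by positivity)
    have : (L + 3) * L ^ 2 ≤ (11 * z) * (8 * (z : ℝ)) ^ 2 := by
      apply mul_le_mul (by linarith) _ (by positivity) (by positivity)
      exact pow_le_pow_left₀ (by positivity) hL 2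
    nlinarith
  have b3' : 0 ≤ 20 * (L + 3) / (kk / 2 / L) ^ 2 := by positivity
  have b4 : Real.exp (-(kk / 2 / L * x / 8)) ≤ e1 := by
    rw [he1]
    apply Real.exp_le_exp.2
    have h5 : (z : ℝ) ^ (B - 1) * z = x := by
      rw [hx]
      nth_rewrite 2 [← Real.rpow_one (z : ℝ)]
      rw [← Real.rpow_add (by linarith)]
      congr 1
      ring
    have h6 : kk / 128 * (z : ℝ) ^ (B - 1) ≤ kk / 2 / L * x / 8 := by
      have h7 : kk / 2 / L * x / 8 = kk * x / (16 * L) := by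
        field_simp
        ring
      rw [h7, le_div_iff₀ (by positivity)]
      rw [← h5]
      have h8 : 0 ≤ kk * (z : ℝ) ^ (B - 1) := by positivity
      nlinarith
    linarith
  have b5 : Real.exp L * Real.exp (-(2 * z - 2) ^ 2 / 4) ≤ e2 := by
    rw [← Real.exp_add, he2]
    apply Real.exp_le_exp.2
    nlinarith
  have b6 : Real.exp L * Real.exp (-(2 * z - 2) ^ 2 / 2) ≤ e2 := by
    rw [← Real.exp_add, he2]
    apply Real.exp_le_exp.2
    nlinarith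
  have b7 : LS (1 / x) ≤ 865 * (z : ℝ) ^ 4 := by
    refine (LS_inv_le hx1).trans ?_
    have : x ^ 2 ≤ ((z : ℝ) ^ 2) ^ 2 := pow_le_pow_left₀ (by linarith) hx2 2
    have e : ((z : ℝ) ^ 2) ^ 2 = (z : ℝ) ^ 4 := by ring
    rw [e] at this
    linarith
  have b8 := LS_nonneg (1 / x)
  have hz4 : (z : ℝ) ^ 9 = (z : ℝ) ^ 6 * z ^ 3 := by ring
  have c1 : 4 * (2 + 10 * L) ^ 5 * (2 * z) * Real.exp (-(kk / 2 / L * x / 8)) *
      (20 * (L + 3) / (kk / 2 / L) ^ 2) ≤ 8 * 82 ^ 5 * A2 * ((z : ℝ) ^ 9 * e1) := by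
    calc 4 * (2 + 10 * L) ^ 5 * (2 * z) * Real.exp (-(kk / 2 / L * x / 8)) *
          (20 * (L + 3) / (kk / 2 / L) ^ 2)
        ≤ (8 * 82 ^ 5 * (z : ℝ) ^ 6) * e1 * (A2 * (z : ℝ) ^ 3) := by
          gcongr
      _ = 8 * 82 ^ 5 * A2 * ((z : ℝ) ^ 9 * e1) := by ring
  have c2 : Real.exp L * (6 * Real.exp (-(2 * z - 2) ^ 2 / 2) *
      (20 * (L + 3) / (kk / 2 / L) ^ 2)) ≤ 6 * A2 * ((z : ℝ) ^ 9 * e2) := by
    have hz39 : (z : ℝ) ^ 3 ≤ (z : ℝ) ^ 9 := pow_le_pow_right₀ hz1 (by norm_num)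
    calc Real.exp L * (6 * Real.exp (-(2 * z - 2) ^ 2 / 2) *
          (20 * (L + 3) / (kk / 2 / L) ^ 2))
        = 6 * (Real.exp L * Real.exp (-(2 * z - 2) ^ 2 / 2)) *
          (20 * (L + 3) / (kk / 2 / L) ^ 2) := by ring
      _ ≤ 6 * e2 * (A2 * (z : ℝ) ^ 9) := by
          gcongr
          exact b3.trans (mul_le_mul_of_nonneg_left hz39 hA20.le)
      _ = 6 * A2 * ((z : ℝ) ^ 9 * e2) := by ring
  have c3 : Real.exp L * (6 * LS (1 / x) * Real.exp (-(2 * z - 2) ^ 2 / 4)) ≤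
      6 * 865 * ((z : ℝ) ^ 9 * e2) := by
    have hz49 : (z : ℝ) ^ 4 ≤ (z : ℝ) ^ 9 := pow_le_pow_right₀ hz1 (by norm_num)
    calc Real.exp L * (6 * LS (1 / x) * Real.exp (-(2 * z - 2) ^ 2 / 4))
        = 6 * LS (1 / x) * (Real.exp L * Real.exp (-(2 * z - 2) ^ 2 / 4)) := by ring
      _ ≤ 6 * (865 * (z : ℝ) ^ 9) * e2 := by
          gcongr
          exact b7.trans (by linarith)
      _ = 6 * 865 * ((z : ℝ) ^ 9 * e2) := by ring
  have hP1 : 0 ≤ (z : ℝ) ^ 9 * e1 := by positivity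
  have hP2 : 0 ≤ (z : ℝ) ^ 9 * e2 := by positivity
  have hS : 4 * (2 + 10 * L) ^ 5 * (2 * z) * Real.exp (-(kk / 2 / L * x / 8)) *
      (20 * (L + 3) / (kk / 2 / L) ^ 2) + Real.exp L * (6 * Real.exp (-(2 * z - 2) ^ 2 / 2) *
      (20 * (L + 3) / (kk / 2 / L) ^ 2) + 6 * LS (1 / x) * Real.exp (-(2 * z - 2) ^ 2 / 4)) ≤
      (8 * 82 ^ 5 * A2 + 6 * A2 + 6 * 865) * ((z : ℝ) ^ 9 * e1 + (z : ℝ) ^ 9 * e2) := by
    rw [mul_add (Real.exp L)]
    exact aux_sum c1 c2 c3 (by positivity) (by positivity) (by norm_num) hP1 hP2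
  have hS0 : 0 ≤ 4 * (2 + 10 * L) ^ 5 * (2 * z) * Real.exp (-(kk / 2 / L * x / 8)) *
      (20 * (L + 3) / (kk / 2 / L) ^ 2) + Real.exp L * (6 * Real.exp (-(2 * z - 2) ^ 2 / 2) *
      (20 * (L + 3) / (kk / 2 / L) ^ 2) + 6 * LS (1 / x) * Real.exp (-(2 * z - 2) ^ 2 / 4)) := by
    positivity
  calc (L / (4 * kk) + 2) * _ ≤ (A1 * z) *
        ((8 * 82 ^ 5 * A2 + 6 * A2 + 6 * 865) * ((z : ℝ) ^ 9 * e1 + (z : ℝ) ^ 9 * e2)) :=
        mul_le_mul b1 hS hS0 (by positivity)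
    _ = A3 * ((z : ℝ) ^ 10 * e1) + A3 * ((z : ℝ) ^ 10 * e2) := by
        rw [hA3]
        ring
    _ ≤ ε := by linarith

end Pool.Agent.LibMaier
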