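import Pool.Agent.LibMaier.LSum

/-!
A zero density estimate for the characters modulo `q`, by mollification and the
Halasz-Montgomery inequality.
-/

namespace Pool.Agent.LibMaier

open Filter Topology Complex DirichletCharacter Finset
open scoped ComplexConjugate ArithmeticFunction.Moebius

/-! ### divisor sums -/

/-- harmonic sum -/
noncomputable def Hs (K : ℕ) : ℝ := ∑ k ∈ Icc 1 K, (1 : ℝ) / k

lemma Hs_le {K : ℕ} : Hs K ≤ 1 + Real.log K := by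
  have h := harmonic_le_one_add_log K
  rw [harmonic_eq_sum_Icc] at h
  unfold Hs
  push_cast at h
  simpa [one_div] using h

lemma Hs_nonneg (K : ℕ) : 0 ≤ Hs K := Finset.sum_nonneg fun k _ => by positivity

lemma sum_fiber_le (P : Finset (ℕ × ℕ)) (S : Finset ℕ) (f : ℕ × ℕ → ℝ) (hf : ∀ p ∈ P, 0 ≤ f p) :
    ∑ k ∈ S, ∑ p ∈ P.filter (fun p => p.1 * p.2 = k), f p ≤ ∑ p ∈ P, f p := by
  calc ∑ k ∈ S, ∑ p ∈ P.filter (fun p => p.1 * p.2 = k), f p
      = ∑ k ∈ S, ∑ p ∈ P, (if p.1 * p.2 = k then f p else 0) := by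
        apply Finset.sum_congr rfl; intro k _; rw [Finset.sum_filter]
    _ = ∑ p ∈ P, ∑ k ∈ S, (if p.1 * p.2 = k then f p else 0) := Finset.sum_comm
    _ ≤ ∑ p ∈ P, f p := by
        apply Finset.sum_le_sum
        intro p hp
        rw [Finset.sum_ite_eq]
        split_ifs
        · exact le_rfl
        · exact hf p hp

lemma divisorsAntidiagonal_eq {k K : ℕ} (hk : k ∈ Icc 1 K) :
    k.divisorsAntidiagonal = ((Icc 1 K) ×ˢ (Icc 1 K)).filter (fun p => p.1 * p.2 = k) := by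
  rw [mem_Icc] at hk
  ext ⟨a, b⟩
  rw [Nat.mem_divisorsAntidiagonal, Finset.mem_filter, Finset.mem_product, mem_Icc, mem_Icc]
  constructor
  · rintro ⟨h1, h2⟩
    simp only at h1
    have ha : 0 < a := Nat.pos_of_ne_zero (by rintro rfl; simp at h1; omega)
    have hb : 0 < b := Nat.pos_of_ne_zero (by rintro rfl; simp at h1; omega)
    refine ⟨⟨⟨ha, ?_⟩, hb, ?_⟩, h1⟩
    · simp only
      nlinarith
    · simp only
      nlinarith
  · rintro ⟨_, h⟩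
    exact ⟨h, by omega⟩

lemma card_divisors_eq (k : ℕ) : (k.divisors.card : ℝ) = ∑ p ∈ k.divisorsAntidiagonal, (1 : ℝ) := by
  rw [Finset.sum_const, nsmul_eq_mul, mul_one, ← Nat.map_div_right_divisors, Finset.card_map]

lemma sum_div_card_le (K : ℕ) : ∑ k ∈ Icc 1 K, (k.divisors.card : ℝ) / k ≤ Hs K ^ 2 := by
  calc ∑ k ∈ Icc 1 K, (k.divisors.card : ℝ) / k
      = ∑ k ∈ Icc 1 K, ∑ p ∈ ((Icc 1 K) ×ˢ (Icc 1 K)).filter (fun p => p.1 * p.2 = k),
          (1 / (p.1 : ℝ)) * (1 / (p.2 : ℝ)) := by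
        apply Finset.sum_congr rfl
        intro k hk
        rw [← divisorsAntidiagonal_eq hk, card_divisors_eq, Finset.sum_div]
        apply Finset.sum_congr rfl
        intro p hp
        rw [Nat.mem_divisorsAntidiagonal] at hp
        rw [← hp.1]
        push_cast
        rw [one_div_mul_one_div]
    _ ≤ ∑ p ∈ (Icc 1 K) ×ˢ (Icc 1 K), (1 / (p.1 : ℝ)) * (1 / (p.2 : ℝ)) :=
        sum_fiber_le _ _ _ fun p _ => by positivity
    _ = Hs K ^ 2 := by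
        rw [Finset.sum_product, sq, Hs, Finset.sum_mul_sum]

lemma card_divisors_mul_le (a b : ℕ) :
    ((a * b).divisors.card : ℝ) ≤ (a.divisors.card : ℝ) * b.divisors.card := by
  rw [Nat.divisors_mul]
  exact_mod_cast Finset.card_mul_le

lemma sum_div_card_sq_le (K : ℕ) : ∑ k ∈ Icc 1 K, (k.divisors.card : ℝ) ^ 2 / k ≤ Hs K ^ 4 := by
  calc ∑ k ∈ Icc 1 K, (k.divisors.card : ℝ) ^ 2 / k
      ≤ ∑ k ∈ Icc 1 K, ∑ p ∈ ((Icc 1 K) ×ˢ (Icc 1 K)).filter (fun p => p.1 * p.2 = k),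
          ((p.1.divisors.card : ℝ) / p.1) * ((p.2.divisors.card : ℝ) / p.2) := by
        apply Finset.sum_le_sum
        intro k hk
        rw [← divisorsAntidiagonal_eq hk]
        have h1 : (k.divisors.card : ℝ) ^ 2 / k = ∑ p ∈ k.divisorsAntidiagonal,
            (k.divisors.card : ℝ) / k := by
          rw [Finset.sum_const, nsmul_eq_mul]
          have := card_divisors_eq k
          rw [Finset.sum_const, nsmul_eq_mul, mul_one] at this
          rw [← this]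
          ring
        rw [h1]
        apply Finset.sum_le_sum
        intro p hp
        rw [Nat.mem_divisorsAntidiagonal] at hp
        have h2 := card_divisors_mul_le p.1 p.2
        rw [hp.1] at h2
        have h3 : (k : ℝ) = (p.1 : ℝ) * p.2 := by rw [← hp.1]; push_cast; ring
        rw [div_mul_div_comm, ← h3]
        exact div_le_div_of_nonneg_right h2 (Nat.cast_nonneg k)
    _ ≤ ∑ p ∈ (Icc 1 K) ×ˢ (Icc 1 K),
          ((p.1.divisors.card : ℝ) / p.1) * ((p.2.divisors.card : ℝ) / p.2) :=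
        sum_fiber_le _ _ _ fun p _ => by positivity
    _ = (∑ k ∈ Icc 1 K, (k.divisors.card : ℝ) / k) ^ 2 := by
        rw [Finset.sum_product, sq, Finset.sum_mul_sum]
    _ ≤ (Hs K ^ 2) ^ 2 := by
        apply pow_le_pow_left₀ _ (sum_div_card_le K)
        exact Finset.sum_nonneg fun k _ => by positivity
    _ = Hs K ^ 4 := by ring

/-! ### the mollified polynomial -/

/-- coefficients of the mollified polynomial -/
noncomputable def bb (Y N : ℕ) (k : ℕ) : ℝ :=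
  ∑ p ∈ ((Icc 1 Y) ×ˢ (Icc 1 N)).filter (fun p => p.1 * p.2 = k), (μ p.1 : ℝ)

lemma bb_one {Y N : ℕ} (hY : 1 ≤ Y) (hN : 1 ≤ N) : bb Y N 1 = 1 := by
  have h : ((Icc 1 Y) ×ˢ (Icc 1 N)).filter (fun p : ℕ × ℕ => p.1 * p.2 = 1) = {(1, 1)} := by
    ext ⟨a, b⟩
    simp only [Finset.mem_filter, Finset.mem_product, mem_Icc, Finset.mem_singleton, Prod.mk.injEq]
    constructor
    · rintro ⟨_, h⟩
      exact ⟨Nat.eq_one_of_mul_eq_one_right h, Nat.eq_one_of_mul_eq_one_left h⟩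
    · rintro ⟨rfl, rfl⟩
      exact ⟨⟨⟨le_rfl, hY⟩, le_rfl, hN⟩, rfl⟩
  unfold bb
  rw [h, Finset.sum_singleton]
  simp

lemma bb_zero {Y N k : ℕ} (hYN : Y ≤ N) (hk1 : 1 < k) (hkY : k ≤ Y) : bb Y N k = 0 := by
  have h : ((Icc 1 Y) ×ˢ (Icc 1 N)).filter (fun p : ℕ × ℕ => p.1 * p.2 = k) =
      k.divisorsAntidiagonal := by
    rw [divisorsAntidiagonal_eq (K := k) (by rw [mem_Icc]; omega)]
    ext ⟨a, b⟩
    simp only [Finset.mem_filter, Finset.mem_product, mem_Icc]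
    constructor
    · rintro ⟨⟨⟨h1, _⟩, h2, _⟩, h3⟩
      refine ⟨⟨⟨h1, ?_⟩, h2, ?_⟩, h3⟩ <;> nlinarith
    · rintro ⟨⟨⟨h1, _⟩, h2, _⟩, h3⟩
      refine ⟨⟨⟨h1, ?_⟩, h2, ?_⟩, h3⟩ <;> nlinarith
  unfold bb
  rw [h]
  have h2 : ∑ p ∈ k.divisorsAntidiagonal, (μ p.1 : ℝ) =
      ((μ : ArithmeticFunction ℝ) * (ArithmeticFunction.zeta : ArithmeticFunction ℝ)) k := by
    rw [ArithmeticFunction.mul_apply]
    apply Finset.sum_congr rfl
    intro p hp
    rw [Nat.mem_divisorsAntidiagonal] at hp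
    have hp2 : p.2 ≠ 0 := by
      intro h
      rw [h, mul_zero] at hp
      omega
    rw [ArithmeticFunction.natCoe_apply, ArithmeticFunction.zeta_apply_ne hp2,
      ArithmeticFunction.intCoe_apply]
    simp
  rw [h2, ArithmeticFunction.coe_moebius_mul_coe_zeta, ArithmeticFunction.one_apply_ne (by omega)]

lemma abs_bb_le {Y N k : ℕ} (hk : 1 ≤ k) : |bb Y N k| ≤ k.divisors.card := by
  unfold bb
  refine (Finset.abs_sum_le_sum_abs _ _).trans ?_
  rw [card_divisors_eq]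
  calc ∑ p ∈ ((Icc 1 Y) ×ˢ (Icc 1 N)).filter (fun p => p.1 * p.2 = k), |(μ p.1 : ℝ)|
      ≤ ∑ p ∈ ((Icc 1 Y) ×ˢ (Icc 1 N)).filter (fun p => p.1 * p.2 = k), (1 : ℝ) := by
        apply Finset.sum_le_sum
        intro p _
        rw [← Int.cast_abs]
        exact_mod_cast ArithmeticFunction.abs_moebius_le_one
    _ ≤ ∑ p ∈ k.divisorsAntidiagonal, (1 : ℝ) := by
        apply Finset.sum_le_sum_of_subset_of_nonneg
        · intro p hp
          rw [Finset.mem_filter] at hp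
          rw [Nat.mem_divisorsAntidiagonal]
          exact ⟨hp.2, by omega⟩
        · intro _ _ _
          exact zero_le_one

variable {q : ℕ} [NeZero q]

omit [NeZero q] in
/-- multiplication of the partial sum by the mollifier -/
lemma mollify (χ : DirichletCharacter ℂ q) (ρ : ℂ) (Y N : ℕ) :
    (∑ m ∈ Icc 1 Y, (μ m : ℂ) * (χ (m : ZMod q) * (m : ℂ) ^ (-ρ))) * LT χ N ρ =
      ∑ k ∈ Icc 1 (Y * N), (bb Y N k : ℂ) * (χ (k : ZMod q) * (k : ℂ) ^ (-ρ)) := by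
  unfold LT
  rw [Finset.sum_mul_sum, ← Finset.sum_product']
  have hmaps : ∀ p ∈ (Icc 1 Y) ×ˢ (Icc 1 N), p.1 * p.2 ∈ Icc 1 (Y * N) := by
    rintro ⟨a, b⟩ hp
    rw [Finset.mem_product, mem_Icc, mem_Icc] at hp
    rw [mem_Icc]
    exact ⟨Nat.mul_pos hp.1.1 hp.2.1, Nat.mul_le_mul hp.1.2 hp.2.2⟩
  rw [← Finset.sum_fiberwise_of_maps_to hmaps]
  apply Finset.sum_congr rfl
  intro k _
  unfold bb
  push_cast
  rw [Finset.sum_mul]
  apply Finset.sum_congr rfl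
  intro p hp
  rw [Finset.mem_filter] at hp
  rw [← hp.2]
  push_cast
  rw [natCast_mul_natCast_cpow, map_mul]
  ring

/-- detection of a zero -/
lemma detect {χ : DirichletCharacter ℂ q} (hχ : χ ≠ 1) {ρ : ℂ} (hρ : LFunction χ ρ = 0)
    (hre : 3 / 4 ≤ ρ.re) (hre1 : ρ.re ≤ 1) {T : ℝ} (hT : |ρ.im| ≤ T) {Q : ℕ}
    (hQ : (q : ℝ) * (T + 3) ≤ Q) (hQ4 : 4 ≤ Q) :
    1 / 2 ≤ ‖∑ k ∈ Ioc (Q ^ 3) (Q ^ 3 * Q ^ 7), (bb (Q ^ 3) (Q ^ 7) k : ℂ) *
      (χ (k : ZMod q) * (k : ℂ) ^ (-ρ))‖ := by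
  have hQ1 : 1 ≤ Q := by omega
  have hQR : (4 : ℝ) ≤ Q := by exact_mod_cast hQ4
  have hT0 : 0 ≤ T := (abs_nonneg _).trans hT
  have hq1 : (1 : ℝ) ≤ q := by exact_mod_cast Nat.one_le_iff_ne_zero.2 (NeZero.ne q)
  have hY1 : 1 ≤ Q ^ 3 := Nat.one_le_pow _ _ hQ1
  have hN1 : 1 ≤ Q ^ 7 := Nat.one_le_pow _ _ hQ1
  -- bound for the partial sum
  have h1 : ‖LT χ (Q ^ 7) ρ‖ ≤ 2 * Q * ((Q : ℝ) ^ 7) ^ (-(3 / 4 : ℝ)) := by
    have h2 := LT_approx hχ (s := ρ) (by linarith) hN1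
    rw [hρ, zero_sub, norm_neg] at h2
    refine h2.trans ?_
    have h3 : ‖ρ‖ ≤ 1 + T := by
      refine (Complex.norm_le_abs_re_add_abs_im ρ).trans ?_
      rw [abs_of_pos (by linarith : (0 : ℝ) < ρ.re)]
      linarith
    have h4 : ‖ρ‖ / ρ.re ≤ 4 / 3 * (1 + T) := by
      rw [div_le_iff₀ (by linarith)]
      nlinarith
    have h5 : (((Q ^ 7 : ℕ) : ℝ)) ^ (-ρ.re) ≤ ((Q : ℝ) ^ 7) ^ (-(3 / 4 : ℝ)) := by
      push_cast
      apply Real.rpow_le_rpow_of_exponent_le (one_le_pow₀ (by linarith))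
      linarith
    have h6 : (q : ℝ) * (2 + ‖ρ‖ / ρ.re) ≤ 2 * Q := by
      calc (q : ℝ) * (2 + ‖ρ‖ / ρ.re) ≤ q * (2 + 4 / 3 * (1 + T)) := by gcongr
        _ ≤ q * (2 * (T + 3)) := by gcongr; linarith
        _ = 2 * (q * (T + 3)) := by ring
        _ ≤ 2 * Q := by linarith
    exact mul_le_mul h6 h5 (by positivity) (by positivity)
  have h2 : ‖∑ m ∈ Icc 1 (Q ^ 3), (μ m : ℂ) * (χ (m : ZMod q) * (m : ℂ) ^ (-ρ))‖ ≤ (Q : ℝ) ^ 3 := by
    calc ‖∑ m ∈ Icc 1 (Q ^ 3), (μ m : ℂ) * (χ (m : ZMod q) * (m : ℂ) ^ (-ρ))‖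
        ≤ ∑ m ∈ Icc 1 (Q ^ 3), ‖(μ m : ℂ) * (χ (m : ZMod q) * (m : ℂ) ^ (-ρ))‖ := norm_sum_le _ _
      _ ≤ ∑ m ∈ Icc 1 (Q ^ 3), (1 : ℝ) := by
          apply Finset.sum_le_sum
          intro m hm
          rw [mem_Icc] at hm
          rw [norm_mul, norm_mul]
          have h3 : ‖(μ m : ℂ)‖ ≤ 1 := by
            rw [Complex.norm_intCast]
            exact_mod_cast ArithmeticFunction.abs_moebius_le_one
          have h4 : ‖(m : ℂ) ^ (-ρ)‖ ≤ 1 := by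
            rw [Complex.norm_natCast_cpow_of_pos (by omega)]
            apply Real.rpow_le_one_of_one_le_of_nonpos (by exact_mod_cast hm.1)
            rw [Complex.neg_re]
            linarith
          have h5 := DirichletCharacter.norm_le_one χ (m : ZMod q)
          have h6 : ‖χ (m : ZMod q)‖ * ‖(m : ℂ) ^ (-ρ)‖ ≤ 1 := mul_le_one₀ h5 (norm_nonneg _) h4
          exact mul_le_one₀ h3 (by positivity) h6
      _ = (Q : ℝ) ^ 3 := by simp
  have h3 : ‖∑ k ∈ Icc 1 (Q ^ 3 * Q ^ 7), (bb (Q ^ 3) (Q ^ 7) k : ℂ) *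
      (χ (k : ZMod q) * (k : ℂ) ^ (-ρ))‖ ≤ 1 / 2 := by
    rw [← mollify, norm_mul]
    have hQ0 : (0 : ℝ) < Q := by linarith
    calc ‖∑ m ∈ Icc 1 (Q ^ 3), (μ m : ℂ) * (χ (m : ZMod q) * (m : ℂ) ^ (-ρ))‖ * ‖LT χ (Q ^ 7) ρ‖
        ≤ (Q : ℝ) ^ 3 * (2 * Q * ((Q : ℝ) ^ 7) ^ (-(3 / 4 : ℝ))) :=
          mul_le_mul h2 h1 (norm_nonneg _) (by positivity)
      _ = 2 * (Q : ℝ) ^ (-(5 / 4 : ℝ)) := by
          have e1 : ((Q : ℝ) ^ 7) ^ (-(3 / 4 : ℝ)) = (Q : ℝ) ^ (-(21 / 4 : ℝ)) := by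
            rw [← Real.rpow_natCast, ← Real.rpow_mul hQ0.le]
            norm_num
          have e2 : (Q : ℝ) ^ 3 * Q = (Q : ℝ) ^ (4 : ℝ) := by
            norm_cast
          rw [e1]
          calc (Q : ℝ) ^ 3 * (2 * Q * (Q : ℝ) ^ (-(21 / 4 : ℝ)))
              = 2 * (((Q : ℝ) ^ 3 * Q) * (Q : ℝ) ^ (-(21 / 4 : ℝ))) := by ring
            _ = 2 * (Q : ℝ) ^ (-(5 / 4 : ℝ)) := by
                rw [e2, ← Real.rpow_add hQ0]
                norm_num
      _ ≤ 2 * (Q : ℝ) ^ (-(1 : ℝ)) := by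
          gcongr
          · linarith
          · norm_num
      _ ≤ 1 / 2 := by
          rw [Real.rpow_neg_one]
          have : (Q : ℝ)⁻¹ ≤ 1 / 4 := by
            rw [inv_le_comm₀ hQ0 (by norm_num)]
            linarith
          linarith
  have hYK : Q ^ 3 ≤ Q ^ 3 * Q ^ 7 := Nat.le_mul_of_pos_right _ (by omega)
  have hsplit : ∑ k ∈ Icc 1 (Q ^ 3 * Q ^ 7), (bb (Q ^ 3) (Q ^ 7) k : ℂ) *
      (χ (k : ZMod q) * (k : ℂ) ^ (-ρ)) = 1 + ∑ k ∈ Ioc (Q ^ 3) (Q ^ 3 * Q ^ 7),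
        (bb (Q ^ 3) (Q ^ 7) k : ℂ) * (χ (k : ZMod q) * (k : ℂ) ^ (-ρ)) := by
    have e1 : Icc 1 (Q ^ 3 * Q ^ 7) = Icc 1 (Q ^ 3) ∪ Ioc (Q ^ 3) (Q ^ 3 * Q ^ 7) := by
      ext n; simp only [mem_Icc, mem_union, mem_Ioc]; omega
    have e2 : Disjoint (Icc 1 (Q ^ 3)) (Ioc (Q ^ 3) (Q ^ 3 * Q ^ 7)) := by
      rw [Finset.disjoint_left]; intro n; simp only [mem_Icc, mem_Ioc]; omega
    rw [e1, sum_union e2]
    congr 1
    rw [Finset.sum_eq_single_of_mem 1 (by rw [mem_Icc]; exact ⟨le_rfl, hY1⟩)]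
    · rw [bb_one hY1 hN1]
      simp
    · intro k hk hk1
      rw [mem_Icc] at hk
      have hY_N : Q ^ 3 ≤ Q ^ 7 := Nat.pow_le_pow_right hQ1 (by norm_num)
      rw [bb_zero hY_N (by omega) hk.2]
      simp
  rw [hsplit] at h3
  have h4 := norm_sub_norm_le (1 : ℂ) (-(∑ k ∈ Ioc (Q ^ 3) (Q ^ 3 * Q ^ 7),
        (bb (Q ^ 3) (Q ^ 7) k : ℂ) * (χ (k : ZMod q) * (k : ℂ) ^ (-ρ))))
  rw [sub_neg_eq_add, norm_neg, norm_one] at h4
  linarith

/-! ### Halasz-Montgomery -/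

lemma char_mul_conj (χ ψ : DirichletCharacter ℂ q) (k : ℕ) :
    χ (k : ZMod q) * conj (ψ (k : ZMod q)) = (χ * ψ⁻¹) (k : ZMod q) := by
  rw [MulChar.mul_apply, ← MulChar.star_apply']
  rfl

lemma cpow_mul_conj {k : ℕ} (hk : 1 ≤ k) (ρ ρ' : ℂ) (v : ℝ) :
    ((k : ℝ) ^ v : ℝ) * ((k : ℂ) ^ (-ρ) * conj ((k : ℂ) ^ (-ρ'))) =
      (k : ℂ) ^ (-(ρ + conj ρ' - v)) := by
  have hk0 : (k : ℂ) ≠ 0 := by exact_mod_cast (by omega : k ≠ 0)
  have h3 : conj ((k : ℂ) ^ (-ρ')) = (k : ℂ) ^ (-(conj ρ')) := by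
    rw [← map_neg, Complex.cpow_conj _ _ (by
      rw [Complex.natCast_arg]
      exact Real.pi_pos.ne), Complex.conj_natCast]
  rw [h3, Complex.ofReal_cpow (Nat.cast_nonneg k), Complex.ofReal_natCast,
    ← Complex.cpow_add _ _ hk0, ← Complex.cpow_add _ _ hk0]
  congr 1
  ring

lemma card_chars_le (q : ℕ) [NeZero q] (B : Finset (DirichletCharacter ℂ q)) : B.card ≤ q := by
  have h1 : Nat.card (DirichletCharacter ℂ q) = q.totient :=
    DirichletCharacter.card_eq_totient_of_hasEnoughRootsOfUnity ℂ q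
  have : Finite (DirichletCharacter ℂ q) := inferInstance
  have := Fintype.ofFinite (DirichletCharacter ℂ q)
  calc B.card ≤ Fintype.card (DirichletCharacter ℂ q) := Finset.card_le_univ B
    _ = q.totient := by rw [← Nat.card_eq_fintype_card, h1]
    _ ≤ q := Nat.totient_le q

/-- **Zero density estimate.** -/
theorem density {T α : ℝ} (hα0 : 0 ≤ α) (hα : α ≤ 1 / 4) {Q : ℕ}
    (hQ : (q : ℝ) * (T + 3) ≤ Q) (hQ4 : 4 ≤ Q) (hT0 : 0 ≤ T)
    (B : Finset (DirichletCharacter ℂ q)) (ρ : DirichletCharacter ℂ q → ℂ)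
    (hB : ∀ χ ∈ B, χ ≠ 1 ∧ LFunction χ (ρ χ) = 0 ∧ 1 - α ≤ (ρ χ).re ∧ |(ρ χ).im| ≤ T) :
    (B.card : ℝ) ≤ 4 * Real.exp (20 * α * Real.log Q) * (2 + 10 * Real.log Q) ^ 5 := by
  classical
  have hQR : (4 : ℝ) ≤ Q := by exact_mod_cast hQ4
  have hQ1 : 1 ≤ Q := by omega
  have hq1 : (1 : ℝ) ≤ q := by exact_mod_cast Nat.one_le_iff_ne_zero.2 (NeZero.ne q)
  have hlogQ : 0 ≤ Real.log Q := Real.log_nonneg (by linarith)
  rcases B.eq_empty_or_nonempty with hBe | hBne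
  · rw [hBe, Finset.card_empty, Nat.cast_zero]
    positivity
  set Y := Q ^ 3 with hY
  set N := Q ^ 7 with hN
  set K := Y * N with hK
  have hY1 : 1 ≤ Y := Nat.one_le_pow _ _ hQ1
  have hYK : Y ≤ K := Nat.le_mul_of_pos_right _ (Nat.one_le_pow _ _ hQ1)
  have hK1 : 1 ≤ K := hY1.trans hYK
  have hlogK : Real.log K = 10 * Real.log Q := by
    rw [hK, hY, hN]
    push_cast
    rw [← pow_add, Real.log_pow]
    norm_num
  set H : ℝ := 2 + Real.log K with hH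
  have hHs : Hs K ≤ H := Hs_le.trans (by rw [hH]; linarith)
  have hHs1 : 1 + Hs K ≤ H := by
    have := Hs_le (K := K)
    rw [hH]; linarith
  have hre1 : ∀ χ ∈ B, (ρ χ).re ≤ 1 := by
    intro χ hχ
    obtain ⟨h1, h2, _, _⟩ := hB χ hχ
    by_contra h
    push Not at h
    exact LFunction_ne_zero_of_one_le_re (s := ρ χ) χ (Or.inl h1) h.le h2
  set F : DirichletCharacter ℂ q → ℂ := fun χ =>
    ∑ k ∈ Ioc Y K, (bb Y N k : ℂ) * (χ (k : ZMod q) * (k : ℂ) ^ (-(ρ χ))) with hF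
  have hF2 : ∀ χ ∈ B, 1 / 2 ≤ ‖F χ‖ := by
    intro χ hχ
    obtain ⟨h1, h2, h3, h4⟩ := hB χ hχ
    exact detect h1 h2 (by linarith) (hre1 χ hχ) h4 hQ hQ4
  -- unimodular coefficients
  set c : DirichletCharacter ℂ q → ℂ := fun χ => conj (F χ) / ‖F χ‖ with hc
  have hc1 : ∀ χ ∈ B, ‖c χ‖ = 1 := by
    intro χ hχ
    have := hF2 χ hχ
    have h0 : ‖F χ‖ ≠ 0 := by linarith
    rw [hc]
    simp only
    rw [norm_div, RCLike.norm_conj, Complex.norm_real, norm_norm, div_self h0]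
  have hcF : ∀ χ ∈ B, c χ * F χ = ‖F χ‖ := by
    intro χ hχ
    have := hF2 χ hχ
    have h0 : (‖F χ‖ : ℂ) ≠ 0 := by
      have : ‖F χ‖ ≠ 0 := by linarith
      exact_mod_cast this
    rw [hc]
    simp only
    rw [div_mul_eq_mul_div, div_eq_iff h0, mul_comm (conj (F χ)), Complex.mul_conj,
      Complex.normSq_eq_norm_sq]
    push_cast
    ring
  set G : ℕ → ℂ := fun k => ∑ χ ∈ B, c χ * (χ (k : ZMod q) * (k : ℂ) ^ (-(ρ χ))) with hG
  set v : ℝ := 1 - 2 * α with hv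
  have hS : ∑ χ ∈ B, ‖F χ‖ ≤ ∑ k ∈ Ioc Y K, |bb Y N k| * ‖G k‖ := by
    have h1 : ((∑ χ ∈ B, ‖F χ‖ : ℝ) : ℂ) = ∑ k ∈ Ioc Y K, (bb Y N k : ℂ) * G k := by
      push_cast
      rw [Finset.sum_congr rfl fun χ hχ => (hcF χ hχ).symm]
      simp only [hF, hG, Finset.mul_sum]
      rw [Finset.sum_comm]
      apply Finset.sum_congr rfl
      intro k _
      apply Finset.sum_congr rfl
      intro χ _
      ring
    have h2 : ∑ χ ∈ B, ‖F χ‖ = ‖((∑ χ ∈ B, ‖F χ‖ : ℝ) : ℂ)‖ := by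
      rw [Complex.norm_real, Real.norm_of_nonneg (Finset.sum_nonneg fun _ _ => norm_nonneg _)]
    rw [h2, h1]
    refine (norm_sum_le _ _).trans (Finset.sum_le_sum fun k _ => ?_)
    rw [norm_mul, Complex.norm_real, Real.norm_eq_abs]
  -- Cauchy-Schwarz
  have hCS : (∑ k ∈ Ioc Y K, |bb Y N k| * ‖G k‖) ^ 2 ≤
      (∑ k ∈ Ioc Y K, bb Y N k ^ 2 * (k : ℝ) ^ (-v)) * ∑ k ∈ Ioc Y K, (k : ℝ) ^ v * ‖G k‖ ^ 2 := by
    have h1 := Finset.sum_mul_sq_le_sq_mul_sq (Ioc Y K) (fun k => |bb Y N k| * (k : ℝ) ^ (-v / 2))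
      (fun k => (k : ℝ) ^ (v / 2) * ‖G k‖)
    have h2 : ∑ k ∈ Ioc Y K, |bb Y N k| * ‖G k‖ =
        ∑ k ∈ Ioc Y K, (|bb Y N k| * (k : ℝ) ^ (-v / 2)) * ((k : ℝ) ^ (v / 2) * ‖G k‖) := by
      apply Finset.sum_congr rfl
      intro k hk
      rw [mem_Ioc] at hk
      have hk0 : (0 : ℝ) < k := by exact_mod_cast (by omega : 0 < k)
      have : (k : ℝ) ^ (-v / 2) * (k : ℝ) ^ (v / 2) = 1 := by
        rw [← Real.rpow_add hk0]
        norm_num
        ring_nf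
        simp
      calc |bb Y N k| * ‖G k‖ = |bb Y N k| * ((k : ℝ) ^ (-v / 2) * (k : ℝ) ^ (v / 2)) * ‖G k‖ := by
            rw [this, mul_one]
        _ = _ := by ring
    rw [h2]
    refine h1.trans (le_of_eq ?_)
    congr 1
    · apply Finset.sum_congr rfl
      intro k hk
      rw [mem_Ioc] at hk
      have hk0 : (0 : ℝ) < k := by exact_mod_cast (by omega : 0 < k)
      rw [mul_pow, sq_abs, ← Real.rpow_natCast ((k : ℝ) ^ (-v / 2)), ← Real.rpow_mul hk0.le]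
      norm_num
    · apply Finset.sum_congr rfl
      intro k hk
      rw [mem_Ioc] at hk
      have hk0 : (0 : ℝ) < k := by exact_mod_cast (by omega : 0 < k)
      rw [mul_pow, ← Real.rpow_natCast ((k : ℝ) ^ (v / 2)), ← Real.rpow_mul hk0.le]
      norm_num
  -- first factor
  have hfac1 : ∑ k ∈ Ioc Y K, bb Y N k ^ 2 * (k : ℝ) ^ (-v) ≤ Real.exp (20 * α * Real.log Q) * H ^ 4 := by
    calc ∑ k ∈ Ioc Y K, bb Y N k ^ 2 * (k : ℝ) ^ (-v)
        ≤ ∑ k ∈ Ioc Y K, (K : ℝ) ^ (2 * α) * ((k.divisors.card : ℝ) ^ 2 / k) := by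
          apply Finset.sum_le_sum
          intro k hk
          rw [mem_Ioc] at hk
          have hk1 : 1 ≤ k := by omega
          have hk0 : (0 : ℝ) < k := by exact_mod_cast (by omega : 0 < k)
          have h1 : bb Y N k ^ 2 ≤ (k.divisors.card : ℝ) ^ 2 := by
            rw [← sq_abs (bb Y N k)]
            exact pow_le_pow_left₀ (abs_nonneg _) (abs_bb_le hk1) 2
          have h2 : (k : ℝ) ^ (-v) = (k : ℝ) ^ (2 * α) / k := by
            have : -v = 2 * α - 1 := by rw [hv]; ring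
            rw [this, Real.rpow_sub hk0, Real.rpow_one]
          have h3 : (k : ℝ) ^ (2 * α) ≤ (K : ℝ) ^ (2 * α) :=
            Real.rpow_le_rpow hk0.le (by exact_mod_cast hk.2) (by linarith)
          rw [h2]
          calc bb Y N k ^ 2 * ((k : ℝ) ^ (2 * α) / k)
              ≤ (k.divisors.card : ℝ) ^ 2 * ((K : ℝ) ^ (2 * α) / k) := by gcongr
            _ = (K : ℝ) ^ (2 * α) * ((k.divisors.card : ℝ) ^ 2 / k) := by ring
      _ = (K : ℝ) ^ (2 * α) * ∑ k ∈ Ioc Y K, ((k.divisors.card : ℝ) ^ 2 / k) := by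
          rw [Finset.mul_sum]
      _ ≤ (K : ℝ) ^ (2 * α) * ∑ k ∈ Icc 1 K, ((k.divisors.card : ℝ) ^ 2 / k) := by
          apply mul_le_mul_of_nonneg_left _ (by positivity)
          apply Finset.sum_le_sum_of_subset_of_nonneg
          · intro k hk
            rw [mem_Ioc] at hk
            rw [mem_Icc]
            omega
          · intro _ _ _
            positivity
      _ ≤ (K : ℝ) ^ (2 * α) * H ^ 4 := by
          gcongr
          exact (sum_div_card_sq_le K).trans (pow_le_pow_left₀ (Hs_nonneg K) hHs 4)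
      _ = Real.exp (20 * α * Real.log Q) * H ^ 4 := by
          rw [Real.rpow_def_of_pos (by exact_mod_cast hK1), hlogK]
          congr 2
          ring
  -- second factor
  have hterm : ∀ χ ∈ B, ∀ ψ ∈ B, ‖∑ k ∈ Ioc Y K, (χ * ψ⁻¹) (k : ZMod q) *
      (k : ℂ) ^ (-(ρ χ + conj (ρ ψ) - v))‖ ≤ (if χ = ψ then Hs K else 0) + 2 / (Q : ℝ) ^ 2 := by
    intro χ hχ ψ hψ
    obtain ⟨h1, h2, h3, h4⟩ := hB χ hχ
    obtain ⟨h1', h2', h3', h4'⟩ := hB ψ hψ
    set s : ℂ := ρ χ + conj (ρ ψ) - v with hs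
    have hsre : 1 ≤ s.re := by
      rw [hs, Complex.sub_re, Complex.add_re, Complex.conj_re, Complex.ofReal_re, hv]
      linarith
    have hsre2 : s.re ≤ 3 / 2 := by
      rw [hs, Complex.sub_re, Complex.add_re, Complex.conj_re, Complex.ofReal_re, hv]
      linarith [hre1 χ hχ, hre1 ψ hψ]
    have hsim : |s.im| ≤ 2 * T := by
      rw [hs, Complex.sub_im, Complex.add_im, Complex.conj_im, Complex.ofReal_im, sub_zero]
      calc |(ρ χ).im + -(ρ ψ).im| ≤ |(ρ χ).im| + |-(ρ ψ).im| := abs_add_le _ _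
        _ ≤ 2 * T := by rw [abs_neg]; linarith
    have hQpos : (0 : ℝ) < Q := by linarith
    by_cases h : χ = ψ
    · rw [if_pos h]
      calc ‖∑ k ∈ Ioc Y K, (χ * ψ⁻¹) (k : ZMod q) * (k : ℂ) ^ (-s)‖
          ≤ ∑ k ∈ Ioc Y K, ‖(χ * ψ⁻¹) (k : ZMod q) * (k : ℂ) ^ (-s)‖ := norm_sum_le _ _
        _ ≤ ∑ k ∈ Ioc Y K, (1 : ℝ) / k := by
            apply Finset.sum_le_sum
            intro k hk
            rw [mem_Ioc] at hk
            have hk1 : (1 : ℝ) ≤ k := by exact_mod_cast (by omega : 1 ≤ k)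
            rw [norm_mul, Complex.norm_natCast_cpow_of_pos (by omega), Complex.neg_re]
            have h5 : (k : ℝ) ^ (-s.re) ≤ (k : ℝ) ^ (-1 : ℝ) :=
              Real.rpow_le_rpow_of_exponent_le hk1 (by linarith)
            rw [Real.rpow_neg_one] at h5
            rw [one_div]
            calc ‖(χ * ψ⁻¹) (k : ZMod q)‖ * (k : ℝ) ^ (-s.re) ≤ 1 * (k : ℝ)⁻¹ :=
                  mul_le_mul (DirichletCharacter.norm_le_one _ _) h5 (by positivity) zero_le_one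
              _ = (k : ℝ)⁻¹ := one_mul _
        _ ≤ Hs K := by
            unfold Hs
            apply Finset.sum_le_sum_of_subset_of_nonneg
            · intro k hk
              rw [mem_Ioc] at hk
              rw [mem_Icc]
              omega
            · intro _ _ _
              positivity
        _ ≤ Hs K + 2 / (Q : ℝ) ^ 2 := le_add_of_nonneg_right (by positivity)
    · rw [if_neg h, zero_add]
      have hne : χ * ψ⁻¹ ≠ 1 := fun h' => h (mul_inv_eq_one.1 h')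
      refine (norm_tail_le hne (s := s) (by linarith) hY1 hYK).trans ?_
      have h5 : ‖s‖ / s.re ≤ 3 / 2 + 2 * T := by
        rw [div_le_iff₀ (by linarith)]
        have h6 : ‖s‖ ≤ 3 / 2 + 2 * T := by
          refine (Complex.norm_le_abs_re_add_abs_im s).trans ?_
          rw [abs_of_pos (by linarith : (0 : ℝ) < s.re)]
          linarith
        nlinarith
      have h6 : (Y : ℝ) ^ (-s.re) ≤ 1 / (Q : ℝ) ^ 3 := by
        calc (Y : ℝ) ^ (-s.re) ≤ (Y : ℝ) ^ (-1 : ℝ) :=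
              Real.rpow_le_rpow_of_exponent_le (by exact_mod_cast hY1) (by linarith)
          _ = 1 / (Q : ℝ) ^ 3 := by
              rw [Real.rpow_neg_one, hY]
              push_cast
              rw [one_div]
      calc (q : ℝ) * (2 + ‖s‖ / s.re) * (Y : ℝ) ^ (-s.re)
          ≤ (q * (2 + (3 / 2 + 2 * T))) * (1 / (Q : ℝ) ^ 3) := by gcongr
        _ ≤ (2 * Q) * (1 / (Q : ℝ) ^ 3) := by
            apply mul_le_mul_of_nonneg_right _ (by positivity)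
            nlinarith
        _ = 2 / (Q : ℝ) ^ 2 := by field_simp
  have hfac2 : ∑ k ∈ Ioc Y K, (k : ℝ) ^ v * ‖G k‖ ^ 2 ≤ B.card * H := by
    have h1 : ((∑ k ∈ Ioc Y K, (k : ℝ) ^ v * ‖G k‖ ^ 2 : ℝ) : ℂ) =
        ∑ χ ∈ B, ∑ ψ ∈ B, (c χ * conj (c ψ)) * ∑ k ∈ Ioc Y K, (χ * ψ⁻¹) (k : ZMod q) *
          (k : ℂ) ^ (-(ρ χ + conj (ρ ψ) - v)) := by
      have h2 : ∀ k ∈ Ioc Y K, (((k : ℝ) ^ v * ‖G k‖ ^ 2 : ℝ) : ℂ) =
          ∑ χ ∈ B, ∑ ψ ∈ B, (c χ * conj (c ψ)) * ((χ * ψ⁻¹) (k : ZMod q) *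
            (k : ℂ) ^ (-(ρ χ + conj (ρ ψ) - v))) := by
        intro k hk
        rw [mem_Ioc] at hk
        have h3 : ((‖G k‖ ^ 2 : ℝ) : ℂ) = G k * conj (G k) := by
          rw [Complex.mul_conj, Complex.normSq_eq_norm_sq]
        rw [Complex.ofReal_mul, h3]
        simp only [hG, map_sum]
        rw [Finset.sum_mul_sum, Finset.mul_sum]
        apply Finset.sum_congr rfl
        intro χ _
        rw [Finset.mul_sum]
        apply Finset.sum_congr rfl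
        intro ψ _
        rw [← cpow_mul_conj (by omega), ← char_mul_conj, map_mul, map_mul]
        ring
      rw [Complex.ofReal_sum, Finset.sum_congr rfl h2, Finset.sum_comm]
      apply Finset.sum_congr rfl
      intro χ _
      rw [Finset.sum_comm]
      apply Finset.sum_congr rfl
      intro ψ _
      rw [Finset.mul_sum]
    have h2 : ∑ k ∈ Ioc Y K, (k : ℝ) ^ v * ‖G k‖ ^ 2 =
        ‖((∑ k ∈ Ioc Y K, (k : ℝ) ^ v * ‖G k‖ ^ 2 : ℝ) : ℂ)‖ := by
      rw [Complex.norm_real, Real.norm_of_nonneg (Finset.sum_nonneg fun _ _ => by positivity)]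
    rw [h2, h1]
    calc ‖∑ χ ∈ B, ∑ ψ ∈ B, (c χ * conj (c ψ)) * ∑ k ∈ Ioc Y K, (χ * ψ⁻¹) (k : ZMod q) *
          (k : ℂ) ^ (-(ρ χ + conj (ρ ψ) - v))‖
        ≤ ∑ χ ∈ B, ∑ ψ ∈ B, ‖(c χ * conj (c ψ)) * ∑ k ∈ Ioc Y K, (χ * ψ⁻¹) (k : ZMod q) *
          (k : ℂ) ^ (-(ρ χ + conj (ρ ψ) - v))‖ :=
          (norm_sum_le _ _).trans (Finset.sum_le_sum fun χ _ => norm_sum_le _ _)
      _ ≤ ∑ χ ∈ B, ∑ ψ ∈ B, ((if χ = ψ then Hs K else 0) + 2 / (Q : ℝ) ^ 2) := by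
          apply Finset.sum_le_sum
          intro χ hχ
          apply Finset.sum_le_sum
          intro ψ hψ
          rw [norm_mul, norm_mul, RCLike.norm_conj, hc1 χ hχ, hc1 ψ hψ, one_mul, one_mul]
          exact hterm χ hχ ψ hψ
      _ = B.card * (Hs K + B.card * (2 / (Q : ℝ) ^ 2)) := by
          simp only [Finset.sum_add_distrib, Finset.sum_ite_eq, Finset.sum_const, nsmul_eq_mul,
            Finset.sum_ite_mem, Finset.inter_self]
          ring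
      _ ≤ B.card * H := by
          gcongr
          have h3 : (B.card : ℝ) ≤ Q := by
            have h4 : (B.card : ℝ) ≤ q := by exact_mod_cast card_chars_le q B
            nlinarith
          have h4 : (B.card : ℝ) * (2 / (Q : ℝ) ^ 2) ≤ 1 := by
            calc (B.card : ℝ) * (2 / (Q : ℝ) ^ 2) ≤ (Q : ℝ) * (2 / (Q : ℝ) ^ 2) :=
                  mul_le_mul_of_nonneg_right h3 (by positivity)
              _ = 2 / (Q : ℝ) := by field_simp
              _ ≤ 1 := by rw [div_le_one (by linarith)]; linarith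
          linarith
  -- conclusion
  have hcard : (0 : ℝ) < B.card := by exact_mod_cast hBne.card_pos
  have hlow : (B.card : ℝ) / 2 ≤ ∑ χ ∈ B, ‖F χ‖ := by
    have := Finset.card_nsmul_le_sum B (fun χ => ‖F χ‖) (1 / 2) hF2
    rw [nsmul_eq_mul] at this
    linarith
  have hfin : ((B.card : ℝ) / 2) ^ 2 ≤ (Real.exp (20 * α * Real.log Q) * H ^ 4) * (B.card * H) := by
    calc ((B.card : ℝ) / 2) ^ 2 ≤ (∑ χ ∈ B, ‖F χ‖) ^ 2 := pow_le_pow_left₀ (by positivity) hlow 2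
      _ ≤ (∑ k ∈ Ioc Y K, |bb Y N k| * ‖G k‖) ^ 2 :=
          pow_le_pow_left₀ (Finset.sum_nonneg fun _ _ => norm_nonneg _) hS 2
      _ ≤ _ := hCS
      _ ≤ (Real.exp (20 * α * Real.log Q) * H ^ 4) * (B.card * H) := by
          apply mul_le_mul hfac1 hfac2 (Finset.sum_nonneg fun _ _ => by positivity)
          positivity
  have hH10 : H = 2 + 10 * Real.log Q := by rw [hH, hlogK]
  have h1 : (B.card : ℝ) * B.card ≤ B.card * (4 * Real.exp (20 * α * Real.log Q) * H ^ 5) := by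
    nlinarith
  have h2 := le_of_mul_le_mul_left h1 hcard
  rw [hH10] at h2
  exact h2

end Pool.Agent.LibMaier
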