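import Pool.Agent.LibMaier.SmallBound

/-!
Primes in arithmetic progressions modulo good primorials, with a Gaussian weight.
-/

namespace Pool.Agent.LibMaier

open Filter Topology Complex DirichletCharacter MeasureTheory
open scoped ComplexConjugate ArithmeticFunction.vonMangoldt

/-- the weight of `n` -/
noncomputable def wn (x : ℝ) (n : ℕ) : ℝ := Λ n * (gw (Real.log n - x) / n)

lemma gw_nonneg (v : ℝ) : 0 ≤ gw v := by unfold gw; positivity

lemma wn_nonneg (x : ℝ) (n : ℕ) : 0 ≤ wn x n :=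
  mul_nonneg ArithmeticFunction.vonMangoldt_nonneg (div_nonneg (gw_nonneg _) (Nat.cast_nonneg _))

lemma wn_eq (x : ℝ) (n : ℕ) : wn x n = ArithmeticFunction.vonMangoldt n / n *
    (Real.exp (-(Real.log n - Real.log (Real.exp x)) ^ 2 / 2) / Real.sqrt (2 * Real.pi)) := by
  unfold wn gw
  rw [Real.log_exp]
  ring

lemma summable_wn (x : ℝ) : Summable (wn x) := by
  have h := summable_gaussian (X := Real.exp x) (Real.exp_pos x)
  exact h.congr fun n => (wn_eq x n).symm

/-- total weight -/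
noncomputable def S0 (x : ℝ) : ℝ := ∑' n, wn x n

lemma tendsto_S0 : Tendsto S0 atTop (𝓝 1) := by
  have h := gaussian_pnt.comp Real.tendsto_exp_atTop
  refine h.congr fun x => ?_
  unfold S0
  simp only [Function.comp]
  exact tsum_congr fun n => (wn_eq x n).symm

/-- orthogonality -/
theorem ap_sum_le {q : ℕ} [NeZero q] {a : ZMod q} (ha : IsUnit a) (x : ℝ) :
    ∑' n : ℕ, (if (n : ZMod q) = a then wn x n else 0) ≤ (1 / (q.totient : ℝ)) * (S0 x +
      ∑ χ ∈ (Finset.univ : Finset (DirichletCharacter ℂ q)).erase 1, ‖SS χ x‖) := by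
  classical
  have hterm : ∀ χ : DirichletCharacter ℂ q, ∀ n : ℕ,
      ‖(Λ n : ℂ) * χ (n : ZMod q) * ((gw (Real.log n - x) / n : ℝ) : ℂ)‖ ≤ wn x n := by
    intro χ n
    have hw : 0 ≤ gw (Real.log n - x) / n := div_nonneg (gw_nonneg _) (Nat.cast_nonneg _)
    rw [norm_mul, norm_mul, Complex.norm_real, Complex.norm_real, Real.norm_eq_abs,
      Real.norm_eq_abs, abs_of_nonneg ArithmeticFunction.vonMangoldt_nonneg, abs_of_nonneg hw]
    unfold wn
    apply mul_le_mul_of_nonneg_right _ hw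
    exact mul_le_of_le_one_right ArithmeticFunction.vonMangoldt_nonneg (χ.norm_le_one _)
  have hsumm : ∀ χ : DirichletCharacter ℂ q, Summable fun n : ℕ =>
      (Λ n : ℂ) * χ (n : ZMod q) * ((gw (Real.log n - x) / n : ℝ) : ℂ) := fun χ =>
    Summable.of_norm_bounded (summable_wn x) (hterm χ)
  have hSS1 : ∀ χ : DirichletCharacter ℂ q, ‖SS χ x‖ ≤ S0 x := by
    intro χ
    unfold SS S0
    exact tsum_of_norm_bounded (summable_wn x).hasSum (hterm χ)
  have hφ : 0 < q.totient := Nat.totient_pos.2 (Nat.pos_of_ne_zero (NeZero.ne q))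
  have hφR : (0 : ℝ) < q.totient := by exact_mod_cast hφ
  -- the identity
  have hid : (((q.totient : ℝ) * ∑' n : ℕ, (if (n : ZMod q) = a then wn x n else 0) : ℝ) : ℂ) =
      ∑ χ : DirichletCharacter ℂ q, χ a⁻¹ * SS χ x := by
    unfold SS
    simp_rw [← tsum_mul_left]
    rw [← Summable.tsum_finsetSum (fun χ _ => (hsumm χ).mul_left _), Complex.ofReal_tsum]
    apply tsum_congr
    intro n
    have h1 := DirichletCharacter.sum_char_inv_mul_char_eq ℂ ha (n : ZMod q)
    have h2 : ∑ χ : DirichletCharacter ℂ q, χ a⁻¹ *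
        ((Λ n : ℂ) * χ (n : ZMod q) * ((gw (Real.log n - x) / n : ℝ) : ℂ)) =
        (∑ χ : DirichletCharacter ℂ q, χ a⁻¹ * χ (n : ZMod q)) *
          ((Λ n : ℂ) * ((gw (Real.log n - x) / n : ℝ) : ℂ)) := by
      rw [Finset.sum_mul]
      apply Finset.sum_congr rfl
      intro χ _
      ring
    rw [h2, h1]
    by_cases h : a = (n : ZMod q)
    · rw [if_pos h, if_pos h.symm]
      unfold wn
      push_cast
      ring
    · rw [if_neg h, if_neg (fun h' => h h'.symm)]
      simp
  have hnn : 0 ≤ ∑' n : ℕ, (if (n : ZMod q) = a then wn x n else 0) := by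
    apply tsum_nonneg
    intro n
    split_ifs
    · exact wn_nonneg x n
    · exact le_rfl
  have hnorm : (q.totient : ℝ) * ∑' n : ℕ, (if (n : ZMod q) = a then wn x n else 0) ≤ S0 x +
      ∑ χ ∈ (Finset.univ : Finset (DirichletCharacter ℂ q)).erase 1, ‖SS χ x‖ := by
    have h1 : (q.totient : ℝ) * ∑' n : ℕ, (if (n : ZMod q) = a then wn x n else 0) =
        ‖∑ χ : DirichletCharacter ℂ q, χ a⁻¹ * SS χ x‖ := by
      rw [← hid, Complex.norm_real, Real.norm_eq_abs, abs_of_nonneg (by positivity)]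
    rw [h1]
    calc ‖∑ χ : DirichletCharacter ℂ q, χ a⁻¹ * SS χ x‖
        ≤ ∑ χ : DirichletCharacter ℂ q, ‖χ a⁻¹ * SS χ x‖ := norm_sum_le _ _
      _ ≤ ∑ χ : DirichletCharacter ℂ q, ‖SS χ x‖ := by
          apply Finset.sum_le_sum
          intro χ _
          rw [norm_mul]
          exact mul_le_of_le_one_left (norm_nonneg _) (χ.norm_le_one _)
      _ = ‖SS (1 : DirichletCharacter ℂ q) x‖ +
          ∑ χ ∈ (Finset.univ : Finset (DirichletCharacter ℂ q)).erase 1, ‖SS χ x‖ :=
          (Finset.add_sum_erase _ _ (Finset.mem_univ _)).symm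
      _ ≤ _ := by
          have := hSS1 1
          linarith
  rw [one_div, ← div_eq_inv_mul, le_div_iff₀ hφR]
  linarith

/-- **Primes in arithmetic progressions modulo good primorials.** For `1 < B ≤ 2` there are
arbitrarily large `z` such that, with `q` the product of the primes up to `z` and `x = z ^ B`,
every reduced residue class modulo `q` has Gaussian weight at most `(1 + ε) / φ(q)`. -/
theorem ap_upper {B : ℝ} (hB : 1 < B) (hB2 : B ≤ 2) {ε : ℝ} (hε : 0 < ε) (N : ℕ) :
    ∃ z : ℕ, N ≤ z ∧ ∀ a : ZMod (primorial z), IsUnit a →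
      ∑' n : ℕ, (if (n : ZMod (primorial z)) = a then wn ((z : ℝ) ^ B) n else 0) ≤
        (1 + ε) / ((primorial z).totient : ℝ) := by
  have hkk : 0 < kk := by unfold kk; norm_num
  have hx : Tendsto (fun z : ℕ => (z : ℝ) ^ B) atTop atTop :=
    (tendsto_rpow_atTop (by linarith)).comp tendsto_natCast_atTop_atTop
  have hxz : ∀ᶠ z : ℕ in atTop, 320 * Lz z ≤ (z : ℝ) ^ B := by
    have h2 : Tendsto (fun z : ℕ => (z : ℝ) ^ (B - 1)) atTop atTop :=
      (tendsto_rpow_atTop (by linarith)).comp tendsto_natCast_atTop_atTop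
    filter_upwards [h2.eventually_ge_atTop 2560, eventually_ge_atTop 1] with z h3 h4
    have hz : (1 : ℝ) ≤ z := by exact_mod_cast h4
    have h5 : (z : ℝ) ^ (B - 1) * z = (z : ℝ) ^ B := by
      nth_rewrite 2 [← Real.rpow_one (z : ℝ)]
      rw [← Real.rpow_add (by linarith)]
      congr 1
      ring
    rw [← h5]
    have := Lz_le h4
    nlinarith
  obtain ⟨N', hN'⟩ := eventually_atTop.1 ((small_bound hB hB2 (show 0 < ε / 2 by positivity)).and
    (hxz.and ((tendsto_Lz.eventually_ge_atTop (max 1 (4 * kk))).and ((eventually_ge_atTop 1).and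
    ((tendsto_S0.comp hx).eventually_lt_const (show (1 : ℝ) < 1 + ε / 2 by linarith))))))
  obtain ⟨z, hzN, hgood⟩ := good_scales (max N N')
  obtain ⟨h1, h2, h3, h4, h5⟩ := hN' z ((le_max_right _ _).trans hzN)
  have hzR : (1 : ℝ) ≤ z := by exact_mod_cast h4
  refine ⟨z, (le_max_left _ _).trans hzN, fun a ha => ?_⟩
  have h6 := sum_SS_le (z := z) h4 ((le_max_right _ _).trans h3) ((le_max_left _ _).trans h3) hgood
    (x := (z : ℝ) ^ B) (Real.one_le_rpow hzR (by linarith)) h2
  have h7 := ap_sum_le ha ((z : ℝ) ^ B)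
  refine h7.trans ?_
  rw [one_div, ← div_eq_inv_mul]
  apply div_le_div_of_nonneg_right _ (Nat.cast_nonneg _)
  simp only [Function.comp] at h5
  linarith

end Pool.Agent.LibMaier
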