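import Pool.Agent.LibMaier.APSum

/-!
The matrix of windows `(k q, k q + y]`: weighted count of primes.
-/

namespace Pool.Agent.LibMaier

open Filter Topology MeasureTheory
open scoped ArithmeticFunction.vonMangoldt

/-- the weight of the `k`-th row -/
noncomputable def Wt (q : ℕ) (x : ℝ) (k : ℕ) : ℝ :=
  ∫ v in (Real.log (k * q) - x)..(Real.log ((k + 1 : ℕ) * q) - x), gw v

lemma continuous_gw : Continuous gw := by unfold gw; fun_prop

lemma gw_le_one (v : ℝ) : gw v ≤ 1 := by
  unfold gw
  rw [div_le_one (by positivity)]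
  have h1 : Real.exp (-v ^ 2 / 2) ≤ 1 := Real.exp_le_one_iff.2 (by nlinarith [sq_nonneg v])
  have h2 : 1 ≤ Real.sqrt (2 * Real.pi) := by
    rw [Real.one_le_sqrt]
    have := Real.pi_gt_three
    linarith
  linarith

lemma log_row_sub_le {q k : ℕ} (hq : 1 ≤ q) (hk : 1 ≤ k) :
    Real.log ((k + 1 : ℕ) * q) - Real.log (k * q) ≤ 1 / k := by
  have hq' : (0 : ℝ) < q := by exact_mod_cast hq
  have hk' : (0 : ℝ) < k := by exact_mod_cast hk
  push_cast
  rw [Real.log_mul (by positivity) hq'.ne', Real.log_mul hk'.ne' hq'.ne']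
  have h1 : Real.log ((k : ℝ) + 1) - Real.log k = Real.log (1 + 1 / k) := by
    rw [← Real.log_div (by positivity) hk'.ne']
    congr 1
    field_simp
  have h2 : Real.log (1 + 1 / (k : ℝ)) ≤ 1 + 1 / (k : ℝ) - 1 :=
    Real.log_le_sub_one_of_pos (by positivity)
  linarith

lemma log_row_mono {q k : ℕ} (hq : 1 ≤ q) (hk : 1 ≤ k) :
    Real.log (k * q) ≤ Real.log ((k + 1 : ℕ) * q) := by
  have hq' : (0 : ℝ) < q := by exact_mod_cast hq
  have hk' : (0 : ℝ) < k := by exact_mod_cast hk
  apply Real.log_le_log (by positivity)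
  push_cast
  nlinarith

lemma Wt_nonneg {q k : ℕ} (hq : 1 ≤ q) (hk : 1 ≤ k) (x : ℝ) : 0 ≤ Wt q x k := by
  unfold Wt
  apply intervalIntegral.integral_nonneg
  · have := log_row_mono hq hk
    linarith
  · intro v _
    exact gw_nonneg v

lemma Wt_le_inv {q k : ℕ} (hq : 1 ≤ q) (hk : 1 ≤ k) (x : ℝ) : Wt q x k ≤ 1 / k := by
  unfold Wt
  have h1 := log_row_mono hq hk
  have h2 := log_row_sub_le hq hk
  calc ∫ v in (Real.log (k * q) - x)..(Real.log ((k + 1 : ℕ) * q) - x), gw v
      ≤ ∫ v in (Real.log (k * q) - x)..(Real.log ((k + 1 : ℕ) * q) - x), (1 : ℝ) := by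
        apply intervalIntegral.integral_mono_on (by linarith)
          (continuous_gw.intervalIntegrable _ _) (continuous_const.intervalIntegrable _ _)
        intro v _
        exact gw_le_one v
    _ = Real.log ((k + 1 : ℕ) * q) - Real.log (k * q) := by
        rw [intervalIntegral.integral_const, smul_eq_mul]
        ring
    _ ≤ 1 / k := h2

/-- comparison of the weight of a row with the weight of an integer in its window -/
lemma Wt_le {q k : ℕ} (hq : 1 ≤ q) (hk : 1 ≤ k) {x V y : ℝ} {a : ℕ}
    (hay : (a : ℝ) ≤ y) (hyk : y ≤ k)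
    (h1 : x - V ≤ Real.log (k * q)) (h2 : Real.log ((k + 1 : ℕ) * q) ≤ x + V) :
    Wt q x k ≤ Real.exp (((1 + y) * (V + 1) + y) / k) *
      (q * (gw (Real.log ((k * q + a : ℕ) : ℝ) - x) / ((k * q + a : ℕ) : ℝ))) := by
  have hq' : (1 : ℝ) ≤ q := by exact_mod_cast hq
  have hk' : (1 : ℝ) ≤ k := by exact_mod_cast hk
  have ha0 : (0 : ℝ) ≤ a := Nat.cast_nonneg a
  have hy0 : 0 ≤ y := ha0.trans hay
  have hkq : (0 : ℝ) < k * q := by positivity
  have hmono := log_row_mono hq hk
  have hsub := log_row_sub_le hq hk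
  set n : ℝ := ((k * q + a : ℕ) : ℝ) with hn
  have hn' : n = k * q + a := by rw [hn]; push_cast; ring
  have hn0 : 0 < n := by rw [hn']; positivity
  set v' : ℝ := Real.log n - x with hv'
  have hlog1 : Real.log (k * q) ≤ Real.log n := Real.log_le_log hkq (by rw [hn']; linarith)
  have hlog2 : Real.log n ≤ Real.log (k * q) + y / k := by
    have e : n = (k * q) * (1 + a / (k * q)) := by rw [hn']; field_simp
    rw [e, Real.log_mul hkq.ne' (by positivity)]
    have h3 : Real.log (1 + a / (k * q)) ≤ 1 + a / (k * q) - 1 :=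
      Real.log_le_sub_one_of_pos (by positivity)
    have h4 : (a : ℝ) / (k * q) ≤ y / k := by
      apply div_le_div₀ hy0 hay (by positivity)
      nlinarith
    linarith
  have hyk1 : y / k ≤ 1 := by rw [div_le_one (by linarith)]; exact hyk
  -- pointwise comparison
  have hpt : ∀ v ∈ Set.Icc (Real.log (k * q) - x) (Real.log ((k + 1 : ℕ) * q) - x),
      gw v ≤ Real.exp ((1 + y) * (V + 1) / k) * gw v' := by
    intro v hv
    rw [Set.mem_Icc] at hv
    obtain ⟨hv1, hv2⟩ := hv
    have hvV : |v| ≤ V + 1 := by rw [abs_le]; constructor <;> linarith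
    have hv'V : |v'| ≤ V + 1 := by rw [abs_le, hv']; constructor <;> linarith
    have hd : |v' - v| ≤ (1 + y) / k := by
      rw [add_div, abs_le, hv']
      have : 0 ≤ y / k := by positivity
      have : 0 ≤ 1 / (k : ℝ) := by positivity
      constructor <;> linarith
    have hkey : (v' ^ 2 - v ^ 2) / 2 ≤ (1 + y) * (V + 1) / k := by
      have h5 : (v' ^ 2 - v ^ 2) / 2 = (v' - v) * ((v' + v) / 2) := by ring
      rw [h5]
      have h6 : |(v' + v) / 2| ≤ V + 1 := by
        rw [abs_div, abs_of_pos (show (0 : ℝ) < 2 by norm_num), div_le_iff₀ (by norm_num)]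
        have := abs_add_le v' v
        linarith
      calc (v' - v) * ((v' + v) / 2) ≤ |(v' - v) * ((v' + v) / 2)| := le_abs_self _
        _ = |v' - v| * |(v' + v) / 2| := abs_mul _ _
        _ ≤ ((1 + y) / k) * (V + 1) := by gcongr
        _ = (1 + y) * (V + 1) / k := by ring
    unfold gw
    rw [← mul_div_assoc]
    apply div_le_div_of_nonneg_right _ (Real.sqrt_nonneg _)
    rw [← Real.exp_add]
    apply Real.exp_le_exp.2
    linarith
  have hW : Wt q x k ≤ (1 / k) * (Real.exp ((1 + y) * (V + 1) / k) * gw v') := by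
    unfold Wt
    calc ∫ v in (Real.log (k * q) - x)..(Real.log ((k + 1 : ℕ) * q) - x), gw v
        ≤ ∫ v in (Real.log (k * q) - x)..(Real.log ((k + 1 : ℕ) * q) - x),
            (Real.exp ((1 + y) * (V + 1) / k) * gw v') := by
          apply intervalIntegral.integral_mono_on (by linarith)
            (continuous_gw.intervalIntegrable _ _) (continuous_const.intervalIntegrable _ _)
          exact hpt
      _ = (Real.log ((k + 1 : ℕ) * q) - Real.log (k * q)) *
            (Real.exp ((1 + y) * (V + 1) / k) * gw v') := by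
          rw [intervalIntegral.integral_const, smul_eq_mul]
          ring
      _ ≤ _ := by
          apply mul_le_mul_of_nonneg_right hsub
          exact mul_nonneg (Real.exp_pos _).le (gw_nonneg _)
  refine hW.trans ?_
  have h7 : 1 / (k : ℝ) ≤ Real.exp (y / k) * (q / n) := by
    have h8 : 1 / (k : ℝ) = (1 + a / (k * q)) * (q / n) := by
      rw [hn']
      field_simp
    rw [h8]
    apply mul_le_mul_of_nonneg_right _ (by positivity)
    have h9 := Real.add_one_le_exp (y / k)
    have h4 : (a : ℝ) / (k * q) ≤ y / k := by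
      apply div_le_div₀ hy0 hay (by positivity)
      nlinarith
    linarith
  have h10 : 0 ≤ Real.exp ((1 + y) * (V + 1) / k) * gw v' :=
    mul_nonneg (Real.exp_pos _).le (gw_nonneg _)
  calc 1 / (k : ℝ) * (Real.exp ((1 + y) * (V + 1) / k) * gw v')
      ≤ (Real.exp (y / k) * (q / n)) * (Real.exp ((1 + y) * (V + 1) / k) * gw v') :=
        mul_le_mul_of_nonneg_right h7 h10
    _ = (Real.exp ((1 + y) * (V + 1) / k) * Real.exp (y / k)) * (q * (gw v' / n)) := by ring
    _ = Real.exp (((1 + y) * (V + 1) + y) / k) * (q * (gw v' / n)) := by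
        rw [← Real.exp_add, add_div]

/-- the reduced columns -/
noncomputable def cols (q N : ℕ) : Finset ℕ := (Finset.Icc 1 N).filter (fun a => Nat.Coprime a q)

/-- number of primes in the `k`-th row -/
noncomputable def rowc (q k N : ℕ) : ℕ := ((Finset.Ioc (k * q) (k * q + N)).filter Nat.Prime).card

lemma rowc_le {q k N : ℕ} (hq : 1 ≤ q) (hk : 1 ≤ k) :
    rowc q k N ≤ ∑ a ∈ cols q N, (if (k * q + a).Prime then 1 else 0) := by
  classical
  rw [← Finset.card_filter]
  unfold rowc
  apply Finset.card_le_card_of_injOn (fun p => p - k * q)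
  · intro p hp
    simp only [Finset.coe_filter, Set.mem_ofPred_eq, Finset.mem_Ioc] at hp
    obtain ⟨⟨h1, h2⟩, h3⟩ := hp
    simp only [Finset.coe_filter, Set.mem_ofPred_eq, cols, Finset.mem_filter, Finset.mem_Icc]
    have he : k * q + (p - k * q) = p := by omega
    rw [he]
    refine ⟨⟨⟨by omega, by omega⟩, ?_⟩, h3⟩
    -- coprimality
    by_contra hcop
    obtain ⟨r, hr, hr1, hr2⟩ := Nat.Prime.not_coprime_iff_dvd.1 hcop
    have hrp : r ∣ p := by
      rw [← he]
      exact dvd_add (hr2.mul_left k) hr1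
    have hrp' : r = p := (Nat.prime_dvd_prime_iff_eq hr h3).1 hrp
    rw [hrp'] at hr1
    have : p ≤ p - k * q := Nat.le_of_dvd (by omega) hr1
    have : 0 < k * q := Nat.mul_pos hk hq
    omega
  · intro p hp p' hp' h
    simp only [Finset.coe_filter, Set.mem_ofPred_eq, Finset.mem_Ioc] at hp hp'
    simp only at h
    omega

/-- **Weighted count of the primes in the matrix.** -/
theorem matrix_count {q k1 k2 N : ℕ} (hq : 1 ≤ q) (hk1 : 1 ≤ k1) {x V y M : ℝ} (hxV : V < x)
    (hy0 : 0 ≤ y) (hNy : (N : ℝ) ≤ y) (hyk : y ≤ k1) (hV0 : 0 ≤ V)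
    (hrow1 : x - V ≤ Real.log (k1 * q)) (hrow2 : Real.log (k2 * q) ≤ x + V)
    (hM : ∀ a : ZMod q, IsUnit a → ∑' n : ℕ, (if (n : ZMod q) = a then wn x n else 0) ≤ M) :
    ∑ k ∈ Finset.Ico k1 k2, Wt q x k * (rowc q k N : ℝ) ≤
      Real.exp (((1 + y) * (V + 1) + y) / k1) * (q / (x - V)) * ((cols q N).card * M) := by
  classical
  have hq' : (1 : ℝ) ≤ q := by exact_mod_cast hq
  have hk1' : (1 : ℝ) ≤ k1 := by exact_mod_cast hk1
  have hxV0 : 0 < x - V := by linarith
  set E : ℝ := Real.exp (((1 + y) * (V + 1) + y) / k1) with hE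
  have hE0 : 0 < E := Real.exp_pos _
  -- each prime entry
  have hentry : ∀ k ∈ Finset.Ico k1 k2, ∀ a ∈ cols q N,
      Wt q x k * (if (k * q + a).Prime then 1 else 0) ≤
        E * (q / (x - V)) * wn x (k * q + a) := by
    intro k hk a ha
    rw [Finset.mem_Ico] at hk
    rw [cols, Finset.mem_filter, Finset.mem_Icc] at ha
    have hkR : (k1 : ℝ) ≤ k := by exact_mod_cast hk.1
    have hk2R : ((k + 1 : ℕ) : ℝ) ≤ k2 := by exact_mod_cast hk.2
    have hkpos : (0 : ℝ) < k := by linarith
    have hnn : 0 ≤ E * (q / (x - V)) * wn x (k * q + a) := by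
      have := wn_nonneg x (k * q + a)
      positivity
    split_ifs with hp
    · rw [mul_one]
      have hay : (a : ℝ) ≤ y := le_trans (by exact_mod_cast ha.1.2) hNy
      have h1 : x - V ≤ Real.log (k * q) := hrow1.trans (Real.log_le_log (by positivity) (by
        gcongr))
      have h2 : Real.log ((k + 1 : ℕ) * q) ≤ x + V := le_trans (Real.log_le_log (by positivity)
        (by gcongr)) hrow2
      have h3 := Wt_le (q := q) (k := k) hq (by omega) (x := x) (V := V) hay (hyk.trans hkR) h1 h2
      refine h3.trans ?_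
      have h4 : Real.exp (((1 + y) * (V + 1) + y) / k) ≤ E := by
        rw [hE]
        apply Real.exp_le_exp.2
        apply div_le_div_of_nonneg_left (by positivity) (by linarith) hkR
      have hlog : x - V ≤ Λ (k * q + a) := by
        rw [ArithmeticFunction.vonMangoldt_apply_prime hp]
        refine h1.trans (Real.log_le_log (by positivity) ?_)
        push_cast
        have : (0 : ℝ) ≤ a := Nat.cast_nonneg a
        linarith
      set n := k * q + a with hn
      have hg : 0 ≤ gw (Real.log (n : ℝ) - x) / (n : ℝ) := div_nonneg (gw_nonneg _) (Nat.cast_nonneg _)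
      have h5 : (gw (Real.log (n : ℝ) - x) / (n : ℝ)) ≤ wn x n / (x - V) := by
        rw [le_div_iff₀ hxV0]
        unfold wn
        nlinarith
      calc Real.exp (((1 + y) * (V + 1) + y) / k) * (q * (gw (Real.log (n : ℝ) - x) / (n : ℝ)))
          ≤ E * (q * (wn x n / (x - V))) := by gcongr
        _ = E * (q / (x - V)) * wn x n := by ring
    · rw [mul_zero]
      exact hnn
  calc ∑ k ∈ Finset.Ico k1 k2, Wt q x k * (rowc q k N : ℝ)
      ≤ ∑ k ∈ Finset.Ico k1 k2, ∑ a ∈ cols q N, Wt q x k * (if (k * q + a).Prime then 1 else 0) := by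
        apply Finset.sum_le_sum
        intro k hk
        rw [Finset.mem_Ico] at hk
        rw [← Finset.mul_sum]
        apply mul_le_mul_of_nonneg_left _ (Wt_nonneg hq (by omega) x)
        have := rowc_le (q := q) (k := k) (N := N) hq (by omega)
        exact_mod_cast this
    _ = ∑ a ∈ cols q N, ∑ k ∈ Finset.Ico k1 k2, Wt q x k * (if (k * q + a).Prime then 1 else 0) :=
        Finset.sum_comm
    _ ≤ ∑ a ∈ cols q N, ∑ k ∈ Finset.Ico k1 k2, E * (q / (x - V)) * wn x (k * q + a) :=
        Finset.sum_le_sum fun a ha => Finset.sum_le_sum fun k hk => hentry k hk a ha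
    _ = ∑ a ∈ cols q N, E * (q / (x - V)) * ∑ k ∈ Finset.Ico k1 k2, wn x (k * q + a) := by
        simp_rw [Finset.mul_sum]
    _ ≤ ∑ a ∈ cols q N, E * (q / (x - V)) * M := by
        apply Finset.sum_le_sum
        intro a ha
        rw [cols, Finset.mem_filter, Finset.mem_Icc] at ha
        apply mul_le_mul_of_nonneg_left _ (by positivity)
        have hunit : IsUnit (a : ZMod q) := (ZMod.isUnit_iff_coprime a q).2 ha.2
        refine le_trans ?_ (hM (a : ZMod q) hunit)
        have hs : Summable fun n : ℕ => (if (n : ZMod q) = (a : ZMod q) then wn x n else 0) := by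
          apply Summable.of_nonneg_of_le _ _ (summable_wn x)
          · intro n
            split_ifs
            · exact wn_nonneg x n
            · exact le_rfl
          · intro n
            split_ifs
            · exact le_rfl
            · exact wn_nonneg x n
        have hinj : Set.InjOn (fun k : ℕ => k * q + a) (Finset.Ico k1 k2 : Finset ℕ) := by
          intro k _ k' _ h
          simp only [add_left_inj] at h
          exact Nat.eq_of_mul_eq_mul_right hq h
        have h6 := hs.sum_le_tsum ((Finset.Ico k1 k2).image (fun k : ℕ => k * q + a)) (by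
          intro n _
          split_ifs
          · exact wn_nonneg x n
          · exact le_rfl)
        rw [Finset.sum_image hinj] at h6
        refine le_trans (le_of_eq ?_) h6
        apply Finset.sum_congr rfl
        intro k _
        rw [if_pos]
        push_cast
        simp
    _ = E * (q / (x - V)) * ((cols q N).card * M) := by
        rw [Finset.sum_const, nsmul_eq_mul]
        ring

/-- total weight of the rows -/
lemma sum_Wt {q k1 k2 : ℕ} (x : ℝ) (h : k1 ≤ k2) :
    ∑ k ∈ Finset.Ico k1 k2, Wt q x k =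
      ∫ v in (Real.log (k1 * q) - x)..(Real.log (k2 * q) - x), gw v := by
  unfold Wt
  have := intervalIntegral.sum_integral_adjacent_intervals_Ico (μ := volume) (f := gw)
    (a := fun k : ℕ => Real.log (k * q) - x) h (fun k _ => continuous_gw.intervalIntegrable _ _)
  exact this

lemma integral_gw : ∫ v, gw v = 1 := integral_gd

lemma integrable_gw : Integrable gw := integrable_gd

lemma sum_Wt_le_one {q k1 k2 : ℕ} (x : ℝ) (h : k1 ≤ k2) (h1 : Real.log (k1 * q) ≤ Real.log (k2 * q)) :
    ∑ k ∈ Finset.Ico k1 k2, Wt q x k ≤ 1 := by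
  rw [sum_Wt x h, intervalIntegral.integral_of_le (by linarith), ← integral_gw]
  exact setIntegral_le_integral integrable_gw (Eventually.of_forall fun v => gw_nonneg v)

lemma le_sum_Wt {q k1 k2 : ℕ} {x v0 : ℝ} (h : k1 ≤ k2) (hv0 : 0 ≤ v0)
    (h1 : Real.log (k1 * q) - x ≤ -v0) (h2 : v0 ≤ Real.log (k2 * q) - x) :
    ∫ v in (-v0)..v0, gw v ≤ ∑ k ∈ Finset.Ico k1 k2, Wt q x k := by
  rw [sum_Wt x h]
  apply intervalIntegral.integral_mono_interval h1 (by linarith) h2
  · exact Eventually.of_forall fun v => gw_nonneg v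
  · exact continuous_gw.intervalIntegrable _ _

/-- weighted Jensen inequality -/
lemma jensen_weighted {s : Finset ℕ} {w f : ℕ → ℝ} (hw : ∀ i ∈ s, 0 ≤ w i)
    (hW : 0 < ∑ i ∈ s, w i) :
    (∑ i ∈ s, w i) * Real.exp (-((∑ i ∈ s, w i * f i) / ∑ i ∈ s, w i)) ≤
      ∑ i ∈ s, w i * Real.exp (-f i) := by
  set W := ∑ i ∈ s, w i with hWdef
  have h := convexOn_exp.map_sum_le (t := s) (w := fun i => w i / W) (p := fun i => -f i)
    (fun i hi => div_nonneg (hw i hi) hW.le) (by rw [← Finset.sum_div]; exact div_self hW.ne')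
    (fun i _ => Set.mem_univ _)
  simp only [smul_eq_mul] at h
  have e1 : ∑ i ∈ s, w i / W * -f i = -((∑ i ∈ s, w i * f i) / W) := by
    rw [Finset.sum_div, ← Finset.sum_neg_distrib]
    apply Finset.sum_congr rfl
    intro i _
    ring
  have e2 : ∑ i ∈ s, w i / W * Real.exp (-f i) = (∑ i ∈ s, w i * Real.exp (-f i)) / W := by
    rw [Finset.sum_div]
    apply Finset.sum_congr rfl
    intro i _
    ring
  rw [e1, e2, le_div_iff₀ hW] at h
  linarith

end Pool.Agent.LibMaier
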