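import Pool.Agent.LibMaier.Explicit

/-!
The smooth sums as contour integrals, and their size inside a zero-free rectangle.
-/

namespace Pool.Agent.LibMaier

open Filter Topology Complex DirichletCharacter MeasureTheory
open scoped ComplexConjugate ArithmeticFunction.vonMangoldt

variable {q : ℕ} [NeZero q]

/-- integrand of the contour integral -/
noncomputable def KI (χ : DirichletCharacter ℂ q) (x : ℝ) (w : ℂ) : ℂ :=
  cexp (w ^ 2 / 2 + w * x) * ND χ (1 + w)

/-- the sum of `Λ(n) n^{-1-σ}` -/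
noncomputable def LS (σ : ℝ) : ℝ := ∑' n : ℕ, Λ n * (n : ℝ) ^ (-(1 + σ))

lemma term_re_one {σ : ℝ} (n : ℕ) :
    (LSeries.term ((fun n : ℕ => (1 : DirichletCharacter ℂ 1) (n : ZMod 1)) * (fun n : ℕ => (Λ n : ℂ))) ((1 + σ : ℝ) : ℂ) n).re =
      Λ n * (n : ℝ) ^ (-(1 + σ)) := by
  rcases eq_or_ne n 0 with rfl | hn
  · simp
  · rw [term_re_real hn]
    have : (1 : DirichletCharacter ℂ 1) (n : ZMod 1) = 1 := by
      apply MulChar.one_apply
      exact isUnit_of_subsingleton _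
    rw [this]
    simp

lemma summable_LS {σ : ℝ} (hσ : 0 < σ) : Summable fun n : ℕ => Λ n * (n : ℝ) ^ (-(1 + σ)) := by
  have h := ND_re_summable (1 : DirichletCharacter ℂ 1) (s := ((1 + σ : ℝ) : ℂ))
    (by rw [Complex.ofReal_re]; linarith)
  exact h.congr fun n => term_re_one n

lemma LS_nonneg (σ : ℝ) : 0 ≤ LS σ :=
  tsum_nonneg fun n => mul_nonneg ArithmeticFunction.vonMangoldt_nonneg (by positivity)

lemma LS_le {σ : ℝ} (hσ : 0 < σ) (hσ1 : σ ≤ 1) :
    LS σ ≤ 1 / σ + 8 * Real.log (108 / σ ^ 2) := by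
  have h0 : (((1 + σ : ℝ) : ℂ)).re = 1 + σ := Complex.ofReal_re _
  have h := ND_one_re_le (q := 1) (s := ((1 + σ : ℝ) : ℂ)) (by rw [h0]; linarith)
    (by rw [h0]; linarith) (T := 0) (by simp)
  rw [ND_re _ (by rw [h0]; linarith)] at h
  simp_rw [term_re_one] at h
  unfold LS
  refine h.trans (le_of_eq ?_)
  have h1 : (1 / (((1 + σ : ℝ) : ℂ) - 1)).re = 1 / σ := by
    have : ((1 + σ : ℝ) : ℂ) - 1 = ((σ : ℝ) : ℂ) := by push_cast; ring
    rw [this, ← Complex.ofReal_one, ← Complex.ofReal_div, Complex.ofReal_re]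
  rw [h1, h0]
  norm_num

omit [NeZero q] in
lemma norm_term_le (χ : DirichletCharacter ℂ q) {w : ℂ} (n : ℕ) :
    ‖LSeries.term ((fun n : ℕ => χ (n : ZMod q)) * (fun n : ℕ => (Λ n : ℂ))) (1 + w) n‖ ≤ Λ n * (n : ℝ) ^ (-(1 + w.re)) := by
  rcases eq_or_ne n 0 with rfl | hn
  · simp
  · rw [LSeries.term_of_ne_zero hn, norm_div,
      Complex.norm_natCast_cpow_of_pos (Nat.pos_of_ne_zero hn)]
    rw [Real.rpow_neg (Nat.cast_nonneg n)]
    have h1 : ‖((fun n : ℕ => χ (n : ZMod q)) * (fun n : ℕ => (Λ n : ℂ))) n‖ ≤ Λ n := by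
      simp only [Pi.mul_apply, norm_mul, Complex.norm_real, Real.norm_eq_abs,
        abs_of_nonneg ArithmeticFunction.vonMangoldt_nonneg]
      exact mul_le_of_le_one_left ArithmeticFunction.vonMangoldt_nonneg (χ.norm_le_one _)
    simp only [Complex.add_re, Complex.one_re]
    rw [div_eq_mul_inv]
    exact mul_le_mul_of_nonneg_right h1 (by positivity)

lemma norm_ND_le_LS (χ : DirichletCharacter ℂ q) {w : ℂ} (hw : 0 < w.re) :
    ‖ND χ (1 + w)‖ ≤ LS w.re := by
  have hs : 1 < (1 + w).re := by simp; exact hw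
  rw [ND_eq χ hs, LSeries]
  refine (norm_tsum_le_tsum_norm (ND_summable χ hs).norm).trans ?_
  exact Summable.tsum_le_tsum (fun n => norm_term_le χ n) (ND_summable χ hs).norm (summable_LS hw)

lemma re_sq_line (σ t : ℝ) : ((((σ : ℂ) + t * I) ^ 2) / 2).re = (σ ^ 2 - t ^ 2) / 2 := by
  have h : ((σ : ℂ) + t * I) ^ 2 / 2 = (((σ ^ 2 - t ^ 2) / 2 : ℝ) : ℂ) + ((σ * t : ℝ) : ℂ) * I := by
    push_cast
    have : (I : ℂ) ^ 2 = -1 := Complex.I_sq
    ring_nf
    rw [this]
    ring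
  rw [h, Complex.add_re, Complex.ofReal_re, Complex.re_ofReal_mul, Complex.I_re]
  ring

lemma norm_kernel (σ t x : ℝ) :
    ‖cexp (((σ : ℂ) + t * I) ^ 2 / 2 + ((σ : ℂ) + t * I) * x)‖ =
      Real.exp ((σ ^ 2 - t ^ 2) / 2 + σ * x) := by
  rw [Complex.norm_exp, Complex.add_re, re_sq_line]
  congr 2
  simp

lemma integrable_gaussian_half : Integrable fun t : ℝ => Real.exp (-t ^ 2 / 2) := by
  have := integrable_exp_neg_mul_sq (b := 1 / 2) (by norm_num)
  refine this.congr (Eventually.of_forall fun t => ?_)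
  simp only
  congr 1
  ring

lemma integrable_kernel (σ x : ℝ) :
    Integrable fun t : ℝ => cexp (((σ : ℂ) + t * I) ^ 2 / 2 + ((σ : ℂ) + t * I) * x) := by
  refine Integrable.mono' (integrable_gaussian_half.const_mul (Real.exp (σ ^ 2 / 2 + σ * x))) ?_ ?_
  · apply Continuous.aestronglyMeasurable
    fun_prop
  · filter_upwards with t
    rw [norm_kernel, ← Real.exp_add]
    apply le_of_eq
    congr 1
    ring

/-- **Inversion formula** -/
theorem SS_eq (χ : DirichletCharacter ℂ q) {σ : ℝ} (hσ : 0 < σ) (x : ℝ) :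
    ∫ t : ℝ, KI χ x ((σ : ℂ) + t * I) = (2 * Real.pi : ℝ) * SS χ x := by
  set F : ℕ → ℝ → ℂ := fun n t => cexp (((σ : ℂ) + t * I) ^ 2 / 2 + ((σ : ℂ) + t * I) * x) *
    LSeries.term ((fun n : ℕ => χ (n : ZMod q)) * (fun n : ℕ => (Λ n : ℂ))) (1 + ((σ : ℂ) + t * I)) n with hF
  have hre : ∀ t : ℝ, ((σ : ℂ) + t * I).re = σ := fun t => by simp
  -- explicit form
  have hFe : ∀ n : ℕ, ∀ t : ℝ, F n t = ((Λ n : ℂ) * χ (n : ZMod q) * ((1 / n : ℝ) : ℂ)) *
      cexp (((σ : ℂ) + t * I) ^ 2 / 2 - ((σ : ℂ) + t * I) * ((Real.log n - x : ℝ) : ℂ)) := by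
    intro n t
    rcases eq_or_ne n 0 with rfl | hn
    · simp [hF]
    · have hn0 : (n : ℂ) ≠ 0 := by exact_mod_cast hn
      simp only [hF]
      rw [LSeries.term_of_ne_zero hn, Complex.cpow_add _ _ hn0, Complex.cpow_one]
      have h1 : (n : ℂ) ^ ((σ : ℂ) + t * I) = cexp (((σ : ℂ) + t * I) * (Real.log n : ℂ)) := by
        rw [Complex.cpow_def_of_ne_zero hn0, mul_comm, ← Complex.natCast_log]
      rw [h1]
      have h2 : cexp (((σ : ℂ) + t * I) ^ 2 / 2 - ((σ : ℂ) + t * I) * ((Real.log n - x : ℝ) : ℂ)) =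
          cexp (((σ : ℂ) + t * I) ^ 2 / 2 + ((σ : ℂ) + t * I) * x) *
            (cexp (((σ : ℂ) + t * I) * (Real.log n : ℂ)))⁻¹ := by
        rw [← Complex.exp_neg, ← Complex.exp_add]
        congr 1
        push_cast
        ring
      rw [h2]
      have h3 : cexp (((σ : ℂ) + t * I) * (Real.log n : ℂ)) ≠ 0 := Complex.exp_ne_zero _
      simp only [Pi.mul_apply]
      push_cast
      field_simp
  have hFnorm : ∀ n : ℕ, ∀ t : ℝ, ‖F n t‖ ≤
      (Λ n * (n : ℝ) ^ (-(1 + σ)) * Real.exp (σ ^ 2 / 2 + σ * x)) * Real.exp (-t ^ 2 / 2) := by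
    intro n t
    simp only [hF]
    rw [norm_mul, norm_kernel]
    have h1 := norm_term_le χ (w := (σ : ℂ) + t * I) n
    rw [hre] at h1
    calc Real.exp ((σ ^ 2 - t ^ 2) / 2 + σ * x) * ‖LSeries.term ((fun n : ℕ => χ (n : ZMod q)) * (fun n : ℕ => (Λ n : ℂ))) (1 + ((σ : ℂ) + t * I)) n‖
        ≤ Real.exp ((σ ^ 2 - t ^ 2) / 2 + σ * x) * (Λ n * (n : ℝ) ^ (-(1 + σ))) := by gcongr
      _ = (Λ n * (n : ℝ) ^ (-(1 + σ)) * Real.exp (σ ^ 2 / 2 + σ * x)) * Real.exp (-t ^ 2 / 2) := by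
          rw [mul_assoc, ← Real.exp_add, mul_comm]
          congr 2
          ring
  have hFm : ∀ n : ℕ, AEStronglyMeasurable (F n) volume := by
    intro n
    have : F n = fun t : ℝ => ((Λ n : ℂ) * χ (n : ZMod q) * ((1 / n : ℝ) : ℂ)) *
      cexp (((σ : ℂ) + t * I) ^ 2 / 2 - ((σ : ℂ) + t * I) * ((Real.log n - x : ℝ) : ℂ)) := by
      ext t
      exact hFe n t
    rw [this]
    apply Continuous.aestronglyMeasurable
    fun_prop
  have hFint : ∀ n : ℕ, Integrable (F n) := fun n =>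
    Integrable.mono' (integrable_gaussian_half.const_mul _) (hFm n)
      (Eventually.of_forall fun t => hFnorm n t)
  have hFsum : Summable fun n : ℕ => ∫ t, ‖F n t‖ := by
    have h1 : ∀ n : ℕ, ∫ t, ‖F n t‖ ≤ (Λ n * (n : ℝ) ^ (-(1 + σ))) *
        (Real.exp (σ ^ 2 / 2 + σ * x) * ∫ t : ℝ, Real.exp (-t ^ 2 / 2)) := by
      intro n
      calc ∫ t, ‖F n t‖ ≤ ∫ t, (Λ n * (n : ℝ) ^ (-(1 + σ)) * Real.exp (σ ^ 2 / 2 + σ * x)) *
            Real.exp (-t ^ 2 / 2) :=
            integral_mono (hFint n).norm (integrable_gaussian_half.const_mul _) (hFnorm n)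
        _ = _ := by
            rw [integral_const_mul]
            ring
    exact Summable.of_nonneg_of_le (fun n => integral_nonneg fun t => norm_nonneg _) h1
      ((summable_LS hσ).mul_right _)
  have h := hasSum_integral_of_summable_integral_norm hFint hFsum
  have hlhs : ∀ t : ℝ, ∑' n, F n t = KI χ x ((σ : ℂ) + t * I) := by
    intro t
    simp only [hF]
    rw [tsum_mul_left, KI, ND_eq χ (by simp; exact hσ), LSeries]
  simp_rw [hlhs] at h
  have hrhs : ∀ n : ℕ, ∫ t, F n t = ((2 * Real.pi : ℝ) : ℂ) * ((Λ n : ℂ) * χ (n : ZMod q) *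
      ((gw (Real.log n - x) / n : ℝ) : ℂ)) := by
    intro n
    simp_rw [hFe n]
    rw [integral_const_mul, gauss_int]
    push_cast
    ring
  rw [← h.tsum_eq]
  simp_rw [hrhs]
  rw [tsum_mul_left]
  rfl

lemma integrable_KI (χ : DirichletCharacter ℂ q) {σ : ℝ} (hσ : 0 < σ) (x : ℝ) :
    Integrable fun t : ℝ => KI χ x ((σ : ℂ) + t * I) := by
  have hre : ∀ t : ℝ, ((σ : ℂ) + t * I).re = σ := fun t => by simp
  refine Integrable.mono' ((integrable_kernel σ x).norm.mul_const (LS σ)) ?_ ?_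
  · have hmeas : ∀ n : ℕ, AEStronglyMeasurable (fun t : ℝ =>
        LSeries.term ((fun n : ℕ => χ (n : ZMod q)) * (fun n : ℕ => (Λ n : ℂ))) (1 + ((σ : ℂ) + t * I)) n) volume := by
      intro n
      rcases eq_or_ne n 0 with rfl | hn
      · simp only [LSeries.term_zero]
        exact aestronglyMeasurable_const
      · apply Continuous.aestronglyMeasurable
        simp only [LSeries.term_of_ne_zero hn]
        have hn0 : (n : ℂ) ≠ 0 := by exact_mod_cast hn
        apply Continuous.div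
        · fun_prop
        · apply Continuous.const_cpow
          · fun_prop
          · exact Or.inl hn0
        · intro t
          rw [Complex.cpow_def_of_ne_zero hn0]
          exact Complex.exp_ne_zero _
    have h1 : AEStronglyMeasurable (fun t : ℝ => ND χ (1 + ((σ : ℂ) + t * I))) volume := by
      have h2 : (fun t : ℝ => ND χ (1 + ((σ : ℂ) + t * I))) =
          fun t : ℝ => ∑' n : ℕ, LSeries.term ((fun n : ℕ => χ (n : ZMod q)) * (fun n : ℕ => (Λ n : ℂ))) (1 + ((σ : ℂ) + t * I)) n := by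
        ext t
        rw [ND_eq χ (by simp; exact hσ), LSeries]
      rw [h2]
      have h3 : ∀ t : ℝ, Tendsto (fun N : ℕ => ∑ n ∈ Finset.range N,
          LSeries.term ((fun n : ℕ => χ (n : ZMod q)) * (fun n : ℕ => (Λ n : ℂ))) (1 + ((σ : ℂ) + t * I)) n) atTop
          (𝓝 (∑' n : ℕ, LSeries.term ((fun n : ℕ => χ (n : ZMod q)) * (fun n : ℕ => (Λ n : ℂ))) (1 + ((σ : ℂ) + t * I)) n)) := by
        intro t
        have := ND_summable χ (s := 1 + ((σ : ℂ) + t * I)) (by simp; exact hσ)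
        exact this.hasSum.tendsto_sum_nat
      refine aestronglyMeasurable_of_tendsto_ae (u := atTop) (f := fun (N : ℕ) (t : ℝ) =>
        ∑ n ∈ Finset.range N, LSeries.term ((fun n : ℕ => χ (n : ZMod q)) * (fun n : ℕ => (Λ n : ℂ))) (1 + ((σ : ℂ) + t * I)) n) ?_
        (Eventually.of_forall h3)
      intro N
      exact Finset.aestronglyMeasurable_fun_sum _ fun n _ => hmeas n
    unfold KI
    exact (integrable_kernel σ x).aestronglyMeasurable.mul h1
  · filter_upwards with t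
    unfold KI
    rw [norm_mul]
    apply mul_le_mul_of_nonneg_left _ (norm_nonneg _)
    have := norm_ND_le_LS χ (w := (σ : ℂ) + t * I) (by rw [hre]; exact hσ)
    rwa [hre] at this

lemma integrable_gaussian_quarter : Integrable fun t : ℝ => Real.exp (-t ^ 2 / 4) := by
  have := integrable_exp_neg_mul_sq (b := 1 / 4) (by norm_num)
  refine this.congr (Eventually.of_forall fun t => ?_)
  simp only
  congr 1
  ring

lemma integral_gaussian_quarter : ∫ t : ℝ, Real.exp (-t ^ 2 / 4) ≤ 4 := by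
  have h := integral_gaussian (1 / 4)
  have h2 : ∫ t : ℝ, Real.exp (-t ^ 2 / 4) = Real.sqrt (Real.pi / (1 / 4)) := by
    rw [← h]
    congr 1
    ext t
    congr 1
    ring
  rw [h2, Real.sqrt_le_left (by norm_num)]
  have := Real.pi_le_four
  linarith

lemma exp_two_le : Real.exp 2 ≤ 8 := by
  have h : Real.exp 1 < 2.7182818286 := Real.exp_one_lt_d9
  have h1 : Real.exp 2 = Real.exp 1 ^ 2 := by rw [← Real.exp_nat_mul]; norm_num
  rw [h1]
  have h0 := Real.exp_pos 1
  nlinarith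

/-- The tail of the contour integral. -/
lemma tail_le (χ : DirichletCharacter ℂ q) {σ : ℝ} (hσ : 0 < σ) (hσ1 : σ ≤ 1) {x : ℝ}
    (hσx : σ * x ≤ 1) {R : ℝ} (hR : 0 ≤ R) :
    ‖∫ t in (Set.Ioc (-R) R)ᶜ, KI χ x ((σ : ℂ) + t * I)‖ ≤
      32 * LS σ * Real.exp (-R ^ 2 / 4) := by
  have hre : ∀ t : ℝ, ((σ : ℂ) + t * I).re = σ := fun t => by simp
  have hm : MeasurableSet (Set.Ioc (-R) R)ᶜ := measurableSet_Ioc.compl
  calc ‖∫ t in (Set.Ioc (-R) R)ᶜ, KI χ x ((σ : ℂ) + t * I)‖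
      ≤ ∫ t in (Set.Ioc (-R) R)ᶜ, ‖KI χ x ((σ : ℂ) + t * I)‖ := norm_integral_le_integral_norm _
    _ ≤ ∫ t in (Set.Ioc (-R) R)ᶜ, (8 * LS σ * Real.exp (-R ^ 2 / 4)) * Real.exp (-t ^ 2 / 4) := by
        apply setIntegral_mono_on (integrable_KI χ hσ x).norm.integrableOn
          (integrable_gaussian_quarter.const_mul _).integrableOn hm
        intro t ht
        have ht2 : R ^ 2 ≤ t ^ 2 := by
          rw [Set.mem_compl_iff, Set.mem_Ioc, not_and_or, not_lt, not_le] at ht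
          rcases ht with h | h
          · nlinarith
          · nlinarith
        unfold KI
        rw [norm_mul, norm_kernel]
        have h1 := norm_ND_le_LS χ (w := (σ : ℂ) + t * I) (by rw [hre]; exact hσ)
        rw [hre] at h1
        have h2 : Real.exp ((σ ^ 2 - t ^ 2) / 2 + σ * x) ≤
            8 * Real.exp (-R ^ 2 / 4) * Real.exp (-t ^ 2 / 4) := by
          calc Real.exp ((σ ^ 2 - t ^ 2) / 2 + σ * x)
              ≤ Real.exp (2 + -R ^ 2 / 4 + -t ^ 2 / 4) := by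
                apply Real.exp_le_exp.2
                nlinarith
            _ = Real.exp 2 * Real.exp (-R ^ 2 / 4) * Real.exp (-t ^ 2 / 4) := by
                rw [Real.exp_add, Real.exp_add]
            _ ≤ 8 * Real.exp (-R ^ 2 / 4) * Real.exp (-t ^ 2 / 4) := by
                have := exp_two_le
                gcongr
        calc Real.exp ((σ ^ 2 - t ^ 2) / 2 + σ * x) * ‖ND χ (1 + ((σ : ℂ) + t * I))‖
            ≤ (8 * Real.exp (-R ^ 2 / 4) * Real.exp (-t ^ 2 / 4)) * LS σ := by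
              gcongr
          _ = _ := by ring
    _ ≤ ∫ t : ℝ, (8 * LS σ * Real.exp (-R ^ 2 / 4)) * Real.exp (-t ^ 2 / 4) := by
        have hLS := LS_nonneg σ
        apply setIntegral_le_integral (integrable_gaussian_quarter.const_mul _)
        exact Eventually.of_forall fun t => by positivity
    _ = (8 * LS σ * Real.exp (-R ^ 2 / 4)) * ∫ t : ℝ, Real.exp (-t ^ 2 / 4) :=
        integral_const_mul _ _
    _ ≤ (8 * LS σ * Real.exp (-R ^ 2 / 4)) * 4 := by
        have hLS := LS_nonneg σ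
        exact mul_le_mul_of_nonneg_left integral_gaussian_quarter (by positivity)
    _ = 32 * LS σ * Real.exp (-R ^ 2 / 4) := by ring

/-- **Size of the smooth sums** when there are no zeros in a rectangle. -/
theorem norm_SS_le {χ : DirichletCharacter ℂ q} (hχ : χ ≠ 1) {α T : ℝ} (hα0 : 0 < α)
    (hα : α ≤ 1 / 4) (hz : ∀ ρ : ℂ, LFunction χ ρ = 0 → |ρ.im| ≤ T → ρ.re ≤ 1 - α)
    (hT : 2 ≤ T) {x : ℝ} (hx : 1 ≤ x) :
    ‖SS χ x‖ ≤ (T * Real.exp (-(α * x / 4)) + 6 * Real.exp (-(T - 2) ^ 2 / 2)) *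
      (20 * (LL q T + 3) / α ^ 2) + 6 * LS (1 / x) * Real.exp (-(T - 2) ^ 2 / 4) := by
  set D : ℝ := 20 * (LL q T + 3) / α ^ 2 with hD
  set R : ℝ := T - 2 with hR
  have hR0 : 0 ≤ R := by rw [hR]; linarith
  set σ : ℝ := 1 / x with hσ
  have hσ0 : 0 < σ := by rw [hσ]; positivity
  have hσ1 : σ ≤ 1 := by rw [hσ, div_le_one (by linarith)]; exact hx
  have hσx : σ * x = 1 := by rw [hσ]; field_simp
  have hND : ∀ w : ℂ, -(α / 4) ≤ w.re → w.re ≤ 1 → |w.im| ≤ R → ‖ND χ (1 + w)‖ ≤ D := by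
    intro w h1 h2 h3
    apply ND_norm_le hχ hα0 hα hz
    · simp; linarith
    · simp; linarith
    · simp; rw [hR] at h3; exact h3
  have hD0 : 0 ≤ D := (norm_nonneg _).trans (hND 0 (by simp; positivity) (by simp) (by simpa using hR0))
  have hdiff : DifferentiableOn ℂ (KI χ x) ((Set.uIcc (-(α / 4)) σ) ×ℂ (Set.uIcc (-R) R)) := by
    intro w hw
    rw [Complex.mem_reProdIm, Set.uIcc_of_le (by linarith), Set.uIcc_of_le (by linarith),
      Set.mem_Icc, Set.mem_Icc] at hw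
    obtain ⟨⟨h1, h2⟩, h3, h4⟩ := hw
    have hne : LFunction χ (1 + w) ≠ 0 := by
      intro h0
      have := hz (1 + w) h0 (by
        simp only [Complex.add_im, Complex.one_im, zero_add]
        rw [abs_le]
        constructor <;> rw [hR] at * <;> linarith)
      simp at this
      linarith
    apply DifferentiableAt.differentiableWithinAt
    unfold KI ND
    have hL : Differentiable ℂ (LFunction χ) := differentiable_LFunction hχ
    have hd : Differentiable ℂ (deriv (LFunction χ)) :=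
      fun z => (hL.contDiff (n := 2)).differentiable_deriv_two z
    have h5 : DifferentiableAt ℂ (fun w : ℂ => deriv (LFunction χ) (1 + w)) w :=
      (hd _).comp w (by fun_prop)
    have h6 : DifferentiableAt ℂ (fun w : ℂ => LFunction χ (1 + w)) w :=
      (hL _).comp w (by fun_prop)
    have h7 : DifferentiableAt ℂ (fun w : ℂ => cexp (w ^ 2 / 2 + w * x)) w := by fun_prop
    exact h7.mul (h5.div h6 hne).neg
  have hrect := Complex.integral_boundary_rect_eq_zero_of_differentiableOn (KI χ x)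
    (((-(α / 4) : ℝ) : ℂ) + ((-R : ℝ) : ℂ) * I) ((σ : ℂ) + (R : ℂ) * I) (by simpa using hdiff)
  have e1 : (((-(α / 4) : ℝ) : ℂ) + ((-R : ℝ) : ℂ) * I).re = -(α / 4) := by simp
  have e2 : (((-(α / 4) : ℝ) : ℂ) + ((-R : ℝ) : ℂ) * I).im = -R := by simp
  have e3 : ((σ : ℂ) + (R : ℂ) * I).re = σ := by simp
  have e4 : ((σ : ℂ) + (R : ℂ) * I).im = R := by simp
  rw [e1, e2, e3, e4] at hrect
  -- bounds for the four sides
  have hbnd : ∀ w : ℂ, -(α / 4) ≤ w.re → w.re ≤ σ → |w.im| ≤ R →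
      ‖KI χ x w‖ ≤ Real.exp ((w.re ^ 2 - w.im ^ 2) / 2 + w.re * x) * D := by
    intro w h1 h2 h3
    unfold KI
    rw [norm_mul]
    have h4 : ‖cexp (w ^ 2 / 2 + w * x)‖ = Real.exp ((w.re ^ 2 - w.im ^ 2) / 2 + w.re * x) := by
      have := norm_kernel w.re w.im x
      rwa [Complex.re_add_im] at this
    rw [h4]
    exact mul_le_mul_of_nonneg_left (hND w h1 (h2.trans hσ1) h3) (Real.exp_pos _).le
  have hleft : ‖∫ y : ℝ in (-R)..R, KI χ x (((-(α / 4) : ℝ) : ℂ) + y * I)‖ ≤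
      (2 * Real.exp (-(α * x / 4)) * D) * |R - (-R)| := by
    apply intervalIntegral.norm_integral_le_of_norm_le_const
    intro y hy
    rw [Set.uIoc_of_le (by linarith), Set.mem_Ioc] at hy
    have h1 := hbnd (((-(α / 4) : ℝ) : ℂ) + y * I) (by simp) (by simp; linarith)
      (by simp; rw [abs_le]; constructor <;> linarith)
    refine h1.trans ?_
    apply mul_le_mul_of_nonneg_right _ hD0
    have h2 : (((-(α / 4) : ℝ) : ℂ) + y * I).re = -(α / 4) := by simp
    have h3 : (((-(α / 4) : ℝ) : ℂ) + y * I).im = y := by simp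
    rw [h2, h3]
    calc Real.exp (((-(α / 4)) ^ 2 - y ^ 2) / 2 + -(α / 4) * x)
        ≤ Real.exp (1 / 2 + -(α * x / 4)) := by
          apply Real.exp_le_exp.2
          nlinarith [sq_nonneg y]
      _ = Real.exp (1 / 2) * Real.exp (-(α * x / 4)) := Real.exp_add _ _
      _ ≤ 2 * Real.exp (-(α * x / 4)) := by
          have : Real.exp (1 / 2) ≤ 2 := by
            have h4 := Real.exp_one_lt_d9
            have h5 : Real.exp (1 / 2) * Real.exp (1 / 2) = Real.exp 1 := by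
              rw [← Real.exp_add]; norm_num
            have h6 := Real.exp_pos (1 / 2)
            nlinarith
          gcongr
  have hhor : ∀ y : ℝ, |y| = R → ‖∫ u : ℝ in (-(α / 4))..σ, KI χ x ((u : ℂ) + y * I)‖ ≤
      (8 * Real.exp (-R ^ 2 / 2) * D) * |σ - (-(α / 4))| := by
    intro y hy
    apply intervalIntegral.norm_integral_le_of_norm_le_const
    intro u hu
    rw [Set.uIoc_of_le (by linarith), Set.mem_Ioc] at hu
    have h1 := hbnd ((u : ℂ) + y * I) (by simp; linarith) (by simp; linarith)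
      (by simp; rw [hy])
    refine h1.trans ?_
    apply mul_le_mul_of_nonneg_right _ hD0
    have h2 : ((u : ℂ) + y * I).re = u := by simp
    have h3 : ((u : ℂ) + y * I).im = y := by simp
    rw [h2, h3]
    have h4 : y ^ 2 = R ^ 2 := by rw [← sq_abs, hy]
    have h5 : u * x ≤ 1 := by
      have : u * x ≤ σ * x := mul_le_mul_of_nonneg_right hu.2 (by linarith)
      linarith
    have h6 : u ^ 2 ≤ 1 := by nlinarith
    calc Real.exp ((u ^ 2 - y ^ 2) / 2 + u * x)
        ≤ Real.exp (2 + -R ^ 2 / 2) := by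
          apply Real.exp_le_exp.2
          rw [h4]
          linarith
      _ = Real.exp 2 * Real.exp (-R ^ 2 / 2) := Real.exp_add _ _
      _ ≤ 8 * Real.exp (-R ^ 2 / 2) := by
          have := exp_two_le
          gcongr
  -- assemble
  have hmid : ‖∫ y : ℝ in (-R)..R, KI χ x ((σ : ℂ) + y * I)‖ ≤
      (2 * Real.exp (-(α * x / 4)) * D) * (2 * R) +
        2 * ((8 * Real.exp (-R ^ 2 / 2) * D) * 2) := by
    have hb := hhor R (abs_of_nonneg hR0)
    have ha := hhor (-R) (by rw [abs_neg, abs_of_nonneg hR0])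
    have hlen : |σ - (-(α / 4))| ≤ 2 := by rw [abs_le]; constructor <;> linarith
    have h8 : 0 ≤ 8 * Real.exp (-R ^ 2 / 2) * D := by positivity
    have hb2 := hb.trans (mul_le_mul_of_nonneg_left hlen h8)
    have ha2 := ha.trans (mul_le_mul_of_nonneg_left hlen h8)
    have hl : |R - (-R)| = 2 * R := by rw [abs_of_nonneg] <;> linarith
    rw [hl] at hleft
    have heq : I • ∫ y : ℝ in (-R)..R, KI χ x ((σ : ℂ) + y * I) =
        (I • ∫ y : ℝ in (-R)..R, KI χ x (((-(α / 4) : ℝ) : ℂ) + y * I)) -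
        (∫ u : ℝ in (-(α / 4))..σ, KI χ x ((u : ℂ) + ((-R : ℝ) : ℂ) * I)) +
        ∫ u : ℝ in (-(α / 4))..σ, KI χ x ((u : ℂ) + (R : ℂ) * I) := by
      linear_combination hrect
    have hn : ‖∫ y : ℝ in (-R)..R, KI χ x ((σ : ℂ) + y * I)‖ =
        ‖I • ∫ y : ℝ in (-R)..R, KI χ x ((σ : ℂ) + y * I)‖ := by
      rw [norm_smul, Complex.norm_I, one_mul]
    rw [hn, heq]
    have hn2 : ‖I • ∫ y : ℝ in (-R)..R, KI χ x (((-(α / 4) : ℝ) : ℂ) + y * I)‖ =
        ‖∫ y : ℝ in (-R)..R, KI χ x (((-(α / 4) : ℝ) : ℂ) + y * I)‖ := by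
      rw [norm_smul, Complex.norm_I, one_mul]
    refine (norm_add_le _ _).trans ?_
    have h9 := norm_sub_le (I • ∫ y : ℝ in (-R)..R, KI χ x (((-(α / 4) : ℝ) : ℂ) + y * I))
      (∫ u : ℝ in (-(α / 4))..σ, KI χ x ((u : ℂ) + ((-R : ℝ) : ℂ) * I))
    rw [hn2] at h9
    linarith
  have htail := tail_le χ hσ0 hσ1 hσx.le hR0
  have hfull := SS_eq χ hσ0 x
  have hsplit : ∫ t : ℝ, KI χ x ((σ : ℂ) + t * I) =
      (∫ y : ℝ in (-R)..R, KI χ x ((σ : ℂ) + y * I)) +
        ∫ t in (Set.Ioc (-R) R)ᶜ, KI χ x ((σ : ℂ) + t * I) := by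
    rw [intervalIntegral.integral_of_le (by linarith)]
    exact (integral_add_compl measurableSet_Ioc (integrable_KI χ hσ0 x)).symm
  have hpi : 3 < Real.pi := Real.pi_gt_three
  have hnorm : 2 * Real.pi * ‖SS χ x‖ ≤ ((2 * Real.exp (-(α * x / 4)) * D) * (2 * R) +
        2 * ((8 * Real.exp (-R ^ 2 / 2) * D) * 2)) + 32 * LS σ * Real.exp (-R ^ 2 / 4) := by
    have h10 : ‖((2 * Real.pi : ℝ) : ℂ) * SS χ x‖ = 2 * Real.pi * ‖SS χ x‖ := by
      rw [norm_mul, Complex.norm_real, Real.norm_eq_abs, abs_of_nonneg (by positivity)]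
    rw [← h10, ← hfull, hsplit]
    exact (norm_add_le _ _).trans (add_le_add hmid htail)
  have h11 : 6 * ‖SS χ x‖ ≤ 2 * Real.pi * ‖SS χ x‖ :=
    mul_le_mul_of_nonneg_right (by linarith) (norm_nonneg _)
  have hE1 := Real.exp_pos (-(α * x / 4))
  have hE2 := Real.exp_pos (-R ^ 2 / 2)
  have hE3 := Real.exp_pos (-R ^ 2 / 4)
  have hLS := LS_nonneg σ
  have hTR : T = R + 2 := by rw [hR]; ring
  rw [hTR]
  have p1 : 0 ≤ Real.exp (-(α * x / 4)) * D := by positivity
  have p2 : 0 ≤ Real.exp (-R ^ 2 / 2) * D := by positivity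
  have p3 : 0 ≤ LS σ * Real.exp (-R ^ 2 / 4) := by positivity
  have p4 : 0 ≤ R * (Real.exp (-(α * x / 4)) * D) := by positivity
  nlinarith

end Pool.Agent.LibMaier
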