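import Mathlib

/-! The Buchstab function and its oscillation around exp(-gamma). -/

namespace Pool.Agent.LibMaier

open MeasureTheory Filter Topology Set

/-- iterates defining the Buchstab function -/
noncomputable def bseq : ℕ → ℝ → ℝ
  | 0 => fun u => 1 / u
  | (n+1) => fun u => if u ≤ 2 then 1 / u else (1 + ∫ t in (1:ℝ)..(u-1), bseq n t) / u

/-- The Buchstab function -/
noncomputable def buchstab (u : ℝ) : ℝ := bseq (Nat.ceil u) u

namespace Buch

lemma bseq_zero (u : ℝ) : bseq 0 u = 1 / u := rfl

lemma bseq_succ (n : ℕ) (u : ℝ) :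
    bseq (n+1) u = if u ≤ 2 then 1 / u else (1 + ∫ t in (1:ℝ)..(u-1), bseq n t) / u := rfl

lemma bseq_of_le (n : ℕ) {u : ℝ} (h : u ≤ 2) : bseq n u = 1 / u := by
  cases n with
  | zero => rfl
  | succ n => rw [bseq_succ, if_pos h]

lemma bseq_stable (n : ℕ) : ∀ u : ℝ, u ≤ n + 2 → bseq (n+1) u = bseq n u := by
  induction n with
  | zero =>
    intro u hu
    rw [bseq_of_le 1 (by simpa using hu), bseq_of_le 0 (by simpa using hu)]
  | succ n ih =>
    intro u hu
    rw [bseq_succ, bseq_succ]
    split_ifs with h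
    · rfl
    · congr 2
      apply intervalIntegral.integral_congr
      intro t ht
      rw [uIcc_of_le (by push Not at h; linarith)] at ht
      apply ih
      push_cast at hu
      linarith [ht.2]

lemma bseq_stable' (n k : ℕ) (u : ℝ) (hu : u ≤ n + 2) : bseq (n+k) u = bseq n u := by
  induction k with
  | zero => rfl
  | succ k ih =>
    rw [← add_assoc, bseq_stable, ih]
    push_cast
    have : (0:ℝ) ≤ k := Nat.cast_nonneg k
    linarith

lemma buchstab_eq_bseq (n : ℕ) {u : ℝ} (hu : u ≤ n + 2) : buchstab u = bseq n u := by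
  unfold buchstab
  rcases le_total n (Nat.ceil u) with h | h
  · obtain ⟨k, hk⟩ := Nat.exists_eq_add_of_le h
    rw [hk, bseq_stable' n k u hu]
  · obtain ⟨k, hk⟩ := Nat.exists_eq_add_of_le h
    rw [hk]
    rw [bseq_stable' _ k u]
    have := Nat.le_ceil u
    linarith

end Buch

open Buch

theorem buchstab_of_le' {u : ℝ} (h2 : u ≤ 2) : buchstab u = 1 / u := by
  rw [buchstab_eq_bseq 0 (by simpa using h2), bseq_zero]

theorem buchstab_of_le {u : ℝ} (h1 : 1 ≤ u) (h2 : u ≤ 2) : u * buchstab u = 1 := by
  rw [buchstab_of_le' h2]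
  field_simp

theorem buchstab_eq {u : ℝ} (h : 2 ≤ u) : u * buchstab u = 1 + ∫ t in (1:ℝ)..(u-1), buchstab t := by
  rcases h.eq_or_lt with rfl | h'
  · rw [buchstab_of_le (by norm_num) le_rfl]
    norm_num
  · have hn : u ≤ (Nat.ceil u : ℝ) := Nat.le_ceil u
    rw [buchstab_eq_bseq (Nat.ceil u + 1) (by push_cast; linarith), bseq_succ, if_neg (by linarith)]
    have : (∫ t in (1:ℝ)..(u-1), bseq (Nat.ceil u) t) = ∫ t in (1:ℝ)..(u-1), buchstab t := by
      apply intervalIntegral.integral_congr
      intro t ht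
      rw [uIcc_of_le (by linarith)] at ht
      symm
      apply buchstab_eq_bseq
      linarith [ht.2]
    rw [this]
    field_simp

namespace Buch

lemma continuousOn_bseq (n : ℕ) : ContinuousOn (bseq n) (Set.Ici 1) := by
  induction n with
  | zero =>
    intro u hu
    have hu' : (1:ℝ) ≤ u := hu
    apply ContinuousAt.continuousWithinAt
    show ContinuousAt (fun u : ℝ => 1 / u) u
    exact continuousAt_const.div continuousAt_id (by simp; linarith)
  | succ n ih =>
    have hc : Continuous fun t : ℝ => bseq n (max 1 t) := by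
      apply ih.comp_continuous (continuous_const.max continuous_id)
      intro t
      exact Set.mem_Ici.2 (le_max_left (1:ℝ) t)
    have hF : Continuous fun x : ℝ => ∫ t in (1:ℝ)..x, bseq n (max 1 t) :=
      intervalIntegral.continuous_primitive (fun a b => hc.intervalIntegrable a b) 1
    have key : ∀ u ∈ Set.Ici (1:ℝ), bseq (n+1) u =
        (1 + ∫ t in (1:ℝ)..(max 1 (u-1)), bseq n (max 1 t)) / u := by
      intro u hu
      rw [bseq_succ]
      split_ifs with h
      · rw [max_eq_left (by linarith)]
        simp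
      · push Not at h
        rw [max_eq_right (by linarith)]
        congr 2
        apply intervalIntegral.integral_congr
        intro t ht
        rw [uIcc_of_le (by linarith)] at ht
        simp only
        rw [max_eq_right ht.1]
    apply ContinuousOn.congr _ key
    intro u hu
    have hu' : (1:ℝ) ≤ u := hu
    apply ContinuousAt.continuousWithinAt
    apply ContinuousAt.div
    · apply ContinuousAt.add continuousAt_const
      exact (hF.comp (continuous_const.max (continuous_id.sub continuous_const))).continuousAt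
    · exact continuousAt_id
    · linarith

end Buch

theorem continuousOn_buchstab : ContinuousOn buchstab (Set.Ici 1) := by
  intro u hu
  obtain ⟨n, hn⟩ := exists_nat_gt u
  have h1 : ContinuousWithinAt (bseq n) (Set.Ici 1) u := continuousOn_bseq n u hu
  apply h1.congr_of_eventuallyEq_of_mem _ hu
  have : Set.Iio ((n:ℝ) + 2) ∈ 𝓝 u := Iio_mem_nhds (by linarith)
  filter_upwards [mem_nhdsWithin_of_mem_nhds this] with t ht
  exact buchstab_eq_bseq n (le_of_lt ht)

namespace Buch

/-- continuous extension of the Buchstab function -/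
noncomputable def bt (t : ℝ) : ℝ := buchstab (max 1 t)

lemma continuous_bt : Continuous bt := by
  apply continuousOn_buchstab.comp_continuous (continuous_const.max continuous_id)
  intro t
  exact Set.mem_Ici.2 (le_max_left (1:ℝ) t)

lemma bt_eq {t : ℝ} (h : 1 ≤ t) : bt t = buchstab t := by
  unfold bt
  rw [max_eq_right h]

lemma integral_bt {a b : ℝ} (ha : 1 ≤ a) (hb : 1 ≤ b) :
    ∫ t in a..b, buchstab t = ∫ t in a..b, bt t := by
  apply intervalIntegral.integral_congr
  intro t ht
  have : 1 ≤ t := by
    rcases le_total a b with h | h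
    · rw [uIcc_of_le h] at ht; linarith [ht.1]
    · rw [uIcc_of_ge h] at ht; linarith [ht.1]
  exact (bt_eq this).symm

lemma mul_bt {u : ℝ} (h : 2 ≤ u) : u * bt u = 1 + ∫ t in (1:ℝ)..(u-1), bt t := by
  rw [bt_eq (by linarith), buchstab_eq h, integral_bt le_rfl (by linarith)]

lemma mul_bt' {u : ℝ} (h1 : 1 ≤ u) (h : u ≤ 2) : u * bt u = 1 := by
  rw [bt_eq h1, buchstab_of_le h1 h]

lemma bounds (n : ℕ) : ∀ u : ℝ, 1 ≤ u → u ≤ n + 2 → 1/2 ≤ bt u ∧ bt u ≤ 1 := by
  induction n with
  | zero =>
    intro u h1 h2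
    have h2' : u ≤ 2 := by simpa using h2
    rw [bt_eq h1, buchstab_of_le' h2']
    constructor
    · exact one_div_le_one_div_of_le (by linarith) h2'
    · rw [div_le_one (by linarith)]; exact h1
  | succ n ih =>
    intro u h1 h2
    rcases le_total u 2 with h | h
    · exact ih u h1 (by have : (0:ℝ) ≤ n := Nat.cast_nonneg n; linarith)
    · have e := mul_bt h
      push_cast at h2
      have b : ∀ t ∈ Set.Icc (1:ℝ) (u-1), 1/2 ≤ bt t ∧ bt t ≤ 1 := fun t ht =>
        ih t ht.1 (by linarith [ht.2])
      have l1 : ∫ t in (1:ℝ)..(u-1), (1/2 : ℝ) ≤ ∫ t in (1:ℝ)..(u-1), bt t :=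
        intervalIntegral.integral_mono_on (by linarith) (by simp)
          (continuous_bt.intervalIntegrable _ _) (fun t ht => (b t ht).1)
      have l2 : ∫ t in (1:ℝ)..(u-1), bt t ≤ ∫ t in (1:ℝ)..(u-1), (1 : ℝ) :=
        intervalIntegral.integral_mono_on (by linarith) (continuous_bt.intervalIntegrable _ _)
          (by simp) (fun t ht => (b t ht).2)
      rw [intervalIntegral.integral_const, smul_eq_mul] at l1 l2
      constructor
      · by_contra hc
        push Not at hc
        nlinarith
      · by_contra hc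
        push Not at hc
        nlinarith

lemma half_le_bt {u : ℝ} (h : 1 ≤ u) : 1/2 ≤ bt u := by
  obtain ⟨n, hn⟩ := exists_nat_gt u
  exact (bounds n u h (by linarith)).1

lemma bt_le_one {u : ℝ} (h : 1 ≤ u) : bt u ≤ 1 := by
  obtain ⟨n, hn⟩ := exists_nat_gt u
  exact (bounds n u h (by linarith)).2

end Buch

theorem buchstab_ge {u : ℝ} (h : 1 ≤ u) : 1/2 ≤ buchstab u := by
  rw [← bt_eq h]; exact half_le_bt h

theorem buchstab_le {u : ℝ} (h : 1 ≤ u) : buchstab u ≤ 1 := by
  rw [← bt_eq h]; exact bt_le_one h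

namespace Buch

lemma lip_low {u v : ℝ} (hu : 1 ≤ u) (huv : u ≤ v) (hv : v ≤ 2) : |bt u - bt v| ≤ v - u := by
  have e1 := mul_bt' hu (huv.trans hv)
  have e2 := mul_bt' (hu.trans huv) hv
  have e3 : bt u = 1 / u := by field_simp; linarith
  have e4 : bt v = 1 / v := by
    have : v ≠ 0 := by linarith
    field_simp; linarith
  have hv0 : 0 < v := by linarith
  have hu0 : 0 < u := by linarith
  rw [e3, e4, div_sub_div _ _ hu0.ne' hv0.ne', abs_of_nonneg (by
    apply div_nonneg _ (by positivity); linarith), div_le_iff₀ (by positivity)]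
  nlinarith [mul_pos hu0 hv0, mul_le_mul hu (hu.trans huv) zero_le_one hu0.le]

lemma lip_high {u v : ℝ} (hu : 2 ≤ u) (huv : u ≤ v) : |bt u - bt v| ≤ v - u := by
  have e1 := mul_bt hu
  have e2 := mul_bt (hu.trans huv)
  have e3 : (∫ t in (1:ℝ)..(u-1), bt t) + ∫ t in (u-1)..(v-1), bt t = ∫ t in (1:ℝ)..(v-1), bt t :=
    intervalIntegral.integral_add_adjacent_intervals (continuous_bt.intervalIntegrable _ _)
      (continuous_bt.intervalIntegrable _ _)
  have l1 : ∫ t in (u-1)..(v-1), (1/2 : ℝ) ≤ ∫ t in (u-1)..(v-1), bt t :=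
    intervalIntegral.integral_mono_on (by linarith) (by simp)
      (continuous_bt.intervalIntegrable _ _) (fun t ht => half_le_bt (by linarith [ht.1]))
  have l2 : ∫ t in (u-1)..(v-1), bt t ≤ ∫ t in (u-1)..(v-1), (1 : ℝ) :=
    intervalIntegral.integral_mono_on (by linarith) (continuous_bt.intervalIntegrable _ _)
      (by simp) (fun t ht => bt_le_one (by linarith [ht.1]))
  rw [intervalIntegral.integral_const, smul_eq_mul] at l1 l2
  have b1 := half_le_bt (show 1 ≤ u by linarith)
  have b2 := bt_le_one (show 1 ≤ u by linarith)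
  have hvu : 0 ≤ v - u := by linarith
  have key : v * (bt v - bt u) = (∫ t in (u-1)..(v-1), bt t) - (v - u) * bt u := by linarith
  have k1 : v * (bt v - bt u) ≤ (v - u) := by nlinarith
  have k2 : -(v - u) ≤ v * (bt v - bt u) := by nlinarith
  rw [abs_le]
  constructor
  · by_contra hc
    push Not at hc
    nlinarith
  · by_contra hc
    push Not at hc
    nlinarith

lemma lip {u v : ℝ} (hu : 1 ≤ u) (huv : u ≤ v) : |bt u - bt v| ≤ v - u := by
  rcases le_total v 2 with h | h
  · exact lip_low hu huv h
  · rcases le_total u 2 with h' | h'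
    · have h1 := lip_low hu h' le_rfl
      have h2 := lip_high le_rfl h
      have := abs_sub_le (bt u) (bt 2) (bt v)
      linarith
    · exact lip_high h' huv

end Buch

theorem abs_buchstab_sub_le {u v : ℝ} (hu : 1 ≤ u) (hv : 1 ≤ v) :
    |buchstab u - buchstab v| ≤ |u - v| := by
  rw [← bt_eq hu, ← bt_eq hv]
  rcases le_total u v with h | h
  · have := lip hu h
    rwa [abs_sub_comm u v, abs_of_nonneg (show 0 ≤ v - u by linarith)]
  · have := lip hv h
    rwa [abs_of_nonneg (show 0 ≤ u - v by linarith), abs_sub_comm]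

namespace Buch

/-- the kernel (1-exp(-t))/t, continuous -/
noncomputable def ph : ℝ → ℝ := dslope (fun t : ℝ => - Real.exp (-t)) 0

lemma continuous_ph : Continuous ph := by
  have h : ContinuousOn ph Set.univ := by
    unfold ph
    rw [continuousOn_dslope univ_mem]
    constructor
    · fun_prop
    · fun_prop
  exact continuousOn_univ.1 h

lemma mul_ph (t : ℝ) : t * ph t = 1 - Real.exp (-t) := by
  have := sub_smul_dslope (fun t : ℝ => - Real.exp (-t)) 0 t
  simp only [sub_zero, smul_eq_mul, neg_zero, Real.exp_zero] at this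
  unfold ph
  rw [this]
  ring

lemma ph_nonneg {t : ℝ} (ht : 0 ≤ t) : 0 ≤ ph t := by
  rcases ht.eq_or_lt with rfl | h
  · have h1 : Tendsto ph (𝓝[>] 0) (𝓝 (ph 0)) := continuous_ph.continuousWithinAt
    apply ge_of_tendsto h1
    filter_upwards [self_mem_nhdsWithin] with x hx
    have hx' : (0:ℝ) < x := hx
    have h2 := mul_ph x
    have h3 : Real.exp (-x) ≤ 1 := Real.exp_le_one_iff.2 (by linarith)
    by_contra hc
    push Not at hc
    nlinarith
  · have h2 := mul_ph t
    have h3 : Real.exp (-t) ≤ 1 := Real.exp_le_one_iff.2 (by linarith)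
    by_contra hc
    push Not at hc
    nlinarith

lemma ph_le_one {t : ℝ} (ht : 0 ≤ t) : ph t ≤ 1 := by
  have aux : ∀ x : ℝ, 0 < x → ph x ≤ 1 := by
    intro x hx
    have h2 := mul_ph x
    have h3 := Real.add_one_le_exp (-x)
    by_contra hc
    push Not at hc
    nlinarith
  rcases ht.eq_or_lt with rfl | h
  · have h1 : Tendsto ph (𝓝[>] 0) (𝓝 (ph 0)) := continuous_ph.continuousWithinAt
    apply le_of_tendsto h1
    filter_upwards [self_mem_nhdsWithin] with x hx
    exact aux x hx
  · exact aux t h

/-- the entire exponential integral -/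
noncomputable def ein (x : ℝ) : ℝ := ∫ t in (0:ℝ)..x, ph t

lemma hasDerivAt_ein (x : ℝ) : HasDerivAt ein (ph x) x :=
  intervalIntegral.integral_hasDerivAt_right (continuous_ph.intervalIntegrable _ _)
    (continuous_ph.stronglyMeasurableAtFilter _ _) continuous_ph.continuousAt

lemma ein_zero : ein 0 = 0 := by simp [ein]

lemma continuous_ein : Continuous ein := by
  rw [continuous_iff_continuousAt]
  intro x
  exact (hasDerivAt_ein x).continuousAt

lemma ein_nonneg {x : ℝ} (hx : 0 ≤ x) : 0 ≤ ein x :=
  intervalIntegral.integral_nonneg hx fun _ ht => ph_nonneg ht.1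

lemma ein_le {x : ℝ} (hx : 0 ≤ x) : ein x ≤ x := by
  have := intervalIntegral.integral_mono_on hx (continuous_ph.intervalIntegrable _ _)
    (by simp) (fun t (ht : t ∈ Set.Icc 0 x) => ph_le_one ht.1) (μ := volume) (g := fun _ => (1:ℝ))
  simpa [ein] using this

/-- the weight -/
noncomputable def ker (x : ℝ) : ℝ := Real.exp (- ein x)

lemma continuous_ker : Continuous ker := Real.continuous_exp.comp continuous_ein.neg

lemma ker_pos (x : ℝ) : 0 < ker x := Real.exp_pos _

lemma ker_le_one {x : ℝ} (hx : 0 ≤ x) : ker x ≤ 1 :=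
  Real.exp_le_one_iff.2 (by linarith [ein_nonneg hx])

lemma one_sub_le_ker {x : ℝ} (hx : 0 ≤ x) : 1 - x ≤ ker x := by
  have h1 := Real.add_one_le_exp (-ein x)
  have h2 := ein_le hx
  unfold ker
  linarith

lemma ker_zero : ker 0 = 1 := by simp [ker, ein_zero]

lemma hasDerivAt_ker (x : ℝ) : HasDerivAt ker (-(ph x) * ker x) x := by
  have h1 : HasDerivAt (fun y => - ein y) (-(ph x)) x := (hasDerivAt_ein x).neg
  have h2 := h1.exp
  have e : -(ph x) * ker x = Real.exp (- ein x) * -(ph x) := by unfold ker; ring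
  rw [e]
  exact h2

/-! integrability -/

lemma integrable_exp {u : ℝ} (hu : 0 < u) : IntegrableOn (fun x : ℝ => Real.exp (-u * x)) (Ioi 0) :=
  integrableOn_exp_mul_Ioi (by linarith) 0

lemma integral_exp {u : ℝ} (hu : 0 < u) : ∫ x in Ioi (0:ℝ), Real.exp (-u * x) = 1 / u := by
  rw [integral_exp_mul_Ioi (by linarith) 0]
  simp

lemma integrable_mul_exp {u : ℝ} (hu : 0 < u) :
    IntegrableOn (fun x : ℝ => x * Real.exp (-u * x)) (Ioi 0) := by
  have := integrableOn_rpow_mul_exp_neg_mul_rpow (p := 1) (s := 1) (b := u) (by norm_num) (by norm_num) hu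
  apply this.congr_fun _ measurableSet_Ioi
  intro x hx
  simp

lemma integrable_q {u : ℝ} (hu : 0 < u) :
    IntegrableOn (fun x : ℝ => Real.exp (-u * x) * ker x) (Ioi 0) := by
  apply Integrable.mono' (integrable_exp hu)
  · exact ((by fun_prop : Continuous fun x : ℝ => Real.exp (-u * x)).mul continuous_ker).aestronglyMeasurable
  · filter_upwards [ae_restrict_mem measurableSet_Ioi] with x hx
    rw [norm_mul, Real.norm_of_nonneg (Real.exp_pos _).le, Real.norm_of_nonneg (ker_pos x).le]
    exact mul_le_of_le_one_right (Real.exp_pos _).le (ker_le_one (le_of_lt hx))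

lemma integrable_xq {u : ℝ} (hu : 0 < u) :
    IntegrableOn (fun x : ℝ => x * Real.exp (-u * x) * ker x) (Ioi 0) := by
  apply Integrable.mono' (integrable_mul_exp hu)
  · exact ((by fun_prop : Continuous fun x : ℝ => x * Real.exp (-u * x)).mul continuous_ker).aestronglyMeasurable
  · filter_upwards [ae_restrict_mem measurableSet_Ioi] with x hx
    have hx' : (0:ℝ) < x := hx
    rw [norm_mul, Real.norm_of_nonneg (by positivity), Real.norm_of_nonneg (ker_pos x).le]
    exact mul_le_of_le_one_right (by positivity) (ker_le_one hx'.le)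

/-- the adjoint function -/
noncomputable def q (u : ℝ) : ℝ := ∫ x in Ioi (0:ℝ), Real.exp (-u * x) * ker x

lemma q_pos {u : ℝ} (hu : 0 < u) : 0 < q u := by
  unfold q
  rw [setIntegral_pos_iff_support_of_nonneg_ae]
  · have : (Function.support fun x : ℝ => Real.exp (-u * x) * ker x) = Set.univ := by
      ext x
      simp only [Function.mem_support, mem_univ, iff_true]
      exact (mul_pos (Real.exp_pos _) (ker_pos x)).ne'
    rw [this, univ_inter]
    simp
  · filter_upwards with x
    exact (mul_pos (Real.exp_pos _) (ker_pos x)).le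
  · exact integrable_q hu

lemma q_le {u : ℝ} (hu : 0 < u) : u * q u ≤ 1 := by
  have h : q u ≤ 1 / u := by
    rw [← integral_exp hu]
    apply setIntegral_mono_on (integrable_q hu) (integrable_exp hu) measurableSet_Ioi
    intro x hx
    exact mul_le_of_le_one_right (Real.exp_pos _).le (ker_le_one (le_of_lt hx))
  rw [le_div_iff₀ hu] at h
  linarith

/-- integration by parts -/
lemma q_succ {u : ℝ} (hu : 0 < u) :
    q (u + 1) = u * ∫ x in Ioi (0:ℝ), x * Real.exp (-u * x) * ker x := by
  have hd : ∀ x ∈ Ioi (0:ℝ), HasDerivAt (fun x : ℝ => x * Real.exp (-u * x) * ker x)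
      (Real.exp (-(u+1) * x) * ker x - u * (x * Real.exp (-u * x) * ker x)) x := by
    intro x _
    have h1 : HasDerivAt (fun x : ℝ => -u * x) (-u) x := by
      simpa using (hasDerivAt_id x).const_mul (-u)
    have h2 : HasDerivAt (fun x : ℝ => x * Real.exp (-u * x) * ker x)
        ((1 * Real.exp (-u * x) + x * (Real.exp (-u * x) * -u)) * ker x +
        (x * Real.exp (-u * x)) * (-ph x * ker x)) x :=
      ((hasDerivAt_id' x).mul h1.exp).mul (hasDerivAt_ker x)
    have e1 : Real.exp (-(u+1) * x) = Real.exp (-u * x) * Real.exp (-x) := by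
      rw [← Real.exp_add]; congr 1; ring
    have e2 := mul_ph x
    have e3 : Real.exp (-x) = 1 - x * ph x := by linarith
    have e : Real.exp (-(u+1) * x) * ker x - u * (x * Real.exp (-u * x) * ker x) =
        (1 * Real.exp (-u * x) + x * (Real.exp (-u * x) * -u)) * ker x +
        (x * Real.exp (-u * x)) * (-ph x * ker x) := by
      rw [e1, e3]
      ring
    rw [e]
    exact h2
  have hi : IntegrableOn (fun x : ℝ => Real.exp (-(u+1) * x) * ker x -
      u * (x * Real.exp (-u * x) * ker x)) (Ioi 0) :=
    (integrable_q (show 0 < u + 1 by linarith)).sub ((integrable_xq hu).const_mul u)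
  have hlim : Tendsto (fun x : ℝ => x * Real.exp (-u * x) * ker x) atTop (𝓝 0) := by
    have h0 : Tendsto (fun x : ℝ => x * Real.exp (-u * x)) atTop (𝓝 0) := by
      have := Real.tendsto_pow_mul_exp_neg_atTop_nhds_zero 1
      have h2 : Tendsto (fun x : ℝ => u * x) atTop atTop := tendsto_id.const_mul_atTop hu
      have h3 := (this.comp h2).const_mul (1/u)
      simp only [mul_zero] at h3
      apply h3.congr
      intro x
      simp only [Function.comp, pow_one]
      rw [show -u * x = -(u * x) by ring]
      field_simp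
    apply squeeze_zero' _ _ h0
    · filter_upwards [eventually_gt_atTop 0] with x hx
      have := ker_pos x
      positivity
    · filter_upwards [eventually_gt_atTop 0] with x hx
      exact mul_le_of_le_one_right (by positivity) (ker_le_one (le_of_lt hx))
  have hc : ContinuousWithinAt (fun x : ℝ => x * Real.exp (-u * x) * ker x) (Ici 0) 0 :=
    ((by fun_prop : Continuous fun x : ℝ => x * Real.exp (-u * x)).mul continuous_ker).continuousWithinAt
  have h := integral_Ioi_of_hasDerivAt_of_tendsto hc hd hi hlim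
  rw [integral_sub (integrable_q (show 0 < u + 1 by linarith)) ((integrable_xq hu).const_mul u),
    integral_const_mul] at h
  simp only [zero_mul, sub_zero] at h
  unfold q
  linarith

lemma hasDerivAt_q {u : ℝ} (hu : 0 < u) : HasDerivAt q (-(q (u+1)) / u) u := by
  have key := hasDerivAt_integral_of_dominated_loc_of_deriv_le (μ := volume.restrict (Ioi (0:ℝ)))
    (F := fun (v : ℝ) (x : ℝ) => Real.exp (-v * x) * ker x)
    (F' := fun (v : ℝ) (x : ℝ) => -(x * Real.exp (-v * x) * ker x)) (x₀ := u)
    (s := Ioi (u/2)) (bound := fun x => x * Real.exp (-(u/2) * x)) (Ioi_mem_nhds (by linarith))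
    ?_ ?_ ?_ ?_ ?_ ?_
  · have e : -(q (u+1)) / u = ∫ x in Ioi (0:ℝ), -(x * Real.exp (-u * x) * ker x) := by
      rw [integral_neg, q_succ hu]
      field_simp
    rw [e]
    exact key.2
  · filter_upwards with v
    exact ((by fun_prop : Continuous fun x : ℝ => Real.exp (-v * x)).mul continuous_ker).aestronglyMeasurable
  · exact integrable_q hu
  · exact (((by fun_prop : Continuous fun x : ℝ => x * Real.exp (-u * x)).mul
      continuous_ker).neg).aestronglyMeasurable
  · filter_upwards [ae_restrict_mem measurableSet_Ioi] with x hx v hv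
    have hx' : (0:ℝ) < x := hx
    have hv' : u/2 < v := hv
    rw [norm_neg, norm_mul, Real.norm_of_nonneg (by positivity), Real.norm_of_nonneg (ker_pos x).le]
    calc x * Real.exp (-v * x) * ker x ≤ x * Real.exp (-v * x) * 1 := by
          gcongr
          exact ker_le_one hx'.le
      _ ≤ x * Real.exp (-(u/2) * x) := by
          rw [mul_one]
          gcongr
  · exact integrable_mul_exp (by linarith)
  · filter_upwards with x v hv
    have h1 : HasDerivAt (fun v : ℝ => -v * x) (-x) v := by
      simpa using ((hasDerivAt_id v).neg.mul_const x)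
    have h2 := h1.exp.mul_const (ker x)
    have e : -(x * Real.exp (-v * x) * ker x) = Real.exp (-v * x) * -x * ker x := by ring
    rw [e]
    exact h2

/-! value at 1 -/

lemma abs_log_le {v : ℝ} (hv : 0 < v) : |Real.log v| ≤ 2 * v ^ ((1/2 : ℝ) - 1) + v := by
  rcases le_total 1 v with h | h
  · rw [abs_of_nonneg (Real.log_nonneg h)]
    have := Real.log_le_sub_one_of_pos hv
    have : 0 ≤ 2 * v ^ ((1/2 : ℝ) - 1) := by positivity
    linarith
  · rw [abs_of_nonpos (Real.log_nonpos hv.le h), ← Real.log_inv]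
    have := Real.log_le_rpow_div (x := v⁻¹) (by positivity) (ε := 1/2) (by norm_num)
    rw [Real.inv_rpow hv.le, ← Real.rpow_neg hv.le] at this
    have e : (-(1/2) : ℝ) = 1/2 - 1 := by norm_num
    rw [e] at this
    linarith

lemma integrable_log_exp : IntegrableOn (fun v : ℝ => Real.log v * Real.exp (-v)) (Ioi 0) := by
  have h0 : IntegrableOn (fun v : ℝ => v * Real.exp (-v)) (Ioi 0) := by
    simpa using integrable_mul_exp (u := 1) one_pos
  have h1 := (Real.GammaIntegral_convergent (s := 1/2) (by norm_num)).const_mul 2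
  have h2 := h1.add h0
  apply Integrable.mono' h2
  · exact (Real.measurable_log.mul (Real.measurable_exp.comp measurable_neg)).aestronglyMeasurable
  · filter_upwards [ae_restrict_mem measurableSet_Ioi] with v hv
    rw [norm_mul, Real.norm_eq_abs, Real.norm_eq_abs, abs_of_pos (Real.exp_pos _)]
    have := abs_log_le (show 0 < v from hv)
    calc |Real.log v| * Real.exp (-v) ≤ (2 * v ^ ((1/2 : ℝ) - 1) + v) * Real.exp (-v) := by gcongr
      _ = _ := by
        simp only [Pi.add_apply]
        ring

lemma integral_log_exp : ∫ v in Ioi (0:ℝ), Real.log v * Real.exp (-v) = -Real.eulerMascheroniConstant := by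
  have h1 := Complex.hasDerivAt_GammaIntegral (s := 1) (by simp)
  have h2 : HasDerivAt Complex.GammaIntegral (-(Real.eulerMascheroniConstant : ℂ)) 1 := by
    apply Complex.hasDerivAt_Gamma_one.congr_of_eventuallyEq
    have : {s : ℂ | 0 < s.re} ∈ 𝓝 (1:ℂ) := by
      apply (isOpen_lt continuous_const Complex.continuous_re).mem_nhds
      simp
    filter_upwards [this] with s hs
    exact (Complex.Gamma_eq_integral hs).symm
  have h3 := h1.unique h2
  have h4 : ∫ t in Ioi (0:ℝ), (t : ℂ) ^ ((1:ℂ) - 1) * ((Real.log t : ℂ) * (Real.exp (-t) : ℂ)) =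
      ((∫ v in Ioi (0:ℝ), Real.log v * Real.exp (-v) : ℝ) : ℂ) := by
    rw [← integral_complex_ofReal]
    apply setIntegral_congr_fun measurableSet_Ioi
    intro t ht
    simp
  rw [h4] at h3
  exact_mod_cast h3

/-- auxiliary primitive of exp(-t) log t -/
noncomputable def psi (t : ℝ) : ℝ := (1 - Real.exp (-t)) * Real.log t - ein t

lemma hasDerivAt_psi {t : ℝ} (ht : 0 < t) : HasDerivAt psi (Real.log t * Real.exp (-t)) t := by
  have h1 : HasDerivAt (fun t : ℝ => 1 - Real.exp (-t)) (Real.exp (-t)) t := by
    have := ((hasDerivAt_id t).neg.exp).const_sub 1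
    simpa using this
  have h2 := (h1.mul (Real.hasDerivAt_log ht.ne')).sub (hasDerivAt_ein t)
  have e : Real.log t * Real.exp (-t) =
      Real.exp (-t) * Real.log t + (1 - Real.exp (-t)) * t⁻¹ - ph t := by
    rw [← mul_ph t]
    field_simp
    ring
  rw [e]
  exact h2

lemma psi_zero : psi 0 = 0 := by simp [psi, ein_zero]

lemma continuousWithinAt_psi : ContinuousWithinAt psi (Ici 0) 0 := by
  unfold psi
  apply ContinuousWithinAt.sub _ continuous_ein.continuousWithinAt
  have h1 : Tendsto (fun t : ℝ => ph t * (t * Real.log t)) (𝓝 0) (𝓝 (ph 0 * (0 * Real.log 0))) :=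
    (continuous_ph.mul Real.continuous_mul_log).tendsto 0
  have : ContinuousAt (fun t : ℝ => (1 - Real.exp (-t)) * Real.log t) 0 := by
    unfold ContinuousAt
    have e : (fun t : ℝ => (1 - Real.exp (-t)) * Real.log t) = fun t => ph t * (t * Real.log t) := by
      ext t
      rw [← mul_ph t]
      ring
    rw [e]
    exact h1
  exact this.continuousWithinAt

lemma psi_eq {x : ℝ} (hx : 0 ≤ x) : ∫ t in (0:ℝ)..x, Real.log t * Real.exp (-t) = psi x := by
  have h := intervalIntegral.integral_eq_sub_of_hasDerivAt_of_le hx (f := psi)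
    (f' := fun t => Real.log t * Real.exp (-t)) ?_ (fun t ht => hasDerivAt_psi ht.1) ?_
  · rw [h, psi_zero, sub_zero]
  · intro t ht
    rcases ht.1.eq_or_lt with h0 | h0
    · rw [← h0]
      exact continuousWithinAt_psi.mono Icc_subset_Ici_self
    · exact (hasDerivAt_psi h0).continuousAt.continuousWithinAt
  · rw [intervalIntegrable_iff_integrableOn_Ioc_of_le hx]
    exact integrable_log_exp.mono_set Ioc_subset_Ioi_self

lemma tendsto_psi : Tendsto psi atTop (𝓝 (-Real.eulerMascheroniConstant)) := by
  have h := intervalIntegral_tendsto_integral_Ioi 0 integrable_log_exp tendsto_id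
  rw [integral_log_exp] at h
  apply h.congr'
  filter_upwards [eventually_ge_atTop 0] with x hx
  exact psi_eq hx

lemma tendsto_exp_mul_log : Tendsto (fun x : ℝ => Real.exp (-x) * Real.log x) atTop (𝓝 0) := by
  have h := Real.tendsto_pow_mul_exp_neg_atTop_nhds_zero 1
  apply squeeze_zero' _ _ h
  · filter_upwards [eventually_ge_atTop 1] with x hx
    exact mul_nonneg (Real.exp_pos _).le (Real.log_nonneg hx)
  · filter_upwards [eventually_ge_atTop 1] with x hx
    have := Real.log_le_sub_one_of_pos (show 0 < x by linarith)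
    rw [pow_one, mul_comm]
    exact mul_le_mul_of_nonneg_right (by linarith) (Real.exp_pos _).le

lemma tendsto_mul_ker : Tendsto (fun x : ℝ => x * ker x) atTop
    (𝓝 (Real.exp (-Real.eulerMascheroniConstant))) := by
  have h := ((tendsto_psi.add tendsto_exp_mul_log).rexp)
  rw [add_zero] at h
  apply h.congr'
  filter_upwards [eventually_gt_atTop 0] with x hx
  have : psi x + Real.exp (-x) * Real.log x = Real.log x + - ein x := by unfold psi; ring
  rw [this, Real.exp_add, Real.exp_log hx]
  rfl

lemma q_one : q 1 = Real.exp (-Real.eulerMascheroniConstant) := by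
  have hd : ∀ x ∈ Ioi (0:ℝ), HasDerivAt (fun x : ℝ => x * ker x) (Real.exp (-1 * x) * ker x) x := by
    intro x _
    have h := (hasDerivAt_id x).mul (hasDerivAt_ker x)
    have e : Real.exp (-1 * x) * ker x = 1 * ker x + id x * (-(ph x) * ker x) := by
      have e2 := mul_ph x
      have e3 : Real.exp (-1 * x) = 1 - x * ph x := by rw [neg_one_mul]; linarith
      rw [e3]
      simp only [id]
      ring
    rw [e]
    exact h
  have h := integral_Ioi_of_hasDerivAt_of_tendsto (a := 0) (f := fun x : ℝ => x * ker x)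
    (continuous_id.mul continuous_ker).continuousWithinAt hd (integrable_q one_pos) tendsto_mul_ker
  simp only [zero_mul, sub_zero] at h
  exact h


/-! the invariants -/

lemma continuousOn_q : ContinuousOn q (Ioi 0) := fun _ hu => (hasDerivAt_q hu).continuousAt.continuousWithinAt

/-- continuous extension of q(t+1) to the line -/
noncomputable def qt (t : ℝ) : ℝ := q (max 1 (t+1))

lemma continuous_qt : Continuous qt := by
  apply continuousOn_q.comp_continuous (continuous_const.max (continuous_id.add continuous_const))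
  intro t
  exact lt_of_lt_of_le one_pos (le_max_left (1:ℝ) _)

lemma qt_eq {t : ℝ} (h : 0 ≤ t) : qt t = q (t+1) := by
  unfold qt
  rw [max_eq_right (by linarith)]

/-- D is constant -/
noncomputable def dd (u : ℝ) : ℝ := u * q u + ∫ t in (u-1)..u, qt t

lemma hasDerivAt_int {f : ℝ → ℝ} (hf : Continuous f) (u : ℝ) :
    HasDerivAt (fun u : ℝ => ∫ t in (u-1)..u, f t) (f u - f (u-1)) u := by
  have h1 : ∀ v : ℝ, (∫ t in (v-1)..v, f t) = (∫ t in (0:ℝ)..v, f t) - ∫ t in (0:ℝ)..(v-1), f t := by
    intro v
    rw [intervalIntegral.integral_interval_sub_left (hf.intervalIntegrable _ _)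
      (hf.intervalIntegrable _ _)]
  have h2 : HasDerivAt (fun v : ℝ => ∫ t in (0:ℝ)..v, f t) (f u) u :=
    intervalIntegral.integral_hasDerivAt_right (hf.intervalIntegrable _ _)
    (hf.stronglyMeasurableAtFilter _ _) hf.continuousAt
  have h3 : HasDerivAt (fun v : ℝ => ∫ t in (0:ℝ)..v, f t) (f (u-1)) (u-1) :=
    intervalIntegral.integral_hasDerivAt_right (hf.intervalIntegrable _ _)
    (hf.stronglyMeasurableAtFilter _ _) hf.continuousAt
  have h4 : HasDerivAt (fun v : ℝ => ∫ t in (0:ℝ)..(v-1), f t) (f (u-1)) u := by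
    have := h3.comp_sub_const u 1
    exact this
  have h5 := h2.sub h4
  apply h5.congr_of_eventuallyEq
  filter_upwards with v
  exact h1 v

lemma hasDerivAt_dd {u : ℝ} (hu : 1 < u) : HasDerivAt dd 0 u := by
  have h1 := ((hasDerivAt_id u).mul (hasDerivAt_q (show 0 < u by linarith))).add
    (hasDerivAt_int continuous_qt u)
  have e : (0:ℝ) = 1 * q u + id u * (-(q (u+1)) / u) + (qt u - qt (u-1)) := by
    rw [qt_eq (by linarith), qt_eq (by linarith), sub_add_cancel]
    simp only [id]
    field_simp
    ring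
  rw [e]
  exact h1

lemma le_mul_q {u : ℝ} (hu : 0 < u) : 1 - 1 / u ≤ u * q u := by
  have h1 : ∫ x in Ioi (0:ℝ), (Real.exp (-u * x) - x * Real.exp (-u * x)) ≤ q u := by
    apply setIntegral_mono_on ((integrable_exp hu).sub (integrable_mul_exp hu)) (integrable_q hu)
      measurableSet_Ioi
    intro x hx
    have hx' : (0:ℝ) < x := hx
    have h2 := one_sub_le_ker hx'.le
    have h3 := Real.exp_pos (-u * x)
    show Real.exp (-u * x) - x * Real.exp (-u * x) ≤ Real.exp (-u * x) * ker x
    nlinarith
  rw [integral_sub (integrable_exp hu) (integrable_mul_exp hu), integral_exp hu] at h1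
  have h2 : ∫ x in Ioi (0:ℝ), x * Real.exp (-u * x) = 1 / u ^ 2 := by
    have := Real.integral_rpow_mul_exp_neg_mul_Ioi (a := 2) (r := u) (by norm_num) hu
    rw [show (2:ℝ) - 1 = 1 by norm_num] at this
    simp only [Real.rpow_one] at this
    rw [show (fun x : ℝ => x * Real.exp (-u * x)) = fun x => x * Real.exp (-(u * x)) by
      ext x; rw [neg_mul], this, Real.Gamma_two]
    rw [mul_one, Real.rpow_two]
    field_simp
  rw [h2] at h1
  have h3 : u * (1 / u - 1 / u ^ 2) ≤ u * q u := mul_le_mul_of_nonneg_left h1 hu.le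
  have h4 : u * (1 / u - 1 / u ^ 2) = 1 - 1 / u := by field_simp
  linarith

lemma tendsto_dd : Tendsto dd atTop (𝓝 1) := by
  have h1 : Tendsto (fun u : ℝ => 1 - 1 / u) atTop (𝓝 1) := by
    have := (tendsto_inv_atTop_zero (𝕜 := ℝ)).const_sub 1
    simpa using this
  have h2 : Tendsto (fun u : ℝ => 1 + 1 / u) atTop (𝓝 1) := by
    have := (tendsto_inv_atTop_zero (𝕜 := ℝ)).const_add 1
    simpa using this
  apply tendsto_of_tendsto_of_tendsto_of_le_of_le' h1 h2
  · filter_upwards [eventually_ge_atTop 1] with u hu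
    have h3 := le_mul_q (show 0 < u by linarith)
    have h4 : 0 ≤ ∫ t in (u-1)..u, qt t := by
      apply intervalIntegral.integral_nonneg (by linarith)
      intro t ht
      rw [qt_eq (by linarith [ht.1])]
      exact (q_pos (by linarith [ht.1])).le
    unfold dd
    linarith
  · filter_upwards [eventually_ge_atTop 1] with u hu
    have h3 := q_le (show 0 < u by linarith)
    have h4 : ∫ t in (u-1)..u, qt t ≤ ∫ t in (u-1)..u, (1 / u : ℝ) := by
      apply intervalIntegral.integral_mono_on (by linarith) (continuous_qt.intervalIntegrable _ _) (by simp)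
      intro t ht
      rw [qt_eq (by linarith [ht.1])]
      have h5 := q_le (show 0 < t + 1 by linarith [ht.1])
      have h6 := q_pos (show 0 < t + 1 by linarith [ht.1])
      rw [le_div_iff₀ (by linarith)]
      nlinarith [ht.1]
    rw [intervalIntegral.integral_const, smul_eq_mul] at h4
    unfold dd
    have : (u - (u-1)) * (1/u) = 1/u := by ring
    linarith

lemma dd_eq {u : ℝ} (hu : 1 < u) : dd u = 1 := by
  have hc : ∀ v ∈ Ioi (1:ℝ), dd v = dd u := by
    intro v hv
    have := (convex_Ioi (1:ℝ)).is_const_of_fderivWithin_eq_zero (𝕜 := ℝ) (f := dd)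
      (fun x hx => (hasDerivAt_dd hx).differentiableAt.differentiableWithinAt)
      (fun x hx => ?_) hv hu
    · exact this
    · have h := (hasDerivAt_dd hx).hasFDerivAt.hasFDerivWithinAt (s := Ioi 1)
      rw [h.fderivWithin ((isOpen_Ioi).uniqueDiffWithinAt hx)]
      ext
      simp
  have h := tendsto_dd
  have h2 : Tendsto dd atTop (𝓝 (dd u)) := by
    apply tendsto_const_nhds.congr'
    filter_upwards [eventually_gt_atTop 1] with v hv
    exact (hc v hv).symm
  exact tendsto_nhds_unique h2 h

/-- e^{-gamma} -/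
noncomputable def cg : ℝ := Real.exp (-Real.eulerMascheroniConstant)

/-- difference with the limit -/
noncomputable def ww (t : ℝ) : ℝ := bt t - cg

lemma continuous_ww : Continuous ww := continuous_bt.sub continuous_const

/-- the main invariant -/
noncomputable def jj (u : ℝ) : ℝ := (u * ww u) * q u + ∫ t in (u-1)..u, ww t * qt t

lemma hasDerivWithinAt_mul_ww {u : ℝ} (hu : 2 ≤ u) :
    HasDerivWithinAt (fun u => u * ww u) (ww (u-1)) (Ici u) u := by
  have h3 : HasDerivAt (fun v : ℝ => ∫ t in (1:ℝ)..v, bt t) (bt (u-1)) (u-1) :=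
    intervalIntegral.integral_hasDerivAt_right (continuous_bt.intervalIntegrable _ _)
    (continuous_bt.stronglyMeasurableAtFilter _ _) continuous_bt.continuousAt
  have h4 : HasDerivAt (fun v : ℝ => ∫ t in (1:ℝ)..(v-1), bt t) (bt (u-1)) u :=
    h3.comp_sub_const u 1
  have h5 : HasDerivAt (fun v : ℝ => (1 + ∫ t in (1:ℝ)..(v-1), bt t) - v * cg) (bt (u-1) - 1 * cg) u :=
    (h4.const_add 1).sub ((hasDerivAt_id u).mul_const cg)
  have e : ww (u-1) = bt (u-1) - 1 * cg := by unfold ww; ring
  rw [e]
  apply h5.hasDerivWithinAt.congr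
  · intro v hv
    have hv' : u ≤ v := hv
    rw [← mul_bt (hu.trans hv')]
    unfold ww
    ring
  · rw [← mul_bt hu]
    unfold ww
    ring

lemma hasDerivWithinAt_jj {u : ℝ} (hu : 2 ≤ u) : HasDerivWithinAt jj 0 (Ici u) u := by
  have h1 := (hasDerivWithinAt_mul_ww hu).mul (hasDerivAt_q (show 0 < u by linarith)).hasDerivWithinAt
  have h2 := (hasDerivAt_int (continuous_ww.mul continuous_qt) u).hasDerivWithinAt (s := Ici u)
  have h3 := h1.add h2
  have e : (0:ℝ) = ww (u-1) * q u + (u * ww u) * (-(q (u+1)) / u) +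
      ((ww * qt) u - (ww * qt) (u-1)) := by
    simp only [Pi.mul_apply]
    rw [qt_eq (show 0 ≤ u by linarith), qt_eq (show 0 ≤ u - 1 by linarith), sub_add_cancel]
    have : u ≠ 0 := by linarith
    field_simp
    ring
  rw [e]
  exact h3

lemma continuousOn_jj : ContinuousOn jj (Ici 1) := by
  unfold jj
  apply ContinuousOn.add
  · apply ContinuousOn.mul
    · exact (continuous_id.mul continuous_ww).continuousOn
    · apply continuousOn_q.mono
      intro x hx
      exact Set.mem_Ioi.2 (lt_of_lt_of_le one_pos (Set.mem_Ici.1 hx))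
  · have : Continuous fun u : ℝ => ∫ t in (u-1)..u, (ww * qt) t := by
      rw [continuous_iff_continuousAt]
      intro u
      exact (hasDerivAt_int (continuous_ww.mul continuous_qt) u).continuousAt
    exact this.continuousOn

lemma jj_two : jj 2 = 0 := by
  have h1 : ∫ t in ((2:ℝ)-1)..2, ww t * qt t =
      (∫ t in (1:ℝ)..2, -(-(q (t+1)) / t)) - cg * ∫ t in (1:ℝ)..2, qt t := by
    rw [← intervalIntegral.integral_const_mul, ← intervalIntegral.integral_sub]
    · rw [show (2:ℝ) - 1 = 1 by norm_num]
      apply intervalIntegral.integral_congr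
      intro t ht
      rw [uIcc_of_le (by norm_num)] at ht
      have ht0 : 0 < t := by linarith [ht.1]
      have h2 := mul_bt' ht.1 ht.2
      simp only
      rw [qt_eq ht0.le]
      unfold ww
      have : bt t = 1 / t := by field_simp; linarith
      rw [this]
      ring
    · apply ContinuousOn.intervalIntegrable
      rw [uIcc_of_le (by norm_num)]
      intro t ht
      have ht0 : 0 < t := by linarith [ht.1]
      have h1 : ContinuousAt (fun t : ℝ => q (t+1)) t :=
        ContinuousAt.comp (f := fun t : ℝ => t + 1) (g := q)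
          (hasDerivAt_q (show 0 < t + 1 by linarith)).continuousAt
          (continuous_id.add continuous_const).continuousAt
      exact ((h1.neg.div continuousAt_id ht0.ne').neg).continuousWithinAt
    · exact (continuous_const.mul continuous_qt).intervalIntegrable _ _
  have h2 : ∫ t in (1:ℝ)..2, (-(q (t+1)) / t) = q 2 - q 1 := by
    apply intervalIntegral.integral_eq_sub_of_hasDerivAt
    · intro t ht
      rw [uIcc_of_le (by norm_num)] at ht
      exact hasDerivAt_q (by linarith [ht.1])
    · apply ContinuousOn.intervalIntegrable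
      rw [uIcc_of_le (by norm_num)]
      intro t ht
      have ht0 : 0 < t := by linarith [ht.1]
      have h1 : ContinuousAt (fun t : ℝ => q (t+1)) t :=
        ContinuousAt.comp (f := fun t : ℝ => t + 1) (g := q)
          (hasDerivAt_q (show 0 < t + 1 by linarith)).continuousAt
          (continuous_id.add continuous_const).continuousAt
      exact (h1.neg.div continuousAt_id ht0.ne').continuousWithinAt
  have h3 := dd_eq (u := 2) (by norm_num)
  unfold dd at h3
  rw [show (2:ℝ) - 1 = 1 by norm_num] at h3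
  unfold jj
  rw [h1, intervalIntegral.integral_neg, h2, q_one]
  have h4 := mul_bt' (u := 2) (by norm_num) le_rfl
  have h5 : ww 2 = 1/2 - cg := by unfold ww; linarith
  rw [h5]
  have h6 : ∫ t in (1:ℝ)..2, qt t = 1 - 2 * q 2 := by linarith
  rw [h6]
  unfold cg
  ring

lemma jj_eq {u : ℝ} (hu : 2 ≤ u) : jj u = 0 := by
  have h := constant_of_has_deriv_right_zero (f := jj) (a := 2) (b := u)
    (continuousOn_jj.mono fun x hx => by
      have := hx.1
      exact Set.mem_Ici.2 (by linarith))
    (fun x hx => hasDerivWithinAt_jj hx.1) u ⟨hu, le_rfl⟩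
  rw [h, jj_two]

lemma descend {v : ℝ} (hv : 2 ≤ v) (h : ∀ u ∈ Ioo v (v+1), bt u = cg) :
    ∀ u ∈ Ioo (v-1) v, bt u = cg := by
  intro u hu
  have h3 : HasDerivAt (fun v : ℝ => ∫ t in (1:ℝ)..v, bt t) (bt u) u :=
    intervalIntegral.integral_hasDerivAt_right (continuous_bt.intervalIntegrable _ _)
    (continuous_bt.stronglyMeasurableAtFilter _ _) continuous_bt.continuousAt
  have h4 : HasDerivAt (fun x : ℝ => (x + 1) * cg - 1) (1 * cg) u :=
    (((hasDerivAt_id u).add_const 1).mul_const cg).sub_const 1
  have h5 : (fun v : ℝ => ∫ t in (1:ℝ)..v, bt t) =ᶠ[𝓝 u] fun x : ℝ => (x + 1) * cg - 1 := by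
    filter_upwards [Ioo_mem_nhds hu.1 hu.2] with x hx
    have h6 := h (x+1) ⟨by linarith [hx.1], by linarith [hx.2]⟩
    have h7 := mul_bt (u := x + 1) (by linarith [hx.1])
    rw [h6, add_sub_cancel_right] at h7
    linarith
  have h6 := (h4.congr_of_eventuallyEq h5).unique h3
  linarith

lemma no_const (n : ℕ) : ∀ v : ℝ, 1 ≤ v → v < n + 2 → ¬ ∀ u ∈ Ioo v (v+1), bt u = cg := by
  induction n with
  | zero =>
    intro v h1 h2 h
    have h2' : v < 2 := by simpa using h2
    obtain ⟨a, ha1, ha2⟩ := exists_between h2'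
    obtain ⟨b, hb1, hb2⟩ := exists_between ha2
    have e1 := h a ⟨ha1, by linarith⟩
    have e2 := h b ⟨by linarith, by linarith⟩
    have e3 := mul_bt' (u := a) (by linarith) ha2.le
    have e4 := mul_bt' (u := b) (by linarith) hb2.le
    rw [e1] at e3
    rw [e2] at e4
    have : 0 < cg := Real.exp_pos _
    nlinarith
  | succ n ih =>
    intro v h1 h2 h
    push_cast at h2
    rcases lt_or_ge v 2 with h' | h'
    · exact ih v h1 (by have : (0:ℝ) ≤ n := Nat.cast_nonneg n; linarith) h
    · apply ih (v-1) (by linarith) (by linarith)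
      rw [sub_add_cancel]
      exact descend h' h

lemma exists_lt {v : ℝ} (hv : 1 ≤ v) : ∃ u ∈ Set.Icc v (v+1), bt u < cg := by
  by_contra hcon
  push Not at hcon
  have hnn : ∀ t ∈ Set.Icc v (v+1), 0 ≤ ww t := fun t ht => by
    have := hcon t ht
    unfold ww
    linarith
  have hJ := jj_eq (u := v + 1) (by linarith)
  unfold jj at hJ
  rw [add_sub_cancel_right] at hJ
  have h1 : 0 ≤ ((v+1) * ww (v+1)) * q (v+1) :=
    mul_nonneg (mul_nonneg (by linarith) (hnn _ ⟨by linarith, le_rfl⟩)) (q_pos (by linarith)).le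
  have hqt : ∀ t ∈ Set.Icc v (v+1), 0 < qt t := fun t ht => by
    rw [qt_eq (by linarith [ht.1])]
    exact q_pos (by linarith [ht.1])
  have h2 : ∫ t in v..(v+1), ww t * qt t ≤ 0 := by linarith
  obtain ⟨n, hn⟩ := exists_nat_gt v
  apply no_const n v hv (by linarith)
  intro u hu
  by_contra hne
  have hpos : 0 < ww u := lt_of_le_of_ne (hnn u ⟨hu.1.le, hu.2.le⟩) (by
    intro h; apply hne; unfold ww at h; linarith)
  have h3 : 0 < ∫ t in v..(v+1), ww t * qt t := by
    apply intervalIntegral.integral_pos (by linarith) (continuous_ww.mul continuous_qt).continuousOn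
    · intro x hx
      exact mul_nonneg (hnn x ⟨hx.1.le, hx.2⟩) (hqt x ⟨hx.1.le, hx.2⟩).le
    · exact ⟨u, ⟨hu.1.le, hu.2.le⟩, mul_pos hpos (hqt u ⟨hu.1.le, hu.2.le⟩)⟩
  linarith


end Buch

/-- The Buchstab function takes values below exp(-gamma) on every interval of length one. -/
theorem exists_buchstab_lt {v : ℝ} (hv : 1 ≤ v) :
    ∃ u ∈ Set.Icc v (v+1), buchstab u < Real.exp (-Real.eulerMascheroniConstant) := by
  obtain ⟨u, hu, h⟩ := Buch.exists_lt hv
  refine ⟨u, hu, ?_⟩
  rw [← Buch.bt_eq (by linarith [hu.1])]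
  exact h

end Pool.Agent.LibMaier
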