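import Mathlib

/-!
A one-sided bound for the logarithmic derivative in terms of zeros (Borel-Caratheodory and
removal of zeros by Blaschke factors).
-/

namespace Pool.Agent.LibMaier

open Filter Topology Metric

/-- holomorphic logarithm on a ball -/
theorem exists_log {r : ℝ} (hr : 0 < r) {g : ℂ → ℂ} (hg : DifferentiableOn ℂ g (ball 0 r))
    (hg0 : ∀ z ∈ ball (0 : ℂ) r, g z ≠ 0) :
    ∃ h : ℂ → ℂ, h 0 = 0 ∧ DifferentiableOn ℂ h (ball 0 r) ∧
      (∀ z ∈ ball (0 : ℂ) r, HasDerivAt h (deriv g z / g z) z) ∧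
      ∀ z ∈ ball (0 : ℂ) r, g z = g 0 * Complex.exp (h z) := by
  have h0 : (0 : ℂ) ∈ ball (0 : ℂ) r := mem_ball_self hr
  have hd : DifferentiableOn ℂ (fun z => deriv g z / g z) (ball 0 r) :=
    (hg.deriv isOpen_ball).div hg hg0
  obtain ⟨h1, hh1⟩ := hd.isExactOn_ball
  refine ⟨fun z => h1 z - h1 0, by simp, ?_, ?_, ?_⟩
  · intro z hz
    exact ((hh1 z hz).sub_const _).differentiableAt.differentiableWithinAt
  · intro z hz
    exact (hh1 z hz).sub_const _
  · -- derivative of g * exp (-h) vanishes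
    set F : ℂ → ℂ := fun z => g z * Complex.exp (-(h1 z - h1 0)) with hF
    have hFd : ∀ z ∈ ball (0 : ℂ) r, HasDerivAt F 0 z := by
      intro z hz
      have hgz : HasDerivAt g (deriv g z) z :=
        (hg.differentiableAt (isOpen_ball.mem_nhds hz)).hasDerivAt
      have h2 : HasDerivAt (fun z => Complex.exp (-(h1 z - h1 0)))
          (Complex.exp (-(h1 z - h1 0)) * (-(deriv g z / g z))) z :=
        (((hh1 z hz).sub_const _).neg).cexp
      have h3 := hgz.mul h2
      convert! h3 using 1
      have := hg0 z hz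
      field_simp
      ring
    have hconst : ∀ z ∈ ball (0 : ℂ) r, F z = F 0 := by
      intro z hz
      have hFdo : DifferentiableOn ℂ F (ball 0 r) := fun z hz =>
        (hFd z hz).differentiableAt.differentiableWithinAt
      exact (isOpen_ball.is_const_of_deriv_eq_zero (convex_ball _ _).isPreconnected hFdo
        (fun w hw => (hFd w hw).deriv) hz h0)
    intro z hz
    have h2 := hconst z hz
    simp only [hF, sub_self, neg_zero, Complex.exp_zero, mul_one] at h2
    rw [← h2, mul_assoc, ← Complex.exp_add]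
    simp

/-- Borel-Caratheodory for the logarithmic derivative at the centre of a zero-free disc. -/
theorem logDeriv_le_of_ne_zero {r K : ℝ} (hr : 0 < r) {g : ℂ → ℂ}
    (hg : DifferentiableOn ℂ g (ball 0 r))
    (hg0 : ∀ z ∈ ball (0 : ℂ) r, g z ≠ 0) (hK : ∀ z ∈ ball (0 : ℂ) r, ‖g z‖ ≤ K) :
    ‖deriv g 0 / g 0‖ ≤ 2 * Real.log (K / ‖g 0‖) / r := by
  have h0 : (0 : ℂ) ∈ ball (0 : ℂ) r := mem_ball_self hr
  obtain ⟨h, hh0, hhd, hh1, hh2⟩ := exists_log hr hg hg0
  have hg00 : 0 < ‖g 0‖ := norm_pos_iff.2 (hg0 0 h0)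
  have hM0 : 0 ≤ Real.log (K / ‖g 0‖) := by
    apply Real.log_nonneg
    rw [le_div_iff₀ hg00, one_mul]
    exact hK 0 h0
  apply le_of_forall_pos_le_add
  intro ε hε
  set M := Real.log (K / ‖g 0‖) + ε * r / 2 with hM
  have hMpos : 0 < M := by positivity
  have hmaps : Set.MapsTo h (ball 0 r) {z | z.re ≤ M} := by
    intro z hz
    have h1 : ‖g z‖ = ‖g 0‖ * Real.exp (h z).re := by
      rw [hh2 z hz, norm_mul, Complex.norm_exp]
    have h2 : Real.exp (h z).re ≤ K / ‖g 0‖ := by
      rw [le_div_iff₀ hg00, mul_comm, ← h1]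
      exact hK z hz
    have h3 : (h z).re ≤ Real.log (K / ‖g 0‖) := by
      rw [← Real.log_exp (h z).re]
      exact Real.log_le_log (Real.exp_pos _) h2
    show (h z).re ≤ M
    have : 0 < ε * r / 2 := by positivity
    linarith
  have hbound : ∀ z ∈ ball (0 : ℂ) r, ‖h z‖ ≤ 2 * M * ‖z‖ / (r - ‖z‖) := fun z hz =>
    Complex.borelCaratheodory_zero hMpos hhd hmaps hr hz hh0
  -- derivative at 0
  have hder : HasDerivAt h (deriv g 0 / g 0) 0 := hh1 0 h0
  have hlim : Tendsto (fun z : ℂ => ‖z⁻¹ • (h z - h 0)‖) (𝓝[≠] 0) (𝓝 ‖deriv g 0 / g 0‖) := by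
    have := hder.tendsto_slope
    refine (this.norm).congr' ?_
    filter_upwards [self_mem_nhdsWithin] with z _
    rw [slope_def_module, sub_zero]
  have hlim2 : Tendsto (fun z : ℂ => 2 * M / (r - ‖z‖)) (𝓝[≠] 0) (𝓝 (2 * M / r)) := by
    have : ContinuousAt (fun z : ℂ => 2 * M / (r - ‖z‖)) 0 := by
      apply ContinuousAt.div
      · fun_prop
      · fun_prop
      · simp [hr.ne']
    have h2 := this.tendsto.mono_left (nhdsWithin_le_nhds (s := {0}ᶜ))
    simpa using h2
  have hle : ‖deriv g 0 / g 0‖ ≤ 2 * M / r := by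
    refine le_of_tendsto_of_tendsto hlim hlim2 ?_
    have hnb : ball (0 : ℂ) r ∈ 𝓝[≠] (0 : ℂ) := mem_nhdsWithin_of_mem_nhds (ball_mem_nhds _ hr)
    filter_upwards [hnb, self_mem_nhdsWithin] with z hz hz0
    have hz0' : 0 < ‖z‖ := norm_pos_iff.2 hz0
    have hzr : ‖z‖ < r := by simpa using hz
    rw [hh0, sub_zero, norm_smul, norm_inv]
    have := hbound z hz
    calc ‖z‖⁻¹ * ‖h z‖ ≤ ‖z‖⁻¹ * (2 * M * ‖z‖ / (r - ‖z‖)) := by gcongr
      _ = 2 * M / (r - ‖z‖) := by
          have : r - ‖z‖ ≠ 0 := by linarith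
          field_simp
  refine hle.trans (le_of_eq ?_)
  rw [hM]
  field_simp

/-- Removing one zero: multiply by the Blaschke factor. -/
noncomputable def rmz (R : ℝ) (u : ℂ) (f : ℂ → ℂ) : ℂ → ℂ :=
  fun z => (((R : ℂ) ^ 2 - (starRingEnd ℂ) u * z) / R) * dslope f u z

lemma rmz_differentiable {R : ℝ} {u : ℂ} {f : ℂ → ℂ} (hf : Differentiable ℂ f) :
    Differentiable ℂ (rmz R u f) := by
  unfold rmz
  apply Differentiable.mul
  · fun_prop
  · rw [← differentiableOn_univ] at hf ⊢
    exact (Complex.differentiableOn_dslope Filter.univ_mem).2 hf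

lemma rmz_of_ne {R : ℝ} {u : ℂ} {f : ℂ → ℂ} (hu : f u = 0) {z : ℂ} (hz : z ≠ u) :
    rmz R u f z = f z * (((R : ℂ) ^ 2 - (starRingEnd ℂ) u * z) / (R * (z - u))) := by
  unfold rmz
  rw [dslope_of_ne f hz, slope_def_field, hu, sub_zero]
  have : z - u ≠ 0 := sub_ne_zero.2 hz
  rcases eq_or_ne (R : ℂ) 0 with h | h
  · simp [h]
  · field_simp

/-- The one-sided bound. -/
theorem logDeriv_lower {R r K : ℝ} (hr : 0 < r) (hrR : r < R) :
    ∀ (n : ℕ) (f : ℂ → ℂ) (S : Finset ℂ), Differentiable ℂ f → f 0 ≠ 0 →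
      (∀ z ∈ closedBall (0 : ℂ) R, ‖f z‖ ≤ K) →
      (∀ z ∈ closedBall (0 : ℂ) r, f z = 0 → z.re < 0) →
      (∀ u ∈ S, f u = 0 ∧ ‖u‖ ≤ r) → K < ‖f 0‖ * (R / r) ^ n →
      -(2 * Real.log (K / ‖f 0‖) / r) + ∑ u ∈ S, (-u.re) * (1 / ‖u‖ ^ 2 - 1 / R ^ 2) ≤
        (deriv f 0 / f 0).re := by
  have hR : 0 < R := hr.trans hrR
  intro n
  induction n with
  | zero =>
    intro f S _ _ hK _ _ hlt
    rw [pow_zero, mul_one] at hlt
    exact absurd (hK 0 (mem_closedBall_self hR.le)) (not_le.2 hlt)
  | succ n ih =>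
    intro f S hf hf0 hK hneg hS hlt
    have hf00 : 0 < ‖f 0‖ := norm_pos_iff.2 hf0
    by_cases hz : ∃ u, f u = 0 ∧ ‖u‖ ≤ r
    · -- choose a zero, in `S` if `S` is nonempty
      obtain ⟨u, hu0, hur, huS⟩ : ∃ u, f u = 0 ∧ ‖u‖ ≤ r ∧ (u ∈ S ∨ S = ∅) := by
        rcases S.eq_empty_or_nonempty with h | h
        · obtain ⟨u, h1, h2⟩ := hz
          exact ⟨u, h1, h2, Or.inr h⟩
        · obtain ⟨u, hu⟩ := h
          exact ⟨u, (hS u hu).1, (hS u hu).2, Or.inl hu⟩
      have hune : u ≠ 0 := by
        rintro rfl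
        exact hf0 hu0
      have hun : 0 < ‖u‖ := norm_pos_iff.2 hune
      have hure : u.re < 0 := hneg u (by simpa using hur) hu0
      set f1 := rmz R u f with hf1
      have hRne : (R : ℂ) ≠ 0 := by exact_mod_cast hR.ne'
      have hf10 : f1 0 = f 0 * (-(R : ℂ) / u) := by
        rw [hf1, rmz_of_ne hu0 hune.symm]
        simp only [mul_zero, sub_zero, zero_sub]
        field_simp
      have hf1n : ‖f1 0‖ = ‖f 0‖ * (R / ‖u‖) := by
        rw [hf10, norm_mul, norm_div, norm_neg, Complex.norm_real, Real.norm_of_nonneg hR.le]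
      have hf1ne : f1 0 ≠ 0 := by
        rw [← norm_pos_iff, hf1n]
        positivity
      have hK0 : 0 < K := hf00.trans_le (hK 0 (mem_closedBall_self hR.le))
      -- bound on the closed ball by maximum modulus
      have hK1 : ∀ z ∈ closedBall (0 : ℂ) R, ‖f1 z‖ ≤ K := by
        have hdc : DiffContOnCl ℂ f1 (ball 0 R) := (rmz_differentiable hf).diffContOnCl
        intro z hz
        apply Complex.norm_le_of_forall_mem_frontier_norm_le isBounded_ball hdc
        · intro w hw
          rw [frontier_ball _ hR.ne', mem_sphere_zero_iff_norm] at hw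
          have hwu : w ≠ u := by
            rintro rfl
            linarith
          rw [hf1, rmz_of_ne hu0 hwu, norm_mul]
          have h1 : ‖((R : ℂ) ^ 2 - (starRingEnd ℂ) u * w) / (R * (w - u))‖ = 1 := by
            have := Complex.norm_canonicalFactor_eval_circle_eq_one (R := R) (w := u) (z := w)
              (by simp; linarith) (by simpa using hw)
            simpa [Complex.canonicalFactor_apply] using this
          rw [h1, mul_one]
          exact hK w (by simp [hw])
        · rw [closure_ball _ hR.ne']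
          exact hz
      have hneg1 : ∀ z ∈ closedBall (0 : ℂ) r, f1 z = 0 → z.re < 0 := by
        intro z hz hz0
        rcases eq_or_ne z u with h | h
        · rw [h]; exact hure
        · apply hneg z hz
          rw [hf1, rmz_of_ne hu0 h] at hz0
          rcases mul_eq_zero.1 hz0 with h1 | h1
          · exact h1
          · exfalso
            have h2 : (R : ℂ) ^ 2 - (starRingEnd ℂ) u * z ≠ 0 := by
              intro h3
              have h4 : ‖(R : ℂ) ^ 2‖ = ‖(starRingEnd ℂ) u * z‖ := by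
                rw [sub_eq_zero.1 h3]
              rw [norm_pow, Complex.norm_real, Real.norm_of_nonneg hR.le, norm_mul,
                RCLike.norm_conj] at h4
              have hzr : ‖z‖ ≤ r := by simpa using hz
              nlinarith [norm_nonneg z]
            have h5 : (R : ℂ) * (z - u) ≠ 0 := mul_ne_zero hRne (sub_ne_zero.2 h)
            exact div_ne_zero h2 h5 h1
      have hS1 : ∀ w ∈ S.erase u, f1 w = 0 ∧ ‖w‖ ≤ r := by
        intro w hw
        rw [Finset.mem_erase] at hw
        refine ⟨?_, (hS w hw.2).2⟩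
        rw [hf1, rmz_of_ne hu0 hw.1, (hS w hw.2).1, zero_mul]
      have hratio : R / r ≤ R / ‖u‖ := div_le_div_of_nonneg_left hR.le hun hur
      have hlt1 : K < ‖f1 0‖ * (R / r) ^ n := by
        rw [hf1n]
        calc K < ‖f 0‖ * (R / r) ^ (n + 1) := hlt
          _ = ‖f 0‖ * (R / r) * (R / r) ^ n := by ring
          _ ≤ ‖f 0‖ * (R / ‖u‖) * (R / r) ^ n := by gcongr
      have hih := ih f1 (S.erase u) (rmz_differentiable hf) hf1ne hK1 hneg1 hS1 hlt1
      -- logarithmic derivatives
      have hld : deriv f1 0 / f1 0 = deriv f 0 / f 0 + (1 / u - (starRingEnd ℂ) u / R ^ 2) := by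
        have hev : f1 =ᶠ[𝓝 0] fun z => f z * (((R : ℂ) ^ 2 - (starRingEnd ℂ) u * z) /
            (R * (z - u))) := by
          filter_upwards [isOpen_ne.mem_nhds hune.symm] with z hz
          rw [hf1, rmz_of_ne hu0 hz]
        rw [hev.deriv_eq]
        have hd1 : HasDerivAt f (deriv f 0) 0 := hf.differentiableAt.hasDerivAt
        have hd2 : HasDerivAt (fun z : ℂ => (R : ℂ) ^ 2 - (starRingEnd ℂ) u * z)
            (-(starRingEnd ℂ) u) 0 := by
          have := ((hasDerivAt_id (0 : ℂ)).const_mul ((starRingEnd ℂ) u)).const_sub ((R : ℂ) ^ 2)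
          simpa using this
        have hd3 : HasDerivAt (fun z : ℂ => (R : ℂ) * (z - u)) (R : ℂ) 0 := by
          have := ((hasDerivAt_id (0 : ℂ)).sub_const u).const_mul (R : ℂ)
          simpa using this
        have hne3 : (R : ℂ) * (0 - u) ≠ 0 := mul_ne_zero hRne (by simpa using hune)
        have hd4 := hd1.mul (hd2.div hd3 hne3)
        have hd5 := hd4.deriv
        simp only [Pi.mul_apply, Pi.div_apply] at hd5
        have hd6 : deriv (fun z => f z * (((R : ℂ) ^ 2 - (starRingEnd ℂ) u * z) /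
            (R * (z - u)))) 0 = _ := hd5
        rw [hd6, hf10]
        field_simp
        ring
      have hre : (1 / u - (starRingEnd ℂ) u / R ^ 2 : ℂ).re = u.re * (1 / ‖u‖ ^ 2 - 1 / R ^ 2) := by
        have h1 : (1 / u : ℂ) = (starRingEnd ℂ) u / (‖u‖ ^ 2 : ℝ) := by
          rw [div_eq_div_iff hune (by exact_mod_cast (pow_pos hun 2).ne'), one_mul]
          rw [← Complex.normSq_eq_norm_sq, ← Complex.mul_conj, mul_comm]
        rw [h1, Complex.sub_re, Complex.div_ofReal_re]
        have h2 : ((starRingEnd ℂ) u / (R : ℂ) ^ 2).re = u.re / R ^ 2 := by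
          rw [← Complex.ofReal_pow, Complex.div_ofReal_re, Complex.conj_re]
        rw [h2, Complex.conj_re]
        ring
      have hterm : 0 ≤ (-u.re) * (1 / ‖u‖ ^ 2 - 1 / R ^ 2) := by
        apply mul_nonneg (by linarith)
        have : 1 / R ^ 2 ≤ 1 / ‖u‖ ^ 2 :=
          one_div_le_one_div_of_le (by positivity) (by
            apply pow_le_pow_left₀ hun.le
            linarith)
        linarith
      have hsumS : ∑ w ∈ S, (-w.re) * (1 / ‖w‖ ^ 2 - 1 / R ^ 2) ≤
          (-u.re) * (1 / ‖u‖ ^ 2 - 1 / R ^ 2) +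
          ∑ w ∈ S.erase u, (-w.re) * (1 / ‖w‖ ^ 2 - 1 / R ^ 2) := by
        rcases huS with h | h
        · rw [Finset.add_sum_erase S (fun w : ℂ => (-w.re) * (1 / ‖w‖ ^ 2 - 1 / R ^ 2)) h]
        · rw [h]
          simp only [Finset.sum_empty, Finset.erase_empty]
          linarith
      have hlog : Real.log (K / ‖f1 0‖) ≤ Real.log (K / ‖f 0‖) := by
        apply Real.log_le_log
        · rw [← norm_pos_iff] at hf1ne
          positivity
        · rw [hf1n]
          apply div_le_div_of_nonneg_left hK0.le hf00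
          have : 1 ≤ R / ‖u‖ := by
            rw [le_div_iff₀ hun]
            linarith
          nlinarith
      have hdiv : 2 * Real.log (K / ‖f1 0‖) / r ≤ 2 * Real.log (K / ‖f 0‖) / r := by
        gcongr
      rw [hld, Complex.add_re, hre] at hih
      linarith
    · -- no zeros
      push Not at hz
      have hSe : S = ∅ := by
        rw [Finset.eq_empty_iff_forall_notMem]
        intro u hu
        have := hz u (hS u hu).1
        linarith [(hS u hu).2]
      rw [hSe, Finset.sum_empty, add_zero]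
      have h1 := logDeriv_le_of_ne_zero (K := K) hr (g := f) hf.differentiableOn
        (by
          intro z hz' h0
          have := hz z h0
          have h2 : ‖z‖ < r := by simpa using hz'
          linarith)
        (by
          intro z hz'
          apply hK
          have h2 : ‖z‖ < r := by simpa using hz'
          simp
          linarith)
      have h2 := Complex.abs_re_le_norm (deriv f 0 / f 0)
      have h3 := neg_abs_le (deriv f 0 / f 0).re
      linarith

end Pool.Agent.LibMaier
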