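import Pool.Agent.LibMaier.MaierBound

/-!
The critical value of the randomly perturbed primes: the bound from Maier's matrix method.
-/

namespace Pool.Agent.LibMaier

open Filter Topology MeasureTheory
open Pool.Agent.LibCramer
open scoped ENNReal NNReal

/-- **Divergence below the constant of the matrix method.** -/
theorem not_summable_maier {δ : ℝ} {r : ℕ → ℝ} (hδ0 : 0 < δ) (hδ1 : δ ≤ 1)
    (hr0 : ∀ n, 0 ≤ r n) (hr1 : ∀ n, r n ≤ 1) {η : ℝ}
    (hr : Tendsto (fun n : ℕ => r n * Real.log n) atTop (𝓝 η)) {c : ℝ} (hc0 : 0 ≤ c)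
    (hc : c * (η + eg / 2 * Real.log (1 / δ)) < 1) :
    ¬ Summable fun m : ℕ => avoidProb (pertProb δ r) c m / Real.log (m : ℝ) ^ 2 := by
  intro hsum
  have heg : 0 < eg := eg_pos
  set κ := Real.log (1 / δ) with hκ
  have hκ0 : 0 ≤ κ := Real.log_nonneg (by rw [le_div_iff₀ hδ0]; linarith)
  have hη : 0 ≤ η := ge_of_tendsto hr (by
    filter_upwards [eventually_ge_atTop 1] with n hn
    exact mul_nonneg (hr0 n) (Real.log_nonneg (by exact_mod_cast hn)))
  -- choice of ε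
  obtain ⟨ε, hε0, hε14, hε1⟩ : ∃ ε : ℝ, 0 < ε ∧ ε < 1 / 4 ∧
      (1 + ε) ^ 2 * (η + ε) * c + κ * ((1 + ε) ^ 4 / (1 - ε) ^ 2 * (eg / 2) *
        ((c + ε) * (1 + ε) ^ 2)) + 3 * ε < 1 := by
    have hcont : ContinuousAt (fun ε : ℝ => (1 + ε) ^ 2 * (η + ε) * c +
        κ * ((1 + ε) ^ 4 / (1 - ε) ^ 2 * (eg / 2) * ((c + ε) * (1 + ε) ^ 2)) + 3 * ε) 0 := by
      have h0 : ContinuousAt (fun ε : ℝ => (1 + ε) ^ 4 / (1 - ε) ^ 2) 0 := by
        apply ContinuousAt.div
        · fun_prop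
        · fun_prop
        · norm_num
      have h1 : ContinuousAt (fun ε : ℝ => (1 + ε) ^ 4 / (1 - ε) ^ 2 * (eg / 2) *
          ((c + ε) * (1 + ε) ^ 2)) 0 := by fun_prop
      fun_prop
    have h1 : ∀ᶠ ε in 𝓝 (0 : ℝ), (1 + ε) ^ 2 * (η + ε) * c +
        κ * ((1 + ε) ^ 4 / (1 - ε) ^ 2 * (eg / 2) * ((c + ε) * (1 + ε) ^ 2)) + 3 * ε < 1 := by
      apply hcont.eventually_lt_const
      refine lt_of_le_of_lt (le_of_eq ?_) hc
      simp
      ring
    have h2 := h1.filter_mono (nhdsWithin_le_nhds (s := Set.Ioi 0))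
    have h3 : ∀ᶠ ε in 𝓝[>] (0 : ℝ), ε < 1 / 4 :=
      (eventually_lt_nhds (by norm_num)).filter_mono nhdsWithin_le_nhds
    obtain ⟨ε, h4, h5, h6⟩ := (h2.and (h3.and self_mem_nhdsWithin)).exists
    exact ⟨ε, h6, h5, h4⟩
  set c₂ : ℝ := (c + ε) * (1 + ε) ^ 2 with hc₂
  have hc₂0 : 0 < c₂ := by positivity
  -- truncation of the Gaussian
  obtain ⟨v0, hv00, hv0⟩ : ∃ v0 : ℝ, 0 ≤ v0 ∧ 1 - ε ≤ ∫ v in (-v0)..v0, gw v := by
    have h1 := intervalIntegral_tendsto_integral (μ := volume) (f := gw) (l := atTop)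
      (a := fun v : ℝ => -v) (b := fun v : ℝ => v) integrable_gw tendsto_neg_atTop_atBot tendsto_id
    rw [integral_gw] at h1
    obtain ⟨v0, h2, h3⟩ := ((h1.eventually_const_lt (show 1 - ε < 1 by linarith)).and
      (eventually_ge_atTop 0)).exists
    exact ⟨v0, h3, h2.le⟩
  -- vanishing of far sums
  obtain ⟨N₁, hN₁⟩ : ∃ N₁ : ℕ, ∀ t : Finset ℕ, (∀ m ∈ t, N₁ ≤ m) →
      ∑ m ∈ t, avoidProb (pertProb δ r) c m / Real.log (m : ℝ) ^ 2 < 1 := by
    obtain ⟨s, hs⟩ := summable_iff_vanishing_norm.1 hsum 1 one_pos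
    obtain ⟨N, hN⟩ := s.exists_nat_subset_range
    refine ⟨N, fun t ht => ?_⟩
    refine lt_of_le_of_lt (le_abs_self _) (hs _ ?_)
    rw [Finset.disjoint_left]
    intro m h1 h2
    have := Finset.mem_range.1 (hN h2)
    have := ht m h1
    omega
  obtain ⟨N₂, hN₂⟩ := eventually_atTop.1 (avoid_lower (δ := δ) hδ0 hr0 hr hc0 hε0)
  have hgrow : ∀ᶠ x : ℝ in atTop, 8 * x ^ 2 ≤ Real.exp (ε * x) := by
    have h1 : Tendsto (fun x : ℝ => x ^ 2 * Real.exp (-(ε * x))) atTop (𝓝 0) := by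
      have := Real.tendsto_pow_mul_exp_neg_atTop_nhds_zero 2
      have h2 := (this.comp (tendsto_id.const_mul_atTop hε0)).const_mul (1 / ε ^ 2)
      rw [mul_zero] at h2
      refine h2.congr fun x => ?_
      simp only [Function.comp, id]
      field_simp
    filter_upwards [h1.eventually_lt_const (show (0 : ℝ) < 1 / 8 by norm_num)] with x hx
    have hE : Real.exp (-(ε * x)) * Real.exp (ε * x) = 1 := by
      rw [← Real.exp_add]; simp
    have h3 := mul_le_mul_of_nonneg_right hx.le (Real.exp_pos (ε * x)).le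
    rw [mul_assoc, hE, mul_one] at h3
    linarith
  obtain ⟨X₀, hX₀⟩ := eventually_atTop.1 hgrow
  obtain ⟨q, k1, k2, x, hxX, hkN, hk12, hq1, hk1, hkbig, hVx, hl1, hl2, hl3, hl4, havg⟩ :=
    matrix_avg hε0 hε14 hc₂0 hv00 (max N₁ N₂ + 3) (max X₀ 1)
  have hx1 : 1 ≤ x := (le_max_right _ _).trans hxX
  have hgrowx := hX₀ x ((le_max_left _ _).trans hxX)
  have hqR : (1 : ℝ) ≤ q := by exact_mod_cast hq1
  have hk1R : (1 : ℝ) ≤ k1 := by exact_mod_cast hk1
  set V : ℝ := v0 + 1 with hV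
  set N : ℕ := ⌊c₂ * x ^ 2⌋₊ with hN
  -- windows
  have hrow : ∀ k ∈ Finset.Ico k1 k2, Real.log ((k * q : ℕ) : ℝ) ≤ (1 + ε) * x ∧
      0 < Real.log ((k * q : ℕ) : ℝ) ∧ pc c (k * q) ≤ rowc q k N := by
    intro k hk
    rw [Finset.mem_Ico] at hk
    have hkR : (k1 : ℝ) ≤ k := by exact_mod_cast hk.1
    have hk2R : (k : ℝ) ≤ k2 := by exact_mod_cast hk.2.le
    have hkpos : (0 : ℝ) < k := by linarith
    have hlog : Real.log ((k * q : ℕ) : ℝ) ≤ (1 + ε) * x := by
      push_cast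
      calc Real.log (k * q) ≤ Real.log (k2 * q) := Real.log_le_log (by positivity) (by gcongr)
        _ ≤ x + V := hl4
        _ ≤ (1 + ε) * x := by linarith
    have hlog0 : 0 < Real.log ((k * q : ℕ) : ℝ) := by
      apply Real.log_pos
      have h3 : 3 ≤ k * q := by
        calc 3 ≤ k := by omega
          _ ≤ k * q := Nat.le_mul_of_pos_right _ hq1
      have : (3 : ℝ) ≤ ((k * q : ℕ) : ℝ) := by exact_mod_cast h3
      linarith
    refine ⟨hlog, hlog0, ?_⟩
    have hlen : len c (k * q) ≤ N := by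
      rw [hN]
      apply Nat.floor_mono
      calc c * Real.log ((k * q : ℕ) : ℝ) ^ 2 ≤ c * ((1 + ε) * x) ^ 2 := by gcongr
        _ ≤ (c + ε) * ((1 + ε) * x) ^ 2 := by gcongr; linarith
        _ = c₂ * x ^ 2 := by rw [hc₂]; ring
    unfold pc rowc
    apply Finset.card_le_card
    apply Finset.filter_subset_filter
    apply Finset.Ioc_subset_Ioc le_rfl
    omega
  -- termwise bound
  set a : ℝ := (1 + ε) ^ 2 * (η + ε) * c with ha
  have hterm : ∀ k ∈ Finset.Ico k1 k2,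
      (k1 : ℝ) * (Wt q x k * Real.exp (-(κ * rowc q k N))) *
        (Real.exp (-(a * x)) / (4 * x ^ 2)) ≤
        avoidProb (pertProb δ r) c (k * q) / Real.log ((k * q : ℕ) : ℝ) ^ 2 := by
    intro k hk
    obtain ⟨h1, h2, h3⟩ := hrow k hk
    rw [Finset.mem_Ico] at hk
    have hkR : (k1 : ℝ) ≤ k := by exact_mod_cast hk.1
    have hkpos : (0 : ℝ) < k := by linarith
    have hW0 := Wt_nonneg (q := q) (k := k) hq1 (by omega) x
    have hW : (k1 : ℝ) * Wt q x k ≤ 1 := by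
      have := Wt_le_inv (q := q) (k := k) hq1 (by omega) x
      calc (k1 : ℝ) * Wt q x k ≤ k * (1 / k) := by gcongr
        _ = 1 := by field_simp
    have h4 := hN₂ (k * q) (by
      calc N₂ ≤ k := by
            have := le_max_right N₁ N₂
            omega
        _ ≤ k * q := Nat.le_mul_of_pos_right _ hq1)
    have h5 : Real.exp (-(κ * rowc q k N)) * Real.exp (-(a * x)) ≤
        avoidProb (pertProb δ r) c (k * q) := by
      refine le_trans ?_ h4
      rw [← Real.exp_add]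
      apply Real.exp_le_exp.2
      have h6 : κ * (pc c (k * q) : ℝ) ≤ κ * (rowc q k N : ℝ) :=
        mul_le_mul_of_nonneg_left (by exact_mod_cast h3) hκ0
      have h7 : (1 + ε) * (η + ε) * c * Real.log ((k * q : ℕ) : ℝ) ≤
          (1 + ε) * (η + ε) * c * ((1 + ε) * x) :=
        mul_le_mul_of_nonneg_left h1 (by positivity)
      have h8 : (1 + ε) * (η + ε) * c * ((1 + ε) * x) = a * x := by rw [ha]; ring
      linarith
    have h9 : Real.log ((k * q : ℕ) : ℝ) ^ 2 ≤ 4 * x ^ 2 := by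
      have : Real.log ((k * q : ℕ) : ℝ) ≤ 2 * x := by
        have : ε * x ≤ 1 * x := mul_le_mul_of_nonneg_right (by linarith) (by linarith)
        linarith
      calc Real.log ((k * q : ℕ) : ℝ) ^ 2 ≤ (2 * x) ^ 2 := pow_le_pow_left₀ h2.le this 2
        _ = 4 * x ^ 2 := by ring
    have hE1 := Real.exp_pos (-(κ * (rowc q k N : ℝ)))
    have hE2 := Real.exp_pos (-(a * x))
    calc (k1 : ℝ) * (Wt q x k * Real.exp (-(κ * rowc q k N))) * (Real.exp (-(a * x)) / (4 * x ^ 2))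
        = (k1 * Wt q x k) * (Real.exp (-(κ * rowc q k N)) * Real.exp (-(a * x)) / (4 * x ^ 2)) := by
          ring
      _ ≤ 1 * (Real.exp (-(κ * rowc q k N)) * Real.exp (-(a * x)) / (4 * x ^ 2)) := by
          gcongr
      _ = Real.exp (-(κ * rowc q k N)) * Real.exp (-(a * x)) / (4 * x ^ 2) := one_mul _
      _ ≤ avoidProb (pertProb δ r) c (k * q) / Real.log ((k * q : ℕ) : ℝ) ^ 2 := by
          apply div_le_div₀ _ h5 (by positivity) h9
          exact avoidProb_nonneg (pertProb_le_one hδ0.le hr1) c _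
  -- Jensen
  set W : ℝ := ∑ k ∈ Finset.Ico k1 k2, Wt q x k with hW
  have hWlow : 1 - ε ≤ W := hv0.trans (le_sum_Wt hk12 hv00 (by linarith) (by linarith))
  have hWpos : 0 < W := by linarith
  have hJ := jensen_weighted (s := Finset.Ico k1 k2) (w := fun k => Wt q x k)
    (f := fun k => κ * (rowc q k N : ℝ)) (fun k hk => Wt_nonneg hq1 (by
      rw [Finset.mem_Ico] at hk; omega) x) hWpos
  rw [← hW] at hJ
  set A : ℝ := (1 + ε) ^ 4 / (1 - ε) ^ 2 * (eg / 2) * c₂ with hA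
  have hexp : Real.exp (-(κ * (A * x))) ≤
      Real.exp (-((∑ k ∈ Finset.Ico k1 k2, Wt q x k * (κ * (rowc q k N : ℝ))) / W)) := by
    apply Real.exp_le_exp.2
    have h1 : ∑ k ∈ Finset.Ico k1 k2, Wt q x k * (κ * (rowc q k N : ℝ)) =
        κ * ∑ k ∈ Finset.Ico k1 k2, Wt q x k * (rowc q k N : ℝ) := by
      rw [Finset.mul_sum]
      apply Finset.sum_congr rfl
      intro k _
      ring
    rw [h1, neg_le_neg_iff, div_le_iff₀ hWpos, mul_assoc]
    apply mul_le_mul_of_nonneg_left _ hκ0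
    refine havg.trans ?_
    have h2 : (1 + ε) ^ 4 / (1 - ε) * (eg / 2) * c₂ * x = (A * x) * (1 - ε) := by
      rw [hA]
      have : (1 - ε) ≠ 0 := by linarith
      field_simp
    rw [h2]
    apply mul_le_mul_of_nonneg_left hWlow
    have : 0 < 1 - ε := by linarith
    positivity
  have hsumlow : (k1 : ℝ) * ((1 - ε) * Real.exp (-(κ * (A * x)))) *
      (Real.exp (-(a * x)) / (4 * x ^ 2)) ≤
      ∑ k ∈ Finset.Ico k1 k2, avoidProb (pertProb δ r) c (k * q) /
        Real.log ((k * q : ℕ) : ℝ) ^ 2 := by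
    calc (k1 : ℝ) * ((1 - ε) * Real.exp (-(κ * (A * x)))) * (Real.exp (-(a * x)) / (4 * x ^ 2))
        ≤ (k1 : ℝ) * (∑ k ∈ Finset.Ico k1 k2, Wt q x k * Real.exp (-(κ * (rowc q k N : ℝ)))) *
          (Real.exp (-(a * x)) / (4 * x ^ 2)) := by
          have : (1 - ε) * Real.exp (-(κ * (A * x))) ≤
              ∑ k ∈ Finset.Ico k1 k2, Wt q x k * Real.exp (-(κ * (rowc q k N : ℝ))) := by
            refine le_trans ?_ hJ
            exact mul_le_mul hWlow hexp (Real.exp_pos _).le hWpos.le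
          gcongr
      _ = ∑ k ∈ Finset.Ico k1 k2, (k1 : ℝ) * (Wt q x k * Real.exp (-(κ * rowc q k N))) *
          (Real.exp (-(a * x)) / (4 * x ^ 2)) := by
          rw [Finset.mul_sum, Finset.sum_mul]
      _ ≤ _ := Finset.sum_le_sum hterm
  -- the sum over the windows is small
  have hinj : Set.InjOn (fun k : ℕ => k * q) (Finset.Ico k1 k2 : Finset ℕ) := by
    intro k _ k' _ h
    exact Nat.eq_of_mul_eq_mul_right hq1 h
  have hsmall := hN₁ ((Finset.Ico k1 k2).image (fun k : ℕ => k * q)) (by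
    intro m hm
    rw [Finset.mem_image] at hm
    obtain ⟨k, hk, rfl⟩ := hm
    rw [Finset.mem_Ico] at hk
    calc N₁ ≤ k := by
          have := le_max_left N₁ N₂
          omega
      _ ≤ k * q := Nat.le_mul_of_pos_right _ hq1)
  rw [Finset.sum_image hinj] at hsmall
  -- but the lower bound exceeds one
  have hlow : 1 ≤ (k1 : ℝ) * ((1 - ε) * Real.exp (-(κ * (A * x)))) *
      (Real.exp (-(a * x)) / (4 * x ^ 2)) := by
    have h1 : Real.exp (-((1 - 3 * ε) * x)) ≤ Real.exp (-(κ * (A * x))) * Real.exp (-(a * x)) := by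
      rw [← Real.exp_add]
      apply Real.exp_le_exp.2
      have h2 : (a + κ * A + 3 * ε) * x ≤ 1 * x :=
        mul_le_mul_of_nonneg_right hε1.le (by linarith)
      have h3 : (a + κ * A + 3 * ε) * x = a * x + κ * (A * x) + 3 * ε * x := by ring
      linarith
    have h4 : Real.exp (ε * x) ≤ k1 * Real.exp (-((1 - 3 * ε) * x)) := by
      calc Real.exp (ε * x) = Real.exp ((1 - 2 * ε) * x) * Real.exp (-((1 - 3 * ε) * x)) := by
            rw [← Real.exp_add]
            congr 1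
            ring
        _ ≤ k1 * Real.exp (-((1 - 3 * ε) * x)) := by gcongr
    have h5 : 1 ≤ Real.exp (ε * x) / (8 * x ^ 2) := by
      rw [le_div_iff₀ (by positivity), one_mul]
      exact hgrowx
    calc (1 : ℝ) ≤ Real.exp (ε * x) / (8 * x ^ 2) := h5
      _ ≤ (k1 * Real.exp (-((1 - 3 * ε) * x))) / (8 * x ^ 2) := by gcongr
      _ = (k1 * (1 / 2) * Real.exp (-((1 - 3 * ε) * x))) / (4 * x ^ 2) := by
          field_simp
          ring
      _ ≤ (k1 * (1 - ε) * (Real.exp (-(κ * (A * x))) * Real.exp (-(a * x)))) / (4 * x ^ 2) := by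
          apply div_le_div_of_nonneg_right _ (by positivity)
          apply mul_le_mul _ h1 (Real.exp_pos _).le (mul_nonneg (by linarith) (by linarith))
          exact mul_le_mul_of_nonneg_left (by linarith) (by linarith)
      _ = _ := by ring
  linarith

/-- **Lower bound for the critical value.** -/
theorem le_crit_maier {δ : ℝ} {r : ℕ → ℝ} (hδ0 : 0 < δ) (hδ1 : δ ≤ 1)
    (hr0 : ∀ n, 0 ≤ r n) (hr1 : ∀ n, r n ≤ 1) {η : ℝ}
    (hr : Tendsto (fun n : ℕ => r n * Real.log n) atTop (𝓝 η))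
    (hpos : 0 < η + eg / 2 * Real.log (1 / δ)) :
    ENNReal.ofReal (1 / (η + eg / 2 * Real.log (1 / δ))) ≤ crit (pertProb δ r) := by
  unfold crit
  refine le_iInf fun c => le_iInf fun hc => ?_
  by_contra hcon
  push Not at hcon
  have h1 : (c : ℝ) < 1 / (η + eg / 2 * Real.log (1 / δ)) := by
    have := (ENNReal.toReal_lt_toReal ENNReal.coe_ne_top ENNReal.ofReal_ne_top).2 hcon
    rwa [ENNReal.toReal_ofReal (by positivity), ENNReal.coe_toReal] at this
  rw [lt_div_iff₀ hpos] at h1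
  exact not_summable_maier hδ0 hδ1 hr0 hr1 hr c.2 h1 hc

end Pool.Agent.LibMaier
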