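import Pool.Agent.LibMaier.DispMain
import Pool.Agent.LibMaier.Buchstab
import Pool.Agent.LibMaier.RoughGeneral

/-!
Primes displaced at random: bounds with Buchstab's function.
-/

namespace Pool.Agent.LibMaier

open Filter Topology MeasureTheory ProbabilityTheory
open Pool.Agent.LibCramer
open scoped ENNReal

lemma isBuchstab_buchstab : IsBuchstab buchstab where
  one_two := fun u h1 h2 => buchstab_of_le h1 h2
  eqn := fun u h => buchstab_eq h
  nonneg := fun u h => le_trans (by norm_num) (buchstab_ge h)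
  le_one := fun u h => buchstab_le h
  lip := fun u v hu hv => abs_buchstab_sub_le hu hv

/-- the rough numbers up to `z ^ u` -/
lemma cols_upper {u W : ℝ} (hu : 1 ≤ u) (hW : buchstab u < W) :
    ∀ᶠ z : ℕ in atTop, ((cols (primorial z) ⌊(z : ℝ) ^ u⌋₊).card : ℝ) ≤
      W * (z : ℝ) ^ u / Real.log z := by
  obtain ⟨z₀, hz₀⟩ := rough_upper_gen isBuchstab_buchstab (U := u) (ε := W - buchstab u)
    (by linarith)
  filter_upwards [eventually_ge_atTop z₀, eventually_ge_atTop 2] with z h1 h2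
  have hz : (2 : ℝ) ≤ z := by exact_mod_cast h2
  have hlog : 0 < Real.log (z : ℝ) := Real.log_pos (by linarith)
  have h3 := hz₀ z h1 ((z : ℝ) ^ u) (by
    calc (z : ℝ) = (z : ℝ) ^ (1 : ℝ) := (Real.rpow_one _).symm
      _ ≤ (z : ℝ) ^ u := Real.rpow_le_rpow_of_exponent_le (by linarith) hu) le_rfl
  have h4 : Real.log ((z : ℝ) ^ u) / Real.log z = u := by
    rw [Real.log_rpow (by linarith)]
    field_simp
  rw [h4] at h3
  have h5 : ((cols (primorial z) ⌊(z : ℝ) ^ u⌋₊).card : ℝ) ≤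
      ((rough z ⌊(z : ℝ) ^ u⌋₊).card : ℝ) := by
    exact_mod_cast cols_primorial_le z ⌊(z : ℝ) ^ u⌋₊
  refine h5.trans (h3.trans (le_of_eq ?_))
  ring

section

variable {Ω : Type*} [MeasurableSpace Ω] {μ : Measure Ω} [IsProbabilityMeasure μ]
  {X : Nat.Primes → Ω → ℤ}

/-- the general bound, with a strict room -/
theorem displaced_bound (hX : ∀ p, Measurable (X p)) (hind : iIndepFun X μ)
    {A u c κ : ℝ} (hA : 2 ≤ A) (hAu : A ≤ u)
    (hbd : ∀ p : Nat.Primes, ∀ᵐ ω ∂μ, |(X p ω : ℝ)| ≤ Real.log (p : ℕ) ^ A)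
    (hκ0 : 0 < κ) (hκ1 : κ < 1) (hc : 0 < c)
    (hconc : ∃ P₁ : ℕ, ∀ p : Nat.Primes, P₁ ≤ (p : ℕ) → ∀ t : ℤ,
      μ.real {ω | t < X p ω ∧ (X p ω : ℝ) ≤ t + c * Real.log (p : ℕ) ^ 2} ≤ κ)
    (hlt : c * (eg * buchstab u) * (Real.log (1 / (1 - κ)) / κ) < 1) :
    ∀ᵐ ω ∂μ, (displaced X ω).Infinite ∧ ENNReal.ofReal c ≤ cramer (displaced X ω) := by
  have h1κ : 0 < 1 - κ := by linarith
  have hlam0 : 0 < Real.log (1 / (1 - κ)) / κ := by
    apply div_pos _ hκ0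
    apply Real.log_pos
    rw [lt_div_iff₀ h1κ]
    linarith
  set lam := Real.log (1 / (1 - κ)) / κ with hlam
  have heg := eg_pos
  -- room in `u`
  obtain ⟨η, hη0, hη⟩ : ∃ η : ℝ, 0 < η ∧ c * (eg * (buchstab u + 2 * η)) * lam < 1 := by
    have hK : 0 < c * eg * lam := by positivity
    refine ⟨(1 - c * (eg * buchstab u) * lam) / (4 * (c * eg * lam)), ?_, ?_⟩
    · apply div_pos (by linarith) (by positivity)
    · have : c * (eg * (buchstab u + 2 * ((1 - c * (eg * buchstab u) * lam) /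
          (4 * (c * eg * lam))))) * lam =
          c * (eg * buchstab u) * lam + (1 - c * (eg * buchstab u) * lam) / 2 := by
        field_simp
        ring
      rw [this]
      linarith
  set u' : ℝ := u + η with hu'
  have hW : buchstab u' < buchstab u + 2 * η := by
    have h1 := abs_buchstab_sub_le (show 1 ≤ u' by linarith) (show 1 ≤ u by linarith)
    have h2 : |u' - u| = η := by rw [hu']; simp [abs_of_pos hη0]
    rw [h2] at h1
    have := (abs_le.1 h1).2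
    linarith
  set W : ℝ := buchstab u + 2 * η with hWdef
  have hW0 : 0 ≤ W := by
    have := buchstab_ge (show 1 ≤ u by linarith)
    rw [hWdef]; linarith
  -- the exponents
  set B : ℝ := min ((1 + u' / A) / 2) 2 with hB
  have hA0 : 0 < A := by linarith
  have huA : 1 < u' / A := by
    rw [lt_div_iff₀ hA0]; linarith
  have hB1 : 1 < B := by
    rw [hB]; apply lt_min <;> linarith
  have hB2 : B ≤ 2 := min_le_right _ _
  have hB0 : 0 < B := by linarith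
  have hBu : A < u' / B := by
    rw [lt_div_iff₀ hB0]
    have h1 : B ≤ (1 + u' / A) / 2 := min_le_left _ _
    have h2 : A * ((1 + u' / A) / 2) = (A + u') / 2 := by field_simp
    have h3 : A * B ≤ A * ((1 + u' / A) / 2) := by gcongr
    rw [h2] at h3
    linarith
  have hrough := cols_upper (show 1 ≤ u' by linarith) hW
  have hbB : u' / B * B = u' := by field_simp
  -- every smaller constant
  have key : ∀ c' : ℝ, 0 < c' → c' < c →
      ∀ᵐ ω ∂μ, (displaced X ω).Infinite ∧ ENNReal.ofReal c' ≤ cramer (displaced X ω) := by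
    intro c' hc' hcc'
    exact frequently_free (b := u' / B) (W := W) hX hind (by linarith) hBu (by linarith) hB1 hB2 hW0
      (by rw [hbB]; exact hrough) hbd hκ0 hκ1 hc' hcc' hconc hη
  have hseq : ∀ᵐ ω ∂μ, ∀ n : ℕ, (displaced X ω).Infinite ∧
      ENNReal.ofReal (c * (1 - 1 / ((n : ℝ) + 2))) ≤ cramer (displaced X ω) := by
    rw [ae_all_iff]
    intro n
    have h1 : (0 : ℝ) < n + 2 := by positivity
    have h2 : 1 / ((n : ℝ) + 2) < 1 := by
      rw [div_lt_one h1]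
      have : (0 : ℝ) ≤ n := Nat.cast_nonneg n
      linarith
    have h3 : 0 < 1 / ((n : ℝ) + 2) := by positivity
    apply key
    · apply mul_pos hc; linarith
    · nlinarith
  filter_upwards [hseq] with ω hω
  refine ⟨(hω 0).1, ?_⟩
  have hlim : Tendsto (fun n : ℕ => ENNReal.ofReal (c * (1 - 1 / ((n : ℝ) + 2)))) atTop
      (𝓝 (ENNReal.ofReal c)) := by
    apply ENNReal.tendsto_ofReal
    have h1 : Tendsto (fun n : ℕ => 1 / ((n : ℝ) + 2)) atTop (𝓝 0) := by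
      simp_rw [one_div]
      exact tendsto_inv_atTop_zero.comp (tendsto_atTop_add_const_right _ _
        tendsto_natCast_atTop_atTop)
    have h2 := (h1.const_sub 1).const_mul c
    simpa using h2
  exact le_of_tendsto' hlim fun n => (hω n).2

/-- limit of the factor `log(1/(1-κ))/κ` -/
lemma exists_kappa {a : ℝ} (ha0 : 0 ≤ a) (ha : a < 1) : ∃ κ : ℝ, 0 < κ ∧ κ < 1 ∧
    a * (Real.log (1 / (1 - κ)) / κ) < 1 := by
  have h1 : ∀ κ : ℝ, 0 < κ → κ < 1 → Real.log (1 / (1 - κ)) / κ ≤ 1 / (1 - κ) := by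
    intro κ h0 h1
    have h2 : 0 < 1 - κ := by linarith
    rw [div_le_iff₀ h0]
    have h3 := Real.log_le_sub_one_of_pos (show 0 < 1 / (1 - κ) by positivity)
    refine h3.trans (le_of_eq ?_)
    field_simp
    ring
  refine ⟨(1 - a) / 2, by linarith, by linarith, ?_⟩
  have h2 := h1 ((1 - a) / 2) (by linarith) (by linarith)
  have h3 : a * (Real.log (1 / (1 - (1 - a) / 2)) / ((1 - a) / 2)) ≤
      a * (1 / (1 - (1 - a) / 2)) := by gcongr
  refine lt_of_le_of_lt h3 ?_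
  rw [mul_one_div, div_lt_one (by linarith)]
  linarith

/-- concentration on longer windows -/
lemma conc_scale (hX : ∀ p, Measurable (X p))
    (hconc : ∀ κ : ℝ, 0 < κ → ∃ P₁ : ℕ, ∀ p : Nat.Primes, P₁ ≤ (p : ℕ) → ∀ t : ℤ,
      μ.real {ω | t < X p ω ∧ (X p ω : ℝ) ≤ t + Real.log (p : ℕ) ^ 2} ≤ κ)
    (c κ : ℝ) (hκ : 0 < κ) : ∃ P₁ : ℕ, ∀ p : Nat.Primes, P₁ ≤ (p : ℕ) → ∀ t : ℤ,
      μ.real {ω | t < X p ω ∧ (X p ω : ℝ) ≤ t + c * Real.log (p : ℕ) ^ 2} ≤ κ := by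
  obtain ⟨M, hM⟩ := exists_nat_gt c
  obtain ⟨P₁, hP₁⟩ := hconc (κ / (2 * M + 1)) (by positivity)
  refine ⟨max P₁ 3, fun p hp t => ?_⟩
  have hp1 : P₁ ≤ (p : ℕ) := (le_max_left _ _).trans hp
  have hp3 : (3 : ℝ) ≤ ((p : ℕ) : ℝ) := by exact_mod_cast (le_max_right _ _).trans hp
  have hL1 : 1 ≤ Real.log ((p : ℕ) : ℝ) := by
    rw [Real.le_log_iff_exp_le (by linarith)]
    have := Real.exp_one_lt_d9
    linarith
  set L : ℝ := Real.log ((p : ℕ) : ℝ) ^ 2 with hL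
  have hL2 : 1 ≤ L := by rw [hL]; nlinarith
  have hfl : (⌊L⌋₊ : ℝ) ≤ L := Nat.floor_le (by linarith)
  have hfl2 : L < 2 * ⌊L⌋₊ := by
    have h1 := Nat.lt_floor_add_one L
    have h2 : 1 ≤ ⌊L⌋₊ := (Nat.one_le_floor_iff _).2 hL2
    have h3 : (1 : ℝ) ≤ ⌊L⌋₊ := by exact_mod_cast h2
    linarith
  have hcover : {ω | t < X p ω ∧ (X p ω : ℝ) ≤ t + c * L} ⊆
      ⋃ j ∈ Finset.range (2 * M), {ω | (t + j * (⌊L⌋₊ : ℤ) : ℤ) < X p ω ∧
        (X p ω : ℝ) ≤ ((t + j * (⌊L⌋₊ : ℤ) : ℤ) : ℝ) + L} := by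
    intro ω hω
    obtain ⟨h1, h2⟩ := hω
    have hf1 : (0 : ℤ) < (⌊L⌋₊ : ℤ) := by
      have : 1 ≤ ⌊L⌋₊ := (Nat.one_le_floor_iff _).2 hL2
      exact_mod_cast this
    simp only [Set.mem_iUnion, Finset.mem_range]
    set d : ℤ := X p ω - t - 1 with hd
    have hd0 : 0 ≤ d := by omega
    have hq0 : 0 ≤ d / (⌊L⌋₊ : ℤ) := Int.ediv_nonneg hd0 hf1.le
    refine ⟨(d / (⌊L⌋₊ : ℤ)).toNat, ?_, ?_⟩
    · have h3 : d / (⌊L⌋₊ : ℤ) < 2 * M := by
        apply Int.ediv_lt_of_lt_mul hf1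
        have h4 : (d : ℝ) < 2 * M * ⌊L⌋₊ := by
          rw [hd]
          push_cast
          have h5 : c * L ≤ M * L := by gcongr
          have h6 : (M : ℝ) * L ≤ M * (2 * ⌊L⌋₊) := by gcongr
          linarith
        exact_mod_cast h4
      omega
    · rw [Int.toNat_of_nonneg hq0] 
      have h3 := Int.emod_add_mul_ediv d (⌊L⌋₊ : ℤ)
      have h4 := Int.emod_nonneg d hf1.ne'
      have h5 := Int.emod_lt_of_pos d hf1
      have h6 : (⌊L⌋₊ : ℤ) * (d / (⌊L⌋₊ : ℤ)) = d / (⌊L⌋₊ : ℤ) * (⌊L⌋₊ : ℤ) := mul_comm _ _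
      constructor
      · show t + d / (⌊L⌋₊ : ℤ) * (⌊L⌋₊ : ℤ) < X p ω
        linarith
      · have h7 : X p ω ≤ t + d / (⌊L⌋₊ : ℤ) * (⌊L⌋₊ : ℤ) + (⌊L⌋₊ : ℤ) := by linarith
        have h8 : (X p ω : ℝ) ≤ ((t + d / (⌊L⌋₊ : ℤ) * (⌊L⌋₊ : ℤ) : ℤ) : ℝ) + (⌊L⌋₊ : ℝ) := by
          exact_mod_cast h7
        linarith
  refine (measureReal_mono hcover (measure_ne_top _ _)).trans ?_
  refine (measureReal_biUnion_finset_le _ _).trans ?_
  have hsum : ∑ j ∈ Finset.range (2 * M), μ.real {ω | (t + j * (⌊L⌋₊ : ℤ) : ℤ) < X p ω ∧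
        (X p ω : ℝ) ≤ ((t + j * (⌊L⌋₊ : ℤ) : ℤ) : ℝ) + L} ≤
      ∑ _j ∈ Finset.range (2 * M), κ / (2 * M + 1) :=
    Finset.sum_le_sum fun j _ => hP₁ p hp1 _
  refine hsum.trans ?_
  rw [Finset.sum_const, Finset.card_range, nsmul_eq_mul]
  push_cast
  rw [mul_div_assoc', div_le_iff₀ (by positivity)]
  nlinarith

end

end Pool.Agent.LibMaier
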