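import Pool.Agent.LibMaier.Displace

/-!
Primes displaced at random: infinitely many empty windows.
-/

namespace Pool.Agent.LibMaier

open Filter Topology MeasureTheory ProbabilityTheory
open Pool.Agent.LibCramer
open scoped ENNReal

section

variable {Ω : Type*} [MeasurableSpace Ω] {μ : Measure Ω} [IsProbabilityMeasure μ]
  {X : Nat.Primes → Ω → ℤ}

/-- **One scale.** -/
theorem exists_scale (hX : ∀ p, Measurable (X p)) (hind : iIndepFun X μ)
    {A b B W c c' κ : ℝ} (hA : 0 ≤ A) (hAb : A < b) (hb2 : 2 < b) (hB1 : 1 < B) (hB2 : B ≤ 2)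
    (hW : 0 ≤ W)
    (hrough : ∀ᶠ z : ℕ in atTop, ((cols (primorial z) ⌊(z : ℝ) ^ (b * B)⌋₊).card : ℝ) ≤
      W * (z : ℝ) ^ (b * B) / Real.log z)
    (hκ0 : 0 < κ) (hκ1 : κ < 1) (hc' : 0 < c') (hcc' : c' < c)
    (hconc : ∃ P₁ : ℕ, ∀ p : Nat.Primes, P₁ ≤ (p : ℕ) → ∀ t : ℤ,
      μ.real {ω | t < X p ω ∧ (X p ω : ℝ) ≤ t + c * Real.log (p : ℕ) ^ 2} ≤ κ)
    (hlt : c * (eg * W) * (Real.log (1 / (1 - κ)) / κ) < 1) (i : ℕ) :
    ∃ (K : Finset ℕ) (S : ℕ → Finset Nat.Primes) (H : ℕ → Nat.Primes → Set ℤ),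
      (∀ k ∈ K, ∀ k' ∈ K, k ≠ k' → Disjoint (S k) (S k')) ∧
      (i : ℝ) ≤ ∑ k ∈ K, μ.real (freeEv X (S k) (H k)) ∧
      ∀ k ∈ K, ∀ t : Nat.Primes → ℤ, (∀ p : Nat.Primes, |(t p : ℝ)| ≤ Real.log (p : ℕ) ^ A) →
        (∀ p ∈ S k, t p ∉ H k p) → ∃ m : ℕ, i ≤ m ∧ ∀ j, m < j → j ≤ m + len c' m →
          j ∉ {n : ℕ | ∃ p : Nat.Primes, ((p : ℕ) : ℤ) + t p = (n : ℤ)} := by
  have hc : 0 < c := hc'.trans hcc'
  have heg : 0 < eg := eg_pos
  have h1κ : 0 < 1 - κ := by linarith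
  set lam : ℝ := Real.log (1 / (1 - κ)) / κ with hlam
  have hlam0 : 0 < lam := by
    apply div_pos _ hκ0
    apply Real.log_pos
    rw [lt_div_iff₀ h1κ]
    linarith
  -- choice of ε
  obtain ⟨ε, hε0, hε14, hε1⟩ : ∃ ε : ℝ, 0 < ε ∧ ε < 1 / 4 ∧
      c * (eg * W) * lam * ((1 + ε) ^ 5 / (1 - ε) ^ 3) + 3 * ε < 1 := by
    have hcont : ContinuousAt (fun ε : ℝ => c * (eg * W) * lam * ((1 + ε) ^ 5 / (1 - ε) ^ 3) +
        3 * ε) 0 := by
      have h0 : ContinuousAt (fun ε : ℝ => (1 + ε) ^ 5 / (1 - ε) ^ 3) 0 := by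
        apply ContinuousAt.div
        · fun_prop
        · fun_prop
        · norm_num
      fun_prop
    have h1 : ∀ᶠ ε in 𝓝 (0 : ℝ), c * (eg * W) * lam * ((1 + ε) ^ 5 / (1 - ε) ^ 3) + 3 * ε < 1 := by
      apply hcont.eventually_lt_const
      refine lt_of_le_of_lt (le_of_eq ?_) hlt
      simp
    have h2 := h1.filter_mono (nhdsWithin_le_nhds (s := Set.Ioi 0))
    have h3 : ∀ᶠ ε in 𝓝[>] (0 : ℝ), ε < 1 / 4 :=
      (eventually_lt_nhds (by norm_num)).filter_mono nhdsWithin_le_nhds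
    obtain ⟨ε, h4, h5, h6⟩ := (h2.and (h3.and self_mem_nhdsWithin)).exists
    exact ⟨ε, h6, h5, h4⟩
  -- truncation of the Gaussian
  obtain ⟨v0, hv00, hv0⟩ : ∃ v0 : ℝ, 0 ≤ v0 ∧ 1 - ε ≤ ∫ v in (-v0)..v0, gw v := by
    have h1 := intervalIntegral_tendsto_integral (μ := volume) (f := gw) (l := atTop)
      (a := fun v : ℝ => -v) (b := fun v : ℝ => v) integrable_gw tendsto_neg_atTop_atBot tendsto_id
    rw [integral_gw] at h1
    obtain ⟨v0, h2, h3⟩ := ((h1.eventually_const_lt (show 1 - ε < 1 by linarith)).and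
      (eventually_ge_atTop 0)).exists
    exact ⟨v0, h3, h2.le⟩
  obtain ⟨P₀, hP₀⟩ := log_rpow_le_half A
  obtain ⟨P₁, hP₁⟩ := hconc
  -- growth conditions
  have hg1 : ∀ᶠ x : ℝ in atTop, 2 * (i : ℝ) ≤ Real.exp (ε * x) := by
    have : Tendsto (fun x : ℝ => Real.exp (ε * x)) atTop atTop :=
      Real.tendsto_exp_atTop.comp (tendsto_id.const_mul_atTop hε0)
    exact this.eventually_ge_atTop _
  have hg2 : ∀ᶠ x : ℝ in atTop, 2 * ((2 * x) ^ A + 1) + c * ((1 + ε) * x) ^ 2 + 1 ≤ ε * x ^ b := by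
    have ha : Tendsto (fun x : ℝ => x ^ (-(b - A))) atTop (𝓝 0) :=
      tendsto_rpow_neg_atTop (by linarith)
    have hb : Tendsto (fun x : ℝ => x ^ (-(b - 2))) atTop (𝓝 0) :=
      tendsto_rpow_neg_atTop (by linarith)
    have hc3 : Tendsto (fun x : ℝ => x ^ (-b)) atTop (𝓝 0) :=
      tendsto_rpow_neg_atTop (by linarith)
    have h := ((ha.const_mul (2 * 2 ^ A)).add (hb.const_mul (c * (1 + ε) ^ 2))).add
      (hc3.const_mul 3)
    simp only [mul_zero, add_zero] at h
    filter_upwards [h.eventually_lt_const hε0, eventually_gt_atTop 0] with x hx hx0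
    have hxb : 0 < x ^ b := Real.rpow_pos_of_pos hx0 b
    have e1 : x ^ (-(b - A)) * x ^ b = x ^ A := by
      rw [← Real.rpow_add hx0]; congr 1; ring
    have e2 : x ^ (-(b - 2)) * x ^ b = x ^ 2 := by
      rw [← Real.rpow_add hx0, ← Real.rpow_natCast]; congr 1; push_cast; ring
    have e3 : x ^ (-b) * x ^ b = 1 := by
      rw [← Real.rpow_add hx0]; simp
    have e4 : (2 * x) ^ A = 2 ^ A * x ^ A := Real.mul_rpow (by norm_num) hx0.le
    have h2 := mul_lt_mul_of_pos_right hx hxb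
    have h3 : (2 * 2 ^ A * x ^ (-(b - A)) + c * (1 + ε) ^ 2 * x ^ (-(b - 2)) + 3 * x ^ (-b)) *
        x ^ b = 2 * 2 ^ A * (x ^ (-(b - A)) * x ^ b) + c * (1 + ε) ^ 2 * (x ^ (-(b - 2)) * x ^ b) +
        3 * (x ^ (-b) * x ^ b) := by ring
    rw [h3, e1, e2, e3] at h2
    rw [e4]
    nlinarith
  have hg3 : ∀ᶠ x : ℝ in atTop, 1 / Real.sqrt c + 1 ≤ (1 - ε) * x ∧
      Real.sqrt c' * (Real.log 2) ≤ (Real.sqrt c - Real.sqrt c') * ((1 - ε) * x) := by
    have h1 : Tendsto (fun x : ℝ => (1 - ε) * x) atTop atTop :=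
      tendsto_id.const_mul_atTop (by linarith)
    have h2 : 0 < Real.sqrt c - Real.sqrt c' := by
      have := Real.sqrt_lt_sqrt hc'.le hcc'
      linarith
    exact (h1.eventually_ge_atTop _).and ((h1.const_mul_atTop h2).eventually_ge_atTop _)
  have hg4 : ∀ᶠ x : ℝ in atTop, v0 + 1 + Real.log 4 ≤ x := eventually_ge_atTop _
  obtain ⟨X₀, hX₀⟩ := eventually_atTop.1 (hg1.and (hg2.and (hg3.and hg4)))
  obtain ⟨q, k1, k2, x, hxX, hkN, hk12, hq1, hk1, hkbig, hVx, hl1, hl2, hl3, hl4, hyq, hyk1, havg⟩ :=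
    matrix_avg_poly hε0 hε14 (show 0 < b by linarith) hB1 hB2 hv00 hrough
      (max (max P₀ P₁) (max i 1)) (max X₀ 1)
  have hx1 : 1 ≤ x := (le_max_right _ _).trans hxX
  obtain ⟨hG1, hG2, ⟨hG3, hG3'⟩, hG4⟩ := hX₀ x ((le_max_left _ _).trans hxX)
  have hqR : (1 : ℝ) ≤ q := by exact_mod_cast hq1
  have hk1R : (1 : ℝ) ≤ k1 := by exact_mod_cast hk1
  have hkP0 : P₀ ≤ k1 := ((le_max_left _ _).trans (le_max_left _ _)).trans hkN
  have hkP1 : P₁ ≤ k1 := ((le_max_right _ _).trans (le_max_left _ _)).trans hkN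
  have hki : i ≤ k1 := ((le_max_left _ _).trans (le_max_right _ _)).trans hkN
  set V : ℝ := v0 + 1 with hV
  have hV0 : 0 < V := by rw [hV]; linarith
  set y : ℝ := x ^ b with hy
  have hy1 : 1 ≤ y := Real.one_le_rpow hx1 (by linarith)
  set N : ℕ := ⌊y⌋₊ with hN
  have hNy : (N : ℝ) ≤ y := Nat.floor_le (by linarith)
  have hyN : y < N + 1 := Nat.lt_floor_add_one y
  have hNq : N ≤ q := by exact_mod_cast hNy.trans hyq
  set Hn : ℕ := ⌈(2 * x) ^ A⌉₊ with hHn
  have hH1 : (2 * x) ^ A ≤ Hn := Nat.le_ceil _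
  have hH2 : (Hn : ℝ) < (2 * x) ^ A + 1 := Nat.ceil_lt_add_one (by positivity)
  -- the rows
  set l : ℕ → ℕ := fun k => len c (k * q) with hl
  have hrow : ∀ k ∈ Finset.Ico k1 k2, (1 - ε) * x ≤ Real.log ((k * q : ℕ) : ℝ) ∧
      Real.log ((k * q : ℕ) : ℝ) ≤ (1 + ε) * x ∧ Real.log ((k * q : ℕ) : ℝ) ≤ x + V ∧
      1 ≤ l k ∧ (l k : ℝ) ≤ c * ((1 + ε) * x) ^ 2 := by
    intro k hk
    rw [Finset.mem_Ico] at hk
    have hkR : (k1 : ℝ) ≤ k := by exact_mod_cast hk.1
    have hk2R : (k : ℝ) ≤ k2 := by exact_mod_cast hk.2.le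
    have hkpos : (0 : ℝ) < k := by linarith
    have hlog0 : x - V ≤ Real.log ((k * q : ℕ) : ℝ) := by
      push_cast
      exact hl1.trans (Real.log_le_log (by positivity) (by gcongr))
    have hlogV : Real.log ((k * q : ℕ) : ℝ) ≤ x + V := by
      push_cast
      exact le_trans (Real.log_le_log (by positivity) (by gcongr)) hl4
    have hlow : (1 - ε) * x ≤ Real.log ((k * q : ℕ) : ℝ) := by linarith
    have hup : Real.log ((k * q : ℕ) : ℝ) ≤ (1 + ε) * x := by linarith
    have h1e : 0 < (1 - ε) * x := mul_pos (by linarith) (by linarith)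
    refine ⟨hlow, hup, hlogV, ?_, ?_⟩
    · rw [hl]
      simp only [len]
      rw [Nat.one_le_floor_iff]
      have hs : 0 < Real.sqrt c := Real.sqrt_pos.2 hc
      have h2 : 1 / Real.sqrt c ≤ Real.log ((k * q : ℕ) : ℝ) := by linarith
      have h3 : (1 / Real.sqrt c) ^ 2 ≤ Real.log ((k * q : ℕ) : ℝ) ^ 2 :=
        pow_le_pow_left₀ (by positivity) h2 2
      rw [div_pow, Real.sq_sqrt hc.le, one_pow, div_le_iff₀ hc] at h3
      linarith
    · refine (len_le hc.le _).trans ?_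
      have : 0 ≤ Real.log ((k * q : ℕ) : ℝ) := by linarith
      gcongr
  set J : ℕ → ℕ := fun k => (N - 2 * Hn) / l k with hJ
  have hJrow : ∀ k ∈ Finset.Ico k1 k2, 1 ≤ J k ∧ (1 - ε) * y ≤ (J k : ℝ) * l k ∧
      J k * l k + 2 * Hn ≤ N := by
    intro k hk
    obtain ⟨h1, h2, h3, h4, h5⟩ := hrow k hk
    have hlt1 : (2 * Hn : ℝ) + l k + 1 ≤ ε * y := by linarith
    have hεy : ε * y ≤ 1 / 4 * y := mul_le_mul_of_nonneg_right hε14.le (by linarith)
    have hl0 : (0 : ℝ) ≤ l k := Nat.cast_nonneg _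
    have h2H : 2 * Hn ≤ N := by
      have : (2 * Hn : ℝ) ≤ N := by linarith
      exact_mod_cast this
    have hcast : ((N - 2 * Hn : ℕ) : ℝ) = N - 2 * Hn := by
      rw [Nat.cast_sub h2H]; push_cast; ring
    have hge : l k ≤ N - 2 * Hn := by
      have : (l k : ℝ) ≤ ((N - 2 * Hn : ℕ) : ℝ) := by
        rw [hcast]; linarith
      exact_mod_cast this
    have hJ1 : 1 ≤ J k := by
      rw [hJ]
      exact (Nat.one_le_div_iff (by omega)).2 hge
    have hJl : J k * l k ≤ N - 2 * Hn := Nat.div_mul_le_self _ _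
    have hJl2 : N - 2 * Hn < J k * l k + l k := by
      have := Nat.lt_div_mul_add (a := N - 2 * Hn) (b := l k) (by omega)
      rw [hJ]
      exact this
    refine ⟨hJ1, ?_, by omega⟩
    have h6 : ((N - 2 * Hn : ℕ) : ℝ) < (J k : ℝ) * l k + l k := by exact_mod_cast hJl2
    rw [hcast] at h6
    linarith
  -- choice of the window in every row
  have hchoice : ∀ k, ∃ j, k ∈ Finset.Ico k1 k2 → j < J k ∧
      ∑ p ∈ rowP (k * q) N, μ.real (X p ⁻¹' hitSet (k * q + Hn + j * l k) (l k) p) ≤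
        (rowc q k N : ℝ) / (J k : ℝ) := by
    intro k
    by_cases hk : k ∈ Finset.Ico k1 k2
    · obtain ⟨h1, -, -⟩ := hJrow k hk
      obtain ⟨j, hj, hj2⟩ := exists_good_window (μ := μ) hX (rowP (k * q) N) (k * q + Hn) (l k) (J k) h1
      rw [card_rowP] at hj2
      exact ⟨j, fun _ => ⟨hj, hj2⟩⟩
    · exact ⟨0, fun h => absurd h hk⟩
  choose jj hjj using hchoice
  set m : ℕ → ℕ := fun k => k * q + Hn + jj k * l k with hm
  have hmrow : ∀ k ∈ Finset.Ico k1 k2, m k + l k + Hn ≤ k * q + N := by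
    intro k hk
    obtain ⟨-, -, h3⟩ := hJrow k hk
    have h4 := (hjj k hk).1
    have h5 : (jj k + 1) * l k ≤ J k * l k := Nat.mul_le_mul_right _ h4
    rw [add_mul, one_mul] at h5
    rw [hm]
    simp only
    omega
  refine ⟨Finset.Ico k1 k2, fun k => rowP (k * q) N, fun k => hitSet (m k) (l k), ?_, ?_, ?_⟩
  · intro k _ k' _ hkk
    exact rowP_disjoint hNq hkk
  · -- the sum of the probabilities
    set τ : ℝ := c * ((1 + ε) * x) ^ 2 / ((1 - ε) * y) with hτ
    have h1e : 0 < 1 - ε := by linarith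
    have hτ0 : 0 < τ := by
      rw [hτ]
      have : 0 < y := by linarith
      positivity
    have hprob : ∀ k ∈ Finset.Ico k1 k2, Real.exp (-(lam * τ * rowc q k N)) ≤
        μ.real (freeEv X (rowP (k * q) N) (hitSet (m k) (l k))) := by
      intro k hk
      obtain ⟨h1, h2, h3, h4, h5⟩ := hrow k hk
      obtain ⟨h6, h7, h8⟩ := hJrow k hk
      have hsum := (hjj k hk).2
      have hfree := prob_freeEv_ge hX hind (rowP (k * q) N) (hitSet (m k) (l k)) hκ0 hκ1 (by
        intro p hp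
        rw [mem_rowP] at hp
        have hpP : P₁ ≤ (p : ℕ) := by
          have : k1 ≤ k := (Finset.mem_Ico.1 hk).1
          calc P₁ ≤ k := hkP1.trans this
            _ ≤ k * q := Nat.le_mul_of_pos_right _ hq1
            _ ≤ p := hp.1.le
        refine le_trans ?_ (hP₁ p hpP ((m k : ℤ) - ((p : ℕ) : ℤ)))
        apply measureReal_mono _ (by finiteness)
        intro ω hω
        simp only [Set.mem_preimage, hitSet, Set.mem_ofPred_eq] at hω ⊢
        refine ⟨by linarith [hω.1], ?_⟩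
        have h9 : (X p ω : ℤ) ≤ (m k : ℤ) - ((p : ℕ) : ℤ) + (l k : ℤ) := by linarith [hω.2]
        have h10 : (X p ω : ℝ) ≤ (m k : ℝ) - ((p : ℕ) : ℝ) + (l k : ℝ) := by exact_mod_cast h9
        have h11 : (l k : ℝ) ≤ c * Real.log ((p : ℕ) : ℝ) ^ 2 := by
          refine (len_le hc.le _).trans ?_
          have h12 : Real.log ((k * q : ℕ) : ℝ) ≤ Real.log ((p : ℕ) : ℝ) := by
            apply Real.log_le_log
            · have : 0 < k * q := Nat.mul_pos (by
                have := (Finset.mem_Ico.1 hk).1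
                omega) hq1
              exact_mod_cast this
            · exact_mod_cast hp.1.le
          have h13 : 0 ≤ Real.log ((k * q : ℕ) : ℝ) := by
            have : 0 < (1 - ε) * x := mul_pos h1e (by linarith)
            linarith
          gcongr
        push_cast
        linarith)
      refine le_trans ?_ hfree
      apply Real.exp_le_exp.2
      rw [neg_le_neg_iff, ← hlam, mul_assoc]
      apply mul_le_mul_of_nonneg_left _ hlam0.le
      refine hsum.trans ?_
      have hJpos : (0 : ℝ) < J k := by exact_mod_cast h6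
      have hlpos : (0 : ℝ) < l k := by exact_mod_cast h4
      have hypos : 0 < y := by linarith
      rw [div_le_iff₀ hJpos]
      have h9 : 1 ≤ τ * J k := by
        rw [hτ, div_mul_eq_mul_div, le_div_iff₀ (by positivity), one_mul]
        calc (1 - ε) * y ≤ (J k : ℝ) * l k := h7
          _ ≤ (J k : ℝ) * (c * ((1 + ε) * x) ^ 2) := by gcongr
          _ = c * ((1 + ε) * x) ^ 2 * J k := by ring
      have h10 : (0 : ℝ) ≤ rowc q k N := Nat.cast_nonneg _
      nlinarith
    set Wt' : ℝ := ∑ k ∈ Finset.Ico k1 k2, Wt q x k with hWt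
    have hWlow : 1 - ε ≤ Wt' := hv0.trans (le_sum_Wt hk12 hv00 (by linarith) (by linarith))
    have hWpos : 0 < Wt' := by linarith
    have hJ := jensen_weighted (s := Finset.Ico k1 k2) (w := fun k => Wt q x k)
      (f := fun k => lam * τ * (rowc q k N : ℝ)) (fun k hk => Wt_nonneg hq1 (by
        rw [Finset.mem_Ico] at hk; omega) x) hWpos
    rw [← hWt] at hJ
    set A' : ℝ := c * (eg * W) * lam * ((1 + ε) ^ 5 / (1 - ε) ^ 3) with hA'
    have hexp : Real.exp (-(A' * x)) ≤ Real.exp (-((∑ k ∈ Finset.Ico k1 k2,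
        Wt q x k * (lam * τ * (rowc q k N : ℝ))) / Wt')) := by
      apply Real.exp_le_exp.2
      have h1 : ∑ k ∈ Finset.Ico k1 k2, Wt q x k * (lam * τ * (rowc q k N : ℝ)) =
          lam * τ * ∑ k ∈ Finset.Ico k1 k2, Wt q x k * (rowc q k N : ℝ) := by
        rw [Finset.mul_sum]
        apply Finset.sum_congr rfl
        intro k _
        ring
      rw [h1, neg_le_neg_iff, div_le_iff₀ hWpos]
      have hypos : 0 < y := by linarith
      have hxpos : 0 < x := by linarith
      calc lam * τ * ∑ k ∈ Finset.Ico k1 k2, Wt q x k * (rowc q k N : ℝ)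
          ≤ lam * τ * ((1 + ε) ^ 3 / (1 - ε) * eg * W * (y / x)) := by gcongr
        _ = (A' * x) * (1 - ε) := by
          rw [hA', hτ]
          field_simp
        _ ≤ (A' * x) * Wt' := by
          apply mul_le_mul_of_nonneg_left hWlow
          positivity
    have hsumlow : (k1 : ℝ) * ((1 - ε) * Real.exp (-(A' * x))) ≤
        ∑ k ∈ Finset.Ico k1 k2, μ.real (freeEv X (rowP (k * q) N) (hitSet (m k) (l k))) := by
      calc (k1 : ℝ) * ((1 - ε) * Real.exp (-(A' * x)))
          ≤ (k1 : ℝ) * ∑ k ∈ Finset.Ico k1 k2, Wt q x k * Real.exp (-(lam * τ * (rowc q k N : ℝ))) := by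
            apply mul_le_mul_of_nonneg_left _ (by linarith)
            refine le_trans ?_ hJ
            exact mul_le_mul hWlow hexp (Real.exp_pos _).le hWpos.le
        _ = ∑ k ∈ Finset.Ico k1 k2, (k1 * Wt q x k) * Real.exp (-(lam * τ * (rowc q k N : ℝ))) := by
            rw [Finset.mul_sum]
            apply Finset.sum_congr rfl
            intro k _
            ring
        _ ≤ _ := by
            apply Finset.sum_le_sum
            intro k hk
            have hk' := Finset.mem_Ico.1 hk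
            have hkR : (k1 : ℝ) ≤ k := by exact_mod_cast hk'.1
            have hkpos : (0 : ℝ) < k := by linarith
            have hW0 := Wt_nonneg (q := q) (k := k) hq1 (by omega) x
            have hW1 : (k1 : ℝ) * Wt q x k ≤ 1 := by
              have := Wt_le_inv (q := q) (k := k) hq1 (by omega) x
              calc (k1 : ℝ) * Wt q x k ≤ k * (1 / k) := by gcongr
                _ = 1 := by field_simp
            calc (k1 * Wt q x k) * Real.exp (-(lam * τ * (rowc q k N : ℝ)))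
                ≤ 1 * Real.exp (-(lam * τ * (rowc q k N : ℝ))) := by gcongr
              _ = Real.exp (-(lam * τ * (rowc q k N : ℝ))) := one_mul _
              _ ≤ _ := hprob k hk
    refine le_trans ?_ hsumlow
    have h2 : Real.exp (-((1 - 3 * ε) * x)) ≤ Real.exp (-(A' * x)) := by
      apply Real.exp_le_exp.2
      rw [neg_le_neg_iff]
      exact mul_le_mul_of_nonneg_right (by linarith) (by linarith)
    have h4 : Real.exp (ε * x) ≤ k1 * Real.exp (-((1 - 3 * ε) * x)) := by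
      calc Real.exp (ε * x) = Real.exp ((1 - 2 * ε) * x) * Real.exp (-((1 - 3 * ε) * x)) := by
            rw [← Real.exp_add]
            congr 1
            ring
        _ ≤ k1 * Real.exp (-((1 - 3 * ε) * x)) := by gcongr
    calc (i : ℝ) ≤ 1 / 2 * Real.exp (ε * x) := by linarith
      _ ≤ 1 / 2 * (k1 * Real.exp (-((1 - 3 * ε) * x))) := by gcongr
      _ = k1 * (1 / 2 * Real.exp (-((1 - 3 * ε) * x))) := by ring
      _ ≤ k1 * ((1 - ε) * Real.exp (-(A' * x))) := by
          apply mul_le_mul_of_nonneg_left _ (by linarith)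
          exact mul_le_mul (by linarith) h2 (Real.exp_pos _).le (by linarith)
  · -- the windows are empty
    intro k hk t ht hfree
    obtain ⟨h1, h2, h3, h4, h5⟩ := hrow k hk
    have hk' := Finset.mem_Ico.1 hk
    have hkq : k1 ≤ k * q := hk'.1.trans (Nat.le_mul_of_pos_right _ hq1)
    have hmk := hmrow k hk
    have hkm : k * q + Hn ≤ m k := by rw [hm]; simp only; omega
    have hqkq : q ≤ k * q := Nat.le_mul_of_pos_left _ (by omega)
    have hkqR : (0 : ℝ) < ((k * q : ℕ) : ℝ) := by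
      have : 0 < k * q := by omega
      exact_mod_cast this
    have h1e : 0 < (1 - ε) * x := mul_pos (by linarith) (by linarith)
    have hlog2 : 0 < Real.log 2 := Real.log_pos (by norm_num)
    refine ⟨m k, by omega, ?_⟩
    -- the length
    have hlen : len c' (m k) ≤ l k := by
      rw [hl]
      simp only [len]
      apply Nat.floor_mono
      have hmle : ((m k : ℕ) : ℝ) ≤ 2 * ((k * q : ℕ) : ℝ) := by
        have : m k ≤ 2 * (k * q) := by omega
        exact_mod_cast this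
      have hmpos : (0 : ℝ) < (m k : ℝ) := by
        have : 0 < m k := by omega
        exact_mod_cast this
      have hlogm : Real.log (m k : ℝ) ≤ Real.log 2 + Real.log ((k * q : ℕ) : ℝ) := by
        rw [← Real.log_mul (by norm_num) hkqR.ne']
        exact Real.log_le_log hmpos hmle
      have hlogm0 : 0 ≤ Real.log (m k : ℝ) := by
        apply Real.log_nonneg
        have : 1 ≤ m k := by omega
        exact_mod_cast this
      have hs : Real.sqrt c' * Real.log (m k : ℝ) ≤ Real.sqrt c * Real.log ((k * q : ℕ) : ℝ) := by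
        have hsc' : 0 ≤ Real.sqrt c' := Real.sqrt_nonneg _
        have h7 : Real.sqrt c' * Real.log (m k : ℝ) ≤
            Real.sqrt c' * (Real.log 2 + Real.log ((k * q : ℕ) : ℝ)) := by gcongr
        have h8 : 0 < Real.sqrt c - Real.sqrt c' := by
          have := Real.sqrt_lt_sqrt hc'.le hcc'
          linarith
        have h9 : (Real.sqrt c - Real.sqrt c') * ((1 - ε) * x) ≤
            (Real.sqrt c - Real.sqrt c') * Real.log ((k * q : ℕ) : ℝ) := by gcongr
        nlinarith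
      have h10 := pow_le_pow_left₀ (by positivity) hs 2
      rw [mul_pow, mul_pow, Real.sq_sqrt hc'.le, Real.sq_sqrt hc.le] at h10
      exact h10
    intro n hn1 hn2 hn3
    obtain ⟨p, hp⟩ := hn3
    have hnup : n ≤ m k + l k := by omega
    have hp2n : (p : ℕ) ≤ 2 * n := prime_le_two_mul hP₀ (ht p) hp (by omega)
    have hp4 : (p : ℕ) ≤ 4 * (k * q) := by omega
    have hplog : Real.log ((p : ℕ) : ℝ) ≤ 2 * x := by
      have hppos : (0 : ℝ) < ((p : ℕ) : ℝ) := by exact_mod_cast p.2.pos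
      calc Real.log ((p : ℕ) : ℝ) ≤ Real.log (4 * ((k * q : ℕ) : ℝ)) :=
            Real.log_le_log hppos (by exact_mod_cast hp4)
        _ = Real.log 4 + Real.log ((k * q : ℕ) : ℝ) := Real.log_mul (by norm_num) hkqR.ne'
        _ ≤ 2 * x := by linarith
    have hplog0 : 0 ≤ Real.log ((p : ℕ) : ℝ) := by
      apply Real.log_nonneg
      exact_mod_cast p.2.one_le
    have htH : |(t p : ℝ)| ≤ Hn :=
      (ht p).trans ((Real.rpow_le_rpow hplog0 hplog hA).trans hH1)
    have htH' : |t p| ≤ (Hn : ℤ) := by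
      have : ((|t p| : ℤ) : ℝ) ≤ ((Hn : ℤ) : ℝ) := by push_cast; exact htH
      exact_mod_cast this
    have htb := abs_le.1 htH'
    have hmem : p ∈ rowP (k * q) N := by
      rw [mem_rowP]
      constructor
      · have : ((k * q : ℕ) : ℤ) < ((p : ℕ) : ℤ) := by
          have h11 : ((k * q : ℕ) : ℤ) + Hn ≤ (m k : ℤ) := by exact_mod_cast hkm
          have h12 : (m k : ℤ) < n := by exact_mod_cast hn1
          linarith [htb.2]
        exact_mod_cast this
      · have : ((p : ℕ) : ℤ) ≤ ((k * q + N : ℕ) : ℤ) := by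
          have h11 : (m k : ℤ) + l k + Hn ≤ ((k * q + N : ℕ) : ℤ) := by exact_mod_cast hmk
          have h12 : (n : ℤ) ≤ m k + l k := by exact_mod_cast hnup
          linarith [htb.1]
        exact_mod_cast this
    apply hfree p hmem
    simp only [hitSet, Set.mem_ofPred_eq]
    rw [hp]
    constructor
    · exact_mod_cast hn1
    · exact_mod_cast hnup

/-- **Infinitely many empty windows.** -/
theorem frequently_free (hX : ∀ p, Measurable (X p)) (hind : iIndepFun X μ)
    {A b B W c c' κ : ℝ} (hA : 0 ≤ A) (hAb : A < b) (hb2 : 2 < b) (hB1 : 1 < B) (hB2 : B ≤ 2)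
    (hW : 0 ≤ W)
    (hrough : ∀ᶠ z : ℕ in atTop, ((cols (primorial z) ⌊(z : ℝ) ^ (b * B)⌋₊).card : ℝ) ≤
      W * (z : ℝ) ^ (b * B) / Real.log z)
    (hbd : ∀ p : Nat.Primes, ∀ᵐ ω ∂μ, |(X p ω : ℝ)| ≤ Real.log (p : ℕ) ^ A)
    (hκ0 : 0 < κ) (hκ1 : κ < 1) (hc' : 0 < c') (hcc' : c' < c)
    (hconc : ∃ P₁ : ℕ, ∀ p : Nat.Primes, P₁ ≤ (p : ℕ) → ∀ t : ℤ,
      μ.real {ω | t < X p ω ∧ (X p ω : ℝ) ≤ t + c * Real.log (p : ℕ) ^ 2} ≤ κ)
    (hlt : c * (eg * W) * (Real.log (1 / (1 - κ)) / κ) < 1) :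
    ∀ᵐ ω ∂μ, (displaced X ω).Infinite ∧ ENNReal.ofReal c' ≤ cramer (displaced X ω) := by
  classical
  choose K S H hdis hsum hfree using
    exists_scale hX hind hA hAb hb2 hB1 hB2 hW hrough hκ0 hκ1 hc' hcc' hconc hlt
  have hBC : ∀ᵐ ω ∂μ, ∀ᶠ i : ℕ in atTop, ω ∉ ⋂ k ∈ K i, (freeEv X (S i k) (H i k))ᶜ := by
    apply ae_eventually_notMem
    have h1 : ∀ i : ℕ, μ (⋂ k ∈ K i, (freeEv X (S i k) (H i k))ᶜ) ≤
        ENNReal.ofReal (Real.exp (-(i : ℝ))) := by
      intro i
      have h2 := prob_none_le hX hind (S i) (H i) (K i) (hdis i)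
      have h3 : Real.exp (-∑ k ∈ K i, μ.real (freeEv X (S i k) (H i k))) ≤ Real.exp (-(i : ℝ)) :=
        Real.exp_le_exp.2 (neg_le_neg (hsum i))
      rw [← ofReal_measureReal (by finiteness)]
      exact ENNReal.ofReal_le_ofReal (h2.trans h3)
    have h4 : Summable fun i : ℕ => Real.exp (-(i : ℝ)) := Real.summable_exp_neg_nat
    refine ne_top_of_le_ne_top ?_ (ENNReal.tsum_le_tsum h1)
    rw [← ENNReal.ofReal_tsum_of_nonneg (fun i => (Real.exp_pos _).le) h4]
    exact ENNReal.ofReal_ne_top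
  have hbd' : ∀ᵐ ω ∂μ, ∀ p : Nat.Primes, |(X p ω : ℝ)| ≤ Real.log (p : ℕ) ^ A := ae_all_iff.2 hbd
  filter_upwards [hBC, hbd'] with ω h1 h2
  have hinf : (displaced X ω).Infinite := displaced_infinite_of (t := fun p => X p ω) h2
  refine ⟨hinf, le_cramer hinf hc'.le ?_⟩
  rw [frequently_atTop]
  intro M
  obtain ⟨I, hI⟩ := eventually_atTop.1 h1
  have h3 := hI (max I M) (le_max_left _ _)
  simp only [Set.mem_iInter, not_forall, Set.mem_compl_iff, not_not] at h3
  obtain ⟨k, hk, hk2⟩ := h3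
  obtain ⟨m, hm1, hm2⟩ := hfree (max I M) k hk (fun p => X p ω) h2 hk2
  exact ⟨m, (le_max_right _ _).trans hm1, hm2⟩

end

end Pool.Agent.LibMaier
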