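import Mathlib

/-!
Independence lemmas for displaced primes.
-/

namespace Pool.Agent.LibMaier

open MeasureTheory ProbabilityTheory Filter Topology

section

variable {Ω ι : Type*} [MeasurableSpace Ω] {μ : Measure Ω} [IsProbabilityMeasure μ] {X : ι → Ω → ℤ}

/-- the event that no `X p`, `p ∈ S`, falls in `H p` -/
def freeEv (X : ι → Ω → ℤ) (S : Finset ι) (H : ι → Set ℤ) : Set Ω := {ω | ∀ p ∈ S, X p ω ∉ H p}

lemma measurableSet_freeEv (hX : ∀ p, Measurable (X p)) (S : Finset ι) (H : ι → Set ℤ) :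
    MeasurableSet (freeEv X S H) := by
  have : freeEv X S H = ⋂ p ∈ S, X p ⁻¹' (H p)ᶜ := by
    ext ω
    simp [freeEv]
  rw [this]
  exact Finset.measurableSet_biInter _ fun p _ => hX p MeasurableSet.of_discrete

lemma prob_freeEv (hX : ∀ p, Measurable (X p)) (hind : iIndepFun X μ) (S : Finset ι)
    (H : ι → Set ℤ) : μ.real (freeEv X S H) = ∏ p ∈ S, (1 - μ.real (X p ⁻¹' H p)) := by
  have h1 : freeEv X S H = ⋂ p ∈ S, X p ⁻¹' (H p)ᶜ := by
    ext ω
    simp [freeEv]
  have h2 := hind.measure_inter_preimage_eq_mul S (sets := fun p => (H p)ᶜ)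
    (fun p _ => MeasurableSet.of_discrete)
  rw [Measure.real, h1, h2, ENNReal.toReal_prod]
  apply Finset.prod_congr rfl
  intro p _
  rw [Set.preimage_compl, ← Measure.real, probReal_compl_eq_one_sub (hX p MeasurableSet.of_discrete)]

lemma indep_pair (hX : ∀ p, Measurable (X p)) (hind : iIndepFun X μ) {S T : Finset ι}
    (hST : Disjoint S T) (P : Set (S → ℤ)) (Q : Set (T → ℤ)) :
    μ.real ({ω | (fun p : S => X p ω) ∈ P} ∩ {ω | (fun p : T => X p ω) ∈ Q}) =
      μ.real {ω | (fun p : S => X p ω) ∈ P} * μ.real {ω | (fun p : T => X p ω) ∈ Q} := by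
  have h := hind.indepFun_finset S T hST hX
  have h2 := h.measure_inter_preimage_eq_mul P Q MeasurableSet.of_discrete MeasurableSet.of_discrete
  simp only [Measure.real]
  rw [← ENNReal.toReal_mul]
  congr 1

/-- the probability that none of the events `freeEv (S k) (H k)` occurs -/
lemma prob_none [DecidableEq ι] (hX : ∀ p, Measurable (X p)) (hind : iIndepFun X μ) (S : ℕ → Finset ι)
    (H : ℕ → ι → Set ℤ) (K : Finset ℕ)
    (hS : ∀ k ∈ K, ∀ k' ∈ K, k ≠ k' → Disjoint (S k) (S k')) :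
    μ.real (⋂ k ∈ K, (freeEv X (S k) (H k))ᶜ) = ∏ k ∈ K, (1 - μ.real (freeEv X (S k) (H k))) := by
  induction K using Finset.induction_on with
  | empty => simp
  | insert k₀ K hk ih =>
    have ih' := ih fun k hk k' hk' => hS k (Finset.mem_insert_of_mem hk) k' (Finset.mem_insert_of_mem hk')
    rw [Finset.prod_insert hk, ← ih']
    set T : Finset ι := K.biUnion S with hT
    have hdis : Disjoint (S k₀) T := by
      rw [hT, Finset.disjoint_biUnion_right]
      intro k hkK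
      exact hS k₀ (Finset.mem_insert_self _ _) k (Finset.mem_insert_of_mem hkK) (by
        rintro rfl
        exact hk hkK)
    have hmem : ∀ k ∈ K, ∀ p ∈ S k, p ∈ T := fun k hkK p hp =>
      Finset.mem_biUnion.2 ⟨k, hkK, hp⟩
    have e1 : (freeEv X (S k₀) (H k₀))ᶜ = {ω | (fun p : S k₀ => X p ω) ∈
        {f : S k₀ → ℤ | ¬ ∀ p : S k₀, f p ∉ H k₀ p}} := by
      ext ω
      simp only [freeEv, Set.mem_compl_iff, Set.mem_ofPred_eq]
      constructor
      · intro h h'
        exact h fun p hp => h' ⟨p, hp⟩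
      · intro h h'
        exact h fun p => h' p p.2
    have e2 : (⋂ k ∈ K, (freeEv X (S k) (H k))ᶜ) = {ω | (fun p : T => X p ω) ∈
        {f : T → ℤ | ∀ k (hk : k ∈ K), ¬ ∀ p (hp : p ∈ S k), f ⟨p, hmem k hk p hp⟩ ∉ H k p}} := by
      ext ω
      simp only [freeEv, Set.mem_iInter, Set.mem_compl_iff, Set.mem_ofPred_eq]
    have h := indep_pair hX hind hdis {f : S k₀ → ℤ | ¬ ∀ p : S k₀, f p ∉ H k₀ p}
      {f : T → ℤ | ∀ k (hk : k ∈ K), ¬ ∀ p (hp : p ∈ S k), f ⟨p, hmem k hk p hp⟩ ∉ H k p}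
    rw [← e1, ← e2] at h
    rw [Finset.set_biInter_insert, h, probReal_compl_eq_one_sub (measurableSet_freeEv hX _ _)]

lemma prob_none_le [DecidableEq ι] (hX : ∀ p, Measurable (X p)) (hind : iIndepFun X μ)
    (S : ℕ → Finset ι) (H : ℕ → ι → Set ℤ) (K : Finset ℕ)
    (hS : ∀ k ∈ K, ∀ k' ∈ K, k ≠ k' → Disjoint (S k) (S k')) :
    μ.real (⋂ k ∈ K, (freeEv X (S k) (H k))ᶜ) ≤
      Real.exp (-∑ k ∈ K, μ.real (freeEv X (S k) (H k))) := by
  rw [prob_none hX hind S H K hS, ← Finset.sum_neg_distrib, Real.exp_sum]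
  apply Finset.prod_le_prod
  · intro k _
    have := measureReal_le_one (μ := μ) (s := freeEv X (S k) (H k))
    linarith
  · intro k _
    have := Real.add_one_le_exp (-μ.real (freeEv X (S k) (H k)))
    linarith

/-- the elementary inequality `exp(-λ o) ≤ 1 - o` for `0 ≤ o ≤ κ < 1`, `λ = log(1/(1-κ))/κ` -/
lemma exp_neg_le_one_sub {κ o : ℝ} (hκ0 : 0 < κ) (hκ1 : κ < 1) (ho0 : 0 ≤ o) (ho1 : o ≤ κ) :
    Real.exp (-(Real.log (1 / (1 - κ)) / κ * o)) ≤ 1 - o := by
  have h1 : 0 < 1 - κ := by linarith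
  have h2 : 0 < 1 - o := by linarith
  rw [← Real.le_log_iff_exp_le h2]
  have hconc := strictConcaveOn_log_Ioi.concaveOn
  have h3 := hconc.2 (show (1 : ℝ) - κ ∈ Set.Ioi 0 from h1) (Set.mem_Ioi.2 one_pos)
    (show 0 ≤ o / κ by positivity) (show 0 ≤ 1 - o / κ by
      rw [sub_nonneg, div_le_one hκ0]; exact ho1) (by ring)
  simp only [smul_eq_mul, Real.log_one, mul_zero, add_zero, mul_one] at h3
  have h4 : o / κ * (1 - κ) + (1 - o / κ) = 1 - o := by
    field_simp
    ring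
  rw [h4] at h3
  refine le_trans (le_of_eq ?_) h3
  rw [one_div, Real.log_inv]
  field_simp

/-- lower bound for the probability of a free window -/
lemma prob_freeEv_ge (hX : ∀ p, Measurable (X p)) (hind : iIndepFun X μ) (S : Finset ι)
    (H : ι → Set ℤ) {κ : ℝ} (hκ0 : 0 < κ) (hκ1 : κ < 1) (hH : ∀ p ∈ S, μ.real (X p ⁻¹' H p) ≤ κ) :
    Real.exp (-(Real.log (1 / (1 - κ)) / κ * ∑ p ∈ S, μ.real (X p ⁻¹' H p))) ≤
      μ.real (freeEv X S H) := by
  rw [prob_freeEv hX hind, Finset.mul_sum, ← Finset.sum_neg_distrib, Real.exp_sum]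
  apply Finset.prod_le_prod
  · intro p _
    exact (Real.exp_pos _).le
  · intro p hp
    exact exp_neg_le_one_sub hκ0 hκ1 measureReal_nonneg (hH p hp)

end

end Pool.Agent.LibMaier
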