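import Pool.Agent.LibMaier.MatrixPoly
import Pool.Agent.LibMaier.DispProb
import Pool.Agent.LibCramer.Core

/-!
Primes displaced at random: existence of empty windows.
-/

namespace Pool.Agent.LibMaier

open Filter Topology MeasureTheory ProbabilityTheory
open Pool.Agent.LibCramer
open scoped ENNReal

/-- the displaced primes `p + X p` (those that are natural numbers) -/
def displaced {Ω : Type*} (X : Nat.Primes → Ω → ℤ) (ω : Ω) : Set ℕ :=
  {n | ∃ p : Nat.Primes, ((p : ℕ) : ℤ) + X p ω = (n : ℤ)}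

/-- the displacements bringing `p` into the window `(m, m + l]` -/
def hitSet (m l : ℕ) (p : Nat.Primes) : Set ℤ :=
  {t | (m : ℤ) < ((p : ℕ) : ℤ) + t ∧ ((p : ℕ) : ℤ) + t ≤ (m : ℤ) + (l : ℤ)}

/-- the primes in `(a, a + N]` -/
def rowP (a N : ℕ) : Finset Nat.Primes := (Finset.Ioc a (a + N)).subtype Nat.Prime

lemma mem_rowP {a N : ℕ} {p : Nat.Primes} : p ∈ rowP a N ↔ a < (p : ℕ) ∧ (p : ℕ) ≤ a + N :=
  (Finset.mem_subtype (p := Nat.Prime) (s := Finset.Ioc a (a + N)) (a := p)).trans Finset.mem_Ioc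

lemma card_rowP (q k N : ℕ) : (rowP (k * q) N).card = rowc q k N :=
  Finset.card_subtype Nat.Prime (Finset.Ioc (k * q) (k * q + N))

lemma rowP_disjoint {q N k k' : ℕ} (hN : N ≤ q) (hk : k ≠ k') :
    Disjoint (rowP (k * q) N) (rowP (k' * q) N) := by
  rw [Finset.disjoint_left]
  intro p hp hp'
  rw [mem_rowP] at hp hp'
  rcases lt_or_gt_of_ne hk with h | h
  · have : (k + 1) * q ≤ k' * q := Nat.mul_le_mul_right q h
    rw [add_mul, one_mul] at this
    omega
  · have : (k' + 1) * q ≤ k * q := Nat.mul_le_mul_right q h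
    rw [add_mul, one_mul] at this
    omega

section

variable {Ω : Type*} [MeasurableSpace Ω] {μ : Measure Ω} [IsProbabilityMeasure μ]
  {X : Nat.Primes → Ω → ℤ}

/-- averaging over consecutive windows -/
lemma exists_good_window (hX : ∀ p, Measurable (X p)) (S : Finset Nat.Primes) (s l J : ℕ)
    (hJ : 1 ≤ J) : ∃ j < J, ∑ p ∈ S, μ.real (X p ⁻¹' hitSet (s + j * l) l p) ≤ S.card / (J : ℝ) := by
  have h1 : ∀ p ∈ S, ∑ j ∈ Finset.range J, μ.real (X p ⁻¹' hitSet (s + j * l) l p) ≤ 1 := by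
    intro p _
    have hdis : Set.PairwiseDisjoint (Finset.range J : Set ℕ)
        (fun j => X p ⁻¹' hitSet (s + j * l) l p) := by
      intro j _ j' _ hjj
      simp only [Function.onFun]
      rw [Set.disjoint_left]
      intro ω h h'
      simp only [Set.mem_preimage, hitSet, Set.mem_ofPred_eq] at h h'
      push_cast at h h'
      rcases lt_or_gt_of_ne hjj with hlt | hlt
      · have : ((j : ℤ) + 1) * l ≤ j' * l := mul_le_mul_of_nonneg_right (by exact_mod_cast hlt)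
          (Int.natCast_nonneg _)
        linarith [h.1, h.2, h'.1, h'.2]
      · have : ((j' : ℤ) + 1) * l ≤ j * l := mul_le_mul_of_nonneg_right (by exact_mod_cast hlt)
          (Int.natCast_nonneg _)
        linarith [h.1, h.2, h'.1, h'.2]
    rw [← measureReal_biUnion_finset hdis (fun j _ => hX p MeasurableSet.of_discrete)]
    exact measureReal_le_one
  have h2 : ∑ j ∈ Finset.range J, ∑ p ∈ S, μ.real (X p ⁻¹' hitSet (s + j * l) l p) ≤
      ∑ _j ∈ Finset.range J, (S.card : ℝ) / J := by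
    rw [Finset.sum_comm]
    refine (Finset.sum_le_sum h1).trans (le_of_eq ?_)
    rw [Finset.sum_const, Finset.sum_const, Finset.card_range, nsmul_eq_mul, nsmul_eq_mul]
    have : (J : ℝ) ≠ 0 := by
      have : (1 : ℝ) ≤ J := by exact_mod_cast hJ
      linarith
    field_simp
  obtain ⟨j, hj, hj2⟩ := Finset.exists_le_of_sum_le (Finset.nonempty_range_iff.2 (by omega)) h2
  exact ⟨j, Finset.mem_range.1 hj, hj2⟩

end

/-- powers of the logarithm are small -/
lemma log_rpow_le_half (A : ℝ) : ∃ P₀ : ℕ, ∀ n : ℕ, P₀ ≤ n → Real.log (n : ℝ) ^ A ≤ (n : ℝ) / 2 := by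
  have h := (isLittleO_log_rpow_rpow_atTop A (show (0 : ℝ) < 1 by norm_num)).bound
    (show (0 : ℝ) < 1 / 2 by norm_num)
  have h2 := tendsto_natCast_atTop_atTop (R := ℝ) |>.eventually h
  obtain ⟨P₀, hP₀⟩ := eventually_atTop.1 (h2.and (eventually_ge_atTop 1))
  refine ⟨P₀, fun n hn => ?_⟩
  obtain ⟨h3, h4⟩ := hP₀ n hn
  have h5 : (1 : ℝ) ≤ n := by exact_mod_cast h4
  rw [Real.rpow_one, Real.norm_of_nonneg (Real.rpow_nonneg (Real.log_nonneg h5) A),
    Real.norm_of_nonneg (by linarith)] at h3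
  linarith

/-- a prime whose displacement lands at `n` is not far from `n` -/
lemma prime_le_two_mul {A : ℝ} {P₀ : ℕ} (hP₀ : ∀ n : ℕ, P₀ ≤ n → Real.log (n : ℝ) ^ A ≤ (n : ℝ) / 2)
    {p n : ℕ} {t : ℤ} (ht : |(t : ℝ)| ≤ Real.log p ^ A) (hn : (p : ℤ) + t = n) (hnP : P₀ ≤ n) :
    p ≤ 2 * n := by
  rcases le_or_gt P₀ p with h | h
  · have h1 := hP₀ p h
    have h2 : (p : ℝ) + t = n := by exact_mod_cast hn
    have h3 := neg_le_of_abs_le ht
    have : (p : ℝ) ≤ 2 * n := by linarith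
    exact_mod_cast this
  · omega

lemma displaced_infinite_of {A : ℝ} {t : Nat.Primes → ℤ}
    (ht : ∀ p : Nat.Primes, |(t p : ℝ)| ≤ Real.log (p : ℕ) ^ A) :
    {n : ℕ | ∃ p : Nat.Primes, ((p : ℕ) : ℤ) + t p = (n : ℤ)}.Infinite := by
  obtain ⟨P₀, hP₀⟩ := log_rpow_le_half A
  rw [Set.infinite_iff_exists_gt]
  intro N
  obtain ⟨p, hp1, hp2⟩ := Nat.exists_infinite_primes (max P₀ (2 * N + 2))
  have h1 := hP₀ p ((le_max_left _ _).trans hp1)
  have h2 := neg_le_of_abs_le (ht ⟨p, hp2⟩)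
  have h3 : (2 * N + 2 : ℕ) ≤ p := (le_max_right _ _).trans hp1
  have h3' : (2 * N + 2 : ℝ) ≤ p := by exact_mod_cast h3
  simp only at h2
  have h4 : (N : ℝ) < (p : ℝ) + t ⟨p, hp2⟩ := by linarith
  have h5 : (N : ℤ) < (p : ℤ) + t ⟨p, hp2⟩ := by exact_mod_cast h4
  refine ⟨((p : ℤ) + t ⟨p, hp2⟩).toNat, ⟨⟨p, hp2⟩, ?_⟩, ?_⟩
  · simp only
    rw [Int.toNat_of_nonneg (by omega)]
  · omega

end Pool.Agent.LibMaier
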