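import Mathlib

/-!
Partial sums of Dirichlet L-functions of non-principal characters.
-/

namespace Pool.Agent.LibMaier

open Finset Filter Topology MeasureTheory
open scoped ComplexConjugate

/-- Abel summation for a sequence with bounded partial sums. -/
theorem abel_bdd (g : ℕ → ℂ) (C : ℝ) (hG : ∀ n : ℕ, ‖∑ k ∈ Icc 0 n, g k‖ ≤ C)
    (s : ℂ) (hs : 0 < s.re) (N M : ℕ) (hN : 1 ≤ N) (hNM : N ≤ M) :
    ‖∑ n ∈ Ioc N M, g n * (n : ℂ) ^ (-s)‖ ≤ C * (2 + ‖s‖ / s.re) * (N : ℝ) ^ (-s.re) := by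
  have hC : 0 ≤ C := (norm_nonneg _).trans (hG 0)
  have hs0 : s ≠ 0 := fun h => by rw [h] at hs; simp at hs
  have hNR : (1 : ℝ) ≤ N := by exact_mod_cast hN
  have hN0 : (0 : ℝ) < N := by linarith
  have hNMR : (N : ℝ) ≤ M := by exact_mod_cast hNM
  have hM0 : (0 : ℝ) < M := by linarith
  set f : ℝ → ℂ := fun t => (t : ℂ) ^ (-s) with hf
  have hderiv : ∀ t : ℝ, 0 < t → deriv f t = -s * (t : ℂ) ^ (-s - 1) := by
    intro t ht
    rw [hf, Complex.deriv_ofReal_cpow_const ht.ne' (neg_ne_zero.2 hs0)]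
  have hdiff : ∀ t ∈ Set.Icc (N : ℝ) M, DifferentiableAt ℝ f t := by
    intro t ht
    have ht0 : (0:ℝ) < t := by linarith [ht.1]
    exact differentiableAt_id.ofReal_cpow_const ht0.ne' (neg_ne_zero.2 hs0)
  have hcont : ContinuousOn (fun t : ℝ => -s * (t : ℂ) ^ (-s - 1)) (Set.Icc (N : ℝ) M) := by
    intro t ht
    have ht0 : (0:ℝ) < t := by linarith [ht.1]
    exact (continuousAt_const.mul
      (Complex.continuousAt_ofReal_cpow_const _ _ (Or.inr ht0.ne'))).continuousWithinAt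
  have hint : IntegrableOn (deriv f) (Set.Icc (N : ℝ) M) := by
    refine (hcont.integrableOn_Icc).congr_fun ?_ measurableSet_Icc
    intro t ht
    have ht0 : (0:ℝ) < t := by linarith [ht.1]
    exact (hderiv t ht0).symm
  have habel := sum_mul_eq_sub_sub_integral_mul' (𝕜 := ℂ) g hNM hdiff hint
  have hsum : ∑ k ∈ Ioc N M, f k * g k = ∑ n ∈ Ioc N M, g n * (n : ℂ) ^ (-s) := by
    refine Finset.sum_congr rfl fun k _ => ?_
    simp [hf, mul_comm]
  rw [hsum] at habel
  rw [habel]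
  have hI : ‖∫ t in Set.Ioc (N : ℝ) M, deriv f t * ∑ k ∈ Icc 0 ⌊t⌋₊, g k‖ ≤
      C * (‖s‖ / s.re) * (N : ℝ) ^ (-s.re) := by
    have h1 : ‖∫ t in Set.Ioc (N : ℝ) M, deriv f t * ∑ k ∈ Icc 0 ⌊t⌋₊, g k‖ ≤
        ∫ t in Set.Ioc (N : ℝ) M, (‖s‖ * C) * t ^ (-s.re - 1) := by
      refine norm_integral_le_of_norm_le ?_ ?_
      · refine IntegrableOn.mono_set (t := Set.Icc (N : ℝ) M) ?_ Set.Ioc_subset_Icc_self
        refine ContinuousOn.integrableOn_Icc ?_
        refine continuousOn_const.mul ?_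
        intro t ht
        have ht0 : (0:ℝ) < t := by linarith [ht.1]
        exact (Real.continuousAt_rpow_const _ _ (Or.inl ht0.ne')).continuousWithinAt
      · refine (ae_restrict_iff' measurableSet_Ioc).2 (Eventually.of_forall fun t ht => ?_)
        have ht0 : (0:ℝ) < t := by linarith [ht.1]
        rw [hderiv t ht0, norm_mul, norm_mul, norm_neg,
          Complex.norm_cpow_eq_rpow_re_of_pos ht0]
        have h3 : (-s - 1).re = -s.re - 1 := by simp
        rw [h3]
        calc ‖s‖ * t ^ (-s.re - 1) * ‖∑ k ∈ Icc 0 ⌊t⌋₊, g k‖ ≤ ‖s‖ * t ^ (-s.re - 1) * C := by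
              gcongr
              exact hG _
          _ = ‖s‖ * C * t ^ (-s.re - 1) := by ring
    refine h1.trans ?_
    rw [integral_const_mul, ← intervalIntegral.integral_of_le hNMR, integral_rpow]
    · have h4 : -s.re - 1 + 1 = -s.re := by ring
      rw [h4]
      have h6 : ((M : ℝ) ^ (-s.re) - (N : ℝ) ^ (-s.re)) / (-s.re)
          ≤ (N : ℝ) ^ (-s.re) / s.re := by
        have h7 : (0:ℝ) ≤ (M : ℝ) ^ (-s.re) := by positivity
        rw [div_neg, ← neg_div]
        apply div_le_div_of_nonneg_right _ hs.le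
        linarith
      calc ‖s‖ * C * (((M : ℝ) ^ (-s.re) - (N : ℝ) ^ (-s.re)) / (-s.re))
          ≤ ‖s‖ * C * ((N : ℝ) ^ (-s.re) / s.re) := by gcongr
        _ = C * (‖s‖ / s.re) * (N : ℝ) ^ (-s.re) := by ring
    · right
      refine ⟨by intro h; linarith, ?_⟩
      rw [Set.uIcc_of_le hNMR]
      intro h; linarith [h.1]
  have hb : ∀ K : ℕ, N ≤ K → ‖f K * ∑ k ∈ Icc 0 K, g k‖ ≤ C * (N : ℝ) ^ (-s.re) := by
    intro K hK
    have hKR : (N : ℝ) ≤ K := by exact_mod_cast hK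
    rw [norm_mul, hf]
    simp only
    rw [Complex.norm_cpow_eq_rpow_re_of_pos (by linarith), mul_comm]
    have h1 : (K : ℝ) ^ (-s).re ≤ (N : ℝ) ^ (-s.re) := by
      rw [Complex.neg_re]
      exact Real.rpow_le_rpow_of_nonpos hN0 hKR (by linarith)
    exact mul_le_mul (hG K) h1 (by positivity) hC
  calc ‖f M * ∑ k ∈ Icc 0 M, g k - f N * ∑ k ∈ Icc 0 N, g k -
        ∫ t in Set.Ioc (N : ℝ) M, deriv f t * ∑ k ∈ Icc 0 ⌊t⌋₊, g k‖
      ≤ ‖f M * ∑ k ∈ Icc 0 M, g k‖ + ‖f N * ∑ k ∈ Icc 0 N, g k‖ +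
        ‖∫ t in Set.Ioc (N : ℝ) M, deriv f t * ∑ k ∈ Icc 0 ⌊t⌋₊, g k‖ := by
        refine (norm_sub_le _ _).trans ?_
        gcongr
        exact norm_sub_le _ _
    _ ≤ C * (N : ℝ) ^ (-s.re) + C * (N : ℝ) ^ (-s.re) +
        C * (‖s‖ / s.re) * (N : ℝ) ^ (-s.re) := by
        gcongr
        · exact hb M hNM
        · exact hb N le_rfl
    _ = C * (2 + ‖s‖ / s.re) * (N : ℝ) ^ (-s.re) := by ring

variable {q : ℕ} [NeZero q]

lemma sum_range_char {χ : DirichletCharacter ℂ q} (hχ : χ ≠ 1) :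
    ∑ k ∈ range q, χ (k : ZMod q) = 0 := by
  rw [← MulChar.sum_eq_zero_of_ne_one hχ]
  refine Finset.sum_nbij' (fun k : ℕ => (k : ZMod q)) (fun a : ZMod q => a.val) ?_ ?_ ?_ ?_ ?_
  · intro k _; exact Finset.mem_univ _
  · intro a _; exact Finset.mem_range.2 (ZMod.val_lt a)
  · intro k hk; exact ZMod.val_cast_of_lt (Finset.mem_range.1 hk)
  · intro a _; exact ZMod.natCast_zmod_val a
  · intro k _; rfl

lemma sum_Ico_char {χ : DirichletCharacter ℂ q} (hχ : χ ≠ 1) (N : ℕ) :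
    ∑ k ∈ Ico N (N + q), χ (k : ZMod q) = 0 := by
  induction N with
  | zero =>
    rw [zero_add, ← Finset.range_eq_Ico]
    exact sum_range_char hχ
  | succ N ih =>
    have hq : 0 < q := Nat.pos_of_ne_zero (NeZero.ne q)
    rw [Finset.sum_eq_sum_Ico_succ_bot (by omega)] at ih
    rw [show N + 1 + q = (N + q) + 1 by ring, Finset.sum_Ico_succ_top (by omega)]
    have : ((N + q : ℕ) : ZMod q) = (N : ZMod q) := by simp
    rw [this, add_comm]
    exact ih

/-- Partial sums of a non-principal character are bounded by the modulus. -/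
theorem norm_charsum_le {χ : DirichletCharacter ℂ q} (hχ : χ ≠ 1) (n : ℕ) :
    ‖∑ k ∈ Icc 0 n, χ (k : ZMod q)‖ ≤ q := by
  have key : ∀ N : ℕ, ‖∑ k ∈ range N, χ (k : ZMod q)‖ ≤ q := by
    intro N
    induction N using Nat.strong_induction_on with
    | _ N ih =>
      rcases lt_or_ge N q with h | h
      · calc ‖∑ k ∈ range N, χ (k : ZMod q)‖ ≤ ∑ k ∈ range N, ‖χ (k : ZMod q)‖ := norm_sum_le _ _
          _ ≤ ∑ k ∈ range N, 1 := Finset.sum_le_sum fun k _ => DirichletCharacter.norm_le_one χ _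
          _ ≤ q := by simp; exact_mod_cast h.le
      · have hq : 0 < q := Nat.pos_of_ne_zero (NeZero.ne q)
        have h1 : ∑ k ∈ range N, χ (k : ZMod q) = ∑ k ∈ range (N - q), χ (k : ZMod q) := by
          rw [Finset.range_eq_Ico, ← Finset.sum_Ico_consecutive _ (Nat.zero_le (N - q))
            (Nat.sub_le N q)]
          have h2 := sum_Ico_char hχ (N - q)
          rw [show N - q + q = N by omega] at h2
          rw [h2, add_zero, Finset.range_eq_Ico]
        rw [h1]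
        exact ih _ (by omega)
  have := key (n + 1)
  rwa [Nat.range_succ_eq_Icc_zero] at this

/-- Truncated tails of the Dirichlet series of a non-principal character. -/
theorem norm_tail_le {χ : DirichletCharacter ℂ q} (hχ : χ ≠ 1) {s : ℂ} (hs : 0 < s.re)
    {N M : ℕ} (hN : 1 ≤ N) (hNM : N ≤ M) :
    ‖∑ n ∈ Ioc N M, χ (n : ZMod q) * (n : ℂ) ^ (-s)‖ ≤
      q * (2 + ‖s‖ / s.re) * (N : ℝ) ^ (-s.re) :=
  abel_bdd (fun n => χ (n : ZMod q)) q (norm_charsum_le hχ) s hs N M hN hNM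

/-- the truncated L-series -/
noncomputable def LT (χ : DirichletCharacter ℂ q) (N : ℕ) (s : ℂ) : ℂ :=
  ∑ n ∈ Icc 1 N, χ (n : ZMod q) * (n : ℂ) ^ (-s)

lemma LT_sub (χ : DirichletCharacter ℂ q) {N M : ℕ} (hNM : N ≤ M) (s : ℂ) :
    LT χ M s - LT χ N s = ∑ n ∈ Ioc N M, χ (n : ZMod q) * (n : ℂ) ^ (-s) := by
  unfold LT
  have h6 : Icc 1 M = Icc 1 N ∪ Ioc N M := by
    ext n; simp only [mem_Icc, mem_union, mem_Ioc]; omega
  have h7 : Disjoint (Icc 1 N) (Ioc N M) := by
    rw [Finset.disjoint_left]; intro n; simp only [mem_Icc, mem_Ioc]; omega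
  rw [h6, sum_union h7]; ring

lemma differentiable_LT (χ : DirichletCharacter ℂ q) (N : ℕ) : Differentiable ℂ (LT χ N) := by
  unfold LT
  apply Differentiable.fun_sum
  intro n hn
  rw [mem_Icc] at hn
  apply Differentiable.const_mul
  intro s
  apply DifferentiableAt.const_cpow
  · fun_prop
  · left
    exact_mod_cast (by omega : n ≠ 0)

/-- `LT` converges to the L-function on `Re s > 0`, with an explicit rate. -/
theorem LT_approx {χ : DirichletCharacter ℂ q} (hχ : χ ≠ 1) {s : ℂ} (hs : 0 < s.re)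
    {N : ℕ} (hN : 1 ≤ N) :
    ‖DirichletCharacter.LFunction χ s - LT χ N s‖ ≤ q * (2 + ‖s‖ / s.re) * (N : ℝ) ^ (-s.re) := by
  -- Cauchy estimate
  have hc : ∀ s : ℂ, 0 < s.re → ∀ N M : ℕ, 1 ≤ N → N ≤ M →
      ‖LT χ M s - LT χ N s‖ ≤ q * (2 + ‖s‖ / s.re) * (N : ℝ) ^ (-s.re) := by
    intro s hs N M hN hNM
    rw [LT_sub χ hNM]
    exact norm_tail_le hχ hs hN hNM
  -- locally uniform Cauchy
  set U : Set ℂ := {z | 0 < z.re} with hU
  have hUo : IsOpen U := isOpen_lt continuous_const Complex.continuous_re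
  have hUc : IsPreconnected U := (convex_halfSpace_re_gt 0).isPreconnected
  -- pointwise limit
  have hlim : ∀ s : ℂ, 0 < s.re → ∃ l : ℂ, Tendsto (fun N => LT χ N s) atTop (𝓝 l) := by
    intro s hs
    apply cauchySeq_tendsto_of_complete
    rw [Metric.cauchySeq_iff']
    intro ε hε
    have h1 : Tendsto (fun N : ℕ => q * (2 + ‖s‖ / s.re) * (N : ℝ) ^ (-s.re)) atTop
        (𝓝 (q * (2 + ‖s‖ / s.re) * 0)) :=
      ((tendsto_rpow_neg_atTop hs).comp tendsto_natCast_atTop_atTop).const_mul _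
    rw [mul_zero] at h1
    obtain ⟨N, hN1, hN2⟩ := ((h1.eventually_lt_const hε).and (eventually_ge_atTop 1)).exists
    refine ⟨N, fun M hM => ?_⟩
    rw [dist_eq_norm]
    exact (hc s hs N M hN2 hM).trans_lt hN1
  choose! G hG using hlim
  have hGapprox : ∀ s : ℂ, 0 < s.re → ∀ N : ℕ, 1 ≤ N →
      ‖G s - LT χ N s‖ ≤ q * (2 + ‖s‖ / s.re) * (N : ℝ) ^ (-s.re) := by
    intro s hs N hN
    have h1 : Tendsto (fun M => ‖LT χ M s - LT χ N s‖) atTop (𝓝 ‖G s - LT χ N s‖) :=
      ((hG s hs).sub tendsto_const_nhds).norm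
    refine le_of_tendsto h1 ?_
    filter_upwards [eventually_ge_atTop N] with M hM
    exact hc s hs N M hN hM
  have hloc : TendstoLocallyUniformlyOn (fun N : ℕ => LT χ N) G atTop U := by
    rw [tendstoLocallyUniformlyOn_iff_forall_isCompact hUo]
    intro K hKU hK
    rw [Metric.tendstoUniformlyOn_iff]
    intro ε hε
    rcases K.eq_empty_or_nonempty with rfl | hne
    · exact Eventually.of_forall fun _ _ h => absurd h (Set.notMem_empty _)
    -- minimum real part, maximum norm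
    obtain ⟨z0, hz0, hz0'⟩ := hK.exists_isMinOn hne Complex.continuous_re.continuousOn
    obtain ⟨z1, hz1, hz1'⟩ := hK.exists_isMaxOn hne continuous_norm.continuousOn
    have ha : 0 < z0.re := hKU hz0
    have h1 : Tendsto (fun N : ℕ => q * (2 + ‖z1‖ / z0.re) * (N : ℝ) ^ (-z0.re)) atTop
        (𝓝 (q * (2 + ‖z1‖ / z0.re) * 0)) :=
      ((tendsto_rpow_neg_atTop ha).comp tendsto_natCast_atTop_atTop).const_mul _
    rw [mul_zero] at h1
    filter_upwards [h1.eventually_lt_const hε, eventually_ge_atTop 1] with N hN hN1 z hz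
    rw [dist_eq_norm]
    refine lt_of_le_of_lt (hGapprox z (hKU hz) N hN1) (lt_of_le_of_lt ?_ hN)
    have hz0re : z0.re ≤ z.re := hz0' hz
    have hz1n : ‖z‖ ≤ ‖z1‖ := hz1' hz
    have hN1' : (1 : ℝ) ≤ N := by exact_mod_cast hN1
    have h2 : ‖z‖ / z.re ≤ ‖z1‖ / z0.re := div_le_div₀ (norm_nonneg _) hz1n ha hz0re
    have h3 : (N : ℝ) ^ (-z.re) ≤ (N : ℝ) ^ (-z0.re) :=
      Real.rpow_le_rpow_of_exponent_le hN1' (by linarith)
    have hz0n : 0 ≤ ‖z‖ / z.re := div_nonneg (norm_nonneg _) (hKU hz).le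
    gcongr
  have hGdiff : DifferentiableOn ℂ G U :=
    hloc.differentiableOn (Eventually.of_forall fun N => (differentiable_LT χ N).differentiableOn) hUo
  have hLdiff : DifferentiableOn ℂ (DirichletCharacter.LFunction χ) U :=
    (DirichletCharacter.differentiable_LFunction hχ).differentiableOn
  -- agreement on Re s > 1
  have hagree : ∀ s : ℂ, 1 < s.re → G s = DirichletCharacter.LFunction χ s := by
    intro s hs
    have h1 := hG s (by linarith)
    have h2 : Tendsto (fun N => LT χ N s) atTop (𝓝 (DirichletCharacter.LFunction χ s)) := by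
      rw [DirichletCharacter.LFunction_eq_LSeries χ hs]
      have hsum : LSeriesSummable (fun n => χ (n : ZMod q)) s :=
        ZMod.LSeriesSummable_of_one_lt_re χ hs
      have h3 := (tendsto_add_atTop_iff_nat 1).2 hsum.hasSum.tendsto_sum_nat
      refine h3.congr fun M => ?_
      rw [Nat.range_succ_eq_Icc_zero, ← insert_Icc_add_one_left_eq_Icc M.zero_le,
        sum_insert (by simp)]
      simp only [LSeries.term_zero, zero_add]
      unfold LT
      apply Finset.sum_congr rfl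
      intro n hn
      rw [mem_Icc] at hn
      rw [LSeries.term_of_ne_zero (by omega), Complex.cpow_neg, div_eq_mul_inv]
    exact tendsto_nhds_unique h1 h2
  have heq : Set.EqOn G (DirichletCharacter.LFunction χ) U := by
    apply AnalyticOnNhd.eqOn_of_preconnected_of_eventuallyEq (z₀ := 2)
      (hGdiff.analyticOnNhd hUo) (hLdiff.analyticOnNhd hUo) hUc (by simp [hU])
    have : {z : ℂ | 1 < z.re} ∈ 𝓝 (2 : ℂ) :=
      (isOpen_lt continuous_const Complex.continuous_re).mem_nhds (by simp)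
    filter_upwards [this] with z hz
    exact hagree z hz
  rw [← heq hs]
  exact hGapprox s hs N hN

/-- Crude bound for the L-function on `Re s ≥ 1/2`. -/
theorem norm_LFunction_le {χ : DirichletCharacter ℂ q} (hχ : χ ≠ 1) {s : ℂ} (hs : 1 / 2 ≤ s.re) :
    ‖DirichletCharacter.LFunction χ s‖ ≤ 1 + q * (2 + 2 * ‖s‖) := by
  have h1 := LT_approx hχ (s := s) (by linarith) (le_refl 1)
  have h2 : LT χ 1 s = 1 := by simp [LT]
  rw [h2] at h1
  simp only [Nat.cast_one, Real.one_rpow, mul_one] at h1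
  have h3 : ‖s‖ / s.re ≤ 2 * ‖s‖ := by
    rw [div_le_iff₀ (by linarith)]
    nlinarith [norm_nonneg s]
  calc ‖DirichletCharacter.LFunction χ s‖ = ‖1 + (DirichletCharacter.LFunction χ s - 1)‖ := by
        congr 1; ring
    _ ≤ ‖(1 : ℂ)‖ + ‖DirichletCharacter.LFunction χ s - 1‖ := norm_add_le _ _
    _ ≤ 1 + q * (2 + 2 * ‖s‖) := by
        rw [norm_one]
        have : (q : ℝ) * (2 + ‖s‖ / s.re) ≤ q * (2 + 2 * ‖s‖) := by gcongr
        linarith

end Pool.Agent.LibMaier
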