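import Pool.Agent.LibMaier.LSum
import Pool.Agent.LibMaier.BC
import Pool.Agent.LibZM.ZetaApprox

/-!
Logarithmic derivatives of Dirichlet L-functions to the right of the line `Re s = 1`.
-/

namespace Pool.Agent.LibMaier

open Filter Topology Complex DirichletCharacter
open scoped ComplexConjugate ArithmeticFunction.vonMangoldt ArithmeticFunction.Moebius

variable {q : ℕ} [NeZero q]

/-- negative logarithmic derivative -/
noncomputable def ND (χ : DirichletCharacter ℂ q) (s : ℂ) : ℂ :=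
  -(deriv (LFunction χ) s / LFunction χ s)

lemma ND_eq (χ : DirichletCharacter ℂ q) {s : ℂ} (hs : 1 < s.re) :
    ND χ s = LSeries ((fun n : ℕ => χ (n : ZMod q)) * (fun n : ℕ => (Λ n : ℂ))) s := by
  rw [LSeries_twist_vonMangoldt_eq χ hs, ND, LFunction_eq_LSeries χ hs,
    deriv_LFunction_eq_deriv_LSeries χ hs, neg_div]

lemma ND_summable (χ : DirichletCharacter ℂ q) {s : ℂ} (hs : 1 < s.re) :
    LSeriesSummable ((fun n : ℕ => χ (n : ZMod q)) * (fun n : ℕ => (Λ n : ℂ))) s := LSeriesSummable_twist_vonMangoldt χ hs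

lemma ND_re (χ : DirichletCharacter ℂ q) {s : ℂ} (hs : 1 < s.re) :
    (ND χ s).re = ∑' n : ℕ, (LSeries.term ((fun n : ℕ => χ (n : ZMod q)) * (fun n : ℕ => (Λ n : ℂ))) s n).re := by
  rw [ND_eq χ hs, LSeries, Complex.re_tsum (ND_summable χ hs)]

lemma ND_re_summable (χ : DirichletCharacter ℂ q) {s : ℂ} (hs : 1 < s.re) :
    Summable fun n : ℕ => (LSeries.term ((fun n : ℕ => χ (n : ZMod q)) * (fun n : ℕ => (Λ n : ℂ))) s n).re :=
  (Complex.hasSum_re (ND_summable χ hs).hasSum).summable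

/-- terms of the twisted series -/
lemma term_re {χ : DirichletCharacter ℂ q} {σ t : ℝ} {n : ℕ} (hn : n ≠ 0) :
    (LSeries.term ((fun n : ℕ => χ (n : ZMod q)) * (fun n : ℕ => (Λ n : ℂ))) ((σ : ℂ) + t * I) n).re =
      Λ n * (n : ℝ) ^ (-σ) * (χ (n : ZMod q) * (n : ℂ) ^ (-((t : ℂ) * I))).re := by
  rw [LSeries.term_of_ne_zero hn]
  have hn0 : (n : ℂ) ≠ 0 := by exact_mod_cast hn
  have h1 : (χ (n : ZMod q) * (Λ n : ℂ)) / (n : ℂ) ^ ((σ : ℂ) + t * I) =
      ((Λ n * (n : ℝ) ^ (-σ) : ℝ) : ℂ) * (χ (n : ZMod q) * (n : ℂ) ^ (-((t : ℂ) * I))) := by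
    rw [div_eq_mul_inv, ← Complex.cpow_neg, neg_add, Complex.cpow_add _ _ hn0]
    have h2 : (n : ℂ) ^ (-(σ : ℂ)) = (((n : ℝ) ^ (-σ) : ℝ) : ℂ) := by
      rw [Complex.ofReal_cpow (Nat.cast_nonneg n)]
      simp
    rw [h2]
    push_cast
    ring
  have h3 : ((fun n : ℕ => χ (n : ZMod q)) * (fun n : ℕ => (Λ n : ℂ))) n = χ (n : ZMod q) * (Λ n : ℂ) := rfl
  rw [h3, h1, Complex.re_ofReal_mul]

lemma norm_char_cpow {χ : DirichletCharacter ℂ q} {t : ℝ} {n : ℕ} (hn : n ≠ 0)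
    (hu : IsUnit (n : ZMod q)) : ‖χ (n : ZMod q) * (n : ℂ) ^ (-((t : ℂ) * I))‖ = 1 := by
  rw [norm_mul, Complex.norm_natCast_cpow_of_pos (Nat.pos_of_ne_zero hn)]
  have h1 : ‖χ (n : ZMod q)‖ = 1 := by
    obtain ⟨u, hu'⟩ := hu
    rw [← hu']
    exact DirichletCharacter.unit_norm_eq_one χ u
  rw [h1]
  simp

lemma re_add_sq (z : ℂ) (hz : ‖z‖ = 1) : 0 ≤ 3 + 4 * z.re + (z ^ 2).re := by
  have h1 : z.re ^ 2 + z.im ^ 2 = 1 := by
    have := Complex.sq_norm z
    rw [hz, Complex.normSq_apply] at this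
    nlinarith
  have h2 : (z ^ 2).re = z.re ^ 2 - z.im ^ 2 := by
    rw [sq, Complex.mul_re]
    ring
  rw [h2]
  nlinarith [sq_nonneg (1 + z.re)]

/-- the 3-4-1 inequality -/
theorem three_four_one (χ : DirichletCharacter ℂ q) {σ : ℝ} (hσ : 1 < σ) (t : ℝ) :
    0 ≤ 3 * (ND (1 : DirichletCharacter ℂ q) (σ : ℂ)).re + 4 * (ND χ ((σ : ℂ) + t * I)).re +
      (ND (χ ^ 2) ((σ : ℂ) + (2 * t : ℝ) * I)).re := by
  have e0 : (σ : ℂ) = (σ : ℂ) + (0 : ℝ) * I := by simp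
  have h0 : 1 < ((σ : ℂ) + (0 : ℝ) * I).re := by simpa using hσ
  have h1 : 1 < ((σ : ℂ) + (t : ℝ) * I).re := by simpa using hσ
  have h2 : 1 < ((σ : ℂ) + (2 * t : ℝ) * I).re := by simpa using hσ
  have k0 : (ND (1 : DirichletCharacter ℂ q) (σ : ℂ)).re =
      (ND (1 : DirichletCharacter ℂ q) ((σ : ℂ) + (0 : ℝ) * I)).re := by rw [← e0]
  rw [k0, ND_re _ h0, ND_re _ h1, ND_re _ h2, ← tsum_mul_left, ← tsum_mul_left,
    ← ((ND_re_summable _ h0).mul_left 3).tsum_add ((ND_re_summable _ h1).mul_left 4),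
    ← (((ND_re_summable _ h0).mul_left 3).add ((ND_re_summable _ h1).mul_left 4)).tsum_add
      (ND_re_summable _ h2)]
  apply tsum_nonneg
  intro n
  rcases eq_or_ne n 0 with rfl | hn
  · simp
  rw [term_re hn, term_re hn, term_re hn]
  have hΛ : 0 ≤ Λ n * (n : ℝ) ^ (-σ) :=
    mul_nonneg ArithmeticFunction.vonMangoldt_nonneg (by positivity)
  by_cases hu : IsUnit (n : ZMod q)
  · have hz := norm_char_cpow (χ := χ) (t := t) hn hu
    set z := χ (n : ZMod q) * (n : ℂ) ^ (-((t : ℂ) * I)) with hzdef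
    have hone : ((1 : DirichletCharacter ℂ q) (n : ZMod q) * (n : ℂ) ^ (-(((0 : ℝ) : ℂ) * I))).re
        = 1 := by
      rw [MulChar.one_apply hu]
      simp
    have hsq : (χ ^ 2) (n : ZMod q) * (n : ℂ) ^ (-(((2 * t : ℝ) : ℂ) * I)) = z ^ 2 := by
      rw [hzdef, mul_pow, ← Complex.cpow_nat_mul, MulChar.pow_apply' χ two_ne_zero]
      congr 2
      push_cast
      ring
    rw [hone, hsq]
    have := re_add_sq z hz
    nlinarith
  · have hz0 : ∀ ψ : DirichletCharacter ℂ q, ψ (n : ZMod q) = 0 := fun ψ => ψ.map_nonunit hu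
    rw [hz0, hz0, hz0]
    simp

/-- values of a real character -/
lemma real_char_val {χ : DirichletCharacter ℂ q} (hχ : χ ^ 2 = 1) {a : ZMod q} (ha : IsUnit a) :
    χ a = 1 ∨ χ a = -1 := by
  have h1 : (χ a) ^ 2 = 1 := by
    rw [← MulChar.pow_apply' χ two_ne_zero, hχ, MulChar.one_apply ha]
  exact mul_self_eq_one_iff.1 (by rw [← sq]; exact h1)

lemma term_re_real {χ : DirichletCharacter ℂ q} {σ : ℝ} {n : ℕ} (hn : n ≠ 0) :
    (LSeries.term ((fun n : ℕ => χ (n : ZMod q)) * (fun n : ℕ => (Λ n : ℂ))) (σ : ℂ) n).re = Λ n * (n : ℝ) ^ (-σ) * (χ (n : ZMod q)).re := by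
  have e0 : (σ : ℂ) = (σ : ℂ) + (0 : ℝ) * I := by simp
  rw [e0, term_re hn]
  simp

/-- `1 + χ ≥ 0` -/
theorem one_add_char_nonneg {χ : DirichletCharacter ℂ q} (hχ : χ ^ 2 = 1) {σ : ℝ} (hσ : 1 < σ) :
    0 ≤ (ND (1 : DirichletCharacter ℂ q) (σ : ℂ)).re + (ND χ (σ : ℂ)).re := by
  have h0 : 1 < ((σ : ℂ)).re := by simpa using hσ
  rw [ND_re _ h0, ND_re _ h0, ← (ND_re_summable _ h0).tsum_add (ND_re_summable _ h0)]
  apply tsum_nonneg
  intro n
  rcases eq_or_ne n 0 with rfl | hn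
  · simp
  rw [term_re_real hn, term_re_real hn]
  have hΛ : 0 ≤ Λ n * (n : ℝ) ^ (-σ) :=
    mul_nonneg ArithmeticFunction.vonMangoldt_nonneg (by positivity)
  by_cases hu : IsUnit (n : ZMod q)
  · rw [MulChar.one_apply hu]
    rcases real_char_val hχ hu with h | h <;> rw [h] <;> simp <;> positivity
  · have hz0 : ∀ ψ : DirichletCharacter ℂ q, ψ (n : ZMod q) = 0 := fun ψ => ψ.map_nonunit hu
    rw [hz0, hz0]
    simp

/-- `(1 + χ₁)(1 + χ₂) ≥ 0` -/
theorem one_add_chars_nonneg {χ₁ χ₂ : DirichletCharacter ℂ q} (h₁ : χ₁ ^ 2 = 1) (h₂ : χ₂ ^ 2 = 1)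
    {σ : ℝ} (hσ : 1 < σ) :
    0 ≤ (ND (1 : DirichletCharacter ℂ q) (σ : ℂ)).re + (ND χ₁ (σ : ℂ)).re +
      (ND χ₂ (σ : ℂ)).re + (ND (χ₁ * χ₂) (σ : ℂ)).re := by
  have h0 : 1 < ((σ : ℂ)).re := by simpa using hσ
  rw [ND_re _ h0, ND_re _ h0, ND_re _ h0, ND_re _ h0,
    ← (ND_re_summable _ h0).tsum_add (ND_re_summable _ h0),
    ← ((ND_re_summable _ h0).add (ND_re_summable _ h0)).tsum_add (ND_re_summable _ h0),
    ← (((ND_re_summable _ h0).add (ND_re_summable _ h0)).add (ND_re_summable _ h0)).tsum_add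
      (ND_re_summable _ h0)]
  apply tsum_nonneg
  intro n
  rcases eq_or_ne n 0 with rfl | hn
  · simp
  rw [term_re_real hn, term_re_real hn, term_re_real hn, term_re_real hn]
  have hΛ : 0 ≤ Λ n * (n : ℝ) ^ (-σ) :=
    mul_nonneg ArithmeticFunction.vonMangoldt_nonneg (by positivity)
  by_cases hu : IsUnit (n : ZMod q)
  · rw [MulChar.one_apply hu, MulChar.mul_apply]
    rcases real_char_val h₁ hu with h | h <;> rcases real_char_val h₂ hu with h' | h' <;>
      rw [h, h'] <;> simp <;> nlinarith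
  · have hz0 : ∀ ψ : DirichletCharacter ℂ q, ψ (n : ZMod q) = 0 := fun ψ => ψ.map_nonunit hu
    rw [hz0, hz0, hz0, hz0]
    simp

/-- `ζ(σ) ≤ 3/(σ-1)` for `1 < σ ≤ 2`, in terms of the series. -/
lemma tsum_rpow_le {σ : ℝ} (hσ : 1 < σ) (hσ2 : σ ≤ 2) :
    ∑' n : ℕ, (1 : ℝ) / (n : ℝ) ^ σ ≤ 3 / (σ - 1) := by
  have h1 : riemannZeta (σ : ℂ) = ((∑' n : ℕ, (1 : ℝ) / (n : ℝ) ^ σ : ℝ) : ℂ) := by
    rw [zeta_eq_tsum_one_div_nat_cpow (by simpa using hσ), Complex.ofReal_tsum]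
    apply tsum_congr
    intro n
    push_cast
    rw [Complex.ofReal_cpow (Nat.cast_nonneg n)]
    simp
  have hne : (σ : ℂ) ≠ 1 := by
    intro h
    have := congrArg Complex.re h
    simp at this
    linarith
  have h2 := LibZM.zeta_approx (s := (σ : ℂ)) (by simp; linarith) hne (le_refl 1)
  rw [h1] at h2
  simp only [Finset.Icc_self, Finset.sum_singleton, Nat.cast_one, Complex.one_cpow,
    Real.one_rpow, mul_one, Complex.ofReal_re] at h2
  have h3 : ‖(σ : ℂ)‖ / σ = 1 := by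
    rw [Complex.norm_real, Real.norm_of_nonneg (by linarith), div_self (by linarith)]
  rw [h3] at h2
  have h4 : ((∑' n : ℕ, (1 : ℝ) / (n : ℝ) ^ σ : ℝ) : ℂ) - (1 - 1 / (1 - (σ : ℂ))) =
      ((∑' n : ℕ, (1 : ℝ) / (n : ℝ) ^ σ - (1 - 1 / (1 - σ)) : ℝ) : ℂ) := by
    push_cast
    ring
  rw [h4, Complex.norm_real, Real.norm_eq_abs] at h2
  have h5 := (abs_le.1 h2).2
  have h6 : 1 / (1 - σ) = -(1 / (σ - 1)) := by
    rw [← neg_sub σ 1, div_neg]
  rw [h6] at h5
  have h7 : 0 < σ - 1 := by linarith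
  have h8 : 3 / (σ - 1) = 1 / (σ - 1) + 2 / (σ - 1) := by ring
  have h9 : 2 ≤ 2 / (σ - 1) := by
    rw [le_div_iff₀ h7]
    linarith
  linarith

/-- lower bound for the L-function to the right of the line -/
theorem norm_LFunction_ge (χ : DirichletCharacter ℂ q) {s : ℂ} (hs : 1 < s.re) (hs2 : s.re ≤ 2) :
    (s.re - 1) / 3 ≤ ‖LFunction χ s‖ := by
  have h1 := LSeries.mul_mu_eq_one χ hs
  rw [← LFunction_eq_LSeries χ hs] at h1
  have hsumm : LSeriesSummable ((fun n : ℕ => χ (n : ZMod q)) * (fun n : ℕ => (μ n : ℂ))) s :=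
    LSeriesSummable_mul χ <| ArithmeticFunction.LSeriesSummable_moebius_iff.mpr hs
  have hS : Summable fun n : ℕ => (1 : ℝ) / (n : ℝ) ^ s.re := Real.summable_one_div_nat_rpow.2 hs
  have h2 : ‖LSeries ((fun n : ℕ => χ (n : ZMod q)) * (fun n : ℕ => (μ n : ℂ))) s‖ ≤ 3 / (s.re - 1) := by
    rw [LSeries]
    refine (norm_tsum_le_tsum_norm hsumm.norm).trans ?_
    refine (Summable.tsum_le_tsum ?_ hsumm.norm hS).trans (tsum_rpow_le hs hs2)
    intro n
    rcases eq_or_ne n 0 with rfl | hn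
    · simp only [LSeries.term_zero, norm_zero]
      positivity
    · rw [LSeries.norm_term_eq, if_neg hn]
      apply div_le_div_of_nonneg_right _ (by positivity)
      have h3 : ((fun n : ℕ => χ (n : ZMod q)) * (fun n : ℕ => (μ n : ℂ))) n = χ (n : ZMod q) * (μ n : ℂ) := rfl
      rw [h3, norm_mul]
      have h4 : ‖(μ n : ℂ)‖ ≤ 1 := by
        rw [Complex.norm_intCast]
        exact_mod_cast ArithmeticFunction.abs_moebius_le_one
      calc ‖χ (n : ZMod q)‖ * ‖(μ n : ℂ)‖ ≤ 1 * 1 :=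
            mul_le_mul (DirichletCharacter.norm_le_one χ _) h4 (norm_nonneg _) zero_le_one
        _ = 1 := one_mul 1
  have h3 : ‖LFunction χ s‖ * ‖LSeries ((fun n : ℕ => χ (n : ZMod q)) * (fun n : ℕ => (μ n : ℂ))) s‖ = 1 := by
    rw [← norm_mul, h1, norm_one]
  have h4 : 0 < s.re - 1 := by linarith
  have h5 : 1 ≤ ‖LFunction χ s‖ * (3 / (s.re - 1)) :=
    h3.symm.le.trans (mul_le_mul_of_nonneg_left h2 (norm_nonneg _))
  rw [div_le_iff₀ (by norm_num)]
  rw [← mul_div_assoc, le_div_iff₀ h4, one_mul] at h5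
  exact h5

/-- Upper bound for the real part of `-L'/L` for a non-principal character, with zeros. -/
theorem ND_re_le {χ : DirichletCharacter ℂ q} (hχ : χ ≠ 1) {s : ℂ} (hs : 1 < s.re)
    (hs2 : s.re ≤ 2) {T : ℝ} (hT : |s.im| ≤ T) (S : Finset ℂ)
    (hS : ∀ ρ ∈ S, LFunction χ ρ = 0 ∧ ‖ρ - s‖ ≤ 1 / 4) :
    (ND χ s).re ≤ 8 * Real.log (24 * (q * (T + 3)) / (s.re - 1)) -
      ∑ ρ ∈ S, (s.re - ρ.re) * (1 / ‖ρ - s‖ ^ 2 - 4) := by
  have hq1 : (1 : ℝ) ≤ q := by exact_mod_cast Nat.one_le_iff_ne_zero.2 (NeZero.ne q)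
  have hT0 : 0 ≤ T := (abs_nonneg _).trans hT
  set f : ℂ → ℂ := fun z => LFunction χ (s + z) with hf
  have hfd : Differentiable ℂ f :=
    (differentiable_LFunction hχ).comp (differentiable_id.const_add s)
  have hf0 : f 0 = LFunction χ s := by simp [hf]
  have hne : LFunction χ s ≠ 0 := by
    have := norm_LFunction_ge χ hs hs2
    rw [← norm_pos_iff]
    linarith
  have hsn : ‖s‖ ≤ 2 + T := by
    refine (Complex.norm_le_abs_re_add_abs_im s).trans ?_
    rw [abs_of_pos (by linarith : (0 : ℝ) < s.re)]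
    linarith
  set K : ℝ := 8 * (q * (T + 3)) with hK
  have hKb : ∀ z ∈ Metric.closedBall (0 : ℂ) (1 / 2), ‖f z‖ ≤ K := by
    intro z hz
    have hz1 : ‖z‖ ≤ 1 / 2 := by simpa using hz
    have hzre : 1 / 2 ≤ (s + z).re := by
      have := (abs_le.1 (Complex.abs_re_le_norm z)).1
      rw [Complex.add_re]
      linarith
    refine (norm_LFunction_le hχ hzre).trans ?_
    have h1 : ‖s + z‖ ≤ 2 + T + 1 / 2 := (norm_add_le _ _).trans (by linarith)
    rw [hK]
    nlinarith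
  have hneg : ∀ z ∈ Metric.closedBall (0 : ℂ) (1 / 4), f z = 0 → z.re < 0 := by
    intro z _ hz0
    by_contra hcon
    push Not at hcon
    exact LFunction_ne_zero_of_one_le_re (s := s + z) χ (Or.inl hχ) (by
      rw [Complex.add_re]; linarith) hz0
  classical
  set S' : Finset ℂ := S.image (fun ρ => ρ - s) with hS'
  have hS'p : ∀ u ∈ S', f u = 0 ∧ ‖u‖ ≤ 1 / 4 := by
    intro u hu
    rw [hS', Finset.mem_image] at hu
    obtain ⟨ρ, hρ, rfl⟩ := hu
    refine ⟨?_, (hS ρ hρ).2⟩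
    simp only [hf]
    rw [add_sub_cancel]
    exact (hS ρ hρ).1
  have hf0' : 0 < ‖f 0‖ := by rw [hf0]; exact norm_pos_iff.2 hne
  obtain ⟨n, hn⟩ : ∃ n : ℕ, K < ‖f 0‖ * ((1 / 2 : ℝ) / (1 / 4)) ^ n := by
    obtain ⟨n, hn⟩ := pow_unbounded_of_one_lt (K / ‖f 0‖) (show (1 : ℝ) < (1 / 2) / (1 / 4) by norm_num)
    refine ⟨n, ?_⟩
    rw [div_lt_iff₀ hf0'] at hn
    linarith
  have hmain := logDeriv_lower (R := 1 / 2) (r := 1 / 4) (K := K) (by norm_num) (by norm_num) n f S'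
    hfd (norm_pos_iff.1 hf0') hKb hneg hS'p hn
  have hderiv : deriv f 0 = deriv (LFunction χ) s := by
    have := deriv_comp_const_add (f := LFunction χ) s 0
    simpa [hf] using this
  rw [hderiv, hf0] at hmain
  have hsum : ∑ u ∈ S', (-u.re) * (1 / ‖u‖ ^ 2 - 1 / (1 / 2 : ℝ) ^ 2) =
      ∑ ρ ∈ S, (s.re - ρ.re) * (1 / ‖ρ - s‖ ^ 2 - 4) := by
    rw [hS', Finset.sum_image (fun a _ b _ h => by simpa using h)]
    apply Finset.sum_congr rfl
    intro ρ _
    rw [Complex.sub_re]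
    norm_num
  rw [hsum] at hmain
  have hlog : Real.log (K / ‖LFunction χ s‖) ≤ Real.log (24 * (q * (T + 3)) / (s.re - 1)) := by
    apply Real.log_le_log
    · apply div_pos (by positivity) (norm_pos_iff.2 hne)
    · have h1 := norm_LFunction_ge χ hs hs2
      have h2 : 0 < s.re - 1 := by linarith
      rw [div_le_div_iff₀ (norm_pos_iff.2 hne) h2, hK]
      have h3 : 0 ≤ 8 * (q * (T + 3)) := by positivity
      nlinarith
  have hr : 2 * Real.log (K / ‖LFunction χ s‖) / (1 / 4) = 8 * Real.log (K / ‖LFunction χ s‖) := by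
    ring
  rw [hr] at hmain
  unfold ND
  rw [Complex.neg_re]
  linarith

lemma norm_prod_primeFactors_le (q : ℕ) [NeZero q] {w : ℂ} (hw : 0 ≤ w.re) :
    ‖∏ p ∈ q.primeFactors, (1 - (p : ℂ) ^ (-w))‖ ≤ q := by
  rw [norm_prod]
  calc ∏ p ∈ q.primeFactors, ‖1 - (p : ℂ) ^ (-w)‖ ≤ ∏ p ∈ q.primeFactors, (p : ℝ) := by
        apply Finset.prod_le_prod (fun p _ => norm_nonneg _)
        intro p hp
        have hp2 := (Nat.prime_of_mem_primeFactors hp).two_le
        have hp2' : (2 : ℝ) ≤ p := by exact_mod_cast hp2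
        have h1 : ‖(p : ℂ) ^ (-w)‖ ≤ 1 := by
          rw [Complex.norm_natCast_cpow_of_pos (by omega)]
          apply Real.rpow_le_one_of_one_le_of_nonpos (by linarith)
          simpa using hw
        calc ‖1 - (p : ℂ) ^ (-w)‖ ≤ ‖(1 : ℂ)‖ + ‖(p : ℂ) ^ (-w)‖ := norm_sub_le _ _
          _ ≤ 1 + 1 := by rw [norm_one]; linarith
          _ ≤ p := by linarith
    _ = ((∏ p ∈ q.primeFactors, p : ℕ) : ℝ) := by push_cast; rfl
    _ ≤ q := by
        exact_mod_cast Nat.le_of_dvd (Nat.pos_of_ne_zero (NeZero.ne q)) (Nat.prod_primeFactors_dvd q)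

/-- Upper bound for the real part of `-L'/L` for the principal character. -/
theorem ND_one_re_le {s : ℂ} (hs : 1 < s.re) (hs2 : s.re ≤ 2) {T : ℝ} (hT : |s.im| ≤ T) :
    (ND (1 : DirichletCharacter ℂ q) s).re ≤
      (1 / (s - 1)).re + 8 * Real.log (12 * (q * (T + 3) ^ 2) / (s.re - 1) ^ 2) := by
  have hq1 : (1 : ℝ) ≤ q := by exact_mod_cast Nat.one_le_iff_ne_zero.2 (NeZero.ne q)
  have hT0 : 0 ≤ T := (abs_nonneg _).trans hT
  have hs1 : s ≠ 1 := by
    rintro rfl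
    simp at hs
  set F : ℂ → ℂ := LFunctionTrivChar₁ q with hF
  have hFd : Differentiable ℂ F := differentiable_LFunctionTrivChar₁ q
  have hFne : ∀ w : ℂ, w ≠ 1 → F w = (w - 1) * LFunctionTrivChar q w := fun w hw =>
    Function.update_of_ne hw _ _
  set f : ℂ → ℂ := fun z => F (s + z) with hf
  have hfd : Differentiable ℂ f := hFd.comp (differentiable_id.const_add s)
  have hf0 : f 0 = (s - 1) * LFunctionTrivChar q s := by simp only [hf, add_zero]; exact hFne s hs1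
  have hLne : LFunctionTrivChar q s ≠ 0 := by
    have := norm_LFunction_ge (1 : DirichletCharacter ℂ q) hs hs2
    rw [← norm_pos_iff]
    linarith
  have hne : f 0 ≠ 0 := by
    rw [hf0]
    exact mul_ne_zero (sub_ne_zero.2 hs1) hLne
  have hsn : ‖s‖ ≤ 2 + T := by
    refine (Complex.norm_le_abs_re_add_abs_im s).trans ?_
    rw [abs_of_pos (by linarith : (0 : ℝ) < s.re)]
    linarith
  set K : ℝ := 4 * (q * (T + 3) ^ 2) with hK
  have hKb : ∀ z ∈ Metric.closedBall (0 : ℂ) (1 / 2), ‖f z‖ ≤ K := by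
    intro z hz
    have hz1 : ‖z‖ ≤ 1 / 2 := by simpa using hz
    set w := s + z with hw
    have hwre : 1 / 2 ≤ w.re := by
      have := (abs_le.1 (Complex.abs_re_le_norm z)).1
      rw [hw, Complex.add_re]
      linarith
    have hwn : ‖w‖ ≤ T + 3 := (norm_add_le _ _).trans (by linarith)
    have hK1 : 1 ≤ K := by
      rw [hK]
      nlinarith
    rcases eq_or_ne w 1 with h1 | h1
    · have : f z = ∏ p ∈ q.primeFactors, (1 - (p : ℂ)⁻¹) := by
        simp only [hf, ← hw, h1, hF, LFunctionTrivChar₁, Function.update_self]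
      rw [this, norm_prod]
      refine (Finset.prod_le_one (fun p _ => norm_nonneg _) ?_).trans hK1
      intro p hp
      have hp2 := (Nat.prime_of_mem_primeFactors hp).two_le
      have hp2' : (2 : ℝ) ≤ p := by exact_mod_cast hp2
      have h2 : (1 : ℂ) - (p : ℂ)⁻¹ = ((1 - (p : ℝ)⁻¹ : ℝ) : ℂ) := by push_cast; rfl
      rw [h2, Complex.norm_real, Real.norm_eq_abs, abs_of_nonneg]
      · have : 0 < (p : ℝ)⁻¹ := by positivity
        linarith
      · have : (p : ℝ)⁻¹ ≤ 1 := inv_le_one_of_one_le₀ (by linarith)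
        linarith
    · have h2 : f z = (w - 1) * ((∏ p ∈ q.primeFactors, (1 - (p : ℂ) ^ (-w))) * riemannZeta w) := by
        simp only [hf, ← hw]
        rw [hFne w h1, LFunctionTrivChar_eq_mul_riemannZeta h1]
      have h3 := LibZM.zeta_approx (s := w) (by linarith) h1 (le_refl 1)
      simp only [Finset.Icc_self, Finset.sum_singleton, Nat.cast_one, Complex.one_cpow,
        Real.one_rpow, mul_one] at h3
      have h4 : ‖w‖ / w.re ≤ 2 * ‖w‖ := by
        rw [div_le_iff₀ (by linarith)]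
        nlinarith [norm_nonneg w]
      have h5 : ‖riemannZeta w‖ ≤ 1 + 1 / ‖w - 1‖ + 2 * ‖w‖ := by
        calc ‖riemannZeta w‖ = ‖(riemannZeta w - (1 - 1 / (1 - w))) + 1 - 1 / (1 - w)‖ := by
              congr 1; ring
          _ ≤ ‖(riemannZeta w - (1 - 1 / (1 - w))) + 1‖ + ‖1 / (1 - w)‖ := norm_sub_le _ _
          _ ≤ ‖riemannZeta w - (1 - 1 / (1 - w))‖ + ‖(1 : ℂ)‖ + ‖1 / (1 - w)‖ := by
              gcongr
              exact norm_add_le _ _
          _ ≤ 1 + 1 / ‖w - 1‖ + 2 * ‖w‖ := by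
              rw [norm_one, norm_div, norm_one, norm_sub_rev 1 w]
              linarith
      have h6 : 0 < ‖w - 1‖ := norm_pos_iff.2 (sub_ne_zero.2 h1)
      have h7 : ‖w - 1‖ ≤ T + 4 := by
        calc ‖w - 1‖ ≤ ‖w‖ + ‖(1 : ℂ)‖ := norm_sub_le _ _
          _ ≤ T + 4 := by rw [norm_one]; linarith
      have h8 : ‖w - 1‖ * ‖riemannZeta w‖ ≤ 4 * (T + 3) ^ 2 := by
        calc ‖w - 1‖ * ‖riemannZeta w‖ ≤ ‖w - 1‖ * (1 + 1 / ‖w - 1‖ + 2 * ‖w‖) := by gcongr
          _ = ‖w - 1‖ * (1 + 2 * ‖w‖) + 1 := by field_simp; ring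
          _ ≤ (T + 4) * (1 + 2 * (T + 3)) + 1 := by gcongr
          _ ≤ 4 * (T + 3) ^ 2 := by nlinarith
      rw [h2, norm_mul, norm_mul]
      calc ‖w - 1‖ * (‖∏ p ∈ q.primeFactors, (1 - (p : ℂ) ^ (-w))‖ * ‖riemannZeta w‖)
          ≤ ‖w - 1‖ * (q * ‖riemannZeta w‖) := by
            gcongr
            exact norm_prod_primeFactors_le q (by linarith)
        _ = q * (‖w - 1‖ * ‖riemannZeta w‖) := by ring
        _ ≤ q * (4 * (T + 3) ^ 2) := by gcongr
        _ = K := by rw [hK]; ring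
  have hneg : ∀ z ∈ Metric.closedBall (0 : ℂ) (1 / 4), f z = 0 → z.re < 0 := by
    intro z _ hz0
    by_contra hcon
    push Not at hcon
    rcases eq_or_ne (s + z) 1 with h1 | h1
    · have := congrArg Complex.re h1
      rw [Complex.add_re, Complex.one_re] at this
      linarith
    · have h2 : f z = (s + z - 1) * LFunctionTrivChar q (s + z) := by
        simp only [hf]
        exact hFne _ h1
      rw [h2] at hz0
      rcases mul_eq_zero.1 hz0 with h3 | h3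
      · exact h1 (sub_eq_zero.1 h3)
      · exact LFunction_ne_zero_of_one_le_re (s := s + z) (1 : DirichletCharacter ℂ q)
          (Or.inr h1) (by rw [Complex.add_re]; linarith) h3
  have hf0' : 0 < ‖f 0‖ := norm_pos_iff.2 hne
  obtain ⟨n, hn⟩ : ∃ n : ℕ, K < ‖f 0‖ * ((1 / 2 : ℝ) / (1 / 4)) ^ n := by
    obtain ⟨n, hn⟩ := pow_unbounded_of_one_lt (K / ‖f 0‖) (show (1 : ℝ) < (1 / 2) / (1 / 4) by norm_num)
    refine ⟨n, ?_⟩
    rw [div_lt_iff₀ hf0'] at hn
    linarith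
  have hmain := logDeriv_lower (R := 1 / 2) (r := 1 / 4) (K := K) (by norm_num) (by norm_num) n f ∅
    hfd hne hKb hneg (by simp) hn
  rw [Finset.sum_empty, add_zero] at hmain
  have hderiv : deriv f 0 = (s - 1) * deriv (LFunctionTrivChar q) s + LFunctionTrivChar q s := by
    have := deriv_comp_const_add (f := F) s 0
    rw [add_zero] at this
    rw [hf, this]
    exact deriv_LFunctionTrivChar₁_apply_of_ne_one q hs1
  have hratio : deriv f 0 / f 0 = 1 / (s - 1) - ND (1 : DirichletCharacter ℂ q) s := by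
    rw [hderiv, hf0, ND]
    have : s - 1 ≠ 0 := sub_ne_zero.2 hs1
    field_simp
    ring
  rw [hratio, Complex.sub_re] at hmain
  have h1 := norm_LFunction_ge (1 : DirichletCharacter ℂ q) hs hs2
  have h2 : 0 < s.re - 1 := by linarith
  have h3 : s.re - 1 ≤ ‖s - 1‖ := by
    have := Complex.re_le_norm (s - 1)
    simpa using this
  have hlow : (s.re - 1) ^ 2 / 3 ≤ ‖f 0‖ := by
    rw [hf0, norm_mul]
    calc (s.re - 1) ^ 2 / 3 = (s.re - 1) * ((s.re - 1) / 3) := by ring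
      _ ≤ ‖s - 1‖ * ‖LFunctionTrivChar q s‖ := by gcongr
  have hlog : Real.log (K / ‖f 0‖) ≤ Real.log (12 * (q * (T + 3) ^ 2) / (s.re - 1) ^ 2) := by
    apply Real.log_le_log
    · apply div_pos (by positivity) hf0'
    · rw [div_le_div_iff₀ hf0' (by positivity), hK]
      have h3 : 0 ≤ 4 * (q * (T + 3) ^ 2) := by positivity
      nlinarith
  have hr : 2 * Real.log (K / ‖f 0‖) / (1 / 4) = 8 * Real.log (K / ‖f 0‖) := by
    ring
  rw [hr] at hmain
  linarith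

end Pool.Agent.LibMaier
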