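import Pool.Agent.LibMaier.UniversalPNT

/-!
Primes displaced at random by a macroscopic amount.
-/

namespace Pool.Agent.LibMaier

open Filter Topology MeasureTheory ProbabilityTheory
open Pool.Agent.LibCramer
open scoped ENNReal

/-- lower bound in the prime number theorem -/
lemma le_primeCounting_mul {a ε : ℝ} (ha : 0 < a) (hε : 0 < ε) :
    ∀ᶠ x : ℝ in atTop, (a - ε) * x / Real.log x ≤ (Nat.primeCounting ⌊a * x⌋₊ : ℝ) := by
  rcases le_or_gt a ε with hle | hlt
  · filter_upwards [eventually_gt_atTop 1] with x hx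
    have hl : 0 < Real.log x := Real.log_pos hx
    have h1 : (a - ε) * x / Real.log x ≤ 0 := by
      apply div_nonpos_of_nonpos_of_nonneg _ hl.le
      nlinarith
    exact h1.trans (Nat.cast_nonneg _)
  have h1 : Tendsto (fun x : ℝ => a * x) atTop atTop := tendsto_id.const_mul_atTop ha
  have h2 := LibPNT.primeCounting_tendsto.comp h1
  have hr : (a - ε / 2) / a < 1 := by
    rw [div_lt_iff₀ ha]; linarith
  have h3 := h2.eventually_const_lt hr
  have h4 : Tendsto (fun x : ℝ => Real.log x / Real.log (a * x)) atTop (𝓝 1) := by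
    have h5 : Tendsto (fun x : ℝ => Real.log a / Real.log x) atTop (𝓝 0) :=
      Tendsto.div_atTop tendsto_const_nhds Real.tendsto_log_atTop
    have h6 : Tendsto (fun x : ℝ => 1 / (Real.log a / Real.log x + 1)) atTop (𝓝 (1 / (0 + 1))) :=
      tendsto_const_nhds.div (h5.add_const 1) (by norm_num)
    simp only [zero_add, div_one] at h6
    refine h6.congr' ?_
    filter_upwards [eventually_gt_atTop 1] with x hx
    have hl : 0 < Real.log x := Real.log_pos hx
    rw [Real.log_mul ha.ne' (by linarith)]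
    have e : Real.log a / Real.log x + 1 = (Real.log a + Real.log x) / Real.log x := by
      field_simp
    rw [e, one_div_div]
  have hr2 : (a - ε) / (a - ε / 2) < 1 := by
    rw [div_lt_iff₀ (by linarith)]; linarith
  have h5 := h4.eventually_const_lt hr2
  filter_upwards [h3, h5, eventually_gt_atTop 1, h1.eventually_gt_atTop 1] with x hx1 hx2 hx3 hx4
  have hl : 0 < Real.log x := Real.log_pos hx3
  have hl2 : 0 < Real.log (a * x) := Real.log_pos hx4
  have hx0 : 0 < x := by linarith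
  have hae : 0 < a - ε / 2 := by linarith
  simp only [Function.comp_apply] at hx1
  rw [lt_div_iff₀ (by linarith)] at hx1
  rw [div_le_iff₀ hl]
  rw [lt_div_iff₀ hl2] at hx2
  have h6 : (a - ε / 2) * x < (Nat.primeCounting ⌊a * x⌋₊ : ℝ) * Real.log (a * x) := by
    refine lt_of_le_of_lt (le_of_eq ?_) hx1
    field_simp
  have h7 : (0 : ℝ) ≤ (Nat.primeCounting ⌊a * x⌋₊ : ℝ) := Nat.cast_nonneg _
  calc (a - ε) * x = (a - ε) / (a - ε / 2) * ((a - ε / 2) * x) := by
        rw [div_mul_eq_mul_div, eq_div_iff hae.ne']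
        ring
    _ ≤ (a - ε) / (a - ε / 2) * ((Nat.primeCounting ⌊a * x⌋₊ : ℝ) * Real.log (a * x)) := by
        apply mul_le_mul_of_nonneg_left h6.le
        apply div_nonneg (by linarith) hae.le
    _ = (Nat.primeCounting ⌊a * x⌋₊ : ℝ) * ((a - ε) / (a - ε / 2) * Real.log (a * x)) := by ring
    _ ≤ (Nat.primeCounting ⌊a * x⌋₊ : ℝ) * Real.log x := by gcongr

section

variable {Ω : Type*} [MeasurableSpace Ω] {μ : Measure Ω} [IsProbabilityMeasure μ]
  {Z : Nat.Primes → Ω → ℝ} {K : ℝ} {f : ℝ → ℝ}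

/-- The law of all the `Z p` has the density `f` on `[0, K]`. -/
def HasLaw (μ : Measure Ω) (Z : Nat.Primes → Ω → ℝ) (K : ℝ) (f : ℝ → ℝ) : Prop :=
  ∀ p : Nat.Primes, μ.map (Z p) =
    (volume.restrict (Set.Icc 0 K)).withDensity (fun y => ENNReal.ofReal (f y))

/-- a bound of the density -/
lemma exists_density_bound (hf : ContinuousOn f (Set.Icc 0 K)) :
    ∃ F : ℝ, 0 < F ∧ ∀ y ∈ Set.Icc 0 K, f y ≤ F := by
  obtain ⟨F, hF⟩ := isCompact_Icc.bddAbove_image hf
  refine ⟨max F 1, by positivity, fun y hy => ?_⟩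
  exact (hF (Set.mem_image_of_mem f hy)).trans (le_max_left _ _)

omit [IsProbabilityMeasure μ] in
lemma law_real (hZ : ∀ p, Measurable (Z p)) (hf : ContinuousOn f (Set.Icc 0 K))
    (hf0 : ∀ y ∈ Set.Icc 0 K, 0 ≤ f y) (hlaw : HasLaw μ Z K f) (p : Nat.Primes) {s : Set ℝ}
    (hs : MeasurableSet s) :
    μ.real (Z p ⁻¹' s) = ∫ y in s ∩ Set.Icc 0 K, f y := by
  have hint : IntegrableOn f (s ∩ Set.Icc 0 K) :=
    (hf.integrableOn_compact isCompact_Icc).mono_set Set.inter_subset_right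
  have h1 : 0 ≤ᵐ[volume.restrict (s ∩ Set.Icc 0 K)] f := by
    filter_upwards [ae_restrict_mem (hs.inter measurableSet_Icc)] with y hy using hf0 y hy.2
  have h2 := ofReal_integral_eq_lintegral_ofReal hint h1
  rw [Measure.real, ← Measure.map_apply (hZ p) hs, hlaw p, withDensity_apply _ hs,
    Measure.restrict_restrict hs, ← h2, ENNReal.toReal_ofReal (integral_nonneg_of_ae h1)]

lemma law_mem (hZ : ∀ p, Measurable (Z p)) (hf : ContinuousOn f (Set.Icc 0 K))
    (hf0 : ∀ y ∈ Set.Icc 0 K, 0 ≤ f y) (hlaw : HasLaw μ Z K f) (p : Nat.Primes) :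
    ∀ᵐ ω ∂μ, Z p ω ∈ Set.Icc 0 K := by
  have h1 := law_real hZ hf hf0 hlaw p (s := (Set.Icc 0 K)ᶜ) measurableSet_Icc.compl
  rw [Set.compl_inter_self, Measure.restrict_empty, integral_zero_measure,
    measureReal_eq_zero_iff, measure_eq_zero_iff_ae_notMem] at h1
  filter_upwards [h1] with ω hω
  by_contra hcon
  exact hω hcon

omit [IsProbabilityMeasure μ] in
lemma law_ge (hZ : ∀ p, Measurable (Z p)) (hf : ContinuousOn f (Set.Icc 0 K))
    (hf0 : ∀ y ∈ Set.Icc 0 K, 0 ≤ f y) (hlaw : HasLaw μ Z K f) (p : Nat.Primes) {a b v : ℝ}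
    (ha : 0 ≤ a) (hab : a ≤ b) (hb : b ≤ K) (hv : ∀ y ∈ Set.Icc a b, v ≤ f y) :
    v * (b - a) ≤ μ.real (Z p ⁻¹' Set.Ico a b) := by
  have hsub : Set.Ico a b ⊆ Set.Icc 0 K := fun y hy => ⟨ha.trans hy.1, hy.2.le.trans hb⟩
  rw [law_real hZ hf hf0 hlaw p measurableSet_Ico, Set.inter_eq_left.2 hsub]
  have h1 : ∫ _y in Set.Ico a b, v = v * (b - a) := by
    rw [setIntegral_const, measureReal_def, Real.volume_Ico, ENNReal.toReal_ofReal (by linarith),
      smul_eq_mul, mul_comm]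
  rw [← h1]
  apply setIntegral_mono_on
  · exact integrableOn_const (by simp) (by simp)
  · exact (hf.integrableOn_compact isCompact_Icc).mono_set hsub
  · exact measurableSet_Ico
  · intro y hy
    exact hv y ⟨hy.1, hy.2.le⟩

omit [IsProbabilityMeasure μ] in
lemma law_le (hZ : ∀ p, Measurable (Z p)) (hf : ContinuousOn f (Set.Icc 0 K))
    (hf0 : ∀ y ∈ Set.Icc 0 K, 0 ≤ f y) (hlaw : HasLaw μ Z K f) (p : Nat.Primes) {a b F : ℝ}
    (hab : a ≤ b) (hF0 : 0 ≤ F) (hF : ∀ y ∈ Set.Icc 0 K, f y ≤ F) :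
    μ.real (Z p ⁻¹' Set.Ico a b) ≤ F * (b - a) := by
  rw [law_real hZ hf hf0 hlaw p measurableSet_Ico]
  have h1 : ∫ _y in Set.Ico a b, F = F * (b - a) := by
    rw [setIntegral_const, measureReal_def, Real.volume_Ico, ENNReal.toReal_ofReal (by linarith),
      smul_eq_mul, mul_comm]
  rw [← h1]
  calc ∫ y in Set.Ico a b ∩ Set.Icc 0 K, f y ≤ ∫ _y in Set.Ico a b ∩ Set.Icc 0 K, F := by
        apply setIntegral_mono_on
        · exact (hf.integrableOn_compact isCompact_Icc).mono_set Set.inter_subset_right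
        · exact integrableOn_const (by
            have : volume (Set.Ico a b ∩ Set.Icc 0 K) ≤ volume (Set.Ico a b) :=
              measure_mono Set.inter_subset_left
            exact ne_top_of_le_ne_top (by simp) this) (by simp)
        · exact measurableSet_Ico.inter measurableSet_Icc
        · intro y hy
          exact hF y hy.2
    _ ≤ ∫ _y in Set.Ico a b, F := by
        apply setIntegral_mono_set
        · exact integrableOn_const (by simp) (by simp)
        · filter_upwards with y using hF0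
        · exact (Set.inter_subset_left (s := Set.Ico a b)).eventuallyLE

/-- the macroscopic displacement of `p` -/
noncomputable def mdisp (Z : Nat.Primes → Ω → ℝ) (p : Nat.Primes) (ω : Ω) : ℤ :=
  ⌊((p : ℕ) : ℝ) * Z p ω⌋

omit [IsProbabilityMeasure μ] in
lemma measurable_mdisp (hZ : ∀ p, Measurable (Z p)) (p : Nat.Primes) : Measurable (mdisp Z p) :=
  Int.measurable_floor.comp ((hZ p).const_mul _)

omit [IsProbabilityMeasure μ] in
lemma indep_mdisp (hind : iIndepFun Z μ) : iIndepFun (mdisp Z) μ := by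
  have := hind.comp (fun (p : Nat.Primes) (z : ℝ) => ⌊((p : ℕ) : ℝ) * z⌋)
    (fun p => Int.measurable_floor.comp (measurable_id.const_mul _))
  exact this

lemma mdisp_reach (hZ : ∀ p, Measurable (Z p)) (hf : ContinuousOn f (Set.Icc 0 K))
    (hf0 : ∀ y ∈ Set.Icc 0 K, 0 ≤ f y) (hlaw : HasLaw μ Z K f) :
    ∃ P₀ : ℕ, ∀ p : Nat.Primes, P₀ ≤ (p : ℕ) →
      ∀ᵐ ω ∂μ, ((p : ℕ) : ℤ) ≤ 2 * (((p : ℕ) : ℤ) + mdisp Z p ω) := by
  refine ⟨0, fun p _ => ?_⟩
  filter_upwards [law_mem hZ hf hf0 hlaw p] with ω hω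
  have h1 : 0 ≤ mdisp Z p ω := Int.floor_nonneg.2 (mul_nonneg (Nat.cast_nonneg _) hω.1)
  have h2 : (0 : ℤ) ≤ ((p : ℕ) : ℤ) := Int.natCast_nonneg _
  omega

lemma mdisp_up (hZ : ∀ p, Measurable (Z p)) (hf : ContinuousOn f (Set.Icc 0 K))
    (hf0 : ∀ y ∈ Set.Icc 0 K, 0 ≤ f y) (hlaw : HasLaw μ Z K f) :
    ∃ C : ℕ, ∀ p : Nat.Primes,
      ∀ᵐ ω ∂μ, ((p : ℕ) : ℤ) + mdisp Z p ω ≤ (C : ℤ) * ((p : ℕ) : ℤ) := by
  obtain ⟨C, hC⟩ := exists_nat_ge (1 + K)
  refine ⟨C, fun p => ?_⟩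
  filter_upwards [law_mem hZ hf hf0 hlaw p] with ω hω
  have hpp : (0 : ℝ) < ((p : ℕ) : ℝ) := by exact_mod_cast p.2.pos
  have h1 : (mdisp Z p ω : ℝ) ≤ ((p : ℕ) : ℝ) * Z p ω := Int.floor_le _
  have h2 : ((p : ℕ) : ℝ) * Z p ω ≤ ((p : ℕ) : ℝ) * K := by
    apply mul_le_mul_of_nonneg_left hω.2 hpp.le
  have : (((p : ℕ) : ℤ) : ℝ) + (mdisp Z p ω : ℝ) ≤ (C : ℝ) * (((p : ℕ) : ℤ) : ℝ) := by
    push_cast
    nlinarith
  exact_mod_cast this

lemma mdisp_conc (hZ : ∀ p, Measurable (Z p)) (hf : ContinuousOn f (Set.Icc 0 K))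
    (hf0 : ∀ y ∈ Set.Icc 0 K, 0 ≤ f y) (hlaw : HasLaw μ Z K f) (κ : ℝ) (hκ : 0 < κ) :
    ∃ P₁ : ℕ, ∀ p : Nat.Primes, P₁ ≤ (p : ℕ) → ∀ t : ℤ,
      μ.real {ω | t < mdisp Z p ω ∧ (mdisp Z p ω : ℝ) ≤ t + Real.log (p : ℕ) ^ 2} ≤ κ := by
  obtain ⟨F, hF0, hF⟩ := exists_density_bound hf
  have h1 : Tendsto (fun x : ℝ => F * (Real.log x ^ 2 / x)) atTop (𝓝 0) := by
    have : Tendsto (fun x : ℝ => Real.log x ^ 2 / x) atTop (𝓝 0) :=
      Real.isLittleO_pow_log_id_atTop.tendsto_div_nhds_zero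
    simpa using this.const_mul F
  obtain ⟨P₁, hP₁⟩ := eventually_atTop.1
    ((tendsto_natCast_atTop_atTop (R := ℝ)).eventually (h1.eventually_lt_const hκ))
  refine ⟨P₁, fun p hp t => ?_⟩
  have h2 := hP₁ (p : ℕ) hp
  have hpp : (0 : ℝ) < ((p : ℕ) : ℝ) := by exact_mod_cast p.2.pos
  have hsub : {ω | t < mdisp Z p ω ∧ (mdisp Z p ω : ℝ) ≤ t + Real.log (p : ℕ) ^ 2} ⊆
      Z p ⁻¹' Set.Ico (((t : ℝ) + 1) / ((p : ℕ) : ℝ))
        (((t : ℝ) + 1 + Real.log (p : ℕ) ^ 2) / ((p : ℕ) : ℝ)) := by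
    rintro ω ⟨h3, h4⟩
    have h5 : (mdisp Z p ω : ℝ) ≤ ((p : ℕ) : ℝ) * Z p ω := Int.floor_le _
    have h6 : ((p : ℕ) : ℝ) * Z p ω < (mdisp Z p ω : ℝ) + 1 := Int.lt_floor_add_one _
    have h7 : (t : ℝ) + 1 ≤ (mdisp Z p ω : ℝ) := by exact_mod_cast h3
    simp only [Set.mem_preimage, Set.mem_Ico]
    rw [div_le_iff₀ hpp, lt_div_iff₀ hpp]
    constructor <;> nlinarith
  refine (measureReal_mono hsub (measure_ne_top _ _)).trans ?_
  refine (law_le hZ hf hf0 hlaw p (F := F) ?_ hF0.le hF).trans ?_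
  · apply div_le_div_of_nonneg_right _ hpp.le
    have : 0 ≤ Real.log ((p : ℕ) : ℝ) ^ 2 := by positivity
    linarith
  · refine le_trans (le_of_eq ?_) h2.le
    field_simp
    ring

/-- the density constant -/
noncomputable def densC (K : ℝ) (f : ℝ → ℝ) : ℝ := ∫ y in Set.Icc 0 K, f y / (1 + y)

lemma continuousOn_quot (hf : ContinuousOn f (Set.Icc 0 K)) :
    ContinuousOn (fun y => f y / (1 + y)) (Set.Icc 0 K) := by
  apply hf.div (by fun_prop)
  intro y hy
  have := hy.1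
  linarith

lemma mdisp_dens (hZ : ∀ p, Measurable (Z p)) (hf : ContinuousOn f (Set.Icc 0 K))
    (hf0 : ∀ y ∈ Set.Icc 0 K, 0 ≤ f y) (hlaw : HasLaw μ Z K f) (hK : 0 ≤ K) (ε : ℝ) (hε : 0 < ε) :
    ∀ᶠ x : ℕ in atTop, ∑ p ∈ rowP 0 (2 * x),
      μ.real {ω | 0 < ((p : ℕ) : ℤ) + mdisp Z p ω ∧ ((p : ℕ) : ℤ) + mdisp Z p ω ≤ (x : ℤ)} ≤
        (densC K f + ε) * x / Real.log x := by
  have hD0 : 0 ≤ densC K f := by
    apply setIntegral_nonneg measurableSet_Icc
    intro y hy
    have := hy.1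
    exact div_nonneg (hf0 y hy) (by linarith)
  -- choice of δ
  obtain ⟨δ, hδ0, hδ⟩ : ∃ δ : ℝ, 0 < δ ∧ (1 + δ) ^ 3 * densC K f ≤ densC K f + ε := by
    have hcont : ContinuousAt (fun δ : ℝ => (1 + δ) ^ 3 * densC K f) 0 := by fun_prop
    have h1 : ∀ᶠ δ in 𝓝 (0 : ℝ), (1 + δ) ^ 3 * densC K f < densC K f + ε := by
      apply hcont.eventually_lt_const
      simp
      exact hε
    obtain ⟨δ, h2, h3⟩ := ((h1.filter_mono (nhdsWithin_le_nhds (s := Set.Ioi 0))).and
      self_mem_nhdsWithin).exists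
    exact ⟨δ, h3, h2.le⟩
  obtain ⟨T₀, hT₀⟩ := eventually_atTop.1 (primeCounting_le_mul (a := 1) one_pos hδ0)
  have h1 : ∀ᶠ x : ℝ in atTop, max T₀ 2 * (1 + K) ≤ x ∧ Real.log (1 + K) ≤ (δ / (1 + δ)) * Real.log x ∧
      x + 1 ≤ (1 + δ) * x := by
    refine (eventually_ge_atTop _).and (Filter.Eventually.and ?_ ?_)
    · exact (Real.tendsto_log_atTop.const_mul_atTop (by positivity)).eventually_ge_atTop _
    · filter_upwards [eventually_ge_atTop (1 / δ)] with x hx
      rw [div_le_iff₀ hδ0] at hx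
      linarith
  filter_upwards [(tendsto_natCast_atTop_atTop (R := ℝ)).eventually h1, eventually_ge_atTop 2]
    with x hx hx2
  obtain ⟨hx1, hxlog, hxx⟩ := hx
  have hx2R : (2 : ℝ) ≤ x := by exact_mod_cast hx2
  have hlog : 0 < Real.log (x : ℝ) := Real.log_pos (by linarith)
  have hK1 : 0 < 1 + K := by linarith
  -- the prime counting bound
  have hpi : ∀ y ∈ Set.Icc 0 K, (Nat.primeCounting ⌊((x : ℝ) + 1) / (1 + y)⌋₊ : ℝ) ≤
      (1 + δ) ^ 3 * x / Real.log x / (1 + y) := by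
    intro y hy
    have hy0 := hy.1
    have hyK := hy.2
    have hy1 : 0 < 1 + y := by linarith
    have ht1 : (x : ℝ) / (1 + K) ≤ ((x : ℝ) + 1) / (1 + y) := by
      apply div_le_div₀ (by linarith) (by linarith) hy1 (by linarith)
    have ht2 : max T₀ 2 ≤ (x : ℝ) / (1 + K) := by rwa [le_div_iff₀ hK1]
    have ht3 := hT₀ (((x : ℝ) + 1) / (1 + y)) ((le_max_left _ _).trans (ht2.trans ht1))
    rw [one_mul] at ht3
    refine ht3.trans ?_
    have hlt : Real.log x ≤ (1 + δ) * Real.log (((x : ℝ) + 1) / (1 + y)) := by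
      have h2 : Real.log ((x : ℝ) / (1 + K)) ≤ Real.log (((x : ℝ) + 1) / (1 + y)) :=
        Real.log_le_log (by positivity) ht1
      rw [Real.log_div (by linarith) hK1.ne'] at h2
      have h3 : (1 + δ) * (Real.log x - Real.log (1 + K)) ≤
          (1 + δ) * Real.log (((x : ℝ) + 1) / (1 + y)) :=
        mul_le_mul_of_nonneg_left h2 (by linarith)
      have h4 : (1 + δ) * Real.log (1 + K) ≤ δ * Real.log x := by
        calc (1 + δ) * Real.log (1 + K) ≤ (1 + δ) * ((δ / (1 + δ)) * Real.log x) := by gcongr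
          _ = δ * Real.log x := by field_simp
      linarith
    have hlogt : 0 < Real.log (((x : ℝ) + 1) / (1 + y)) := by
      by_contra hcon
      push Not at hcon
      nlinarith
    rw [div_le_iff₀ hlogt]
    have h5 : (1 + δ) * (((x : ℝ) + 1) / (1 + y)) ≤ (1 + δ) * ((1 + δ) * x / (1 + y)) := by gcongr
    refine h5.trans ?_
    have h6 : (1 + δ) ^ 3 * x / Real.log x / (1 + y) * Real.log (((x : ℝ) + 1) / (1 + y)) =
        (1 + δ) ^ 2 * x / (1 + y) / Real.log x *
          ((1 + δ) * Real.log (((x : ℝ) + 1) / (1 + y))) := by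
      field_simp
    rw [h6]
    calc (1 + δ) * ((1 + δ) * x / (1 + y)) = (1 + δ) ^ 2 * x / (1 + y) / Real.log x * Real.log x := by
          field_simp
      _ ≤ _ := by gcongr
  have hsum : ∀ p ∈ rowP 0 (2 * x),
      μ.real {ω | 0 < ((p : ℕ) : ℤ) + mdisp Z p ω ∧ ((p : ℕ) : ℤ) + mdisp Z p ω ≤ (x : ℤ)} ≤
      ∫ y in Set.Icc 0 K, (Set.Iio (((x : ℝ) + 1) / ((p : ℕ) : ℝ) - 1)).indicator f y := by
    intro p _
    have hpp : (0 : ℝ) < ((p : ℕ) : ℝ) := by exact_mod_cast p.2.pos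
    rw [setIntegral_indicator measurableSet_Iio, Set.inter_comm,
      ← law_real hZ hf hf0 hlaw p measurableSet_Iio]
    apply measureReal_mono _ (measure_ne_top _ _)
    rintro ω ⟨-, h3⟩
    have h6 : ((p : ℕ) : ℝ) * Z p ω < (mdisp Z p ω : ℝ) + 1 := Int.lt_floor_add_one _
    have h7 : ((p : ℕ) : ℝ) + (mdisp Z p ω : ℝ) ≤ x := by exact_mod_cast h3
    simp only [Set.mem_preimage, Set.mem_Iio]
    rw [lt_sub_iff_add_lt, lt_div_iff₀ hpp]
    nlinarith
  have hfint : IntegrableOn f (Set.Icc 0 K) := hf.integrableOn_compact isCompact_Icc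
  calc ∑ p ∈ rowP 0 (2 * x),
      μ.real {ω | 0 < ((p : ℕ) : ℤ) + mdisp Z p ω ∧ ((p : ℕ) : ℤ) + mdisp Z p ω ≤ (x : ℤ)}
      ≤ ∑ p ∈ rowP 0 (2 * x),
        ∫ y in Set.Icc 0 K, (Set.Iio (((x : ℝ) + 1) / ((p : ℕ) : ℝ) - 1)).indicator f y :=
        Finset.sum_le_sum hsum
    _ = ∫ y in Set.Icc 0 K, ∑ p ∈ rowP 0 (2 * x),
        (Set.Iio (((x : ℝ) + 1) / ((p : ℕ) : ℝ) - 1)).indicator f y := by
        rw [integral_finsetSum]
        intro p _
        exact hfint.indicator measurableSet_Iio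
    _ ≤ ∫ y in Set.Icc 0 K, (1 + δ) ^ 3 * x / Real.log x * (f y / (1 + y)) := by
        apply setIntegral_mono_on
        · exact integrable_finsetSum _ fun p _ => hfint.indicator measurableSet_Iio
        · exact ((continuousOn_quot hf).integrableOn_compact isCompact_Icc).const_mul _
        · exact measurableSet_Icc
        · intro y hy
          have hfy := hf0 y hy
          have hy1 : 0 < 1 + y := by have := hy.1; linarith
          have h8 : ∑ p ∈ rowP 0 (2 * x),
              (Set.Iio (((x : ℝ) + 1) / ((p : ℕ) : ℝ) - 1)).indicator f y ≤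
              (Nat.primeCounting ⌊((x : ℝ) + 1) / (1 + y)⌋₊ : ℝ) * f y := by
            calc ∑ p ∈ rowP 0 (2 * x),
                (Set.Iio (((x : ℝ) + 1) / ((p : ℕ) : ℝ) - 1)).indicator f y
                ≤ ∑ p ∈ rowP 0 (2 * x),
                  (if (p : ℕ) ≤ ⌊((x : ℝ) + 1) / (1 + y)⌋₊ then f y else 0) := by
                  apply Finset.sum_le_sum
                  intro p _
                  have hpp : (0 : ℝ) < ((p : ℕ) : ℝ) := by exact_mod_cast p.2.pos
                  by_cases hmem : y ∈ Set.Iio (((x : ℝ) + 1) / ((p : ℕ) : ℝ) - 1)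
                  · rw [Set.indicator_of_mem hmem]
                    rw [Set.mem_Iio, lt_sub_iff_add_lt, lt_div_iff₀ hpp] at hmem
                    rw [if_pos]
                    apply Nat.le_floor
                    rw [le_div_iff₀ hy1]
                    nlinarith
                  · rw [Set.indicator_of_notMem hmem]
                    split_ifs
                    · exact hfy
                    · exact le_rfl
              _ = (((rowP 0 (2 * x)).filter fun p : Nat.Primes =>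
                    (p : ℕ) ≤ ⌊((x : ℝ) + 1) / (1 + y)⌋₊).card : ℝ) * f y := by
                  rw [← Finset.sum_filter, Finset.sum_const, nsmul_eq_mul]
              _ ≤ ((rowP 0 ⌊((x : ℝ) + 1) / (1 + y)⌋₊).card : ℝ) * f y := by
                  have : ((rowP 0 (2 * x)).filter fun p : Nat.Primes =>
                      (p : ℕ) ≤ ⌊((x : ℝ) + 1) / (1 + y)⌋₊) ⊆
                      rowP 0 ⌊((x : ℝ) + 1) / (1 + y)⌋₊ := by
                    intro p hp
                    rw [Finset.mem_filter, mem_rowP] at hp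
                    rw [mem_rowP]
                    exact ⟨hp.1.1, by omega⟩
                  have h9 : (((rowP 0 (2 * x)).filter fun p : Nat.Primes =>
                    (p : ℕ) ≤ ⌊((x : ℝ) + 1) / (1 + y)⌋₊).card : ℝ) ≤
                    ((rowP 0 ⌊((x : ℝ) + 1) / (1 + y)⌋₊).card : ℝ) := by
                    exact_mod_cast Finset.card_le_card this
                  exact mul_le_mul_of_nonneg_right h9 hfy
              _ = _ := by rw [card_rowP_zero]
          refine h8.trans ?_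
          calc (Nat.primeCounting ⌊((x : ℝ) + 1) / (1 + y)⌋₊ : ℝ) * f y
              ≤ ((1 + δ) ^ 3 * x / Real.log x / (1 + y)) * f y :=
                mul_le_mul_of_nonneg_right (hpi y hy) hfy
            _ = (1 + δ) ^ 3 * x / Real.log x * (f y / (1 + y)) := by
                field_simp
    _ = (1 + δ) ^ 3 * densC K f * (x / Real.log x) := by
        rw [integral_const_mul]
        unfold densC
        ring
    _ ≤ (densC K f + ε) * (x / Real.log x) := by gcongr
    _ = (densC K f + ε) * x / Real.log x := by ring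

end

end Pool.Agent.LibMaier
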