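import Pool.Agent.LibMaier.Macro

/-!
Primes displaced at random by a macroscopic amount: the upper bound.
-/

namespace Pool.Agent.LibMaier

open Filter Topology MeasureTheory ProbabilityTheory
open Pool.Agent.LibCramer
open scoped ENNReal

/-- partition points -/
noncomputable def ypt (K : ℝ) (J j : ℕ) : ℝ := j * (K / J)

/-- lower Riemann sums of `f y / (1 + y)` -/
lemma exists_cells {K : ℝ} {f : ℝ → ℝ} (hK : 0 < K) (hf : ContinuousOn f (Set.Icc 0 K))
    (hf0 : ∀ y ∈ Set.Icc 0 K, 0 ≤ f y) {ε : ℝ} (hε : 0 < ε) :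
    ∃ (J : ℕ) (v : ℕ → ℝ), 1 ≤ J ∧ (∀ j < J, 0 ≤ v j ∧
      ∀ y ∈ Set.Icc (ypt K J j) (ypt K J (j + 1)), v j ≤ f y) ∧
      densC K f - ε ≤ ∑ j ∈ Finset.range J, v j * ((K / J) / (1 + ypt K J (j + 1))) := by
  obtain ⟨F, hF0, hF⟩ := exists_density_bound hf
  have hunif := isCompact_Icc.uniformContinuousOn_of_continuous hf
  rw [Metric.uniformContinuousOn_iff] at hunif
  obtain ⟨δ, hδ0, hδ⟩ := hunif (ε / (4 * K)) (by positivity)
  obtain ⟨J, hJ⟩ := exists_nat_gt (max (K / δ) (2 * F * K * K / ε))
  have hJ1 : K / δ < J := lt_of_le_of_lt (le_max_left _ _) hJ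
  have hJ2 : 2 * F * K * K / ε < J := lt_of_le_of_lt (le_max_right _ _) hJ
  have hJ0 : (0 : ℝ) < J := lt_trans (by positivity) hJ1
  have hJN : 1 ≤ J := by
    have : 0 < J := by exact_mod_cast hJ0
    omega
  set Δ : ℝ := K / J with hΔ
  have hΔ0 : 0 < Δ := by rw [hΔ]; positivity
  have hΔδ : Δ < δ := by
    rw [hΔ, div_lt_iff₀ hJ0]
    rw [div_lt_iff₀ hδ0] at hJ1
    linarith
  have hy0 : ∀ j : ℕ, 0 ≤ ypt K J j := by
    intro j
    unfold ypt
    positivity
  have hystep : ∀ j : ℕ, ypt K J (j + 1) = ypt K J j + Δ := by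
    intro j
    unfold ypt
    rw [← hΔ]
    push_cast
    ring
  have hyle : ∀ j : ℕ, j ≤ J → ypt K J j ≤ K := by
    intro j hj
    unfold ypt
    have : (j : ℝ) ≤ J := by exact_mod_cast hj
    calc (j : ℝ) * (K / J) ≤ J * (K / J) := by gcongr
      _ = K := by field_simp
  have hyJ : ypt K J J = K := by
    unfold ypt
    field_simp
  have hyzero : ypt K J 0 = 0 := by simp [ypt]
  set v : ℕ → ℝ := fun j => max (f (ypt K J j) - ε / (4 * K)) 0 with hv
  have hcell : ∀ j < J, ∀ y ∈ Set.Icc (ypt K J j) (ypt K J (j + 1)),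
      y ∈ Set.Icc 0 K ∧ |f y - f (ypt K J j)| < ε / (4 * K) := by
    intro j hj y hy
    have hyK : y ∈ Set.Icc 0 K := ⟨(hy0 j).trans hy.1, hy.2.trans (hyle (j + 1) hj)⟩
    refine ⟨hyK, ?_⟩
    have h1 := hδ y hyK (ypt K J j) ⟨hy0 j, hyle j hj.le⟩ (by
      rw [Real.dist_eq, abs_of_nonneg (by linarith [hy.1])]
      have := hy.2
      rw [hystep] at this
      linarith)
    rwa [Real.dist_eq] at h1
  refine ⟨J, v, hJN, ?_, ?_⟩
  · intro j hj
    refine ⟨le_max_right _ _, fun y hy => ?_⟩
    obtain ⟨h1, h2⟩ := hcell j hj y hy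
    apply max_le
    · have := (abs_lt.1 h2).1
      linarith
    · exact hf0 y h1
  · -- compare the integrals
    have hint : ∀ j < J, IntervalIntegrable (fun y => f y / (1 + y)) volume (ypt K J j)
        (ypt K J (j + 1)) := by
      intro j hj
      apply ContinuousOn.intervalIntegrable
      rw [Set.uIcc_of_le (by rw [hystep]; linarith)]
      apply (continuousOn_quot hf).mono
      intro y hy
      exact (hcell j hj y hy).1
    have hD : densC K f = ∑ j ∈ Finset.range J,
        ∫ y in (ypt K J j)..(ypt K J (j + 1)), f y / (1 + y) := by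
      rw [intervalIntegral.sum_integral_adjacent_intervals hint, hyzero, hyJ,
        intervalIntegral.integral_of_le hK.le, ← integral_Icc_eq_integral_Ioc]
      rfl
    have hb : ∀ j ∈ Finset.range J, ∫ y in (ypt K J j)..(ypt K J (j + 1)), f y / (1 + y) ≤
        v j * (Δ / (1 + ypt K J (j + 1))) + Δ * (F * Δ + ε / (2 * K)) := by
      intro j hj
      rw [Finset.mem_range] at hj
      have hle : ypt K J j ≤ ypt K J (j + 1) := by rw [hystep]; linarith
      have h1 : ∫ y in (ypt K J j)..(ypt K J (j + 1)), f y / (1 + y) ≤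
          ∫ _y in (ypt K J j)..(ypt K J (j + 1)),
            (v j / (1 + ypt K J (j + 1)) + (F * Δ + ε / (2 * K))) := by
        apply intervalIntegral.integral_mono_on hle (hint j hj) (by simp)
        intro y hy
        obtain ⟨h2, h3⟩ := hcell j hj y hy
        have h4 := (abs_lt.1 h3).2
        have h5 : f (ypt K J j) - ε / (4 * K) ≤ v j := le_max_left _ _
        have e1 : ε / (2 * K) = 2 * (ε / (4 * K)) := by
          field_simp
          norm_num
        have h6 : f y ≤ v j + ε / (2 * K) := by rw [e1]; linarith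
        have hvF : v j ≤ F := by
          apply max_le
          · have := hF (ypt K J j) ⟨hy0 j, hyle j hj.le⟩
            have : 0 < ε / (4 * K) := by positivity
            linarith
          · exact hF0.le
        have hv0 : 0 ≤ v j := le_max_right _ _
        have ha := hy0 j
        set a := ypt K J j with ha'
        have hay : a ≤ y := hy.1
        have hyb := hy.2
        rw [hystep] at hyb ⊢
        have h1a : 0 < 1 + a := by linarith
        have h1b : 0 < 1 + (a + Δ) := by linarith
        have h7 : f y / (1 + y) ≤ f y / (1 + a) := by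
          apply div_le_div_of_nonneg_left (hf0 y h2) h1a (by linarith)
        have h8 : f y / (1 + a) ≤ v j / (1 + a) + ε / (2 * K) := by
          rw [div_le_iff₀ h1a, add_mul, div_mul_cancel₀ _ h1a.ne']
          have : 0 < ε / (2 * K) := by positivity
          nlinarith
        have h9 : v j / (1 + a) ≤ v j / (1 + (a + Δ)) + F * Δ := by
          rw [div_le_iff₀ h1a]
          have h10 : v j / (1 + (a + Δ)) * (1 + a) = v j - v j * Δ / (1 + (a + Δ)) := by
            field_simp
            ring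
          rw [add_mul, h10]
          have h11 : v j * Δ / (1 + (a + Δ)) ≤ F * Δ := by
            rw [div_le_iff₀ h1b]
            have : v j * Δ ≤ F * Δ := by gcongr
            have : 0 ≤ F * Δ := by positivity
            nlinarith
          have h12 : F * Δ ≤ F * Δ * (1 + a) := by
            have : 0 ≤ F * Δ := by positivity
            nlinarith
          linarith
        linarith
      refine h1.trans (le_of_eq ?_)
      rw [intervalIntegral.integral_const, hystep, smul_eq_mul]
      ring
    have hsum := Finset.sum_le_sum hb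
    rw [← hD, Finset.sum_add_distrib, Finset.sum_const, Finset.card_range, nsmul_eq_mul] at hsum
    have h1 : (J : ℝ) * (Δ * (F * Δ + ε / (2 * K))) = F * K * K / J + ε / 2 := by
      rw [hΔ]
      field_simp
    have h2 : F * K * K / J ≤ ε / 2 := by
      rw [div_le_iff₀ hJ0]
      rw [div_lt_iff₀ hε] at hJ2
      linarith
    rw [h1] at hsum
    linarith

section

variable {Ω : Type*} [MeasurableSpace Ω] {μ : Measure Ω} [IsProbabilityMeasure μ]
  {Z : Nat.Primes → Ω → ℝ} {K : ℝ} {f : ℝ → ℝ}

/-- the expected number of displaced primes in a window -/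
lemma mdisp_window (hZ : ∀ p, Measurable (Z p)) (hf : ContinuousOn f (Set.Icc 0 K))
    (hf0 : ∀ y ∈ Set.Icc 0 K, 0 ≤ f y) (hlaw : HasLaw μ Z K f) (hK : 0 < K) {c : ℝ} (hc : 0 < c)
    {ε : ℝ} (hε : 0 < ε) :
    ∀ᶠ m : ℕ in atTop, (densC K f - ε) * ((len c m : ℝ) / Real.log ((m : ℝ) + 1)) ≤
      ∑ p ∈ rowP 0 (2 * (m + len c m)), μ.real (mdisp Z p ⁻¹' hitSet m (len c m) p) := by
  obtain ⟨J, v, hJ1, hv, hR⟩ := exists_cells hK hf hf0 (show 0 < ε / 2 by positivity)
  have hJ0 : (0 : ℝ) < J := by exact_mod_cast hJ1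
  set Δ : ℝ := K / J with hΔ
  have hΔ0 : 0 < Δ := by rw [hΔ]; positivity
  have hy0 : ∀ j : ℕ, 0 ≤ ypt K J j := by
    intro j
    unfold ypt
    positivity
  have hystep : ∀ j : ℕ, ypt K J (j + 1) = ypt K J j + Δ := by
    intro j
    unfold ypt
    rw [← hΔ]
    push_cast
    ring
  have hyle : ∀ j : ℕ, j ≤ J → ypt K J j ≤ K := by
    intro j hj
    unfold ypt
    have : (j : ℝ) ≤ J := by exact_mod_cast hj
    calc (j : ℝ) * (K / J) ≤ J * (K / J) := by gcongr
      _ = K := by field_simp
  have hymono : ∀ i j : ℕ, i ≤ j → ypt K J i ≤ ypt K J j := by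
    intro i j hij
    unfold ypt
    have : (i : ℝ) ≤ j := by exact_mod_cast hij
    gcongr
  set V : ℝ := ∑ j ∈ Finset.range J, v j with hV
  have hV0 : 0 ≤ V := Finset.sum_nonneg fun j hj => (hv j (Finset.mem_range.1 hj)).1
  obtain ⟨δ, hδ0, hδ⟩ : ∃ δ : ℝ, 0 < δ ∧ 3 * δ * (1 + K) * V ≤ ε / 2 := by
    refine ⟨ε / (6 * (1 + K) * (V + 1)), by positivity, ?_⟩
    have : 3 * (ε / (6 * (1 + K) * (V + 1))) * (1 + K) * V = ε / 2 * (V / (V + 1)) := by
      field_simp
      ring
    rw [this]
    have h1 : V / (V + 1) ≤ 1 := by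
      rw [div_le_one (by linarith)]
      linarith
    nlinarith
  set a : ℕ → ℝ := fun j => 1 / (1 + ypt K J j) with ha
  have ha0 : ∀ j, 0 < a j := by
    intro j
    have := hy0 j
    simp only [ha]
    positivity
  have ha1 : ∀ j, a j ≤ 1 := by
    intro j
    have := hy0 j
    simp only [ha]
    rw [div_le_one (by linarith)]
    linarith
  have hev : ∀ᶠ x : ℝ in atTop, ∀ j ∈ Finset.range (J + 1),
      (a j - δ) * x / Real.log x ≤ (Nat.primeCounting ⌊a j * x⌋₊ : ℝ) ∧
      (Nat.primeCounting ⌊(1 + δ) * a j * x⌋₊ : ℝ) ≤ ((1 + δ) * a j + δ) * x / Real.log x := by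
    rw [Finset.eventually_all]
    intro j _
    have h1 := ha0 j
    exact (le_primeCounting_mul h1 hδ0).and (primeCounting_le_mul (by positivity) hδ0)
  have hg1 : ∀ᶠ x : ℝ in atTop, c * Real.log x ^ 2 ≤ δ * x := by
    have h1 : Tendsto (fun x : ℝ => Real.log x ^ 2 / x) atTop (𝓝 0) :=
      Real.isLittleO_pow_log_id_atTop.tendsto_div_nhds_zero
    have h3 := h1.const_mul c
    simp only [mul_zero] at h3
    filter_upwards [h3.eventually_lt_const hδ0, eventually_gt_atTop 0] with x hx hx0
    have h4 : (c * (Real.log x ^ 2 / x)) * x = c * Real.log x ^ 2 := by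
      field_simp
    rw [← h4]
    exact mul_le_mul_of_nonneg_right hx.le hx0.le
  have hT : Tendsto (fun m : ℕ => (m : ℝ) + 1) atTop atTop :=
    tendsto_atTop_add_const_right _ _ tendsto_natCast_atTop_atTop
  filter_upwards [hT.eventually hev, hT.eventually hg1, eventually_ge_atTop 2] with m hm hl hm2
  have hm2R : (2 : ℝ) ≤ m := by exact_mod_cast hm2
  set x : ℝ := (m : ℝ) + 1 with hx
  have hx3 : 3 ≤ x := by linarith
  have hx0 : 0 < x := by linarith
  have hlogx : 0 < Real.log x := Real.log_pos (by linarith)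
  set l := len c m with hldef
  have hlx : (l : ℝ) ≤ δ * x := by
    refine le_trans (len_le hc.le m) (le_trans ?_ hl)
    have h1 : Real.log (m : ℝ) ≤ Real.log x := Real.log_le_log (by linarith) (by linarith)
    have h2 : 0 ≤ Real.log (m : ℝ) := Real.log_nonneg (by linarith)
    gcongr
  have hl0 : (0 : ℝ) ≤ l := Nat.cast_nonneg _
  -- the cells
  set cell : ℕ → Finset Nat.Primes := fun j =>
    rowP 0 ⌊a j * x⌋₊ \ rowP 0 ⌊(1 + δ) * a (j + 1) * x⌋₊ with hcell
  have hmemcell : ∀ j, ∀ p ∈ cell j, ((p : ℕ) : ℝ) ≤ a j * x ∧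
      (1 + δ) * a (j + 1) * x < ((p : ℕ) : ℝ) := by
    intro j p hp
    simp only [hcell, Finset.mem_sdiff, mem_rowP, not_and, not_le] at hp
    obtain ⟨⟨h1, h2⟩, h3⟩ := hp
    have h4 := h3 h1
    rw [zero_add] at h2 h4
    constructor
    · have := Nat.floor_le (show 0 ≤ a j * x by have := ha0 j; positivity)
      have h5 : ((p : ℕ) : ℝ) ≤ (⌊a j * x⌋₊ : ℝ) := by exact_mod_cast h2
      linarith
    · exact (Nat.floor_lt (by have := ha0 (j + 1); positivity)).1 h4
  have hanti : ∀ i j : ℕ, i ≤ j → a j ≤ a i := by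
    intro i j hij
    simp only [ha]
    have h1 := hy0 i
    apply one_div_le_one_div_of_le (by linarith)
    have := hymono i j hij
    linarith
  have hdisj : Set.PairwiseDisjoint (Finset.range J : Set ℕ) cell := by
    have main : ∀ i j : ℕ, i < j → Disjoint (cell i) (cell j) := by
      intro i j hij
      rw [Finset.disjoint_left]
      intro p hp hp'
      have h1 := (hmemcell i p hp).2
      have h2 := (hmemcell j p hp').1
      have h3 := hanti (i + 1) j hij
      have h4 : a j * x ≤ (1 + δ) * a (i + 1) * x := by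
        apply mul_le_mul_of_nonneg_right _ hx0.le
        have := ha0 (i + 1)
        nlinarith
      linarith
    intro i _ j _ hij
    rcases lt_or_gt_of_ne hij with h | h
    · exact main i j h
    · exact (main j i h).symm
  have hsub : (Finset.range J).biUnion cell ⊆ rowP 0 (2 * (m + l)) := by
    intro p hp
    rw [Finset.mem_biUnion] at hp
    obtain ⟨j, _, hp⟩ := hp
    have h1 := (hmemcell j p hp).1
    rw [mem_rowP]
    refine ⟨p.2.pos, ?_⟩
    have h2 : ((p : ℕ) : ℝ) ≤ ((m + 1 : ℕ) : ℝ) := by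
      have := ha1 j
      push_cast
      nlinarith
    have h3 : (p : ℕ) ≤ m + 1 := by exact_mod_cast h2
    omega
  -- the probability of a hit
  have hhit : ∀ j < J, ∀ p ∈ cell j, v j * (l / (a j * x)) ≤
      μ.real (mdisp Z p ⁻¹' hitSet m l p) := by
    intro j hj p hp
    obtain ⟨h1, h2⟩ := hmemcell j p hp
    obtain ⟨hv0, hvf⟩ := hv j hj
    have hpp : (0 : ℝ) < ((p : ℕ) : ℝ) := by exact_mod_cast p.2.pos
    have hya : a j * (1 + ypt K J j) = 1 := by
      have := hy0 j
      simp only [ha]
      field_simp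
    have hya' : a (j + 1) * (1 + ypt K J (j + 1)) = 1 := by
      have := hy0 (j + 1)
      simp only [ha]
      field_simp
    have hA : ypt K J j ≤ x / ((p : ℕ) : ℝ) - 1 := by
      rw [le_sub_iff_add_le, le_div_iff₀ hpp]
      have h3 : (ypt K J j + 1) * ((p : ℕ) : ℝ) ≤ (ypt K J j + 1) * (a j * x) := by
        apply mul_le_mul_of_nonneg_left h1
        have := hy0 j
        linarith
      have h4 : (ypt K J j + 1) * (a j * x) = x := by
        calc (ypt K J j + 1) * (a j * x) = (a j * (1 + ypt K J j)) * x := by ring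
          _ = x := by rw [hya, one_mul]
      linarith
    have hB : (x + l) / ((p : ℕ) : ℝ) - 1 ≤ ypt K J (j + 1) := by
      rw [sub_le_iff_le_add, div_le_iff₀ hpp]
      have h3 : (ypt K J (j + 1) + 1) * ((1 + δ) * a (j + 1) * x) ≤
          (ypt K J (j + 1) + 1) * ((p : ℕ) : ℝ) := by
        apply mul_le_mul_of_nonneg_left h2.le
        have := hy0 (j + 1)
        linarith
      have h4 : (ypt K J (j + 1) + 1) * ((1 + δ) * a (j + 1) * x) = (1 + δ) * x := by
        calc (ypt K J (j + 1) + 1) * ((1 + δ) * a (j + 1) * x)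
            = (a (j + 1) * (1 + ypt K J (j + 1))) * ((1 + δ) * x) := by ring
          _ = (1 + δ) * x := by rw [hya', one_mul]
      linarith
    have hAB : x / ((p : ℕ) : ℝ) - 1 ≤ (x + l) / ((p : ℕ) : ℝ) - 1 := by
      apply sub_le_sub_right
      apply div_le_div_of_nonneg_right _ hpp.le
      linarith
    have hlaw' := law_ge hZ hf hf0 hlaw p (v := v j) ((hy0 j).trans hA) hAB
      (hB.trans (hyle (j + 1) hj)) (fun y hy => hvf y ⟨hA.trans hy.1, hy.2.trans hB⟩)
    have hdiff : (x + l) / ((p : ℕ) : ℝ) - 1 - (x / ((p : ℕ) : ℝ) - 1) = l / ((p : ℕ) : ℝ) := by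
      field_simp
      ring
    rw [hdiff] at hlaw'
    have h5 : v j * (l / (a j * x)) ≤ v j * (l / ((p : ℕ) : ℝ)) := by
      apply mul_le_mul_of_nonneg_left _ hv0
      exact div_le_div_of_nonneg_left hl0 hpp h1
    refine h5.trans (hlaw'.trans ?_)
    apply measureReal_mono _ (measure_ne_top _ _)
    intro ω hω
    simp only [Set.mem_preimage, Set.mem_Ico] at hω
    obtain ⟨h6, h7⟩ := hω
    rw [sub_le_iff_le_add, div_le_iff₀ hpp] at h6
    rw [lt_sub_iff_add_lt, lt_div_iff₀ hpp] at h7
    simp only [Set.mem_preimage, hitSet, Set.mem_ofPred_eq]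
    have h8 : ((m : ℤ) + 1 - ((p : ℕ) : ℤ)) ≤ mdisp Z p ω := by
      apply Int.le_floor.2
      push_cast
      rw [hx] at h6
      nlinarith
    have h9 : mdisp Z p ω < (m : ℤ) + 1 + l - ((p : ℕ) : ℤ) := by
      apply Int.floor_lt.2
      push_cast
      rw [hx] at h7
      nlinarith
    constructor <;> linarith
  -- the number of primes in a cell
  have hcard : ∀ j < J, (a j - a (j + 1) - 3 * δ) * (x / Real.log x) ≤ ((cell j).card : ℝ) := by
    intro j hj
    have h1 := (hm j (Finset.mem_range.2 (by omega))).1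
    have h2 := (hm (j + 1) (Finset.mem_range.2 (by omega))).2
    have h3 : ((rowP 0 ⌊a j * x⌋₊).card : ℝ) - ((rowP 0 ⌊(1 + δ) * a (j + 1) * x⌋₊).card : ℝ) ≤
        ((cell j).card : ℝ) := by
      have h4 := Finset.le_card_sdiff (rowP 0 ⌊(1 + δ) * a (j + 1) * x⌋₊) (rowP 0 ⌊a j * x⌋₊)
      have h5 : (rowP 0 ⌊a j * x⌋₊).card ≤
          (cell j).card + (rowP 0 ⌊(1 + δ) * a (j + 1) * x⌋₊).card := by
        simp only [hcell]
        omega
      have h6 : ((rowP 0 ⌊a j * x⌋₊).card : ℝ) ≤
          (cell j).card + (rowP 0 ⌊(1 + δ) * a (j + 1) * x⌋₊).card := by exact_mod_cast h5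
      linarith
    rw [card_rowP_zero, card_rowP_zero] at h3
    have h7 : (a j - a (j + 1) - 3 * δ) * (x / Real.log x) ≤
        (a j - δ) * x / Real.log x - ((1 + δ) * a (j + 1) + δ) * x / Real.log x := by
      have h8 : (a j - δ) * x / Real.log x - ((1 + δ) * a (j + 1) + δ) * x / Real.log x =
          (a j - a (j + 1) - 2 * δ - δ * a (j + 1)) * (x / Real.log x) := by ring
      rw [h8]
      apply mul_le_mul_of_nonneg_right _ (by positivity)
      have := ha1 (j + 1)
      nlinarith
    linarith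
  -- assembling
  have hterm : ∀ j < J, (v j * (Δ / (1 + ypt K J (j + 1))) - 3 * δ * (1 + K) * v j) *
      (l / Real.log x) ≤ ∑ p ∈ cell j, μ.real (mdisp Z p ⁻¹' hitSet m l p) := by
    intro j hj
    have hv0 := (hv j hj).1
    have haj := ha0 j
    calc (v j * (Δ / (1 + ypt K J (j + 1))) - 3 * δ * (1 + K) * v j) * (l / Real.log x)
        ≤ (v j * (l / (a j * x))) * ((a j - a (j + 1) - 3 * δ) * (x / Real.log x)) := by
          have e1 : (v j * (l / (a j * x))) * ((a j - a (j + 1) - 3 * δ) * (x / Real.log x)) =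
              (v j * ((a j - a (j + 1)) / a j) - v j * (3 * δ / a j)) * (l / Real.log x) := by
            field_simp
          rw [e1]
          have e2 : (a j - a (j + 1)) / a j = Δ / (1 + ypt K J (j + 1)) := by
            have h1 := hy0 j
            have h2 := hy0 (j + 1)
            simp only [ha]
            rw [hystep] at h2 ⊢
            field_simp
            ring
          rw [e2]
          apply mul_le_mul_of_nonneg_right _ (by positivity)
          have h3 : 3 * δ / a j ≤ 3 * δ * (1 + K) := by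
            simp only [ha]
            rw [div_div_eq_mul_div, div_one]
            have := hyle j hj.le
            gcongr
          nlinarith
      _ ≤ (v j * (l / (a j * x))) * ((cell j).card : ℝ) := by
          apply mul_le_mul_of_nonneg_left (hcard j hj)
          positivity
      _ = ∑ p ∈ cell j, v j * (l / (a j * x)) := by
          rw [Finset.sum_const, nsmul_eq_mul]
          ring
      _ ≤ _ := Finset.sum_le_sum fun p hp => hhit j hj p hp
  calc (densC K f - ε) * ((l : ℝ) / Real.log x)
      ≤ (∑ j ∈ Finset.range J, v j * (Δ / (1 + ypt K J (j + 1))) - 3 * δ * (1 + K) * V) *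
          (l / Real.log x) := by
        apply mul_le_mul_of_nonneg_right _ (by positivity)
        linarith
    _ = ∑ j ∈ Finset.range J, (v j * (Δ / (1 + ypt K J (j + 1))) - 3 * δ * (1 + K) * v j) *
          (l / Real.log x) := by
        rw [← Finset.sum_mul, Finset.sum_sub_distrib, ← Finset.mul_sum]
    _ ≤ ∑ j ∈ Finset.range J, ∑ p ∈ cell j, μ.real (mdisp Z p ⁻¹' hitSet m l p) :=
        Finset.sum_le_sum fun j hj => hterm j (Finset.mem_range.1 hj)
    _ = ∑ p ∈ (Finset.range J).biUnion cell, μ.real (mdisp Z p ⁻¹' hitSet m l p) := by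
        rw [Finset.sum_biUnion hdisj]
    _ ≤ _ := Finset.sum_le_sum_of_subset_of_nonneg hsub fun _ _ _ => measureReal_nonneg

/-- far windows of length `c log²` are hit if `c > 1/D` -/
lemma mdisp_le (hZ : ∀ p, Measurable (Z p)) (hind : iIndepFun Z μ)
    (hf : ContinuousOn f (Set.Icc 0 K))
    (hf0 : ∀ y ∈ Set.Icc 0 K, 0 ≤ f y) (hlaw : HasLaw μ Z K f) (hK : 0 < K) {c : ℝ} (hc : 0 < c)
    (hcD : 1 < c * densC K f) :
    ∀ᵐ ω ∂μ, (displaced (mdisp Z) ω).Infinite →
      cramer (displaced (mdisp Z) ω) ≤ ENNReal.ofReal c := by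
  -- constants
  obtain ⟨ε, hε0, hε⟩ : ∃ ε : ℝ, 0 < ε ∧ 1 + ε ≤ c * (densC K f - ε) - ε := by
    refine ⟨(c * densC K f - 1) / (c + 2), div_pos (by linarith) (by linarith), ?_⟩
    have : 0 < c + 2 := by linarith
    have e : c * (densC K f - (c * densC K f - 1) / (c + 2)) - (c * densC K f - 1) / (c + 2) -
        (1 + (c * densC K f - 1) / (c + 2)) = 0 := by
      field_simp
      ring
    linarith
  have hDε : 0 < densC K f - ε := by
    by_contra hcon
    push Not at hcon
    nlinarith
  have hwin := mdisp_window (μ := μ) hZ hf hf0 hlaw hK hc hε0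
  -- comparison of logarithms
  have hlogs : ∀ᶠ m : ℕ in atTop, (1 + ε) * Real.log (m : ℝ) ≤
      (densC K f - ε) * ((len c m : ℝ) / Real.log ((m : ℝ) + 1)) := by
    have h1 : Tendsto (fun m : ℕ => (densC K f - ε) * ((c - 1 / Real.log (m : ℝ) ^ 2) *
        (Real.log (m : ℝ) / Real.log ((m : ℝ) + 1)))) atTop
        (𝓝 ((densC K f - ε) * ((c - 0) * 1))) := by
      have hlog : Tendsto (fun m : ℕ => Real.log (m : ℝ)) atTop atTop :=
        Real.tendsto_log_atTop.comp tendsto_natCast_atTop_atTop
      have h2 : Tendsto (fun m : ℕ => 1 / Real.log (m : ℝ) ^ 2) atTop (𝓝 0) := by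
        simp_rw [one_div]
        exact tendsto_inv_atTop_zero.comp ((tendsto_pow_atTop (by norm_num)).comp hlog)
      have h3 : Tendsto (fun m : ℕ => Real.log (m : ℝ) / Real.log ((m : ℝ) + 1)) atTop (𝓝 1) := by
        have h4 : Tendsto (fun m : ℕ => 1 / (Real.log ((m : ℝ) + 1) / Real.log (m : ℝ))) atTop
            (𝓝 (1 / 1)) := by
          apply tendsto_const_nhds.div _ (by norm_num)
          have h5 : Tendsto (fun m : ℕ => 1 + Real.log (1 + 1 / (m : ℝ)) / Real.log (m : ℝ)) atTop
              (𝓝 (1 + 0)) := by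
            apply tendsto_const_nhds.add
            apply Tendsto.div_atTop _ hlog (a := Real.log (1 + 0))
            apply Tendsto.log
            · apply tendsto_const_nhds.add
              exact tendsto_const_div_atTop_nhds_zero_nat 1
            · norm_num
          simp only [add_zero] at h5
          refine h5.congr' ?_
          filter_upwards [eventually_ge_atTop 2] with m hm
          have hm' : (2 : ℝ) ≤ m := by exact_mod_cast hm
          have hl : 0 < Real.log (m : ℝ) := Real.log_pos (by linarith)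
          have e : (m : ℝ) + 1 = m * (1 + 1 / m) := by field_simp
          rw [e, Real.log_mul (by positivity) (by positivity)]
          field_simp
        simp only [one_div_div, div_one] at h4
        exact h4
      exact ((tendsto_const_nhds.sub h2).mul h3).const_mul _
    have h6 : 1 + ε < (densC K f - ε) * ((c - 0) * 1) := by
      rw [sub_zero, mul_one]
      linarith [mul_comm c (densC K f - ε)]
    filter_upwards [h1.eventually_const_lt h6, eventually_ge_atTop 3] with m hm hm3
    have hm' : (3 : ℝ) ≤ m := by exact_mod_cast hm3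
    have hl : 0 < Real.log (m : ℝ) := Real.log_pos (by linarith)
    have hl1 : 0 < Real.log ((m : ℝ) + 1) := Real.log_pos (by linarith)
    have h7 := lt_len c m
    calc (1 + ε) * Real.log (m : ℝ)
        ≤ ((densC K f - ε) * ((c - 1 / Real.log (m : ℝ) ^ 2) *
        (Real.log (m : ℝ) / Real.log ((m : ℝ) + 1)))) * Real.log (m : ℝ) := by gcongr
      _ = (densC K f - ε) * ((c * Real.log (m : ℝ) ^ 2 - 1) / Real.log ((m : ℝ) + 1)) := by
          field_simp
      _ ≤ _ := by
          gcongr
          linarith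
  obtain ⟨M, hM⟩ := eventually_atTop.1 (hwin.and (hlogs.and (eventually_ge_atTop 1)))
  set E : ℕ → Set Ω := fun m =>
    freeEv (mdisp Z) (rowP 0 (2 * (m + len c m))) (hitSet m (len c m)) with hE
  have hprob : ∀ m : ℕ, M ≤ m → μ (E m) ≤ ENNReal.ofReal (1 / (m : ℝ) ^ (1 + ε)) := by
    intro m hm
    obtain ⟨h1, h2, h3⟩ := hM m hm
    have hm1 : (1 : ℝ) ≤ m := by exact_mod_cast h3
    rw [← ofReal_measureReal (by finiteness)]
    apply ENNReal.ofReal_le_ofReal
    simp only [hE]
    rw [prob_freeEv (measurable_mdisp hZ) (indep_mdisp hind)]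
    calc ∏ p ∈ rowP 0 (2 * (m + len c m)), (1 - μ.real (mdisp Z p ⁻¹' hitSet m (len c m) p))
        ≤ ∏ p ∈ rowP 0 (2 * (m + len c m)),
          Real.exp (-μ.real (mdisp Z p ⁻¹' hitSet m (len c m) p)) := by
          apply Finset.prod_le_prod
          · intro p _
            have := measureReal_le_one (μ := μ) (s := mdisp Z p ⁻¹' hitSet m (len c m) p)
            linarith
          · intro p _
            have := Real.add_one_le_exp (-μ.real (mdisp Z p ⁻¹' hitSet m (len c m) p))
            linarith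
      _ = Real.exp (-∑ p ∈ rowP 0 (2 * (m + len c m)),
            μ.real (mdisp Z p ⁻¹' hitSet m (len c m) p)) := by
          rw [← Finset.sum_neg_distrib, Real.exp_sum]
      _ ≤ Real.exp (-((1 + ε) * Real.log (m : ℝ))) := by
          apply Real.exp_le_exp.2
          linarith
      _ = 1 / (m : ℝ) ^ (1 + ε) := by
          rw [Real.rpow_def_of_pos (by linarith), one_div, ← Real.exp_neg, mul_comm (Real.log _)]
  have hBC : ∀ᵐ ω ∂μ, ∀ᶠ m : ℕ in atTop, ω ∉ E (m + M) := by
    apply ae_eventually_notMem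
    have hs : Summable fun m : ℕ => 1 / ((m + M : ℕ) : ℝ) ^ (1 + ε) :=
      (summable_nat_add_iff M).2 (Real.summable_one_div_nat_rpow.2 (by linarith))
    refine ne_top_of_le_ne_top ?_ (ENNReal.tsum_le_tsum fun m => hprob (m + M) (by omega))
    rw [← ENNReal.ofReal_tsum_of_nonneg (fun m => by positivity) hs]
    exact ENNReal.ofReal_ne_top
  filter_upwards [hBC] with ω hω hinf
  apply cramer_le hinf hc.le
  obtain ⟨N, hN⟩ := eventually_atTop.1 hω
  filter_upwards [eventually_ge_atTop (N + M)] with m hm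
  have h1 := hN (m - M) (by omega)
  rw [Nat.sub_add_cancel (by omega)] at h1
  simp only [hE, freeEv, Set.mem_ofPred_eq, not_forall, not_not] at h1
  obtain ⟨p, _, h2⟩ := h1
  simp only [hitSet, Set.mem_ofPred_eq] at h2
  refine ⟨(((p : ℕ) : ℤ) + mdisp Z p ω).toNat, ⟨p, ?_⟩, by omega, by omega⟩
  rw [Int.toNat_of_nonneg (by omega)]

/-- **Macroscopic displacements: the exact value.** -/
theorem mdisp_cramer (hZ : ∀ p, Measurable (Z p)) (hind : iIndepFun Z μ)
    (hf : ContinuousOn f (Set.Icc 0 K))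
    (hf0 : ∀ y ∈ Set.Icc 0 K, 0 ≤ f y) (hlaw : HasLaw μ Z K f) (hK : 0 < K)
    (hD : 0 < densC K f) :
    ∀ᵐ ω ∂μ, (displaced (mdisp Z) ω).Infinite ∧
      cramer (displaced (mdisp Z) ω) = ENNReal.ofReal (1 / densC K f) := by
  have hlow := displaced_ge_of_density (measurable_mdisp hZ) (indep_mdisp hind) hD
    (mdisp_reach hZ hf hf0 hlaw) (mdisp_up hZ hf hf0 hlaw) (mdisp_conc hZ hf hf0 hlaw)
    (fun ε hε => (mdisp_dens hZ hf hf0 hlaw hK.le ε hε).frequently)
  have hupp : ∀ᵐ ω ∂μ, ∀ n : ℕ, (displaced (mdisp Z) ω).Infinite →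
      cramer (displaced (mdisp Z) ω) ≤ ENNReal.ofReal (1 / densC K f * (1 + 1 / ((n : ℝ) + 1))) := by
    rw [ae_all_iff]
    intro n
    have h1 : (0 : ℝ) < n + 1 := by positivity
    apply mdisp_le hZ hind hf hf0 hlaw hK (by positivity)
    have : 1 / densC K f * (1 + 1 / ((n : ℝ) + 1)) * densC K f = 1 + 1 / ((n : ℝ) + 1) := by
      field_simp
    rw [this]
    have : 0 < 1 / ((n : ℝ) + 1) := by positivity
    linarith
  filter_upwards [hlow, hupp] with ω h1 h2
  refine ⟨h1.1, le_antisymm ?_ h1.2⟩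
  have hlim : Tendsto (fun n : ℕ => ENNReal.ofReal (1 / densC K f * (1 + 1 / ((n : ℝ) + 1)))) atTop
      (𝓝 (ENNReal.ofReal (1 / densC K f))) := by
    apply ENNReal.tendsto_ofReal
    have h3 : Tendsto (fun n : ℕ => 1 / ((n : ℝ) + 1)) atTop (𝓝 0) :=
      tendsto_one_div_add_atTop_nhds_zero_nat
    have h4 := (h3.const_add 1).const_mul (1 / densC K f)
    simpa using h4
  exact ge_of_tendsto' hlim fun n => h2 n h1.1

/-- the density constant is positive -/
lemma densC_pos (hZ : ∀ p, Measurable (Z p)) (hf : ContinuousOn f (Set.Icc 0 K))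
    (hf0 : ∀ y ∈ Set.Icc 0 K, 0 ≤ f y) (hlaw : HasLaw μ Z K f) (hK : 0 < K) :
    0 < densC K f := by
  have h1 : ∫ y in Set.Icc 0 K, f y = 1 := by
    have h2 := law_real hZ hf hf0 hlaw ⟨2, Nat.prime_two⟩ (s := Set.univ) MeasurableSet.univ
    rw [Set.univ_inter, Set.preimage_univ, probReal_univ] at h2
    exact h2.symm
  have h3 : ∫ y in Set.Icc 0 K, (1 / (1 + K)) * f y ≤ densC K f := by
    apply setIntegral_mono_on
    · exact (hf.integrableOn_compact isCompact_Icc).const_mul _
    · exact (continuousOn_quot hf).integrableOn_compact isCompact_Icc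
    · exact measurableSet_Icc
    · intro y hy
      have h4 := hf0 y hy
      have hy0 := hy.1
      have hyK := hy.2
      rw [one_div_mul_eq_div]
      apply div_le_div_of_nonneg_left h4 (by linarith) (by linarith)
  rw [integral_const_mul, h1, mul_one] at h3
  have : 0 < 1 / (1 + K) := by positivity
  linarith

end

end Pool.Agent.LibMaier
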