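import Pool.Agent.LibMaier.MaierBound

/-!
The matrix bound for windows of length `x ^ b`, `b` arbitrary.
-/

namespace Pool.Agent.LibMaier

open Filter Topology MeasureTheory
open scoped ArithmeticFunction.vonMangoldt

/-- the primorial grows faster than any power -/
lemma rpow_le_primorial (u : ℝ) : ∀ᶠ z : ℕ in atTop, (z : ℝ) ^ u ≤ (primorial z : ℝ) := by
  have h1 : Tendsto (fun x : ℝ => x ^ u * Real.exp (-(1 / 4) * x)) atTop (𝓝 0) :=
    tendsto_rpow_mul_exp_neg_mul_atTop_nhds_zero u (1 / 4) (by norm_num)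
  have h1' := h1.comp tendsto_natCast_atTop_atTop (α := ℕ)
  have h2 : Tendsto (fun z : ℕ => (Real.log (z + 1) + 2 * Real.sqrt z * Real.log z) / (z : ℝ))
      atTop (𝓝 0) := by
    have ha : Tendsto (fun x : ℝ => Real.log x / x ^ (1 / 2 : ℝ)) atTop (𝓝 0) :=
      (isLittleO_log_rpow_atTop (show (0 : ℝ) < 1 / 2 by norm_num)).tendsto_div_nhds_zero
    have hb : Tendsto (fun x : ℝ => Real.log x / x ^ (1 : ℝ)) atTop (𝓝 0) :=
      (isLittleO_log_rpow_atTop (show (0 : ℝ) < 1 by norm_num)).tendsto_div_nhds_zero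
    have hc : Tendsto (fun z : ℕ => (z : ℝ) + 1) atTop atTop :=
      tendsto_atTop_add_const_right _ _ tendsto_natCast_atTop_atTop
    have h3 := (hb.comp hc).const_mul 2
    have h4 := (ha.comp tendsto_natCast_atTop_atTop (α := ℕ)).const_mul 2
    have h5 := h3.add h4
    simp only [mul_zero, add_zero] at h5
    refine squeeze_zero' ?_ ?_ h5
    · filter_upwards [eventually_ge_atTop 1] with z hz
      have hz' : (1 : ℝ) ≤ z := by exact_mod_cast hz
      have := Real.log_nonneg hz'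
      have := Real.log_nonneg (show (1 : ℝ) ≤ z + 1 by linarith)
      positivity
    · filter_upwards [eventually_ge_atTop 1] with z hz
      have hz' : (1 : ℝ) ≤ z := by exact_mod_cast hz
      have hl := Real.log_nonneg (show (1 : ℝ) ≤ z + 1 by linarith)
      have hs : Real.sqrt (z : ℝ) * Real.sqrt z = z := Real.mul_self_sqrt (by linarith)
      have hs0 : 0 < Real.sqrt (z : ℝ) := Real.sqrt_pos.2 (by linarith)
      simp only [Function.comp, Real.rpow_one]
      rw [← Real.sqrt_eq_rpow, add_div]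
      apply add_le_add
      · rw [mul_div_assoc', div_le_div_iff₀ (by linarith) (by linarith)]
        nlinarith
      · apply le_of_eq
        rw [mul_div_assoc', div_eq_div_iff (by linarith) hs0.ne']
        linear_combination 2 * Real.log (z : ℝ) * hs
  filter_upwards [h1'.eventually_lt_const (show (0 : ℝ) < 1 by norm_num),
    h2.eventually_lt_const (show (0 : ℝ) < 1 / 4 by norm_num), eventually_ge_atTop 1] with z h3 h4 h5
  have hz' : (1 : ℝ) ≤ z := by exact_mod_cast h5
  simp only [Function.comp] at h3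
  rw [div_lt_iff₀ (by linarith)] at h4
  have h6 := Chebyshev.theta_ge z
  have h7 := Chebyshev.theta_eq_log_primorial (z : ℝ)
  rw [Nat.floor_natCast] at h7
  have h8 : (0.6931471803 : ℝ) < Real.log 2 := Real.log_two_gt_d9
  have h9 : 1 / 4 * (z : ℝ) ≤ Real.log (primorial z) := by
    rw [← h7]
    nlinarith
  have h10 : (0 : ℝ) < primorial z := by exact_mod_cast primorial_pos z
  have h11 : Real.exp (1 / 4 * z) ≤ primorial z := by
    rwa [← Real.le_log_iff_exp_le h10]
  refine le_trans ?_ h11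
  have h12 : Real.exp (-(1 / 4) * z) * Real.exp (1 / 4 * z) = 1 := by
    rw [← Real.exp_add]; ring_nf; exact Real.exp_zero
  have h13 := mul_lt_mul_of_pos_right h3 (Real.exp_pos (1 / 4 * (z : ℝ)))
  rw [mul_assoc, h12] at h13
  linarith

/-- **The matrix bound at good scales** for windows of length `x ^ b`, where `x = z ^ B`,
`u = b B`, and `W` bounds the relative number of reduced residues up to `z ^ u`. -/
theorem matrix_avg_poly {ε b B W v0 : ℝ} (hε : 0 < ε) (hε1 : ε < 1 / 4) (hb : 0 < b)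
    (hB1 : 1 < B) (hB2 : B ≤ 2) (hv0 : 0 ≤ v0)
    (hrough : ∀ᶠ z : ℕ in atTop, ((cols (primorial z) ⌊(z : ℝ) ^ (b * B)⌋₊).card : ℝ) ≤
      W * (z : ℝ) ^ (b * B) / Real.log z) :
    ∀ N₀ : ℕ, ∀ X₀ : ℝ, ∃ q k1 k2 : ℕ, ∃ x : ℝ, X₀ ≤ x ∧ N₀ ≤ k1 ∧ k1 ≤ k2 ∧ 1 ≤ q ∧ 1 ≤ k1 ∧
      Real.exp ((1 - 2 * ε) * x) ≤ k1 ∧ v0 + 1 ≤ ε * x ∧
      x - (v0 + 1) ≤ Real.log (k1 * q) ∧ Real.log (k1 * q) ≤ x - v0 ∧
      x + v0 ≤ Real.log (k2 * q) ∧ Real.log (k2 * q) ≤ x + (v0 + 1) ∧
      x ^ b ≤ q ∧ x ^ b ≤ k1 ∧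
      ∑ k ∈ Finset.Ico k1 k2, Wt q x k * (rowc q k ⌊x ^ b⌋₊ : ℝ) ≤
        (1 + ε) ^ 3 / (1 - ε) * eg * W * (x ^ b / x) := by
  intro N₀ X₀
  set V : ℝ := v0 + 1 with hV
  have hV0 : 0 < V := by rw [hV]; linarith
  have hxt : Tendsto (fun z : ℕ => (z : ℝ) ^ B) atTop atTop :=
    (tendsto_rpow_atTop (by linarith)).comp tendsto_natCast_atTop_atTop
  -- growth conditions in terms of `x`
  have hg1 : ∀ᶠ x : ℝ in atTop, (1 + x ^ b) * (V + 1) + x ^ b ≤
      Real.log (1 + ε) * Real.exp (x / 2) := by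
    have h1 : Tendsto (fun x : ℝ => x ^ b * Real.exp (-(1 / 2) * x)) atTop (𝓝 0) :=
      tendsto_rpow_mul_exp_neg_mul_atTop_nhds_zero b (1 / 2) (by norm_num)
    have hlog : 0 < Real.log (1 + ε) := Real.log_pos (by linarith)
    have hcst : 0 < Real.log (1 + ε) / ((V + 2) + (V + 1)) := by
      apply div_pos hlog
      positivity
    filter_upwards [h1.eventually_lt_const hcst, eventually_ge_atTop 1] with x hx hx1
    rw [lt_div_iff₀ (by positivity)] at hx
    have hE := Real.exp_pos (x / 2)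
    have hE' : Real.exp (-(1 / 2) * x) * Real.exp (x / 2) = 1 := by
      rw [← Real.exp_add]; ring_nf; exact Real.exp_zero
    have h3 : x ^ b * ((V + 2) + (V + 1)) ≤ Real.log (1 + ε) * Real.exp (x / 2) := by
      calc x ^ b * ((V + 2) + (V + 1))
          = (x ^ b * Real.exp (-(1 / 2) * x) * ((V + 2) + (V + 1))) * Real.exp (x / 2) := by
            rw [show x ^ b * Real.exp (-(1 / 2) * x) * ((V + 2) + (V + 1)) * Real.exp (x / 2) =
              x ^ b * ((V + 2) + (V + 1)) * (Real.exp (-(1 / 2) * x) * Real.exp (x / 2)) by ring,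
              hE', mul_one]
        _ ≤ Real.log (1 + ε) * Real.exp (x / 2) := mul_le_mul_of_nonneg_right hx.le hE.le
    have h4 : 1 ≤ x ^ b := Real.one_le_rpow hx1 hb.le
    nlinarith
  have hg2 : ∀ᶠ x : ℝ in atTop, max 2 (max (N₀ : ℝ) 1) ≤ Real.exp (x / 2) := by
    have : Tendsto (fun x : ℝ => Real.exp (x / 2)) atTop atTop :=
      Real.tendsto_exp_atTop.comp (tendsto_id.atTop_div_const (by norm_num))
    exact this.eventually_ge_atTop _
  have hg3 : ∀ᶠ x : ℝ in atTop, V ≤ ε * x :=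
    (tendsto_id.const_mul_atTop hε).eventually_ge_atTop V
  have hg4 : ∀ᶠ z : ℕ in atTop, 2 * (z : ℝ) ≤ ε * (z : ℝ) ^ B := by
    have h2 : Tendsto (fun z : ℕ => (z : ℝ) ^ (B - 1)) atTop atTop :=
      (tendsto_rpow_atTop (by linarith)).comp tendsto_natCast_atTop_atTop
    filter_upwards [h2.eventually_ge_atTop (2 / ε), eventually_ge_atTop 1] with z h3 h4
    have hz : (1 : ℝ) ≤ z := by exact_mod_cast h4
    have h5 : (z : ℝ) ^ (B - 1) * z = (z : ℝ) ^ B := by
      nth_rewrite 2 [← Real.rpow_one (z : ℝ)]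
      rw [← Real.rpow_add (by linarith)]
      congr 1
      ring
    rw [← h5]
    rw [div_le_iff₀ hε] at h3
    nlinarith
  obtain ⟨Z, hZ⟩ := eventually_atTop.1 (hrough.and
    ((primorial_div_totient hε).and ((hxt.eventually (hg1.and (hg2.and (hg3.and
    (eventually_ge_atTop (max X₀ 1)))))).and (hg4.and ((eventually_ge_atTop 2).and
    (rpow_le_primorial (b * B)))))))
  obtain ⟨z, hzZ, hM⟩ := ap_upper hB1 hB2 hε Z
  obtain ⟨h1, h2, ⟨h3, h4, h5, h6⟩, h7, h8, hprim⟩ := hZ z hzZ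
  set x : ℝ := (z : ℝ) ^ B with hx
  set q : ℕ := primorial z with hq
  have hq1 : 1 ≤ q := primorial_pos z
  have hqR : (1 : ℝ) ≤ q := by exact_mod_cast hq1
  have hzR : (2 : ℝ) ≤ z := by exact_mod_cast h8
  have hx1 : 1 ≤ x := (le_max_right _ _).trans h6
  have hqexp : (q : ℝ) ≤ Real.exp (2 * z) := by
    have h9 : (q : ℝ) ≤ (4 : ℝ) ^ z := by exact_mod_cast primorial_le_four_pow z
    refine h9.trans ?_
    rw [mul_comm, Real.exp_nat_mul]
    apply pow_le_pow_left₀ (by norm_num)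
    have h10 : (2.7182818283 : ℝ) < Real.exp 1 := Real.exp_one_gt_d9
    have h11 : Real.exp 2 = Real.exp 1 * Real.exp 1 := by rw [← Real.exp_add]; norm_num
    rw [h11]
    nlinarith
  have hpow : (z : ℝ) ^ (b * B) = x ^ b := by
    rw [hx, ← Real.rpow_mul (by linarith), mul_comm]
  rw [hpow] at hprim
  -- size of the ratio
  set ρ : ℝ := Real.exp (x - v0) / q with hρ
  have hρ0 : 0 < ρ := by rw [hρ]; positivity
  have hρV : Real.exp (x - V) / q ≤ ρ / 2 := by
    rw [hρ, div_div, mul_comm (q : ℝ) 2, ← div_div]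
    apply div_le_div_of_nonneg_right _ (by linarith)
    rw [le_div_iff₀ (by norm_num)]
    have h9 : Real.exp (x - v0) = Real.exp (x - V) * Real.exp 1 := by
      rw [← Real.exp_add]
      congr 1
      rw [hV]; ring
    rw [h9]
    have := Real.exp_pos (x - V)
    have := Real.exp_one_gt_d9
    nlinarith
  have hbig : Real.exp ((1 - 2 * ε) * x) ≤ Real.exp (x - V) / q := by
    rw [le_div_iff₀ (by linarith)]
    calc Real.exp ((1 - 2 * ε) * x) * q ≤ Real.exp ((1 - 2 * ε) * x) * Real.exp (2 * z) := by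
          gcongr
      _ = Real.exp ((1 - 2 * ε) * x + 2 * z) := (Real.exp_add _ _).symm
      _ ≤ Real.exp (x - V) := by
          apply Real.exp_le_exp.2
          linarith
  have hhalf : Real.exp (x / 2) ≤ Real.exp ((1 - 2 * ε) * x) := by
    apply Real.exp_le_exp.2
    have h14 : 1 / 2 * x ≤ (1 - 2 * ε) * x := mul_le_mul_of_nonneg_right (by linarith) (by linarith)
    linarith
  have hρ2 : 2 ≤ ρ := by
    have := (le_max_left _ _).trans h4
    linarith
  set k1 : ℕ := ⌊ρ⌋₊ with hk1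
  set k2 : ℕ := ⌈Real.exp (x + v0) / q⌉₊ with hk2
  have hk1le : (k1 : ℝ) ≤ ρ := Nat.floor_le hρ0.le
  have hk1ge : ρ / 2 ≤ k1 := by
    have := Nat.lt_floor_add_one ρ
    rw [← hk1] at this
    linarith
  have hk1big : Real.exp ((1 - 2 * ε) * x) ≤ k1 := hbig.trans (hρV.trans hk1ge)
  have hk1half : Real.exp (x / 2) ≤ k1 := hhalf.trans hk1big
  have hk1one : (1 : ℝ) ≤ k1 := (le_trans (by
    have := (le_max_left (2 : ℝ) (max (N₀ : ℝ) 1)).trans h4
    linarith) hk1half)
  have hk1N : (N₀ : ℝ) ≤ k1 := ((le_max_left _ _).trans ((le_max_right _ _).trans h4)).trans hk1half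
  have hk1pos : 1 ≤ k1 := by exact_mod_cast hk1one
  have hk1q : (0 : ℝ) < k1 * q := by positivity
  have hk2ge : Real.exp (x + v0) / q ≤ k2 := Nat.le_ceil _
  have hk2le : (k2 : ℝ) ≤ Real.exp (x + v0) / q + 1 := (Nat.ceil_lt_add_one (by positivity)).le
  have hk12R : (k1 : ℝ) ≤ k2 := by
    refine hk1le.trans (le_trans ?_ hk2ge)
    rw [hρ]
    apply div_le_div_of_nonneg_right _ (by linarith)
    apply Real.exp_le_exp.2
    linarith
  have hk12 : k1 ≤ k2 := by exact_mod_cast hk12R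
  have hlog1 : x - V ≤ Real.log (k1 * q) := by
    rw [Real.le_log_iff_exp_le hk1q]
    have := hρV.trans hk1ge
    rwa [div_le_iff₀ (by linarith)] at this
  have hlog2 : Real.log (k1 * q) ≤ x - v0 := by
    rw [Real.log_le_iff_le_exp hk1q]
    rwa [hρ, le_div_iff₀ (by linarith)] at hk1le
  have hk2q : (0 : ℝ) < k2 * q := by
    have : (0 : ℝ) < k2 := by linarith
    positivity
  have hlog3 : x + v0 ≤ Real.log (k2 * q) := by
    rw [Real.le_log_iff_exp_le hk2q]
    rwa [div_le_iff₀ (by linarith)] at hk2ge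
  have hlog4 : Real.log (k2 * q) ≤ x + V := by
    rw [Real.log_le_iff_le_exp hk2q]
    have h9 : (k2 : ℝ) * q ≤ Real.exp (x + v0) + q := by
      have := mul_le_mul_of_nonneg_right hk2le (show (0 : ℝ) ≤ q by linarith)
      rw [add_mul, div_mul_cancel₀ _ (by linarith)] at this
      linarith
    have h10 : (q : ℝ) ≤ Real.exp (x + v0) := by
      refine hqexp.trans (Real.exp_le_exp.2 ?_)
      have h14 : ε * x ≤ 1 * x := mul_le_mul_of_nonneg_right (by linarith) (by linarith)
      linarith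
    have h11 : Real.exp (x + V) = Real.exp (x + v0) * Real.exp 1 := by
      rw [← Real.exp_add]
      congr 1
      rw [hV]; ring
    rw [h11]
    have h12 : Real.exp (x + v0) * 2 ≤ Real.exp (x + v0) * Real.exp 1 := by
      apply mul_le_mul_of_nonneg_left _ (Real.exp_pos (x + v0)).le
      have := Real.exp_one_gt_d9
      linarith
    linarith
  -- the count
  set y : ℝ := x ^ b with hy
  have hy0 : 0 ≤ y := by positivity
  have hpoly : (1 + y) * (V + 1) + y ≤ Real.log (1 + ε) * k1 :=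
    h3.trans (mul_le_mul_of_nonneg_left hk1half (Real.log_nonneg (by linarith)))
  have hyk : y ≤ k1 := by
    have h9 : Real.log (1 + ε) ≤ 1 := by
      have := Real.log_le_sub_one_of_pos (show (0 : ℝ) < 1 + ε by linarith)
      linarith
    have h10 : Real.log (1 + ε) * k1 ≤ 1 * k1 := mul_le_mul_of_nonneg_right h9 (by linarith)
    have h11 : (1 + y) * (V + 1) + y = (V + 1) + y * V + y + y := by ring
    have h12 : 0 ≤ y * V := mul_nonneg hy0 hV0.le
    rw [h11] at hpoly
    linarith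
  refine ⟨q, k1, k2, x, (le_max_left _ _).trans h6, by exact_mod_cast hk1N, hk12, hq1, hk1pos,
    hk1big, h5, hlog1, hlog2, hlog3, hlog4, hprim, hyk, ?_⟩
  have hxV : V < x := by
    have h14 : ε * x < 1 * x := mul_lt_mul_of_pos_right (by linarith) (by linarith)
    linarith
  have hcount := matrix_count (q := q) (k1 := k1) (k2 := k2) (N := ⌊y⌋₊) hq1 hk1pos (x := x) (V := V)
    (y := y) (M := (1 + ε) / (q.totient : ℝ)) hxV hy0 (Nat.floor_le hy0) hyk hV0.le hlog1 hlog4 hM
  refine hcount.trans ?_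
  have hE : Real.exp (((1 + y) * (V + 1) + y) / k1) ≤ 1 + ε := by
    rw [← Real.exp_log (show (0 : ℝ) < 1 + ε by linarith)]
    apply Real.exp_le_exp.2
    rw [div_le_iff₀ (by linarith)]
    exact hpoly
  have hcard : ((cols q ⌊y⌋₊).card : ℝ) ≤ W * y / Real.log z := by
    rw [hpow] at h1
    exact h1
  have hlz : 0 < Real.log (z : ℝ) := Real.log_pos (by linarith)
  have hφ : (0 : ℝ) < q.totient := by exact_mod_cast Nat.totient_pos.2 hq1
  have hxV2 : (1 - ε) * x ≤ x - V := by linarith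
  have hxε : 0 < (1 - ε) * x := mul_pos (by linarith) (by linarith)
  have hWy : 0 ≤ W * y / Real.log z := le_trans (Nat.cast_nonneg _) hcard
  calc Real.exp (((1 + y) * (V + 1) + y) / k1) * (q / (x - V)) *
        ((cols q ⌊y⌋₊).card * ((1 + ε) / (q.totient : ℝ)))
      = Real.exp (((1 + y) * (V + 1) + y) / k1) * (1 / (x - V)) * (cols q ⌊y⌋₊).card *
        ((1 + ε) * ((q : ℝ) / (q.totient : ℝ))) := by
        field_simp
    _ ≤ (1 + ε) * (1 / ((1 - ε) * x)) * (W * y / Real.log z) *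
        ((1 + ε) * ((1 + ε) * eg * Real.log z)) := by
        have h9 : 1 / (x - V) ≤ 1 / ((1 - ε) * x) := one_div_le_one_div_of_le hxε hxV2
        have h10 : 0 ≤ 1 / (x - V) := by
          have : 0 < x - V := by linarith
          positivity
        gcongr
    _ = (1 + ε) ^ 3 / (1 - ε) * eg * W * (y / x) := by
        have : (1 - ε) ≠ 0 := by linarith
        field_simp

end Pool.Agent.LibMaier
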