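import Pool.Agent.LibMaier.ZeroFree

/-!
Infinitely many primorials without exceptional zeros.
-/

namespace Pool.Agent.LibMaier

open Filter Topology Complex DirichletCharacter

/-- height used at scale `z` -/
noncomputable def Tz (z : ℕ) : ℝ := 4 * z

/-- the logarithmic size at scale `z` -/
noncomputable def Lz (z : ℕ) : ℝ := LL (primorial z) (Tz z)

instance neZero_primorial (z : ℕ) : NeZero (primorial z) := ⟨primorial_ne_zero z⟩

lemma primorial_succ_le (z : ℕ) : primorial (z + 1) ≤ (z + 1) * primorial z := by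
  unfold primorial
  rw [Finset.range_add_one, Finset.filter_insert]
  split_ifs with h
  · rw [Finset.prod_insert (by simp)]
  · exact Nat.le_mul_of_pos_left _ (Nat.succ_pos z)

lemma Tz_nonneg (z : ℕ) : 0 ≤ Tz z := by unfold Tz; positivity

lemma Lz_succ_le (z : ℕ) : Lz (z + 1) ≤ 2 * Lz z := by
  unfold Lz LL Tz
  have hq : (1 : ℝ) ≤ primorial z := by exact_mod_cast primorial_pos z
  have hq' : (0 : ℝ) < primorial (z + 1) := by exact_mod_cast primorial_pos (z + 1)
  have h1 : (2 : ℝ) * Real.log (primorial z * (4 * z + 3)) =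
      Real.log ((primorial z * (4 * z + 3)) ^ 2) := by
    rw [Real.log_pow]
    norm_num
  rw [h1]
  apply Real.log_le_log
  · positivity
  have h2 : (primorial (z + 1) : ℝ) ≤ (z + 1) * primorial z := by
    exact_mod_cast primorial_succ_le z
  push_cast
  calc (primorial (z + 1) : ℝ) * (4 * (z + 1) + 3)
      ≤ ((z + 1) * primorial z) * (4 * (z + 1) + 3) := by gcongr
    _ ≤ (primorial z * (4 * z + 3)) ^ 2 := by
        have hz : (0 : ℝ) ≤ z := Nat.cast_nonneg z
        have h3 : ((z : ℝ) + 1) * (4 * (z + 1) + 3) ≤ (4 * z + 3) ^ 2 := by nlinarith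
        have h4 : (primorial z : ℝ) ≤ (primorial z : ℝ) ^ 2 := by nlinarith
        calc ((z : ℝ) + 1) * primorial z * (4 * (z + 1) + 3)
            = (((z : ℝ) + 1) * (4 * (z + 1) + 3)) * primorial z := by ring
          _ ≤ (4 * z + 3) ^ 2 * (primorial z : ℝ) ^ 2 := by gcongr
          _ = (primorial z * (4 * z + 3)) ^ 2 := by ring

lemma tendsto_Lz : Tendsto Lz atTop atTop := by
  have h1 : Tendsto (fun z : ℕ => Real.log (4 * (z : ℝ) + 3)) atTop atTop := by
    apply Real.tendsto_log_atTop.comp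
    apply tendsto_atTop_add_const_right
    exact tendsto_natCast_atTop_atTop.const_mul_atTop (by norm_num)
  refine tendsto_atTop_mono (fun z => ?_) h1
  unfold Lz LL Tz
  have hq : (1 : ℝ) ≤ primorial z := by exact_mod_cast primorial_pos z
  apply Real.log_le_log (by positivity)
  have hz : (0 : ℝ) ≤ z := Nat.cast_nonneg z
  nlinarith

/-- **Good scales**: infinitely many primorial moduli have no zero in the classical region. -/
theorem good_scales (N : ℕ) : ∃ z : ℕ, N ≤ z ∧
    ∀ χ : DirichletCharacter ℂ (primorial z), χ ≠ 1 → ∀ ρ : ℂ, LFunction χ ρ = 0 →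
      |ρ.im| ≤ Tz z / 2 → ρ.re ≤ 1 - kk / 2 / Lz z := by
  obtain ⟨L₁, hL₁, hzf⟩ := zero_free
  obtain ⟨L₂, hL₂, hun⟩ := exceptional_unique
  have hkk : 0 < kk := by unfold kk; norm_num
  by_contra hcon
  push Not at hcon
  obtain ⟨N', hN'⟩ := eventually_atTop.1 ((tendsto_Lz.eventually_ge_atTop (max L₁ L₂)).and
    (eventually_ge_atTop N))
  -- every scale has an exceptional pair
  have hex : ∀ z : ℕ, N' ≤ z → ∃ β : ℝ, 1 - kk / 2 / Lz z < β ∧
      ∃ χ : DirichletCharacter ℂ (primorial z), χ ≠ 1 ∧ χ ^ 2 = 1 ∧ LFunction χ β = 0 := by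
    intro z hz
    obtain ⟨hLz, hNz⟩ := hN' z hz
    have hLz0 : 0 < Lz z := by
      have := le_max_left L₁ L₂
      linarith
    obtain ⟨χ, hχ, ρ, hρ, hT, hre⟩ := hcon z hNz
    have hnr : ¬ (ρ.im ≠ 0 ∨ χ ^ 2 ≠ 1) := by
      intro h
      have h1 := hzf (primorial z) (Tz z) (Tz_nonneg z) ((le_max_left L₁ L₂).trans hLz) χ hχ ρ hρ hT h
      have h2 : kk / 2 / Lz z ≤ kk / LL (primorial z) (Tz z) := by
        have h3 : Lz z = LL (primorial z) (Tz z) := rfl
        rw [h3] at hLz0 ⊢
        apply div_le_div_of_nonneg_right _ hLz0.le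
        linarith
      linarith
    push Not at hnr
    refine ⟨ρ.re, hre, χ, hχ, hnr.2, ?_⟩
    have : ((ρ.re : ℝ) : ℂ) = ρ := by
      apply Complex.ext
      · simp
      · simp [hnr.1]
    rw [this]
    exact hρ
  choose! β hβ1 hβ2 using hex
  -- consecutive scales have the same zero
  have hstep : ∀ z : ℕ, N' ≤ z → β (z + 1) = β z := by
    intro z hz
    obtain ⟨hLz, _⟩ := hN' z hz
    obtain ⟨hLz1, _⟩ := hN' (z + 1) (by omega)
    have hLz0 : 0 < Lz z := by
      have := le_max_left L₁ L₂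
      linarith
    have hLz10 : 0 < Lz (z + 1) := by
      have := le_max_left L₁ L₂
      linarith
    obtain ⟨χ, hχ, hχ2, hχ0⟩ := hβ2 z hz
    obtain ⟨ψ, hψ, hψ2, hψ0⟩ := hβ2 (z + 1) (by omega)
    have hdvd : primorial z ∣ primorial (z + 1) := primorial_dvd_primorial (Nat.le_succ z)
    set χ' : DirichletCharacter ℂ (primorial (z + 1)) := changeLevel hdvd χ with hχ'
    have h1 : χ' ≠ 1 := fun h => hχ ((changeLevel_eq_one_iff hdvd).1 h)
    have h2 : χ' ^ 2 = 1 := by rw [hχ', ← map_pow, hχ2, map_one]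
    have h3 : LFunction χ' (β z) = 0 := by
      rw [hχ', LFunction_changeLevel hdvd χ (Or.inl hχ), hχ0, zero_mul]
    have h4 : 1 - kk / LL (primorial (z + 1)) (Tz (z + 1)) < β z := by
      refine lt_of_le_of_lt ?_ (hβ1 z hz)
      have h5 : kk / 2 / Lz z ≤ kk / Lz (z + 1) := by
        rw [div_div]
        apply div_le_div_of_nonneg_left hkk.le hLz10
        exact Lz_succ_le z
      have h6 : Lz (z + 1) = LL (primorial (z + 1)) (Tz (z + 1)) := rfl
      rw [← h6]
      linarith
    have h5 : 1 - kk / LL (primorial (z + 1)) (Tz (z + 1)) < β (z + 1) := by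
      refine lt_of_le_of_lt ?_ (hβ1 (z + 1) (by omega))
      have h6 : Lz (z + 1) = LL (primorial (z + 1)) (Tz (z + 1)) := rfl
      rw [← h6]
      have h7 : kk / 2 / Lz (z + 1) ≤ kk / Lz (z + 1) := by
        apply div_le_div_of_nonneg_right _ hLz10.le
        linarith
      linarith
    exact (hun (primorial (z + 1)) (Tz (z + 1)) (Tz_nonneg _) ((le_max_right L₁ L₂).trans hLz1)
      ψ χ' hψ h1 hψ2 h2 (β (z + 1)) (β z) hψ0 h3 h5 h4).2
  have hconst : ∀ z : ℕ, N' ≤ z → β z = β N' := by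
    intro z hz
    induction z, hz using Nat.le_induction with
    | base => rfl
    | succ z hz ih => rw [hstep z hz, ih]
  have hlim : Tendsto (fun z : ℕ => 1 - kk / 2 / Lz z) atTop (𝓝 (1 - 0)) :=
    tendsto_const_nhds.sub (tendsto_const_nhds.div_atTop tendsto_Lz)
  rw [sub_zero] at hlim
  have hge : 1 ≤ β N' := by
    refine le_of_tendsto hlim ?_
    filter_upwards [eventually_ge_atTop N'] with z hz
    rw [← hconst z hz]
    exact (hβ1 z hz).le
  obtain ⟨χ, hχ, _, hχ0⟩ := hβ2 N' le_rfl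
  exact LFunction_ne_zero_of_one_le_re (s := (β N' : ℂ)) χ (Or.inl hχ) (by simpa using hge) hχ0

end Pool.Agent.LibMaier
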