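import Mathlib
import Pool.Agent.LibPNT.PNT
import Pool.Agent.LibMaier.SumInt

/-! The prime number theorem with a Gaussian weight. -/

namespace Pool.Agent.LibMaier

open MeasureTheory Filter Topology Set

/-- standard normal density -/
noncomputable def gd (v : ℝ) : ℝ := Real.exp (-v ^ 2 / 2) / Real.sqrt (2 * Real.pi)

lemma continuous_gd : Continuous gd := by
  unfold gd
  fun_prop

lemma gd_nonneg (v : ℝ) : 0 ≤ gd v := by
  unfold gd
  positivity

lemma hasDerivAt_gd (v : ℝ) : HasDerivAt gd (-(v * gd v)) v := by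
  unfold gd
  have h : HasDerivAt (fun v : ℝ => -v ^ 2 / 2) (-v) v :=
    (((hasDerivAt_pow 2 v).fun_neg).div_const 2).congr_deriv (by push_cast; ring)
  exact ((h.exp).div_const (Real.sqrt (2 * Real.pi))).congr_deriv (by ring)

lemma integrable_gd : Integrable gd := by
  unfold gd
  have := (integrable_exp_neg_mul_sq (b := 1 / 2) (by norm_num)).div_const (Real.sqrt (2 * Real.pi))
  refine this.congr (Eventually.of_forall fun x => ?_)
  simp only
  congr 2
  ring

lemma integrable_mul_gd : Integrable (fun v => v * gd v) := by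
  unfold gd
  have := (integrable_mul_exp_neg_mul_sq (b := 1 / 2) (by norm_num)).div_const (Real.sqrt (2 * Real.pi))
  refine this.congr (Eventually.of_forall fun x => ?_)
  simp only
  rw [mul_div_assoc]
  congr 3
  ring

lemma integral_gd : ∫ v, gd v = 1 := by
  unfold gd
  have := integral_gaussian (1 / 2)
  have h2 : ∫ x : ℝ, Real.exp (-x ^ 2 / 2) = Real.sqrt (2 * Real.pi) := by
    have e : (fun x : ℝ => Real.exp (-x ^ 2 / 2)) = fun x => Real.exp (-(1 / 2) * x ^ 2) := by
      ext x
      congr 1
      ring
    rw [e, this]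
    congr 1
    ring
  rw [integral_div, h2, div_self]
  positivity

lemma integral_mul_gd : ∫ v, v * gd v = 0 := by
  have h : ∫ v, (-v) * gd (-v) = ∫ v, v * gd v := integral_neg_eq_self (fun v => v * gd v) volume
  have h2 : ∀ v, (-v) * gd (-v) = -(v * gd v) := by
    intro v
    unfold gd
    simp
  simp_rw [h2] at h
  rw [integral_neg] at h
  linarith

lemma psi_exp_le (u : ℝ) : Real.exp (-u) * Chebyshev.psi (Real.exp u) ≤ Real.log 4 + 4 := by
  have h1 := Chebyshev.psi_le_const_mul_self (Real.exp_pos u).le
  calc Real.exp (-u) * Chebyshev.psi (Real.exp u)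
      ≤ Real.exp (-u) * ((Real.log 4 + 4) * Real.exp u) := by gcongr
    _ = (Real.log 4 + 4) * (Real.exp (-u) * Real.exp u) := by ring
    _ = Real.log 4 + 4 := by rw [← Real.exp_add]; simp

lemma tendsto_psi_exp : Tendsto (fun u : ℝ => Real.exp (-u) * Chebyshev.psi (Real.exp u)) atTop (𝓝 1) := by
  have := Pool.Agent.LibPNT.psi_tendsto.comp Real.tendsto_exp_atTop
  refine this.congr (fun u => ?_)
  simp only [Function.comp_apply]
  rw [Real.exp_neg]
  ring

/-- The kernel. -/
noncomputable def gk (Y u : ℝ) : ℝ := Real.exp (-u) * ((1 + (u - Y)) * gd (u - Y))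

lemma hasDerivAt_gk (Y u : ℝ) :
    HasDerivAt (fun u => -(Real.exp (-u) * gd (u - Y))) (gk Y u) u := by
  have h1 : HasDerivAt (fun u : ℝ => Real.exp (-u)) (-Real.exp (-u)) u := by
    have := (hasDerivAt_neg u).exp
    simpa using this
  have h2 : HasDerivAt (fun u : ℝ => gd (u - Y)) (-((u - Y) * gd (u - Y))) u := by
    have := (hasDerivAt_gd (u - Y)).comp_sub_const u Y
    exact this
  exact ((h1.fun_mul h2).fun_neg).congr_deriv (by unfold gk; ring)

lemma continuous_gk (Y : ℝ) : Continuous (gk Y) := by
  unfold gk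
  have := continuous_gd
  fun_prop

lemma integrable_one_add_mul_gd : Integrable (fun v => (1 + v) * gd v) := by
  have := integrable_gd.add integrable_mul_gd
  refine this.congr (Eventually.of_forall fun x => ?_)
  simp only [Pi.add_apply]
  ring

lemma integrable_psi_gk (Y : ℝ) :
    Integrable (fun u => Chebyshev.psi (Real.exp u) * gk Y u) := by
  have hm : Measurable (fun u => Chebyshev.psi (Real.exp u) * gk Y u) :=
    (Chebyshev.psi_mono.measurable.comp Real.measurable_exp).mul (continuous_gk Y).measurable
  have h1 := (integrable_one_add_mul_gd.comp_sub_right Y).norm.const_mul (Real.log 4 + 4)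
  apply Integrable.mono' h1 hm.aestronglyMeasurable
  filter_upwards with u
  have e : Chebyshev.psi (Real.exp u) * gk Y u =
      (Real.exp (-u) * Chebyshev.psi (Real.exp u)) * ((1 + (u - Y)) * gd (u - Y)) := by
    unfold gk
    ring
  rw [e, norm_mul]
  gcongr
  rw [Real.norm_eq_abs, abs_of_nonneg]
  · exact psi_exp_le u
  · have := Chebyshev.psi_nonneg (Real.exp u)
    positivity

lemma integral_gk_Ioi (Y a : ℝ) (ha : 0 ≤ a) : ∫ u in Ioi a, gk Y u = Real.exp (-a) * gd (a - Y) := by
  have hint : IntegrableOn (gk Y) (Ioi a) := by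
    have h1 := (integrable_one_add_mul_gd.comp_sub_right Y).norm
    apply Integrable.mono' h1.integrableOn (continuous_gk Y).measurable.aestronglyMeasurable
    filter_upwards [self_mem_ae_restrict (measurableSet_Ioi)] with u hu
    unfold gk
    rw [norm_mul, Real.norm_eq_abs, abs_of_pos (Real.exp_pos _)]
    have : Real.exp (-u) ≤ 1 := Real.exp_le_one_iff.2 (by
      have : a < u := hu
      linarith)
    calc Real.exp (-u) * ‖(1 + (u - Y)) * gd (u - Y)‖ ≤ 1 * ‖(1 + (u - Y)) * gd (u - Y)‖ := by gcongr
      _ = _ := one_mul _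
  have hlim : Tendsto (fun u => -(Real.exp (-u) * gd (u - Y))) atTop (𝓝 0) := by
    have h1 : Tendsto (fun u : ℝ => Real.exp (-u)) atTop (𝓝 0) := Real.tendsto_exp_neg_atTop_nhds_zero
    have h2 : Tendsto (fun u : ℝ => Real.exp (-u) * gd (u - Y)) atTop (𝓝 0) := by
      apply squeeze_zero (g := fun u => Real.exp (-u) * (1 / Real.sqrt (2 * Real.pi)))
      · intro u
        exact mul_nonneg (Real.exp_pos _).le (gd_nonneg _)
      · intro u
        apply mul_le_mul_of_nonneg_left _ (Real.exp_pos _).le
        unfold gd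
        apply div_le_div_of_nonneg_right _ (Real.sqrt_nonneg _)
        apply Real.exp_le_one_iff.2
        nlinarith [sq_nonneg (u - Y)]
      · simpa using h1.mul_const (1 / Real.sqrt (2 * Real.pi))
    simpa using h2.neg
  have := integral_Ioi_of_hasDerivAt_of_tendsto (a := a) (f := fun u => -(Real.exp (-u) * gd (u - Y)))
    (f' := gk Y) (m := 0) (hasDerivAt_gk Y a).continuousAt.continuousWithinAt
    (fun u _ => hasDerivAt_gk Y u) hint hlim
  rw [this]
  ring

lemma hasSum_gaussian {X : ℝ} (hX : 0 < X) :
    HasSum (fun n : ℕ => ArithmeticFunction.vonMangoldt n / n *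
      (Real.exp (-(Real.log n - Real.log X) ^ 2 / 2) / Real.sqrt (2 * Real.pi)))
      (∫ v, (Real.exp (-(Real.log X + v)) * Chebyshev.psi (Real.exp (Real.log X + v))) *
        ((1 + v) * gd v)) := by
  set Y := Real.log X with hY
  have hA : ∀ u : ℝ, ∑ n ∈ Finset.Icc 1 ⌊Real.exp u⌋₊, ArithmeticFunction.vonMangoldt n =
      Chebyshev.psi (Real.exp u) := fun u => rfl
  have h := hasSum_mul_integral (fun n => ArithmeticFunction.vonMangoldt n)
    (fun n => ArithmeticFunction.vonMangoldt_nonneg) (by simp) (gk Y) (continuous_gk Y).measurable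
    (by
      simp_rw [hA]
      exact (integrable_psi_gk Y).integrableOn)
  simp_rw [hA] at h
  have e1 : ∫ u in Ioi (0:ℝ), Chebyshev.psi (Real.exp u) * gk Y u =
      ∫ u, Chebyshev.psi (Real.exp u) * gk Y u := by
    rw [setIntegral_eq_integral_of_forall_compl_eq_zero]
    intro u hu
    have hu' : u ≤ 0 := by simpa using hu
    rw [Chebyshev.psi_eq_zero_of_le_one (Real.exp_le_one_iff.2 hu'), zero_mul]
  have e2 : ∫ u, Chebyshev.psi (Real.exp u) * gk Y u =
      ∫ v, (Real.exp (-(Y + v)) * Chebyshev.psi (Real.exp (Y + v))) * ((1 + v) * gd v) := by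
    rw [← integral_add_right_eq_self (fun u => Chebyshev.psi (Real.exp u) * gk Y u) Y]
    congr 1
    ext v
    unfold gk
    rw [show v + Y - Y = v by ring, show v + Y = Y + v by ring]
    ring
  rw [e1, e2] at h
  have e3 : (fun n : ℕ => ArithmeticFunction.vonMangoldt n * ∫ u in Ioi (Real.log n), gk Y u) =
      (fun n : ℕ => ArithmeticFunction.vonMangoldt n / n *
      (Real.exp (-(Real.log n - Y) ^ 2 / 2) / Real.sqrt (2 * Real.pi))) := by
    ext n
    rcases Nat.eq_zero_or_pos n with rfl | hn
    · simp
    · have hn' : (0:ℝ) < n := by exact_mod_cast hn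
      rw [integral_gk_Ioi Y _ (Real.log_natCast_nonneg n), Real.exp_neg, Real.exp_log hn']
      unfold gd
      ring
  rw [e3] at h
  exact h

theorem summable_gaussian {X : ℝ} (hX : 0 < X) :
    Summable (fun n : ℕ => ArithmeticFunction.vonMangoldt n / n *
      (Real.exp (-(Real.log n - Real.log X) ^ 2 / 2) / Real.sqrt (2 * Real.pi))) :=
  (hasSum_gaussian hX).summable

/-- Prime number theorem with a Gaussian weight. -/
theorem gaussian_pnt :
    Tendsto (fun X : ℝ => ∑' n : ℕ, ArithmeticFunction.vonMangoldt n / n *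
      (Real.exp (-(Real.log n - Real.log X) ^ 2 / 2) / Real.sqrt (2 * Real.pi))) atTop (𝓝 1) := by
  have h1 : Tendsto (fun Y : ℝ => ∫ v, (Real.exp (-(Y + v)) * Chebyshev.psi (Real.exp (Y + v))) *
        ((1 + v) * gd v)) atTop (𝓝 (∫ v, 1 * ((1 + v) * gd v))) := by
    apply tendsto_integral_filter_of_dominated_convergence
      (fun v => (Real.log 4 + 4) * ‖(1 + v) * gd v‖)
    · filter_upwards with Y
      apply Measurable.aestronglyMeasurable
      have h2 : Measurable (fun v => Chebyshev.psi (Real.exp (Y + v))) :=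
        Chebyshev.psi_mono.measurable.comp (by fun_prop)
      have h3 : Measurable (fun v => (1 + v) * gd v) := by
        have := continuous_gd.measurable
        fun_prop
      fun_prop
    · filter_upwards with Y
      filter_upwards with v
      rw [norm_mul]
      gcongr
      rw [Real.norm_eq_abs, abs_of_nonneg]
      · exact psi_exp_le (Y + v)
      · have := Chebyshev.psi_nonneg (Real.exp (Y + v))
        positivity
    · exact integrable_one_add_mul_gd.norm.const_mul _
    · filter_upwards with v
      apply Tendsto.mul_const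
      exact tendsto_psi_exp.comp (tendsto_atTop_add_const_right atTop v tendsto_id)
  have h2 : ∫ v, 1 * ((1 + v) * gd v) = 1 := by
    have e : (fun v : ℝ => 1 * ((1 + v) * gd v)) = fun v => gd v + v * gd v := by
      ext v
      ring
    rw [e, integral_add integrable_gd integrable_mul_gd, integral_gd, integral_mul_gd, add_zero]
  rw [h2] at h1
  have h3 := h1.comp Real.tendsto_log_atTop
  refine h3.congr' ?_
  filter_upwards [eventually_gt_atTop 0] with X hX
  exact (hasSum_gaussian hX).tsum_eq.symm

end Pool.Agent.LibMaier
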