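import Pool.Agent.LibMaier.DispFinal
import Pool.Agent.LibCramer.SecondMoment
import Pool.Agent.LibPNT.PNT

/-!
A universal lower bound for the Cramer constant of randomly displaced primes.
-/

namespace Pool.Agent.LibMaier

open Filter Topology MeasureTheory ProbabilityTheory
open Pool.Agent.LibCramer
open scoped ENNReal

section

variable {Ω ι : Type*} [MeasurableSpace Ω] {μ : Measure Ω} [IsProbabilityMeasure μ] {X : ι → Ω → ℤ}

/-- empty disjoint windows are negatively correlated -/
lemma freeEv_inter_le [DecidableEq ι] (hX : ∀ p, Measurable (X p)) (hind : iIndepFun X μ)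
    {S T : Finset ι} (hST : S ⊆ T) {H H' : ι → Set ℤ} (hdis : ∀ p ∈ S, Disjoint (H p) (H' p)) :
    μ.real (freeEv X S H ∩ freeEv X T H') ≤ μ.real (freeEv X S H) * μ.real (freeEv X T H') := by
  set G : ι → Set ℤ := fun p => if p ∈ S then H p else ∅ with hG
  have e1 : freeEv X S H = freeEv X T G := by
    ext ω
    simp only [freeEv, Set.mem_ofPred_eq, hG]
    constructor
    · intro h p _
      by_cases hp : p ∈ S
      · simp only [hp, if_true]
        exact h p hp
      · simp [hp]
    · intro h p hp
      have := h p (hST hp)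
      simpa [hp] using this
  have e2 : freeEv X S H ∩ freeEv X T H' = freeEv X T (fun p => G p ∪ H' p) := by
    rw [e1]
    ext ω
    simp only [freeEv, Set.mem_inter_iff, Set.mem_ofPred_eq, Set.mem_union, not_or]
    constructor
    · rintro ⟨h1, h2⟩ p hp
      exact ⟨h1 p hp, h2 p hp⟩
    · intro h
      exact ⟨fun p hp => (h p hp).1, fun p hp => (h p hp).2⟩
  rw [e2, e1, prob_freeEv hX hind, prob_freeEv hX hind, prob_freeEv hX hind,
    ← Finset.prod_mul_distrib]
  apply Finset.prod_le_prod
  · intro p _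
    have := measureReal_le_one (μ := μ) (s := X p ⁻¹' (G p ∪ H' p))
    linarith
  · intro p _
    have hd : Disjoint (X p ⁻¹' G p) (X p ⁻¹' H' p) := by
      apply Disjoint.preimage
      by_cases hp : p ∈ S
      · simp only [hG, hp, if_true]
        exact hdis p hp
      · simp [hG, hp]
    rw [Set.preimage_union, measureReal_union hd (hX p MeasurableSet.of_discrete)]
    have h1 : 0 ≤ μ.real (X p ⁻¹' G p) := measureReal_nonneg
    have h2 : 0 ≤ μ.real (X p ⁻¹' H' p) := measureReal_nonneg
    nlinarith

end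

section

variable {Ω : Type*} [MeasurableSpace Ω] {μ : Measure Ω} [IsProbabilityMeasure μ]
  {X : Nat.Primes → Ω → ℤ}

lemma hitSet_mono {m l l' : ℕ} (h : l ≤ l') (p : Nat.Primes) : hitSet m l p ⊆ hitSet m l' p := by
  intro t ht
  simp only [hitSet, Set.mem_ofPred_eq] at ht ⊢
  exact ⟨ht.1, ht.2.trans (by exact_mod_cast Nat.add_le_add_left h m)⟩

/-- a displaced prime is in at most `l` windows of length `l` -/
lemma sum_hit_le (hX : ∀ p, Measurable (X p)) (p : Nat.Primes) (I : Finset ℕ) (l x : ℕ)
    (hI : ∀ m ∈ I, m + l ≤ x) :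
    ∑ m ∈ I, μ.real (X p ⁻¹' hitSet m l p) ≤
      l * μ.real {ω | 0 < ((p : ℕ) : ℤ) + X p ω ∧ ((p : ℕ) : ℤ) + X p ω ≤ (x : ℤ)} := by
  have h1 : ∀ m ∈ I, μ.real (X p ⁻¹' hitSet m l p) ≤
      ∑ j ∈ Finset.range l, μ.real {ω | ((p : ℕ) : ℤ) + X p ω = ((m + j + 1 : ℕ) : ℤ)} := by
    intro m _
    have hsub : X p ⁻¹' hitSet m l p ⊆
        ⋃ j ∈ Finset.range l, {ω | ((p : ℕ) : ℤ) + X p ω = ((m + j + 1 : ℕ) : ℤ)} := by
      intro ω hω
      simp only [Set.mem_preimage, hitSet, Set.mem_ofPred_eq] at hω
      simp only [Set.mem_iUnion, Finset.mem_range, Set.mem_ofPred_eq]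
      refine ⟨(((p : ℕ) : ℤ) + X p ω - m - 1).toNat, by omega, ?_⟩
      push_cast
      omega
    exact (measureReal_mono hsub (measure_ne_top _ _)).trans (measureReal_biUnion_finset_le _ _)
  refine (Finset.sum_le_sum h1).trans ?_
  rw [Finset.sum_comm]
  have h2 : ∀ j ∈ Finset.range l,
      ∑ m ∈ I, μ.real {ω | ((p : ℕ) : ℤ) + X p ω = ((m + j + 1 : ℕ) : ℤ)} ≤
      μ.real {ω | 0 < ((p : ℕ) : ℤ) + X p ω ∧ ((p : ℕ) : ℤ) + X p ω ≤ (x : ℤ)} := by
    intro j hj
    have hmeas : ∀ m ∈ I, MeasurableSet {ω | ((p : ℕ) : ℤ) + X p ω = ((m + j + 1 : ℕ) : ℤ)} := by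
      intro m _
      exact (hX p) (MeasurableSet.of_discrete (s := {t | ((p : ℕ) : ℤ) + t = ((m + j + 1 : ℕ) : ℤ)}))
    have hdis : Set.PairwiseDisjoint (I : Set ℕ)
        (fun m => {ω | ((p : ℕ) : ℤ) + X p ω = ((m + j + 1 : ℕ) : ℤ)}) := by
      intro m _ m' _ hmm
      simp only [Function.onFun]
      rw [Set.disjoint_left]
      intro ω h h'
      simp only [Set.mem_ofPred_eq] at h h'
      apply hmm
      rw [h] at h'
      have : m + j + 1 = m' + j + 1 := by exact_mod_cast h'
      omega
    rw [← measureReal_biUnion_finset hdis hmeas]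
    apply measureReal_mono _ (by finiteness)
    intro ω hω
    simp only [Set.mem_iUnion, Set.mem_ofPred_eq] at hω ⊢
    obtain ⟨m, hm, hω⟩ := hω
    have h3 := hI m hm
    rw [Finset.mem_range] at hj
    rw [hω]
    constructor
    · exact_mod_cast Nat.succ_pos _
    · exact_mod_cast (by omega : m + j + 1 ≤ x)
  refine (Finset.sum_le_sum h2).trans (le_of_eq ?_)
  rw [Finset.sum_const, Finset.card_range, nsmul_eq_mul]

lemma rowP_mono {N N' : ℕ} (h : N ≤ N') : rowP 0 N ⊆ rowP 0 N' := by
  intro p hp
  rw [mem_rowP] at hp ⊢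
  exact ⟨hp.1, hp.2.trans (by omega)⟩

lemma len_mono_right {c : ℝ} (hc : 0 ≤ c) {m n : ℕ} (h : m ≤ n) : len c m ≤ len c n := by
  unfold len
  apply Nat.floor_mono
  rcases Nat.eq_zero_or_pos m with h0 | h0
  · subst h0
    have h1 : (0 : ℝ) ≤ c * Real.log (n : ℝ) ^ 2 := by positivity
    simpa using h1
  · have h1 : (1 : ℝ) ≤ m := by exact_mod_cast h0
    have h2 : Real.log (m : ℝ) ≤ Real.log (n : ℝ) :=
      Real.log_le_log (by linarith) (by exact_mod_cast h)
    have h3 : 0 ≤ Real.log (m : ℝ) := Real.log_nonneg h1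
    gcongr

/-- **Universal lower bound, with a given concentration.** -/
theorem displaced_ge_kappa (hX : ∀ p, Measurable (X p)) (hind : iIndepFun X μ)
    {D c κ : ℝ} (hD : 0 < D) (hc0 : 0 < c) (hκ0 : 0 < κ) (hκ1 : κ < 1)
    (hreach : ∃ P₀ : ℕ, ∀ p : Nat.Primes, P₀ ≤ (p : ℕ) →
      ∀ᵐ ω ∂μ, ((p : ℕ) : ℤ) ≤ 2 * (((p : ℕ) : ℤ) + X p ω))
    (hup : ∃ C : ℕ, ∀ p : Nat.Primes, ∀ᵐ ω ∂μ, ((p : ℕ) : ℤ) + X p ω ≤ (C : ℤ) * ((p : ℕ) : ℤ))
    (hconc : ∃ P₁ : ℕ, ∀ p : Nat.Primes, P₁ ≤ (p : ℕ) → ∀ t : ℤ,
      μ.real {ω | t < X p ω ∧ (X p ω : ℝ) ≤ t + c * Real.log (p : ℕ) ^ 2} ≤ κ)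
    (hdens : ∀ ε : ℝ, 0 < ε → ∃ᶠ x : ℕ in atTop, ∑ p ∈ rowP 0 (2 * x),
      μ.real {ω | 0 < ((p : ℕ) : ℤ) + X p ω ∧ ((p : ℕ) : ℤ) + X p ω ≤ (x : ℤ)} ≤
        (D + ε) * x / Real.log x)
    (hlt : c * D * (Real.log (1 / (1 - κ)) / κ) < 1) :
    ∀ᵐ ω ∂μ, (displaced X ω).Infinite ∧ ENNReal.ofReal c ≤ cramer (displaced X ω) := by
  classical
  have h1κ : 0 < 1 - κ := by linarith
  set lam : ℝ := Real.log (1 / (1 - κ)) / κ with hlam
  have hlam0 : 0 < lam := by
    apply div_pos _ hκ0
    apply Real.log_pos
    rw [lt_div_iff₀ h1κ]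
    linarith
  obtain ⟨P₀, hP₀⟩ := hreach
  obtain ⟨C, hC⟩ := hup
  obtain ⟨P₁, hP₁⟩ := hconc
  -- every smaller constant
  have key : ∀ c' : ℝ, 0 < c' → c' < c →
      ∀ᵐ ω ∂μ, (displaced X ω).Infinite ∧ ENNReal.ofReal c' ≤ cramer (displaced X ω) := by
    intro c' hc hcc'
    have hκ : c' * D * lam < 1 := lt_of_le_of_lt (by gcongr) hlt
    have hC1 : ∃ M₁ : ℕ, ∀ m : ℕ, M₁ ≤ m → ∀ p : Nat.Primes, m ≤ C * (p : ℕ) → ∀ l : ℕ,
        l ≤ len c' m → μ.real (X p ⁻¹' hitSet m l p) ≤ κ := by
      have hgap : 0 < Real.sqrt c - Real.sqrt c' := by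
        have := Real.sqrt_lt_sqrt hc.le hcc'
        linarith
      obtain ⟨P₂, hP₂⟩ : ∃ P₂ : ℕ, ∀ n : ℕ, P₂ ≤ n →
          Real.sqrt c' * Real.log ((C : ℝ) + 1) ≤ (Real.sqrt c - Real.sqrt c') * Real.log (n : ℝ) := by
        have h1 : Tendsto (fun n : ℕ => (Real.sqrt c - Real.sqrt c') * Real.log (n : ℝ)) atTop
            atTop :=
          (Real.tendsto_log_atTop.comp tendsto_natCast_atTop_atTop).const_mul_atTop hgap
        exact eventually_atTop.1 (h1.eventually_ge_atTop _)
      refine ⟨C * (P₁ + P₂) + 1, fun m hm p hp l hl => ?_⟩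
      have hpP : P₁ + P₂ < (p : ℕ) := by
        by_contra hlt
        push Not at hlt
        have : C * (p : ℕ) ≤ C * (P₁ + P₂) := Nat.mul_le_mul_left _ hlt
        omega
      refine le_trans ?_ (hP₁ p (by omega) ((m : ℤ) - ((p : ℕ) : ℤ)))
      apply measureReal_mono _ (measure_ne_top _ _)
      intro ω hω
      simp only [Set.mem_preimage, hitSet, Set.mem_ofPred_eq] at hω ⊢
      refine ⟨by linarith [hω.1], ?_⟩
      have h9 : (X p ω : ℤ) ≤ (m : ℤ) - ((p : ℕ) : ℤ) + (l : ℤ) := by linarith [hω.2]
      have h10 : (X p ω : ℝ) ≤ (m : ℝ) - ((p : ℕ) : ℝ) + (l : ℝ) := by exact_mod_cast h9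
      have h11 : (l : ℝ) ≤ c * Real.log ((p : ℕ) : ℝ) ^ 2 := by
        have h12 : (l : ℝ) ≤ len c' m := by exact_mod_cast hl
        refine h12.trans ((len_le hc.le _).trans ?_)
        have hpR : (m : ℝ) ≤ C * (p : ℕ) := by exact_mod_cast hp
        have hm0 : (0 : ℝ) < m := by
          have : 0 < m := by omega
          exact_mod_cast this
        have hpp : (1 : ℝ) ≤ ((p : ℕ) : ℝ) := by exact_mod_cast p.2.one_le
        have hlogp : 0 ≤ Real.log ((p : ℕ) : ℝ) := Real.log_nonneg hpp
        have hlogm : 0 ≤ Real.log (m : ℝ) := by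
          apply Real.log_nonneg
          have : 1 ≤ m := by omega
          exact_mod_cast this
        have h14 : Real.log (m : ℝ) ≤ Real.log ((C : ℝ) + 1) + Real.log ((p : ℕ) : ℝ) := by
          rw [← Real.log_mul (by positivity) (by linarith)]
          apply Real.log_le_log hm0
          nlinarith
        have h15 := hP₂ (p : ℕ) (by omega)
        have hs' : 0 ≤ Real.sqrt c' := Real.sqrt_nonneg _
        have h16 : Real.sqrt c' * Real.log (m : ℝ) ≤ Real.sqrt c * Real.log ((p : ℕ) : ℝ) := by
          have := mul_le_mul_of_nonneg_left h14 hs'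
          nlinarith
        have h17 := pow_le_pow_left₀ (by positivity) h16 2
        rw [mul_pow, mul_pow, Real.sq_sqrt hc.le, Real.sq_sqrt hc0.le] at h17
        exact h17
      push_cast
      linarith
    obtain ⟨M₁, hM₁⟩ := hC1
    -- the events
    set S : ℕ → Finset Nat.Primes := fun m => rowP 0 (2 * (m + len c' m)) with hS
    set A : ℕ → Set Ω := fun m => freeEv X (S m) (hitSet m (len c' m)) with hA
    set W : ℕ → ℝ := fun m => 1 / Real.log ((m : ℝ) + 3) ^ 2 with hW
    have hlog3 : ∀ m : ℕ, 1 ≤ Real.log ((m : ℝ) + 3) := by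
      intro m
      rw [Real.le_log_iff_exp_le (by positivity)]
      have h1 := Real.exp_one_lt_d9
      have h2 : (0 : ℝ) ≤ m := Nat.cast_nonneg m
      linarith
    have hfreq : ∀ᵐ ω ∂μ, ∃ᶠ m in atTop, ω ∈ A m := by
      apply frequently_of_second_moment (W := W) (ℓ := fun m => len c' m + 1) (C := c' + 1)
      · intro m
        exact measurableSet_freeEv hX _ _
      · intro m
        have := hlog3 m
        rw [hW]
        positivity
      · intro m n hmn hmn2
        apply freeEv_inter_le hX hind
        · apply rowP_mono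
          omega
        · intro p _
          rw [Set.disjoint_left]
          intro t ht ht'
          simp only [hitSet, Set.mem_ofPred_eq] at ht ht'
          have h3 : ((m : ℤ) + (len c' m : ℤ)) + 1 ≤ n := by exact_mod_cast hmn2
          linarith [ht.2, ht'.1]
      · intro m n hmn _
        simp only [hW]
        have h1 := hlog3 m
        have h2 : Real.log ((m : ℝ) + 3) ≤ Real.log ((n : ℝ) + 3) := by
          apply Real.log_le_log (by positivity)
          have : (m : ℝ) ≤ n := by exact_mod_cast hmn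
          linarith
        apply one_div_le_one_div_of_le (by positivity)
        gcongr
      · intro m
        simp only [hW]
        have h1 := hlog3 m
        rw [mul_one_div, div_le_iff₀ (by positivity)]
        push_cast
        have h2 := len_le hc.le m
        have h3 : Real.log (m : ℝ) ^ 2 ≤ Real.log ((m : ℝ) + 3) ^ 2 := by
          rcases Nat.eq_zero_or_pos m with h0 | h0
          · subst h0
            have h4 := sq_nonneg (Real.log (((0 : ℕ) : ℝ) + 3))
            simpa using h4
          · have h4 : (1 : ℝ) ≤ m := by exact_mod_cast h0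
            have h5 : 0 ≤ Real.log (m : ℝ) := Real.log_nonneg h4
            have h6 : Real.log (m : ℝ) ≤ Real.log ((m : ℝ) + 3) :=
              Real.log_le_log (by linarith) (by linarith)
            gcongr
        have h4 : (1 : ℝ) ≤ Real.log ((m : ℝ) + 3) ^ 2 := by nlinarith
        nlinarith
      · -- divergence
        have hmono : Monotone fun N => ∑ m ∈ Finset.range N, W m * μ.real (A m) := by
          intro a b hab
          apply Finset.sum_le_sum_of_subset_of_nonneg (Finset.range_mono hab)
          intro m _ _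
          have := hlog3 m
          rw [hW]
          positivity
        apply tendsto_atTop_atTop_of_monotone hmono
        intro b
        -- choice of ε
        obtain ⟨ε, hε0, hε1, hε⟩ : ∃ ε : ℝ, 0 < ε ∧ ε < 1 ∧
            lam * (c' * (D + ε)) / (1 - ε) < 1 - ε := by
          have hcont : ContinuousAt (fun ε : ℝ => lam * (c' * (D + ε)) / (1 - ε) + ε) 0 := by
            apply ContinuousAt.add _ continuousAt_id
            apply ContinuousAt.div
            · fun_prop
            · fun_prop
            · norm_num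
          have h1 : ∀ᶠ ε in 𝓝 (0 : ℝ), lam * (c' * (D + ε)) / (1 - ε) + ε < 1 := by
            apply hcont.eventually_lt_const
            refine lt_of_le_of_lt (le_of_eq ?_) hκ
            simp only [add_zero, sub_zero, div_one]
            ring
          have h2 := h1.filter_mono (nhdsWithin_le_nhds (s := Set.Ioi 0))
          have h3 : ∀ᶠ ε in 𝓝[>] (0 : ℝ), ε < 1 :=
            (eventually_lt_nhds (by norm_num)).filter_mono nhdsWithin_le_nhds
          obtain ⟨ε, h4, h5, h6⟩ := (h2.and (h3.and self_mem_nhdsWithin)).exists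
          exact ⟨ε, h6, h5, by linarith⟩
        set θ : ℝ := lam * (c' * (D + ε)) / (1 - ε) with hθ
        have h1e : 0 < 1 - ε := by linarith
        have hθ0 : 0 < θ := by rw [hθ]; positivity
        -- growth
        have hg1 : ∀ᶠ x : ℝ in atTop, (c' * Real.log x ^ 2 + (M₁ + 2)) ≤ ε * x := by
          have h1 : Tendsto (fun x : ℝ => Real.log x ^ 2 / x) atTop (𝓝 0) :=
            Real.isLittleO_pow_log_id_atTop.tendsto_div_nhds_zero
          have h2 : Tendsto (fun x : ℝ => x⁻¹) atTop (𝓝 0) := tendsto_inv_atTop_zero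
          have h3 := (h1.const_mul c').add (h2.const_mul ((M₁ : ℝ) + 2))
          simp only [mul_zero, add_zero] at h3
          filter_upwards [h3.eventually_lt_const hε0, eventually_gt_atTop 0] with x hx hx0
          have h4 : (c' * (Real.log x ^ 2 / x) + (M₁ + 2) * x⁻¹) * x =
              c' * Real.log x ^ 2 + (M₁ + 2) := by
            field_simp
          rw [← h4]
          exact mul_le_mul_of_nonneg_right hx.le hx0.le
        have hg2 : ∀ᶠ x : ℝ in atTop,
            b ≤ (1 - ε) * x / Real.log (x + 3) ^ 2 * Real.exp (-(θ * Real.log x)) := by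
          have h1 : Tendsto (fun x : ℝ => (1 - ε) * x ^ (1 - θ) / Real.log (x + 3) ^ 2)
              atTop atTop := by
            have h2 : Tendsto (fun x : ℝ => Real.log (x + 3) ^ 2 / x ^ (1 - θ)) atTop
                (𝓝[>] 0) := by
              rw [tendsto_nhdsWithin_iff]
              constructor
              · have h3 : Tendsto (fun x : ℝ => Real.log (x + 3) ^ 2 / (x + 3) ^ (1 - θ)) atTop
                    (𝓝 0) := by
                  have h4 := (isLittleO_log_rpow_rpow_atTop (2 : ℝ)
                    (show 0 < 1 - θ by linarith)).tendsto_div_nhds_zero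
                  have h5 := h4.comp (tendsto_atTop_add_const_right atTop (3 : ℝ) tendsto_id)
                  refine h5.congr fun x => ?_
                  simp
                have h6 : Tendsto (fun x : ℝ => 4 ^ (1 - θ) *
                    (Real.log (x + 3) ^ 2 / (x + 3) ^ (1 - θ))) atTop (𝓝 0) := by
                  simpa using h3.const_mul (4 ^ (1 - θ) : ℝ)
                refine squeeze_zero' ?_ ?_ h6
                · filter_upwards [eventually_gt_atTop 0] with x hx
                  positivity
                · filter_upwards [eventually_ge_atTop 1] with x hx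
                  have h7 : (x + 3) ^ (1 - θ) ≤ (4 * x) ^ (1 - θ) :=
                    Real.rpow_le_rpow (by linarith) (by linarith) (by linarith)
                  rw [Real.mul_rpow (by norm_num) (by linarith)] at h7
                  have h8 : 0 < x ^ (1 - θ) := Real.rpow_pos_of_pos (by linarith) _
                  have h9 : 0 < (x + 3) ^ (1 - θ) := Real.rpow_pos_of_pos (by linarith) _
                  rw [div_le_iff₀ h8, mul_div_assoc', div_mul_eq_mul_div, le_div_iff₀ h9]
                  have h10 : 0 ≤ Real.log (x + 3) ^ 2 := by positivity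
                  nlinarith
              · filter_upwards [eventually_gt_atTop 0] with x hx
                have h3 : 0 < Real.log (x + 3) := Real.log_pos (by linarith)
                have h4 : 0 < x ^ (1 - θ) := Real.rpow_pos_of_pos hx _
                exact Set.mem_Ioi.2 (by positivity)
            have h3 := h2.inv_tendsto_nhdsGT_zero
            have h4 := h3.const_mul_atTop h1e
            refine h4.congr' ?_
            filter_upwards with x
            simp only [Pi.inv_apply, inv_div]
            ring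
          filter_upwards [h1.eventually_ge_atTop b, eventually_gt_atTop 1] with x hx hx1
          refine hx.trans (le_of_eq ?_)
          have hx0 : 0 < x := by linarith
          rw [Real.rpow_sub hx0, Real.rpow_one, Real.rpow_def_of_pos hx0 θ, Real.exp_neg,
            mul_comm (Real.log x) θ]
          field_simp
        have hg := tendsto_natCast_atTop_atTop (R := ℝ) |>.eventually (hg1.and hg2)
        obtain ⟨x, hxd, ⟨hx1, hx2⟩, hx3⟩ := ((hdens ε hε0).and_eventually
          (hg.and (eventually_ge_atTop 3))).exists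
        have hx3R : (3 : ℝ) ≤ x := by exact_mod_cast hx3
        have hlogx : 0 < Real.log (x : ℝ) := Real.log_pos (by linarith)
        set l := len c' x with hl
        have hlR : (l : ℝ) ≤ c' * Real.log x ^ 2 := len_le hc.le x
        have hεx : ε * x < x := by nlinarith
        have hlx : l + M₁ + 2 ≤ x := by
          have : (l : ℝ) + M₁ + 2 ≤ x := by linarith
          exact_mod_cast this
        set I : Finset ℕ := Finset.Ico M₁ (x - l) with hI
        have hIcard : (I.card : ℝ) = x - l - M₁ := by
          rw [hI, Nat.card_Ico, Nat.cast_sub (by omega), Nat.cast_sub (by omega)]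
        have hK : (1 - ε) * x ≤ I.card := by
          rw [hIcard]; linarith
        have hKpos : (0 : ℝ) < I.card := lt_of_lt_of_le (by positivity) hK
        refine ⟨x - l, ?_⟩
        set s : ℕ → ℝ := fun m => ∑ p ∈ S m, μ.real (X p ⁻¹' hitSet m (len c' m) p) with hs
        have hprob : ∀ m ∈ I, Real.exp (-(lam * s m)) ≤ μ.real (A m) := by
          intro m hm
          rw [hI, Finset.mem_Ico] at hm
          -- only the primes that can reach the window matter
          apply prob_freeEv_ge hX hind (S m) (hitSet m (len c' m)) hκ0 hκ1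
          intro p _
          by_cases hpm : m ≤ C * (p : ℕ)
          · exact hM₁ m hm.1 p hpm _ le_rfl
          · have h0 : μ.real (X p ⁻¹' hitSet m (len c' m) p) = 0 := by
              rw [measureReal_eq_zero_iff, measure_eq_zero_iff_ae_notMem]
              filter_upwards [hC p] with ω hω hω2
              simp only [Set.mem_preimage, hitSet, Set.mem_ofPred_eq] at hω2
              push Not at hpm
              have : ((C : ℤ) * ((p : ℕ) : ℤ)) < m := by exact_mod_cast hpm
              linarith [hω2.1]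
            rw [h0]
            exact hκ0.le
        have hsumS : ∑ m ∈ I, s m ≤ l * ((D + ε) * x / Real.log x) := by
          calc ∑ m ∈ I, s m
              ≤ ∑ m ∈ I, ∑ p ∈ rowP 0 (2 * x), μ.real (X p ⁻¹' hitSet m l p) := by
                apply Finset.sum_le_sum
                intro m hm
                rw [hI, Finset.mem_Ico] at hm
                have hlm : len c' m ≤ l := len_mono_right hc.le (by omega)
                refine (Finset.sum_le_sum_of_subset_of_nonneg (rowP_mono (N' := 2 * x) (by omega))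
                  (fun _ _ _ => measureReal_nonneg)).trans ?_
                apply Finset.sum_le_sum
                intro p _
                apply measureReal_mono _ (measure_ne_top _ _)
                exact Set.preimage_mono (hitSet_mono hlm p)
            _ = ∑ p ∈ rowP 0 (2 * x), ∑ m ∈ I, μ.real (X p ⁻¹' hitSet m l p) := Finset.sum_comm
            _ ≤ ∑ p ∈ rowP 0 (2 * x), l * μ.real {ω | 0 < ((p : ℕ) : ℤ) + X p ω ∧
                  ((p : ℕ) : ℤ) + X p ω ≤ (x : ℤ)} := by
                apply Finset.sum_le_sum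
                intro p _
                apply sum_hit_le hX
                intro m hm
                rw [hI, Finset.mem_Ico] at hm
                omega
            _ = l * ∑ p ∈ rowP 0 (2 * x), μ.real {ω | 0 < ((p : ℕ) : ℤ) + X p ω ∧
                  ((p : ℕ) : ℤ) + X p ω ≤ (x : ℤ)} := by rw [Finset.mul_sum]
            _ ≤ l * ((D + ε) * x / Real.log x) := by gcongr
        have hJ := jensen_weighted (s := I) (w := fun _ => 1) (f := fun m => lam * s m)
          (fun m _ => zero_le_one) (by simpa using hKpos)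
        simp only [Finset.sum_const, nsmul_eq_mul, mul_one, one_mul] at hJ
        have hexp : Real.exp (-(θ * Real.log x)) ≤
            Real.exp (-((∑ m ∈ I, lam * s m) / I.card)) := by
          apply Real.exp_le_exp.2
          rw [neg_le_neg_iff, div_le_iff₀ hKpos, ← Finset.mul_sum]
          calc lam * ∑ m ∈ I, s m ≤ lam * (l * ((D + ε) * x / Real.log x)) := by gcongr
            _ ≤ lam * (c' * Real.log x ^ 2 * ((D + ε) * x / Real.log x)) := by gcongr
            _ = (θ * Real.log x) * ((1 - ε) * x) := by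
                rw [hθ]
                field_simp
            _ ≤ θ * Real.log x * I.card := by gcongr
        have hx3' : 0 < Real.log ((x : ℝ) + 3) := by linarith [hlog3 x]
        calc b ≤ (1 - ε) * x / Real.log ((x : ℝ) + 3) ^ 2 * Real.exp (-(θ * Real.log x)) := hx2
          _ ≤ I.card / Real.log ((x : ℝ) + 3) ^ 2 *
              Real.exp (-((∑ m ∈ I, lam * s m) / I.card)) := by gcongr
          _ = 1 / Real.log ((x : ℝ) + 3) ^ 2 *
              (I.card * Real.exp (-((∑ m ∈ I, lam * s m) / I.card))) := by ring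
          _ ≤ 1 / Real.log ((x : ℝ) + 3) ^ 2 * ∑ m ∈ I, Real.exp (-(lam * s m)) := by gcongr
          _ = ∑ m ∈ I, 1 / Real.log ((x : ℝ) + 3) ^ 2 * Real.exp (-(lam * s m)) := by
              rw [Finset.mul_sum]
          _ ≤ ∑ m ∈ I, W m * μ.real (A m) := by
              apply Finset.sum_le_sum
              intro m hm
              have h1 := hprob m hm
              rw [hI, Finset.mem_Ico] at hm
              have h2 : 1 / Real.log ((x : ℝ) + 3) ^ 2 ≤ W m := by
                simp only [hW]
                have h3 := hlog3 m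
                apply one_div_le_one_div_of_le (by positivity)
                have h4 : Real.log ((m : ℝ) + 3) ≤ Real.log ((x : ℝ) + 3) := by
                  apply Real.log_le_log (by positivity)
                  have : (m : ℝ) ≤ x := by exact_mod_cast (by omega : m ≤ x)
                  linarith
                gcongr
              exact mul_le_mul h2 h1 (Real.exp_pos _).le (le_trans (by positivity) h2)
          _ ≤ ∑ m ∈ Finset.range (x - l), W m * μ.real (A m) := by
              apply Finset.sum_le_sum_of_subset_of_nonneg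
              · intro m hm
                rw [hI, Finset.mem_Ico] at hm
                exact Finset.mem_range.2 hm.2
              · intro m _ _
                have := hlog3 m
                rw [hW]
                positivity
    have hreach' : ∀ᵐ ω ∂μ, ∀ p : Nat.Primes, P₀ ≤ (p : ℕ) →
        ((p : ℕ) : ℤ) ≤ 2 * (((p : ℕ) : ℤ) + X p ω) := by
      rw [ae_all_iff]
      intro p
      by_cases hp : P₀ ≤ (p : ℕ)
      · filter_upwards [hP₀ p hp] with ω hω _ using hω
      · filter_upwards with ω h
        exact absurd h hp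
    filter_upwards [hfreq, hreach'] with ω h1 h2
    have hinf : (displaced X ω).Infinite := by
      rw [Set.infinite_iff_exists_gt]
      intro N
      obtain ⟨p, hp1, hp2⟩ := Nat.exists_infinite_primes (max P₀ (2 * N + 2))
      have h3 := h2 ⟨p, hp2⟩ ((le_max_left _ _).trans hp1)
      have h4 : 2 * N + 2 ≤ p := (le_max_right _ _).trans hp1
      simp only at h3
      have h5 : (N : ℤ) < (p : ℤ) + X ⟨p, hp2⟩ ω := by
        have : (2 * N + 2 : ℤ) ≤ p := by exact_mod_cast h4
        linarith
      refine ⟨((p : ℤ) + X ⟨p, hp2⟩ ω).toNat, ⟨⟨p, hp2⟩, ?_⟩, ?_⟩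
      · simp only
        rw [Int.toNat_of_nonneg (by omega)]
      · omega
    refine ⟨hinf, le_cramer hinf hc.le ?_⟩
    refine (h1.and_eventually (eventually_ge_atTop P₀)).mono ?_
    rintro m ⟨hm, hmP⟩ j hj1 hj2 ⟨p, hp⟩
    have hpS : p ∈ S m := by
      simp only [hS]
      rw [mem_rowP]
      refine ⟨p.2.pos, ?_⟩
      by_cases hpP : P₀ ≤ (p : ℕ)
      · have h3 := h2 p hpP
        rw [hp] at h3
        have : (p : ℕ) ≤ 2 * j := by exact_mod_cast h3
        omega
      · omega
    apply hm p hpS
    simp only [hitSet, Set.mem_ofPred_eq]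
    rw [hp]
    exact ⟨by exact_mod_cast hj1, by exact_mod_cast hj2⟩
  have hseq : ∀ᵐ ω ∂μ, ∀ n : ℕ, (displaced X ω).Infinite ∧
      ENNReal.ofReal (c * (1 - 1 / ((n : ℝ) + 2))) ≤ cramer (displaced X ω) := by
    rw [ae_all_iff]
    intro n
    have h1 : (0 : ℝ) < n + 2 := by positivity
    have h2 : 1 / ((n : ℝ) + 2) < 1 := by
      rw [div_lt_one h1]
      have : (0 : ℝ) ≤ n := Nat.cast_nonneg n
      linarith
    have h3 : 0 < 1 / ((n : ℝ) + 2) := by positivity
    apply key
    · apply mul_pos hc0; linarith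
    · nlinarith
  filter_upwards [hseq] with ω hω
  refine ⟨(hω 0).1, ?_⟩
  have hlim : Tendsto (fun n : ℕ => ENNReal.ofReal (c * (1 - 1 / ((n : ℝ) + 2)))) atTop
      (𝓝 (ENNReal.ofReal c)) := by
    apply ENNReal.tendsto_ofReal
    have h1 : Tendsto (fun n : ℕ => 1 / ((n : ℝ) + 2)) atTop (𝓝 0) := by
      simp_rw [one_div]
      exact tendsto_inv_atTop_zero.comp (tendsto_atTop_add_const_right _ _
        tendsto_natCast_atTop_atTop)
    have h2 := (h1.const_sub 1).const_mul c
    simpa using h2
  exact le_of_tendsto' hlim fun n => (hω n).2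

/-- **Universal lower bound.** If the expected number of displaced primes up to `x` is at most
`(D + o(1)) x / log x` on a sequence, and the displacements are not concentrated at the scale
`log² p`, then the Cramer constant is at least `1 / D`. -/
theorem displaced_ge_of_density (hX : ∀ p, Measurable (X p)) (hind : iIndepFun X μ)
    {D : ℝ} (hD : 0 < D)
    (hreach : ∃ P₀ : ℕ, ∀ p : Nat.Primes, P₀ ≤ (p : ℕ) →
      ∀ᵐ ω ∂μ, ((p : ℕ) : ℤ) ≤ 2 * (((p : ℕ) : ℤ) + X p ω))
    (hup : ∃ C : ℕ, ∀ p : Nat.Primes, ∀ᵐ ω ∂μ, ((p : ℕ) : ℤ) + X p ω ≤ (C : ℤ) * ((p : ℕ) : ℤ))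
    (hconc : ∀ κ : ℝ, 0 < κ → ∃ P₁ : ℕ, ∀ p : Nat.Primes, P₁ ≤ (p : ℕ) → ∀ t : ℤ,
      μ.real {ω | t < X p ω ∧ (X p ω : ℝ) ≤ t + Real.log (p : ℕ) ^ 2} ≤ κ)
    (hdens : ∀ ε : ℝ, 0 < ε → ∃ᶠ x : ℕ in atTop, ∑ p ∈ rowP 0 (2 * x),
      μ.real {ω | 0 < ((p : ℕ) : ℤ) + X p ω ∧ ((p : ℕ) : ℤ) + X p ω ≤ (x : ℤ)} ≤
        (D + ε) * x / Real.log x) :
    ∀ᵐ ω ∂μ, (displaced X ω).Infinite ∧ ENNReal.ofReal (1 / D) ≤ cramer (displaced X ω) := by
  have key : ∀ c : ℝ, 0 < c → c * D < 1 →
      ∀ᵐ ω ∂μ, (displaced X ω).Infinite ∧ ENNReal.ofReal c ≤ cramer (displaced X ω) := by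
    intro c hc hcD
    obtain ⟨κ, hκ0, hκ1, hκ⟩ := exists_kappa (a := c * D) (by positivity) hcD
    exact displaced_ge_kappa hX hind hD hc hκ0 hκ1 hreach hup (conc_scale hX hconc c κ hκ0) hdens hκ
  have hseq : ∀ᵐ ω ∂μ, ∀ n : ℕ, (displaced X ω).Infinite ∧
      ENNReal.ofReal (1 / D * (1 - 1 / ((n : ℝ) + 2))) ≤ cramer (displaced X ω) := by
    rw [ae_all_iff]
    intro n
    have h1 : (0 : ℝ) < n + 2 := by positivity
    have h2 : 1 / ((n : ℝ) + 2) < 1 := by
      rw [div_lt_one h1]
      have : (0 : ℝ) ≤ n := Nat.cast_nonneg n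
      linarith
    have h3 : 0 < 1 / ((n : ℝ) + 2) := by positivity
    apply key
    · apply mul_pos (by positivity); linarith
    · have : 1 / D * (1 - 1 / ((n : ℝ) + 2)) * D = 1 - 1 / ((n : ℝ) + 2) := by
        field_simp
      rw [this]
      linarith
  filter_upwards [hseq] with ω hω
  refine ⟨(hω 0).1, ?_⟩
  have hlim : Tendsto (fun n : ℕ => ENNReal.ofReal (1 / D * (1 - 1 / ((n : ℝ) + 2)))) atTop
      (𝓝 (ENNReal.ofReal (1 / D))) := by
    apply ENNReal.tendsto_ofReal
    have h1 : Tendsto (fun n : ℕ => 1 / ((n : ℝ) + 2)) atTop (𝓝 0) := by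
      simp_rw [one_div]
      exact tendsto_inv_atTop_zero.comp (tendsto_atTop_add_const_right _ _
        tendsto_natCast_atTop_atTop)
    have h2 := (h1.const_sub 1).const_mul (1 / D)
    simpa using h2
  exact le_of_tendsto' hlim fun n => (hω n).2

end

end Pool.Agent.LibMaier
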