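import Pool.Agent.LibMaier.Universal

/-!
The number of displaced primes up to `x`, displacements `o(p)`.
-/

namespace Pool.Agent.LibMaier

open Filter Topology MeasureTheory ProbabilityTheory
open Pool.Agent.LibCramer
open scoped ENNReal

lemma card_rowP_zero (N : ℕ) : (rowP 0 N).card = Nat.primeCounting N := by
  refine (Finset.card_subtype Nat.Prime (Finset.Ioc 0 (0 + N))).trans ?_
  unfold Nat.primeCounting Nat.primeCounting'
  rw [Nat.count_eq_card_filter_range]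
  congr 1
  ext p
  simp only [Finset.mem_filter, Finset.mem_Ioc, Finset.mem_range]
  constructor
  · rintro ⟨⟨h1, h2⟩, h3⟩
    exact ⟨by omega, h3⟩
  · rintro ⟨h1, h2⟩
    exact ⟨⟨h2.pos, by omega⟩, h2⟩

/-- upper bound in the prime number theorem -/
lemma primeCounting_le_mul {a ε : ℝ} (ha : 0 < a) (hε : 0 < ε) :
    ∀ᶠ x : ℝ in atTop, (Nat.primeCounting ⌊a * x⌋₊ : ℝ) ≤ (a + ε) * x / Real.log x := by
  have h1 : Tendsto (fun x : ℝ => a * x) atTop atTop := tendsto_id.const_mul_atTop ha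
  have h2 := LibPNT.primeCounting_tendsto.comp h1
  have hr : 1 < (a + ε / 2) / a := by
    rw [lt_div_iff₀ ha]; linarith
  have h3 := h2.eventually_lt_const hr
  -- log x / log (a x) → 1
  have h4 : Tendsto (fun x : ℝ => Real.log x / Real.log (a * x)) atTop (𝓝 1) := by
    have h5 : Tendsto (fun x : ℝ => Real.log a / Real.log x) atTop (𝓝 0) :=
      Tendsto.div_atTop tendsto_const_nhds Real.tendsto_log_atTop
    have h6 : Tendsto (fun x : ℝ => 1 / (Real.log a / Real.log x + 1)) atTop (𝓝 (1 / (0 + 1))) :=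
      tendsto_const_nhds.div (h5.add_const 1) (by norm_num)
    simp only [zero_add, div_one] at h6
    refine h6.congr' ?_
    filter_upwards [eventually_gt_atTop 1] with x hx
    have hl : 0 < Real.log x := Real.log_pos hx
    rw [Real.log_mul ha.ne' (by linarith)]
    have e : Real.log a / Real.log x + 1 = (Real.log a + Real.log x) / Real.log x := by
      field_simp
    rw [e, one_div_div]
  have hr2 : 1 < (a + ε) / (a + ε / 2) := by
    rw [lt_div_iff₀ (by linarith)]; linarith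
  have h5 := h4.eventually_lt_const hr2
  filter_upwards [h3, h5, eventually_gt_atTop 1, h1.eventually_gt_atTop 1] with x hx1 hx2 hx3 hx4
  have hl : 0 < Real.log x := Real.log_pos hx3
  have hl2 : 0 < Real.log (a * x) := Real.log_pos hx4
  have hx0 : 0 < x := by linarith
  simp only [Function.comp_apply] at hx1
  rw [div_lt_iff₀ (by linarith)] at hx1
  rw [le_div_iff₀ hl]
  rw [div_lt_iff₀ hl2] at hx2
  have h6 : (Nat.primeCounting ⌊a * x⌋₊ : ℝ) * Real.log (a * x) < (a + ε / 2) * x := by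
    refine hx1.trans_le (le_of_eq ?_)
    field_simp
  have h7 : (0 : ℝ) ≤ (Nat.primeCounting ⌊a * x⌋₊ : ℝ) := Nat.cast_nonneg _
  calc (Nat.primeCounting ⌊a * x⌋₊ : ℝ) * Real.log x
      ≤ (Nat.primeCounting ⌊a * x⌋₊ : ℝ) * ((a + ε) / (a + ε / 2) * Real.log (a * x)) := by
        gcongr
    _ = (a + ε) / (a + ε / 2) * ((Nat.primeCounting ⌊a * x⌋₊ : ℝ) * Real.log (a * x)) := by ring
    _ ≤ (a + ε) / (a + ε / 2) * ((a + ε / 2) * x) := by
        apply mul_le_mul_of_nonneg_left h6.le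
        positivity
    _ = (a + ε) * x := by field_simp

section

variable {Ω : Type*} [MeasurableSpace Ω] {μ : Measure Ω} [IsProbabilityMeasure μ]
  {X : Nat.Primes → Ω → ℤ}

lemma reach_of_small {b : Nat.Primes → ℝ}
    (hb : Tendsto (fun p : Nat.Primes => b p / ((p : ℕ) : ℝ)) cofinite (𝓝 0)) {δ : ℝ} (hδ : 0 < δ) :
    ∃ P₀ : ℕ, ∀ p : Nat.Primes, P₀ ≤ (p : ℕ) → b p ≤ δ * ((p : ℕ) : ℝ) := by
  have h1 : ∀ᶠ p : Nat.Primes in cofinite, b p / ((p : ℕ) : ℝ) < δ := hb.eventually_lt_const hδ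
  rw [eventually_cofinite] at h1
  have h2 := h1.image (fun p : Nat.Primes => (p : ℕ))
  obtain ⟨N, hN⟩ := h2.bddAbove
  refine ⟨N + 1, fun p hp => ?_⟩
  by_contra hlt
  push Not at hlt
  have hpp : (0 : ℝ) < ((p : ℕ) : ℝ) := by exact_mod_cast p.2.pos
  have : (p : ℕ) ≤ N := by
    apply hN
    refine ⟨p, ?_, rfl⟩
    simp only [Set.mem_ofPred_eq, not_lt]
    rw [le_div_iff₀ hpp]
    exact hlt.le
  omega

lemma hreach_of_small {b : Nat.Primes → ℝ}
    (hb : Tendsto (fun p : Nat.Primes => b p / ((p : ℕ) : ℝ)) cofinite (𝓝 0))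
    (hbd : ∀ p : Nat.Primes, ∀ᵐ ω ∂μ, |(X p ω : ℝ)| ≤ b p) :
    ∃ P₀ : ℕ, ∀ p : Nat.Primes, P₀ ≤ (p : ℕ) →
      ∀ᵐ ω ∂μ, ((p : ℕ) : ℤ) ≤ 2 * (((p : ℕ) : ℤ) + X p ω) := by
  obtain ⟨P₀, hP₀⟩ := reach_of_small hb (show (0 : ℝ) < 1 / 2 by norm_num)
  refine ⟨P₀, fun p hp => ?_⟩
  filter_upwards [hbd p] with ω hω
  have h1 := hP₀ p hp
  have h2 := neg_le_of_abs_le hω
  have : (((p : ℕ) : ℤ) : ℝ) ≤ 2 * ((((p : ℕ) : ℤ) : ℝ) + (X p ω : ℝ)) := by
    push_cast
    linarith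
  exact_mod_cast this

lemma hup_of_small {b : Nat.Primes → ℝ}
    (hb : Tendsto (fun p : Nat.Primes => b p / ((p : ℕ) : ℝ)) cofinite (𝓝 0))
    (hbd : ∀ p : Nat.Primes, ∀ᵐ ω ∂μ, |(X p ω : ℝ)| ≤ b p) :
    ∃ C : ℕ, ∀ p : Nat.Primes, ∀ᵐ ω ∂μ, ((p : ℕ) : ℤ) + X p ω ≤ (C : ℤ) * ((p : ℕ) : ℤ) := by
  obtain ⟨K, hK⟩ := hb.bddAbove_range_of_cofinite
  obtain ⟨C, hC⟩ := exists_nat_ge (1 + K)
  refine ⟨C, fun p => ?_⟩
  filter_upwards [hbd p] with ω hω
  have h1 : b p / ((p : ℕ) : ℝ) ≤ K := hK ⟨p, rfl⟩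
  have hpp : (0 : ℝ) < ((p : ℕ) : ℝ) := by exact_mod_cast p.2.pos
  rw [div_le_iff₀ hpp] at h1
  have h2 := le_of_abs_le hω
  have : (((p : ℕ) : ℤ) : ℝ) + (X p ω : ℝ) ≤ (C : ℝ) * (((p : ℕ) : ℤ) : ℝ) := by
    push_cast
    nlinarith
  exact_mod_cast this

lemma hdens_of_small {b : Nat.Primes → ℝ}
    (hb : Tendsto (fun p : Nat.Primes => b p / ((p : ℕ) : ℝ)) cofinite (𝓝 0))
    (hbd : ∀ p : Nat.Primes, ∀ᵐ ω ∂μ, |(X p ω : ℝ)| ≤ b p) (ε : ℝ) (hε : 0 < ε) :
    ∀ᶠ x : ℕ in atTop, ∑ p ∈ rowP 0 (2 * x),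
      μ.real {ω | 0 < ((p : ℕ) : ℤ) + X p ω ∧ ((p : ℕ) : ℤ) + X p ω ≤ (x : ℤ)} ≤
        (1 + ε) * x / Real.log x := by
  set δ : ℝ := min (ε / 2) 1 with hδ
  have hδ0 : 0 < δ := by rw [hδ]; positivity
  have hδ1 : δ ≤ 1 := min_le_right _ _
  have hδε : δ ≤ ε / 2 := min_le_left _ _
  obtain ⟨P₀, hP₀⟩ := reach_of_small hb (show 0 < δ / 2 by positivity)
  have h1 := tendsto_natCast_atTop_atTop (R := ℝ) |>.eventually
    (primeCounting_le_mul (a := 1 + δ) (ε := ε / 2) (by linarith) (by linarith))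
  filter_upwards [h1, eventually_ge_atTop P₀, eventually_ge_atTop 2] with x hx hxP hx2
  have hx2R : (2 : ℝ) ≤ x := by exact_mod_cast hx2
  have hlog : 0 < Real.log (x : ℝ) := Real.log_pos (by linarith)
  calc ∑ p ∈ rowP 0 (2 * x),
        μ.real {ω | 0 < ((p : ℕ) : ℤ) + X p ω ∧ ((p : ℕ) : ℤ) + X p ω ≤ (x : ℤ)}
      ≤ ∑ p ∈ rowP 0 (2 * x), (if (p : ℕ) ≤ ⌊(1 + δ) * x⌋₊ then (1 : ℝ) else 0) := by
        apply Finset.sum_le_sum
        intro p _
        split_ifs with hp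
        · exact measureReal_le_one
        · apply le_of_eq
          rw [measureReal_eq_zero_iff, measure_eq_zero_iff_ae_notMem]
          filter_upwards [hbd p] with ω hω hω2
          obtain ⟨-, hω2⟩ := hω2
          push Not at hp
          have h2 : (1 + δ) * x < ((p : ℕ) : ℝ) := by
            exact (Nat.floor_lt (by positivity)).1 hp
          have h3 : P₀ ≤ (p : ℕ) := by
            have : (x : ℝ) < ((p : ℕ) : ℝ) := by nlinarith
            have : x < (p : ℕ) := by exact_mod_cast this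
            omega
          have h4 := hP₀ p h3
          have h5 := neg_le_of_abs_le hω
          have h6 : (((p : ℕ) : ℤ) : ℝ) + (X p ω : ℝ) ≤ ((x : ℤ) : ℝ) := by exact_mod_cast hω2
          push_cast at h6
          have hx0 : (0 : ℝ) ≤ x := by linarith
          have h7 : (1 - δ / 2) * ((p : ℕ) : ℝ) ≤ x := by linarith
          have h8 : (1 + δ) * ((1 - δ / 2) * ((p : ℕ) : ℝ)) ≤ (1 + δ) * x :=
            mul_le_mul_of_nonneg_left h7 (by linarith)
          have hp0 : (0 : ℝ) ≤ ((p : ℕ) : ℝ) := Nat.cast_nonneg _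
          have h9 : 0 ≤ ((p : ℕ) : ℝ) * (δ / 2 * (1 - δ)) :=
            mul_nonneg hp0 (mul_nonneg (by linarith) (by linarith))
          nlinarith
    _ = (((rowP 0 (2 * x)).filter fun p : Nat.Primes => (p : ℕ) ≤ ⌊(1 + δ) * x⌋₊).card : ℝ) := by
        rw [← Finset.sum_filter, Finset.sum_const, nsmul_eq_mul, mul_one]
    _ ≤ ((rowP 0 ⌊(1 + δ) * x⌋₊).card : ℝ) := by
        have : ((rowP 0 (2 * x)).filter fun p : Nat.Primes => (p : ℕ) ≤ ⌊(1 + δ) * x⌋₊) ⊆
            rowP 0 ⌊(1 + δ) * x⌋₊ := by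
          intro p hp
          rw [Finset.mem_filter, mem_rowP] at hp
          rw [mem_rowP]
          exact ⟨hp.1.1, by omega⟩
        exact_mod_cast Finset.card_le_card this
    _ ≤ (1 + δ + ε / 2) * x / Real.log x := by
        rw [card_rowP_zero]
        exact hx
    _ ≤ (1 + ε) * x / Real.log x := by
        apply div_le_div_of_nonneg_right _ hlog.le
        apply mul_le_mul_of_nonneg_right (by linarith) (by linarith)

end

end Pool.Agent.LibMaier
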