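import Pool.Agent.LibMaier.LogDeriv

/-!
The classical zero-free region for all Dirichlet L-functions modulo `q`, with the possible
exception of one real zero of one real character.
-/

namespace Pool.Agent.LibMaier

open Filter Topology Complex DirichletCharacter
open scoped ComplexConjugate

variable {q : ℕ} [NeZero q]

/-- the logarithmic size -/
noncomputable def LL (q : ℕ) (T : ℝ) : ℝ := Real.log (q * (T + 3))

/-- `a = 1/1040` -/
noncomputable def aa : ℝ := 1 / 1040

/-- `κ = a / 15` -/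
noncomputable def kk : ℝ := 1 / 15600

lemma large_aux : ∃ L₀ : ℝ, 1 ≤ L₀ ∧ ∀ x : ℝ, L₀ ≤ x →
    8 * Real.log (24 * Real.exp x / (aa / x)) ≤ 32 * x ∧
    8 * Real.log (12 * (Real.exp x) ^ 2 / (aa / x) ^ 2) ≤ 32 * x ∧ 8 * aa ≤ x := by
  have ha : 0 < aa := by unfold aa; norm_num
  have h1 : Tendsto (fun x : ℝ => Real.log x / x) atTop (𝓝 0) := by
    have := Real.isLittleO_log_id_atTop.tendsto_div_nhds_zero
    simpa using this
  obtain ⟨L₀, hL⟩ := eventually_atTop.1 ((h1.eventually_lt_const (show (0 : ℝ) < 1 / 4 by norm_num)).and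
    ((eventually_ge_atTop (Real.log 24 + Real.log (1 / aa) * 2)).and (eventually_ge_atTop (1 : ℝ))))
  have hlogpos : 0 < Real.log (1 / aa) := Real.log_pos (by unfold aa; norm_num)
  refine ⟨max L₀ 1, le_max_right _ _, fun x hx => ?_⟩
  obtain ⟨h2, h3, h4⟩ := hL x ((le_max_left _ _).trans hx)
  have hx0 : 0 < x := by linarith
  rw [div_lt_iff₀ hx0] at h2
  refine ⟨?_, ?_, ?_⟩
  · have h5 : 24 * Real.exp x / (aa / x) = 24 * Real.exp x * x * (1 / aa) := by
      field_simp
    rw [h5, Real.log_mul (by positivity) (by positivity), Real.log_mul (by positivity) hx0.ne',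
      Real.log_mul (by norm_num) (Real.exp_pos x).ne', Real.log_exp]
    linarith
  · have h5 : 12 * (Real.exp x) ^ 2 / (aa / x) ^ 2 = 12 * (Real.exp x) ^ 2 * x ^ 2 * (1 / aa) ^ 2 := by
      field_simp
    rw [h5, Real.log_mul (by positivity) (by positivity), Real.log_mul (by positivity) (by positivity),
      Real.log_mul (by norm_num) (by positivity), Real.log_pow, Real.log_pow, Real.log_pow,
      Real.log_exp]
    have h6 : Real.log 12 ≤ Real.log 24 := Real.log_le_log (by norm_num) (by norm_num)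
    push_cast
    linarith
  · unfold aa
    linarith

/-- a point to the right of `1` -/
lemma ND_bounds : ∃ L₀ : ℝ, 1 ≤ L₀ ∧ 8 * aa ≤ L₀ ∧ ∀ (q : ℕ) [NeZero q] (T : ℝ), 0 ≤ T → L₀ ≤ LL q T →
    (∀ (χ : DirichletCharacter ℂ q), χ ≠ 1 → ∀ t : ℝ, |t| ≤ T → ∀ S : Finset ℂ,
      (∀ ρ ∈ S, LFunction χ ρ = 0 ∧ ‖ρ - (((1 + aa / LL q T : ℝ) : ℂ) + t * I)‖ ≤ 1 / 4) →
      (ND χ (((1 + aa / LL q T : ℝ) : ℂ) + t * I)).re ≤ 32 * LL q T -
        ∑ ρ ∈ S, (1 + aa / LL q T - ρ.re) *
          (1 / ‖ρ - (((1 + aa / LL q T : ℝ) : ℂ) + t * I)‖ ^ 2 - 4)) ∧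
    (∀ t : ℝ, |t| ≤ T →
      (ND (1 : DirichletCharacter ℂ q) (((1 + aa / LL q T : ℝ) : ℂ) + t * I)).re ≤
        (1 / (((aa / LL q T : ℝ) : ℂ) + t * I)).re + 32 * LL q T) := by
  obtain ⟨L₀, hL1, hL⟩ := large_aux
  have ha : 0 < aa := by unfold aa; norm_num
  refine ⟨L₀, hL1, (hL L₀ le_rfl).2.2, ?_⟩
  intro q _ T hT hLq
  have hq1 : (1 : ℝ) ≤ q := by exact_mod_cast Nat.one_le_iff_ne_zero.2 (NeZero.ne q)
  set L := LL q T with hLdef
  have hL0 : 0 < L := by linarith
  have haL : 0 < aa / L := by positivity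
  have haL1 : aa / L ≤ 1 := by
    rw [div_le_one hL0]
    have : aa ≤ 1 := by unfold aa; norm_num
    linarith
  have hexp : Real.exp L = q * (T + 3) := by
    rw [hLdef, LL, Real.exp_log (by positivity)]
  obtain ⟨hb1, hb2, _⟩ := hL L hLq
  constructor
  · intro χ hχ t ht S hS
    set s : ℂ := ((1 + aa / L : ℝ) : ℂ) + t * I with hs
    have hsre : s.re = 1 + aa / L := by simp [hs]
    have hsim : s.im = t := by simp [hs]
    have h1 := ND_re_le hχ (s := s) (by rw [hsre]; linarith) (by rw [hsre]; linarith) (T := T)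
      (by rw [hsim]; exact ht) S hS
    rw [hsre] at h1
    refine h1.trans ?_
    have h2 : 8 * Real.log (24 * (q * (T + 3)) / (1 + aa / L - 1)) ≤ 32 * L := by
      rw [← hexp, add_sub_cancel_left]
      exact hb1
    linarith
  · intro t ht
    set s : ℂ := ((1 + aa / L : ℝ) : ℂ) + t * I with hs
    have hsre : s.re = 1 + aa / L := by simp [hs]
    have hsim : s.im = t := by simp [hs]
    have h1 := ND_one_re_le (q := q) (s := s) (by rw [hsre]; linarith) (by rw [hsre]; linarith)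
      (T := T) (by rw [hsim]; exact ht)
    have h3 : s - 1 = ((aa / L : ℝ) : ℂ) + t * I := by
      rw [hs]; push_cast; ring
    rw [h3, hsre] at h1
    refine h1.trans ?_
    have h2 : 8 * Real.log (12 * (q * (T + 3) ^ 2) / (1 + aa / L - 1) ^ 2) ≤ 32 * L := by
      refine le_trans ?_ hb2
      rw [add_sub_cancel_left, hexp]
      apply mul_le_mul_of_nonneg_left _ (by norm_num)
      apply Real.log_le_log (by positivity)
      apply div_le_div_of_nonneg_right _ (by positivity)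
      have : (q : ℝ) * (T + 3) ^ 2 ≤ (q * (T + 3)) ^ 2 := by
        rw [mul_pow]
        apply mul_le_mul_of_nonneg_right _ (by positivity)
        nlinarith
      linarith
    linarith

/-- conjugation symmetry for real characters -/
lemma LFunction_conj {χ : DirichletCharacter ℂ q} (hχ : χ ≠ 1) (hχ2 : χ ^ 2 = 1) {s : ℂ}
    (hs : 0 < s.re) : LFunction χ (conj s) = conj (LFunction χ s) := by
  have key : ∀ w : ℂ, 0 < w.re → Tendsto (fun N : ℕ => LT χ N w) atTop (𝓝 (LFunction χ w)) := by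
    intro w hw
    rw [tendsto_iff_norm_sub_tendsto_zero]
    have h1 : Tendsto (fun N : ℕ => (q : ℝ) * (2 + ‖w‖ / w.re) * (N : ℝ) ^ (-w.re)) atTop
        (𝓝 ((q : ℝ) * (2 + ‖w‖ / w.re) * 0)) :=
      ((tendsto_rpow_neg_atTop hw).comp tendsto_natCast_atTop_atTop).const_mul _
    rw [mul_zero] at h1
    refine squeeze_zero' (Eventually.of_forall fun _ => norm_nonneg _) ?_ h1
    filter_upwards [eventually_ge_atTop 1] with N hN
    rw [norm_sub_rev]
    exact LT_approx hχ hw hN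
  have hval : ∀ n : ℕ, conj (χ (n : ZMod q)) = χ (n : ZMod q) := by
    intro n
    by_cases hu : IsUnit (n : ZMod q)
    · rcases real_char_val hχ2 hu with h | h <;> rw [h] <;> simp
    · rw [χ.map_nonunit hu]; simp
  have hconj : ∀ N : ℕ, LT χ N (conj s) = conj (LT χ N s) := by
    intro N
    unfold LT
    rw [map_sum]
    apply Finset.sum_congr rfl
    intro n hn
    rw [Finset.mem_Icc] at hn
    have h3 : (n : ℂ) ^ (-(conj s)) = conj ((n : ℂ) ^ (-s)) := by
      rw [← map_neg, Complex.cpow_conj _ _ (by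
        rw [Complex.natCast_arg]
        exact Real.pi_pos.ne), Complex.conj_natCast]
    rw [map_mul, hval, h3]
  have h1 := key (conj s) (by simpa using hs)
  have h2 : Tendsto (fun N : ℕ => LT χ N (conj s)) atTop (𝓝 (conj (LFunction χ s))) := by
    simp_rw [hconj]
    exact (Complex.continuous_conj.tendsto _).comp (key s hs)
  exact tendsto_nhds_unique h1 h2

/-- **Zero-free region** away from real zeros of real characters. -/
theorem zero_free : ∃ L₀ : ℝ, 1 ≤ L₀ ∧ ∀ (q : ℕ) [NeZero q] (T : ℝ), 0 ≤ T → L₀ ≤ LL q T →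
    ∀ (χ : DirichletCharacter ℂ q), χ ≠ 1 → ∀ ρ : ℂ, LFunction χ ρ = 0 → |ρ.im| ≤ T / 2 →
      (ρ.im ≠ 0 ∨ χ ^ 2 ≠ 1) → ρ.re ≤ 1 - kk / LL q T := by
  obtain ⟨L₀, hL1, hL8, hL⟩ := ND_bounds
  have ha : 0 < aa := by unfold aa; norm_num
  refine ⟨L₀, hL1, ?_⟩
  intro q _ T hT hLq χ hχ ρ hρ hγT hcase
  obtain ⟨hB, hB1⟩ := hL q T hT hLq
  set L := LL q T with hLdef
  have hL0 : 0 < L := by linarith
  have haL : 0 < aa / L := by positivity
  have haL8 : aa / L ≤ 1 / 8 := by
    rw [div_le_iff₀ hL0]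
    linarith
  by_contra hcon
  push Not at hcon
  set β := ρ.re with hβ
  set γ := ρ.im with hγ
  have hkk : kk = aa / 15 := by unfold kk aa; norm_num
  have hβ1 : β < 1 := by
    by_contra h
    push Not at h
    exact LFunction_ne_zero_of_one_le_re (s := ρ) χ (Or.inl hχ) h hρ
  -- d = σ - β
  set d : ℝ := 1 + aa / L - β with hd
  have hd0 : aa / L < d := by rw [hd]; linarith
  have hd0' : 0 < d := haL.trans hd0
  have hd1 : d < 16 / 15 * (aa / L) := by
    have hcon' := hcon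
    rw [hkk] at hcon'
    have : aa / 15 / L = 1 / 15 * (aa / L) := by ring
    rw [hd]
    linarith
  have hd4 : d ≤ 1 / 4 := by linarith
  have hγT' : |γ| ≤ T := hγT.trans (by linarith [abs_nonneg γ])
  have h2γT : |2 * γ| ≤ T := by rw [abs_mul]; norm_num; linarith
  have hρeq : ρ = (β : ℂ) + γ * I := by rw [hβ, hγ]; exact (Complex.re_add_im ρ).symm
  -- single zero bound at height γ
  have hdist : ‖ρ - (((1 + aa / L : ℝ) : ℂ) + γ * I)‖ = d := by
    have h1 : ρ - (((1 + aa / L : ℝ) : ℂ) + γ * I) = ((-d : ℝ) : ℂ) := by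
      rw [hρeq, hd]
      push_cast
      ring
    rw [h1, Complex.norm_real, norm_neg, Real.norm_of_nonneg hd0'.le]
  have hND : (ND χ (((1 + aa / L : ℝ) : ℂ) + γ * I)).re ≤ 32 * L - (1 / d - 1) := by
    have h1 := hB χ hχ γ hγT' {ρ} (by
      intro u hu
      rw [Finset.mem_singleton] at hu
      rw [hu]
      exact ⟨hρ, by rw [hdist]; exact hd4⟩)
    rw [Finset.sum_singleton, hdist] at h1
    have h2 : (1 + aa / L - ρ.re) * (1 / d ^ 2 - 4) = 1 / d - 4 * d := by
      have : 1 + aa / L - ρ.re = d := rfl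
      rw [this]
      field_simp
    rw [h2] at h1
    linarith
  have h341 := three_four_one χ (σ := 1 + aa / L) (by linarith) γ
  have hND1 : (ND (1 : DirichletCharacter ℂ q) ((1 + aa / L : ℝ) : ℂ)).re ≤ L / aa + 32 * L := by
    have h1 := hB1 0 (by simpa using hT)
    have h2 : (((1 + aa / L : ℝ) : ℂ) + ((0 : ℝ) : ℂ) * I) = ((1 + aa / L : ℝ) : ℂ) := by simp
    have h3 : (1 / (((aa / L : ℝ) : ℂ) + ((0 : ℝ) : ℂ) * I)).re = L / aa := by
      have : (1 / (((aa / L : ℝ) : ℂ) + ((0 : ℝ) : ℂ) * I)) = ((L / aa : ℝ) : ℂ) := by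
        push_cast
        simp
      rw [this, Complex.ofReal_re]
    rw [h2, h3] at h1
    exact h1
  have hdinv : 15 / 16 * (L / aa) < 1 / d := by
    rw [lt_div_iff₀ hd0']
    have h1 : 15 / 16 * (L / aa) * d < 15 / 16 * (L / aa) * (16 / 15 * (aa / L)) :=
      mul_lt_mul_of_pos_left hd1 (by positivity)
    have h2 : 15 / 16 * (L / aa) * (16 / 15 * (aa / L)) = 1 := by field_simp
    linarith
  have hLaa : L / aa = 1040 * L := by unfold aa; ring
  by_cases hχ2 : χ ^ 2 = 1
  · -- real character, γ ≠ 0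
    have hγ0 : γ ≠ 0 := by
      rcases hcase with h | h
      · exact h
      · exact absurd hχ2 h
    rcases le_or_gt (aa / (2 * L)) |γ| with hbig | hsmall
    · -- |γ| not small
      rw [hχ2] at h341
      have h1 := hB1 (2 * γ) h2γT
      have h3 : (1 / (((aa / L : ℝ) : ℂ) + ((2 * γ : ℝ) : ℂ) * I)).re ≤ L / (2 * aa) := by
        rw [one_div, Complex.inv_re]
        have hre : (((aa / L : ℝ) : ℂ) + ((2 * γ : ℝ) : ℂ) * I).re = aa / L := by simp
        have hns : Complex.normSq (((aa / L : ℝ) : ℂ) + ((2 * γ : ℝ) : ℂ) * I) =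
            (aa / L) ^ 2 + (2 * γ) ^ 2 := by
          rw [Complex.normSq_apply]
          simp
          ring
        rw [hre, hns]
        have h4 : (aa / L) ^ 2 ≤ (2 * γ) ^ 2 := by
          rw [← sq_abs (2 * γ), abs_mul]
          apply pow_le_pow_left₀ haL.le
          have : aa / (2 * L) = aa / L / 2 := by field_simp
          rw [this] at hbig
          norm_num
          linarith
        rw [div_le_iff₀ (by positivity)]
        have h5 : L / (2 * aa) * (2 * (aa / L) ^ 2) = aa / L := by field_simp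
        have h6 : L / (2 * aa) * (2 * (aa / L) ^ 2) ≤ L / (2 * aa) * ((aa / L) ^ 2 + (2 * γ) ^ 2) := by
          apply mul_le_mul_of_nonneg_left _ (by positivity)
          linarith
        linarith
      have h4 : L / (2 * aa) = 520 * L := by unfold aa; ring
      rw [h4] at h3
      rw [hLaa] at hND1 hdinv
      linarith
    · -- |γ| small: use the conjugate zero as well
      have hconj : LFunction χ (conj ρ) = 0 := by
        rw [LFunction_conj hχ hχ2 (by
          have : (1 : ℝ) / 4 < β := by linarith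
          show 0 < ρ.re
          linarith), hρ, map_zero]
      have hne : ρ ≠ conj ρ := by
        intro h
        have := congrArg Complex.im h
        rw [Complex.conj_im] at this
        apply hγ0
        show ρ.im = 0
        linarith
      have hγsq : γ ^ 2 ≤ d ^ 2 / 4 := by
        have h1 : |γ| ≤ d / 2 := by
          have : aa / (2 * L) = aa / L / 2 := by field_simp
          rw [this] at hsmall
          linarith
        have h2 : |γ| ^ 2 ≤ (d / 2) ^ 2 := pow_le_pow_left₀ (abs_nonneg _) h1 2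
        rw [sq_abs] at h2
        linarith
      have hdist2 : ∀ u : ℂ, u.re = β → u.im ^ 2 = γ ^ 2 →
          ‖u - (((1 + aa / L : ℝ) : ℂ) + ((0 : ℝ) : ℂ) * I)‖ ^ 2 = d ^ 2 + γ ^ 2 := by
        intro u hu1 hu2
        rw [Complex.sq_norm, Complex.normSq_apply]
        have h1 : (u - (((1 + aa / L : ℝ) : ℂ) + ((0 : ℝ) : ℂ) * I)).re = -d := by
          simp [hu1, hd]
        have h2 : (u - (((1 + aa / L : ℝ) : ℂ) + ((0 : ℝ) : ℂ) * I)).im = u.im := by simp
        rw [h1, h2]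
        linarith
      have hnorm : ∀ u : ℂ, u.re = β → u.im ^ 2 = γ ^ 2 →
          ‖u - (((1 + aa / L : ℝ) : ℂ) + ((0 : ℝ) : ℂ) * I)‖ ≤ 1 / 4 := by
        intro u hu1 hu2
        have h1 := hdist2 u hu1 hu2
        have h2 : d ≤ 2 / 15 := by linarith
        by_contra hc
        push Not at hc
        have h3 : (1 / 4 : ℝ) ^ 2 < ‖u - (((1 + aa / L : ℝ) : ℂ) + ((0 : ℝ) : ℂ) * I)‖ ^ 2 :=
          pow_lt_pow_left₀ hc (by norm_num) two_ne_zero
        rw [h1] at h3
        nlinarith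
      classical
      have h1 := hB χ hχ 0 (by simpa using hT) {ρ, conj ρ} (by
        intro u hu
        rw [Finset.mem_insert, Finset.mem_singleton] at hu
        rcases hu with h | h
        · rw [h]; exact ⟨hρ, hnorm ρ rfl rfl⟩
        · rw [h]
          refine ⟨hconj, hnorm (conj ρ) (by simp [hβ]) ?_⟩
          rw [Complex.conj_im, neg_sq])
      rw [Finset.sum_pair hne, hdist2 ρ rfl rfl, hdist2 (conj ρ) (by simp [hβ]) (by
        rw [Complex.conj_im, neg_sq])] at h1
      have hre : (conj ρ).re = ρ.re := Complex.conj_re ρ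
      rw [hre] at h1
      have hdd : 1 + aa / L - ρ.re = d := rfl
      rw [hdd] at h1
      have h2 : 4 / 5 * (1 / d) - 1 ≤ d * (1 / (d ^ 2 + γ ^ 2) - 4) := by
        have h3 : 4 / 5 * (1 / d ^ 2) ≤ 1 / (d ^ 2 + γ ^ 2) := by
          rw [mul_one_div, div_le_div_iff₀ (by positivity) (by positivity)]
          linarith
        calc 4 / 5 * (1 / d) - 1 ≤ 4 / 5 * (1 / d) - 4 * d := by linarith
          _ = d * (4 / 5 * (1 / d ^ 2) - 4) := by field_simp
          _ ≤ d * (1 / (d ^ 2 + γ ^ 2) - 4) := by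
              apply mul_le_mul_of_nonneg_left _ hd0'.le
              linarith
      have h3 : (((1 + aa / L : ℝ) : ℂ) + ((0 : ℝ) : ℂ) * I) = ((1 + aa / L : ℝ) : ℂ) := by simp
      rw [h3] at h1
      have h4 := one_add_char_nonneg hχ2 (σ := 1 + aa / L) (by linarith)
      rw [hLaa] at hND1 hdinv
      linarith
  · -- complex character
    have h1 := hB (χ ^ 2) hχ2 (2 * γ) h2γT ∅ (by simp)
    rw [Finset.sum_empty, sub_zero] at h1
    rw [hLaa] at hND1 hdinv
    linarith

/-- **Landau**: at most one exceptional pair (real character, real zero). -/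
theorem exceptional_unique : ∃ L₀ : ℝ, 1 ≤ L₀ ∧ ∀ (q : ℕ) [NeZero q] (T : ℝ), 0 ≤ T → L₀ ≤ LL q T →
    ∀ (χ₁ χ₂ : DirichletCharacter ℂ q), χ₁ ≠ 1 → χ₂ ≠ 1 → χ₁ ^ 2 = 1 → χ₂ ^ 2 = 1 →
      ∀ β₁ β₂ : ℝ, LFunction χ₁ β₁ = 0 → LFunction χ₂ β₂ = 0 →
      1 - kk / LL q T < β₁ → 1 - kk / LL q T < β₂ → χ₁ = χ₂ ∧ β₁ = β₂ := by
  obtain ⟨L₀, hL1, hL8, hL⟩ := ND_bounds
  have ha : 0 < aa := by unfold aa; norm_num
  refine ⟨L₀, hL1, ?_⟩
  intro q _ T hT hLq χ₁ χ₂ h1 h2 h1r h2r β₁ β₂ hβ₁ hβ₂ hb₁ hb₂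
  obtain ⟨hB, hB1⟩ := hL q T hT hLq
  set L := LL q T with hLdef
  have hL0 : 0 < L := by linarith
  have haL : 0 < aa / L := by positivity
  have haL8 : aa / L ≤ 1 / 8 := by
    rw [div_le_iff₀ hL0]
    linarith
  have hkk : kk = aa / 15 := by unfold kk aa; norm_num
  have hLaa : L / aa = 1040 * L := by unfold aa; ring
  have e0 : (((1 + aa / L : ℝ) : ℂ) + ((0 : ℝ) : ℂ) * I) = ((1 + aa / L : ℝ) : ℂ) := by simp
  have hND1 : (ND (1 : DirichletCharacter ℂ q) ((1 + aa / L : ℝ) : ℂ)).re ≤ L / aa + 32 * L := by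
    have h1 := hB1 0 (by simpa using hT)
    have h3 : (1 / (((aa / L : ℝ) : ℂ) + ((0 : ℝ) : ℂ) * I)).re = L / aa := by
      have : (1 / (((aa / L : ℝ) : ℂ) + ((0 : ℝ) : ℂ) * I)) = ((L / aa : ℝ) : ℂ) := by
        push_cast
        simp
      rw [this, Complex.ofReal_re]
    rw [e0, h3] at h1
    exact h1
  -- facts for one real zero
  have hfact : ∀ β : ℝ, 1 - kk / L < β → ∀ χ : DirichletCharacter ℂ q, χ ≠ 1 →
      LFunction χ β = 0 →
      ‖(β : ℂ) - (((1 + aa / L : ℝ) : ℂ) + ((0 : ℝ) : ℂ) * I)‖ ≤ 1 / 4 ∧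
      15 / 16 * (L / aa) - 1 ≤ (1 + aa / L - (β : ℂ).re) *
        (1 / ‖(β : ℂ) - (((1 + aa / L : ℝ) : ℂ) + ((0 : ℝ) : ℂ) * I)‖ ^ 2 - 4) := by
    intro β hb χ hχ hβ
    have hβ1 : β < 1 := by
      by_contra h
      push Not at h
      exact LFunction_ne_zero_of_one_le_re (s := (β : ℂ)) χ (Or.inl hχ) (by simpa using h) hβ
    set d : ℝ := 1 + aa / L - β with hd
    have hd0' : 0 < d := by rw [hd]; linarith
    have hd1 : d < 16 / 15 * (aa / L) := by
      rw [hkk] at hb
      have : aa / 15 / L = 1 / 15 * (aa / L) := by ring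
      rw [hd]
      linarith
    have hdist : ‖(β : ℂ) - (((1 + aa / L : ℝ) : ℂ) + ((0 : ℝ) : ℂ) * I)‖ = d := by
      have h1 : (β : ℂ) - (((1 + aa / L : ℝ) : ℂ) + ((0 : ℝ) : ℂ) * I) = ((-d : ℝ) : ℂ) := by
        rw [hd]
        push_cast
        ring
      rw [h1, Complex.norm_real, norm_neg, Real.norm_of_nonneg hd0'.le]
    have hdinv : 15 / 16 * (L / aa) < 1 / d := by
      rw [lt_div_iff₀ hd0']
      have h1 : 15 / 16 * (L / aa) * d < 15 / 16 * (L / aa) * (16 / 15 * (aa / L)) :=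
        mul_lt_mul_of_pos_left hd1 (by positivity)
      have h2 : 15 / 16 * (L / aa) * (16 / 15 * (aa / L)) = 1 := by field_simp
      linarith
    rw [hdist, Complex.ofReal_re]
    have hdd : 1 + aa / L - β = d := rfl
    rw [hdd]
    refine ⟨by linarith, ?_⟩
    have h2 : d * (1 / d ^ 2 - 4) = 1 / d - 4 * d := by field_simp
    rw [h2]
    linarith
  obtain ⟨hn1, hf1⟩ := hfact β₁ hb₁ χ₁ h1 hβ₁
  obtain ⟨hn2, hf2⟩ := hfact β₂ hb₂ χ₂ h2 hβ₂
  by_contra hcon
  by_cases hχ : χ₁ = χ₂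
  · -- same character, two zeros
    have hββ : (β₁ : ℂ) ≠ (β₂ : ℂ) := by
      intro h
      exact hcon ⟨hχ, by exact_mod_cast h⟩
    rw [← hχ] at hβ₂
    have h3 := hB χ₁ h1 0 (by simpa using hT) {(β₁ : ℂ), (β₂ : ℂ)} (by
      intro u hu
      rw [Finset.mem_insert, Finset.mem_singleton] at hu
      rcases hu with h | h
      · rw [h]; exact ⟨hβ₁, hn1⟩
      · rw [h]; exact ⟨hβ₂, hn2⟩)
    rw [Finset.sum_pair hββ] at h3
    have h4 := one_add_char_nonneg h1r (σ := 1 + aa / L) (by linarith)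
    rw [← e0] at h4 hND1
    rw [hLaa] at hND1 hf1 hf2
    linarith
  · -- different characters
    have h3 := hB χ₁ h1 0 (by simpa using hT) {(β₁ : ℂ)} (by
      intro u hu
      rw [Finset.mem_singleton] at hu
      rw [hu]; exact ⟨hβ₁, hn1⟩)
    have h4 := hB χ₂ h2 0 (by simpa using hT) {(β₂ : ℂ)} (by
      intro u hu
      rw [Finset.mem_singleton] at hu
      rw [hu]; exact ⟨hβ₂, hn2⟩)
    rw [Finset.sum_singleton] at h3 h4
    have hprod : χ₁ * χ₂ ≠ 1 := by
      intro h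
      apply hχ
      have : χ₁ * χ₂ = χ₂ * χ₂ := by rw [h, ← sq, h2r]
      exact mul_right_cancel this
    have h5 := hB (χ₁ * χ₂) hprod 0 (by simpa using hT) ∅ (by simp)
    rw [Finset.sum_empty, sub_zero] at h5
    have h6 := one_add_chars_nonneg h1r h2r (σ := 1 + aa / L) (by linarith)
    rw [← e0] at h6 hND1
    rw [hLaa] at hND1 hf1 hf2
    linarith

end Pool.Agent.LibMaier
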